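import Mathlib
import Pool.Agent.H593.U.Parseval

/-!
# Generic sums over the cone, and their energies
-/

open MeasureTheory Set Filter Topology
open Pool.Agent.H383.Gauss

namespace Pool.Agent.H593.U

variable {ι : Type}

/-- generic exponential sum -/
noncomputable def G (I : Finset ι) (ξ : ι → ℤ × ℤ) (lam c : ι → ℝ) (a : ℝ × ℝ) (t : ℝ) : ℂ :=
  ∑ i ∈ I, (c i : ℂ) * ex (dp (ξ i) a + t * lam i)

/-- pairs with equal frequencies -/
def PG (I : Finset ι) (ξ : ι → ℤ × ℤ) : Finset (ι × ι) := (I ×ˢ I).filter (fun x => ξ x.1 = ξ x.2)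

lemma mem_PG {I : Finset ι} {ξ : ι → ℤ × ℤ} {x : ι × ι} : x ∈ PG I ξ ↔ (x.1 ∈ I ∧ x.2 ∈ I) ∧ ξ x.1 = ξ x.2 := by
  unfold PG; rw [Finset.mem_filter, Finset.mem_product]

lemma PG_mono {I J : Finset ι} (ξ : ι → ℤ × ℤ) (h : I ⊆ J) : PG I ξ ⊆ PG J ξ := by
  intro x hx
  rw [mem_PG] at hx ⊢
  exact ⟨⟨h hx.1.1, h hx.1.2⟩, hx.2⟩

/-- the mean square over the centre -/
noncomputable def N2 (I : Finset ι) (ξ : ι → ℤ × ℤ) (lam c : ι → ℝ) (t : ℝ) : ℝ :=
  ∑ x ∈ PG I ξ, (c x.1 * c x.2) * Real.cos (2 * Real.pi * (t * (lam x.1 - lam x.2)))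

/-- the energy -/
noncomputable def EG (I : Finset ι) (ξ : ι → ℤ × ℤ) (lam : ι → ℝ) (T : ℝ) : ℝ :=
  ∑ x ∈ PG I ξ, Real.exp (-(Real.pi * T ^ 2 * (lam x.1 - lam x.2) ^ 2))

lemma ex_re (x : ℝ) : (ex x).re = Real.cos (2 * Real.pi * x) := by
  unfold ex; rw [Complex.exp_ofReal_mul_I_re]

theorem int_G_sq (I : Finset ι) (ξ : ι → ℤ × ℤ) (lam c : ι → ℝ) (t : ℝ) :
    ∫ a in Q, ‖G I ξ lam c a t‖ ^ 2 = N2 I ξ lam c t := by
  have h : ((∫ a in Q, ‖G I ξ lam c a t‖ ^ 2 : ℝ) : ℂ) =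
      ∑ x ∈ PG I ξ, ((c x.1 * c x.2 : ℝ) : ℂ) * ex (t * (lam x.1 - lam x.2)) := by
    rw [← integral_complex_ofReal]
    have e : ∀ a : ℝ × ℝ, ((‖G I ξ lam c a t‖ ^ 2 : ℝ) : ℂ) =
        ∑ i ∈ I, ∑ j ∈ I, (((c i * c j : ℝ) : ℂ) * ex (t * (lam i - lam j))) * ex (dp (ξ i - ξ j) a) := by
      intro a
      have : ((‖G I ξ lam c a t‖ ^ 2 : ℝ) : ℂ) = G I ξ lam c a t * (starRingEnd ℂ) (G I ξ lam c a t) := by
        rw [Complex.mul_conj, Complex.normSq_eq_norm_sq]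
      rw [this]
      unfold G
      rw [map_sum, Finset.sum_mul_sum]
      apply Finset.sum_congr rfl
      intro i _
      apply Finset.sum_congr rfl
      intro j _
      have h1 : dp (ξ i - ξ j) a = dp (ξ i) a + (-dp (ξ j) a) := by
        simp only [dp, Prod.fst_sub, Prod.snd_sub]; push_cast; ring
      have h2 : t * (lam i - lam j) = t * lam i + -(t * lam j) := by ring
      rw [h1, h2, ex_add (dp (ξ i) a) (t * lam i), ex_add (dp (ξ j) a) (t * lam j),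
        ex_add (t * lam i) (-(t * lam j)), ex_add (dp (ξ i) a) (-dp (ξ j) a), ex_neg, ex_neg, map_mul, map_mul,
        Complex.conj_ofReal]
      push_cast
      ring
    simp_rw [e]
    rw [integral_finsetSum]
    swap
    · intro i _
      apply integrable_finsetSum
      intro j _
      exact (integrable_ex_Q _).const_mul _
    have h3 : ∀ i ∈ I, ∫ a in Q, ∑ j ∈ I, (((c i * c j : ℝ) : ℂ) * ex (t * (lam i - lam j))) * ex (dp (ξ i - ξ j) a) =
        ∑ j ∈ I, if ξ i = ξ j then (((c i * c j : ℝ) : ℂ) * ex (t * (lam i - lam j))) else 0 := by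
      intro i _
      rw [integral_finsetSum]
      · apply Finset.sum_congr rfl
        intro j _
        rw [integral_const_mul, int_ex_Q]
        by_cases h4 : ξ i = ξ j
        · rw [if_pos h4, if_pos (sub_eq_zero.mpr h4), mul_one]
        · rw [if_neg h4, if_neg (fun h5 => h4 (sub_eq_zero.mp h5)), mul_zero]
      · intro j _
        exact (integrable_ex_Q _).const_mul _
    rw [Finset.sum_congr rfl h3, ← Finset.sum_product', PG, Finset.sum_filter]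
  have h4 := congrArg Complex.re h
  rw [Complex.ofReal_re] at h4
  rw [h4, Complex.re_sum]
  unfold N2
  apply Finset.sum_congr rfl
  intro x _
  rw [Complex.re_ofReal_mul, ex_re]

lemma N2_nonneg (I : Finset ι) (ξ : ι → ℤ × ℤ) (lam c : ι → ℝ) (t : ℝ) : 0 ≤ N2 I ξ lam c t := by
  rw [← int_G_sq]
  exact integral_nonneg (fun a => by positivity)

lemma continuous_N2 (I : Finset ι) (ξ : ι → ℤ × ℤ) (lam c : ι → ℝ) : Continuous (N2 I ξ lam c) := by
  unfold N2; fun_prop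

lemma N2_even (I : Finset ι) (ξ : ι → ℤ × ℤ) (lam c : ι → ℝ) (t : ℝ) : N2 I ξ lam c (-t) = N2 I ξ lam c t := by
  unfold N2
  apply Finset.sum_congr rfl
  intro x _
  congr 1
  rw [← Real.cos_neg]
  congr 1; ring

/-- Gaussian integral of a cosine -/
lemma int_gauss_cos {T : ℝ} (hT : 0 < T) (X l : ℝ) :
    ∫ t : ℝ, Real.exp (-(Real.pi * (t - X) ^ 2 / T ^ 2)) * Real.cos (2 * Real.pi * (t * l)) =
      T * Real.exp (-(Real.pi * T ^ 2 * l ^ 2)) * Real.cos (2 * Real.pi * (X * l)) := by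
  have h := int_gauss_ex hT X l
  have h1 := congrArg Complex.re h
  have h2 : (∫ t : ℝ, (Real.exp (-(Real.pi * (t - X) ^ 2 / T ^ 2)) : ℂ) * ex (t * l)).re =
      ∫ t : ℝ, Real.exp (-(Real.pi * (t - X) ^ 2 / T ^ 2)) * Real.cos (2 * Real.pi * (t * l)) := by
    have := integral_re (int_gauss_ex_integrable hT X l)
    simp only [RCLike.re_to_complex] at this
    rw [← this]
    congr 1
    ext t
    rw [Complex.re_ofReal_mul, ex_re]
  rw [h2] at h1
  rw [h1, mul_assoc, Complex.re_ofReal_mul, Complex.re_ofReal_mul, ex_re]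
  ring

lemma gauss_cos_integrable {T : ℝ} (hT : 0 < T) (X l : ℝ) :
    Integrable (fun t : ℝ => Real.exp (-(Real.pi * (t - X) ^ 2 / T ^ 2)) * Real.cos (2 * Real.pi * (t * l))) := by
  have := (int_gauss_ex_integrable hT X l).re
  refine this.congr (Eventually.of_forall fun t => ?_)
  simp only [RCLike.re_to_complex]
  rw [Complex.re_ofReal_mul, ex_re]

lemma gauss_N2_integrable {T : ℝ} (hT : 0 < T) (X : ℝ) (I : Finset ι) (ξ : ι → ℤ × ℤ) (lam c : ι → ℝ) :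
    Integrable (fun t : ℝ => Real.exp (-(Real.pi * (t - X) ^ 2 / T ^ 2)) * N2 I ξ lam c t) := by
  have e : ∀ t : ℝ, Real.exp (-(Real.pi * (t - X) ^ 2 / T ^ 2)) * N2 I ξ lam c t =
      ∑ x ∈ PG I ξ, (c x.1 * c x.2) * (Real.exp (-(Real.pi * (t - X) ^ 2 / T ^ 2)) *
        Real.cos (2 * Real.pi * (t * (lam x.1 - lam x.2)))) := by
    intro t
    unfold N2
    rw [Finset.mul_sum]
    apply Finset.sum_congr rfl
    intro x _
    ring
  simp_rw [e]
  apply integrable_finsetSum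
  intro x _
  exact (gauss_cos_integrable hT X _).const_mul _

lemma int_gauss_N2 {T : ℝ} (hT : 0 < T) (X : ℝ) (I : Finset ι) (ξ : ι → ℤ × ℤ) (lam c : ι → ℝ) :
    ∫ t : ℝ, Real.exp (-(Real.pi * (t - X) ^ 2 / T ^ 2)) * N2 I ξ lam c t =
      ∑ x ∈ PG I ξ, (c x.1 * c x.2) * (T * Real.exp (-(Real.pi * T ^ 2 * (lam x.1 - lam x.2) ^ 2)) *
        Real.cos (2 * Real.pi * (X * (lam x.1 - lam x.2)))) := by
  have e : ∀ t : ℝ, Real.exp (-(Real.pi * (t - X) ^ 2 / T ^ 2)) * N2 I ξ lam c t =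
      ∑ x ∈ PG I ξ, (c x.1 * c x.2) * (Real.exp (-(Real.pi * (t - X) ^ 2 / T ^ 2)) *
        Real.cos (2 * Real.pi * (t * (lam x.1 - lam x.2)))) := by
    intro t
    unfold N2
    rw [Finset.mul_sum]
    apply Finset.sum_congr rfl
    intro x _
    ring
  simp_rw [e]
  rw [integral_finsetSum]
  · apply Finset.sum_congr rfl
    intro x _
    rw [integral_const_mul, int_gauss_cos hT]
  · intro x _
    exact (gauss_cos_integrable hT X _).const_mul _

lemma int_gauss_N2_zero {T : ℝ} (hT : 0 < T) (I : Finset ι) (ξ : ι → ℤ × ℤ) (lam c : ι → ℝ) :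
    ∫ t : ℝ, Real.exp (-(Real.pi * t ^ 2 / T ^ 2)) * N2 I ξ lam c t =
      ∑ x ∈ PG I ξ, (c x.1 * c x.2) * (T * Real.exp (-(Real.pi * T ^ 2 * (lam x.1 - lam x.2) ^ 2))) := by
  have := int_gauss_N2 hT 0 I ξ lam c
  simpa using this

lemma EG_nonneg (I : Finset ι) (ξ : ι → ℤ × ℤ) (lam : ι → ℝ) (T : ℝ) : 0 ≤ EG I ξ lam T := by
  unfold EG; positivity

lemma EG_mono {I J : Finset ι} (h : I ⊆ J) (ξ : ι → ℤ × ℤ) (lam : ι → ℝ) (T : ℝ) : EG I ξ lam T ≤ EG J ξ lam T :=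
  Finset.sum_le_sum_of_subset_of_nonneg (PG_mono ξ h) (fun _ _ _ => (Real.exp_pos _).le)

lemma EG_anti (I : Finset ι) (ξ : ι → ℤ × ℤ) (lam : ι → ℝ) {T T' : ℝ} (hT : 0 ≤ T) (h : T ≤ T') :
    EG I ξ lam T' ≤ EG I ξ lam T := by
  unfold EG
  apply Finset.sum_le_sum
  intro x _
  apply Real.exp_le_exp.mpr
  have hpi := Real.pi_pos
  have h2 : T ^ 2 ≤ T' ^ 2 := by gcongr
  have h3 : 0 ≤ (lam x.1 - lam x.2) ^ 2 := sq_nonneg _
  have : Real.pi * T ^ 2 * (lam x.1 - lam x.2) ^ 2 ≤ Real.pi * T' ^ 2 * (lam x.1 - lam x.2) ^ 2 := by gcongr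
  linarith

/-- upper bound for Gaussian means by the energy -/
theorem gauss_N2_le {T : ℝ} (hT : 0 < T) (X : ℝ) (I : Finset ι) (ξ : ι → ℤ × ℤ) (lam c : ι → ℝ) {κ : ℝ}
    (hc : ∀ i ∈ I, |c i| ≤ κ) :
    ∫ t : ℝ, Real.exp (-(Real.pi * (t - X) ^ 2 / T ^ 2)) * N2 I ξ lam c t ≤ T * κ ^ 2 * EG I ξ lam T := by
  rw [int_gauss_N2 hT]
  unfold EG
  rw [Finset.mul_sum]
  apply Finset.sum_le_sum
  intro x hx
  rw [mem_PG] at hx
  have h1 := hc _ hx.1.1
  have h2 := hc _ hx.1.2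
  have hκ : 0 ≤ κ := (abs_nonneg _).trans h1
  have h3 : |c x.1 * c x.2| ≤ κ ^ 2 := by
    rw [abs_mul, sq]; gcongr
  have h4 := Real.abs_cos_le_one (2 * Real.pi * (X * (lam x.1 - lam x.2)))
  have h5 : 0 ≤ T * Real.exp (-(Real.pi * T ^ 2 * (lam x.1 - lam x.2) ^ 2)) := by positivity
  calc (c x.1 * c x.2) * (T * Real.exp (-(Real.pi * T ^ 2 * (lam x.1 - lam x.2) ^ 2)) *
        Real.cos (2 * Real.pi * (X * (lam x.1 - lam x.2))))
      ≤ |(c x.1 * c x.2) * (T * Real.exp (-(Real.pi * T ^ 2 * (lam x.1 - lam x.2) ^ 2)) *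
        Real.cos (2 * Real.pi * (X * (lam x.1 - lam x.2))))| := le_abs_self _
    _ = |c x.1 * c x.2| * ((T * Real.exp (-(Real.pi * T ^ 2 * (lam x.1 - lam x.2) ^ 2))) *
        |Real.cos (2 * Real.pi * (X * (lam x.1 - lam x.2)))|) := by
        rw [abs_mul, abs_mul (T * _), abs_of_nonneg h5]
    _ ≤ κ ^ 2 * ((T * Real.exp (-(Real.pi * T ^ 2 * (lam x.1 - lam x.2) ^ 2))) * 1) := by gcongr
    _ = _ := by ring

/-- lower bound for Gaussian means by the energy -/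
theorem le_gauss_N2 {T : ℝ} (hT : 0 < T) (I I0 : Finset ι) (hI : I0 ⊆ I) (ξ : ι → ℤ × ℤ) (lam c : ι → ℝ) {κ : ℝ}
    (hκ : 0 ≤ κ) (hc0 : ∀ i ∈ I, 0 ≤ c i) (hc : ∀ i ∈ I0, κ ≤ c i) :
    T * κ ^ 2 * EG I0 ξ lam T ≤ ∫ t : ℝ, Real.exp (-(Real.pi * t ^ 2 / T ^ 2)) * N2 I ξ lam c t := by
  rw [int_gauss_N2_zero hT]
  refine le_trans ?_ (Finset.sum_le_sum_of_subset_of_nonneg (PG_mono ξ hI) ?_)
  · unfold EG
    rw [Finset.mul_sum]
    apply Finset.sum_le_sum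
    intro x hx
    rw [mem_PG] at hx
    have h1 := hc _ hx.1.1
    have h2 := hc _ hx.1.2
    have h0 := hκ.trans h1
    have h3 : κ ^ 2 ≤ c x.1 * c x.2 := by rw [sq]; gcongr
    calc T * κ ^ 2 * Real.exp (-(Real.pi * T ^ 2 * (lam x.1 - lam x.2) ^ 2))
        = κ ^ 2 * (T * Real.exp (-(Real.pi * T ^ 2 * (lam x.1 - lam x.2) ^ 2))) := by ring
      _ ≤ _ := by gcongr
  · intro x hx _
    rw [mem_PG] at hx
    have h1 := hc0 _ hx.1.1
    have h2 := hc0 _ hx.1.2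
    positivity

/-- the energy as a Gaussian mean -/
lemma EG_eq_int {T : ℝ} (hT : 0 < T) (I : Finset ι) (ξ : ι → ℤ × ℤ) (lam : ι → ℝ) :
    T * EG I ξ lam T = ∫ t : ℝ, Real.exp (-(Real.pi * t ^ 2 / T ^ 2)) * N2 I ξ lam (fun _ => 1) t := by
  rw [int_gauss_N2_zero hT]
  unfold EG
  rw [Finset.mul_sum]
  apply Finset.sum_congr rfl
  intro x _
  ring

lemma EG_le_mul (I : Finset ι) (ξ : ι → ℤ × ℤ) (lam : ι → ℝ) {T T' : ℝ} (hT : 0 < T) (h : T ≤ T') :
    T * EG I ξ lam T ≤ T' * EG I ξ lam T' := by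
  rw [EG_eq_int hT, EG_eq_int (hT.trans_le h)]
  have i1 := gauss_N2_integrable hT 0 I ξ lam (fun _ => 1)
  have i2 := gauss_N2_integrable (hT.trans_le h) 0 I ξ lam (fun _ => 1)
  simp only [sub_zero] at i1 i2
  apply integral_mono i1 i2
  intro t
  simp only
  apply mul_le_mul_of_nonneg_right _ (N2_nonneg _ _ _ _ _)
  apply Real.exp_le_exp.mpr
  have hpi := Real.pi_pos
  have : Real.pi * t ^ 2 / T' ^ 2 ≤ Real.pi * t ^ 2 / T ^ 2 := by gcongr
  linarith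

lemma gauss_N2_sqrt {T : ℝ} (hT : 0 < T) (I : Finset ι) (ξ : ι → ℤ × ℤ) (lam c : ι → ℝ) (hc : ∀ i ∈ I, 0 ≤ c i) :
    ∫ t : ℝ, Real.exp (-(Real.pi * t ^ 2 / (√2 * T) ^ 2)) * N2 I ξ lam c t ≤
      √2 * ∫ t : ℝ, Real.exp (-(Real.pi * t ^ 2 / T ^ 2)) * N2 I ξ lam c t := by
  rw [int_gauss_N2_zero (by positivity), int_gauss_N2_zero hT, Finset.mul_sum]
  apply Finset.sum_le_sum
  intro x hx
  rw [mem_PG] at hx
  have a1 := hc _ hx.1.1
  have a2 := hc _ hx.1.2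
  have h1 : Real.exp (-(Real.pi * (√2 * T) ^ 2 * (lam x.1 - lam x.2) ^ 2)) ≤
      Real.exp (-(Real.pi * T ^ 2 * (lam x.1 - lam x.2) ^ 2)) := by
    apply Real.exp_le_exp.mpr
    have e : (√2 * T) ^ 2 = 2 * T ^ 2 := by rw [mul_pow, Real.sq_sqrt (by norm_num)]
    rw [e]
    have : 0 ≤ Real.pi * T ^ 2 * (lam x.1 - lam x.2) ^ 2 := by have := Real.pi_pos; positivity
    nlinarith
  calc c x.1 * c x.2 * (√2 * T * Real.exp (-(Real.pi * (√2 * T) ^ 2 * (lam x.1 - lam x.2) ^ 2)))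
      ≤ c x.1 * c x.2 * (√2 * T * Real.exp (-(Real.pi * T ^ 2 * (lam x.1 - lam x.2) ^ 2))) := by gcongr
    _ = _ := by ring

lemma exp_sqrt_aux : Real.exp (-(Real.pi/2)) * √2 ≤ 1/2 := by
  have h1 : Real.exp (-(Real.pi/2)) ≤ Real.exp (-(3/2)) := by
    apply Real.exp_le_exp.mpr; linarith [Real.pi_gt_three]
  have h2 : Real.exp (-(3/2)) ≤ 1/4 := by
    rw [Real.exp_neg, inv_le_comm₀ (Real.exp_pos _) (by norm_num)]
    have h3 := Real.exp_one_gt_d9
    have h4 : Real.exp (3/2) ^ 2 = Real.exp 1 ^ 3 := by rw [← Real.exp_nat_mul, ← Real.exp_nat_mul]; norm_num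
    have h5 : (19:ℝ) ≤ Real.exp 1 ^ 3 := by
      calc (19:ℝ) ≤ 2.7 ^ 3 := by norm_num
        _ ≤ _ := by gcongr; linarith
    have h6 : (4:ℝ) ^ 2 ≤ Real.exp (3/2) ^ 2 := by rw [h4]; linarith
    have := abs_le_of_sq_le_sq' h6 (Real.exp_pos _).le
    norm_num
    exact this.2
  have h3 : √2 ≤ 2 := by rw [Real.sqrt_le_left (by norm_num)]; norm_num
  have h4 : 0 ≤ √2 := Real.sqrt_nonneg _
  calc Real.exp (-(Real.pi/2)) * √2 ≤ (1/4) * 2 := by
        gcongr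
        linarith
    _ = 1/2 := by norm_num

/-- Gaussian means with nonnegative weights are controlled by short means -/
lemma gauss_short {T : ℝ} (hT : 0 < T) (I : Finset ι) (ξ : ι → ℤ × ℤ) (lam c : ι → ℝ) (hc : ∀ i ∈ I, 0 ≤ c i) :
    ∫ t : ℝ, Real.exp (-(Real.pi * t ^ 2 / T ^ 2)) * N2 I ξ lam c t ≤ 2 * ∫ t in Icc (-T) T, N2 I ξ lam c t := by
  have hT2 : 0 < √2 * T := by positivity
  have i1 := gauss_N2_integrable hT 0 I ξ lam c
  have i2 := gauss_N2_integrable hT2 0 I ξ lam c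
  simp only [sub_zero] at i1 i2
  have i3 : Integrable (fun t => (Icc (-T) T).indicator (fun t => N2 I ξ lam c t) t) := by
    rw [integrable_indicator_iff measurableSet_Icc]
    exact (continuous_N2 I ξ lam c).continuousOn.integrableOn_Icc
  have hexp := exp_sqrt_aux
  have h1 : ∫ t : ℝ, Real.exp (-(Real.pi * t ^ 2 / T ^ 2)) * N2 I ξ lam c t ≤
      ∫ t : ℝ, ((Icc (-T) T).indicator (fun t => N2 I ξ lam c t) t +
        Real.exp (-(Real.pi/2)) * (Real.exp (-(Real.pi * t ^ 2 / (√2 * T) ^ 2)) * N2 I ξ lam c t)) := by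
    have i4 : Integrable (fun t : ℝ => (Icc (-T) T).indicator (fun t => N2 I ξ lam c t) t +
        Real.exp (-(Real.pi/2)) * (Real.exp (-(Real.pi * t ^ 2 / (√2 * T) ^ 2)) * N2 I ξ lam c t)) :=
      i3.add (i2.const_mul _)
    apply integral_mono i1 i4
    intro t
    simp only
    have hM := N2_nonneg I ξ lam c t
    by_cases ht : t ∈ Icc (-T) T
    · rw [Set.indicator_of_mem ht]
      have k1 : Real.exp (-(Real.pi * t ^ 2 / T ^ 2)) * N2 I ξ lam c t ≤ 1 * N2 I ξ lam c t := by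
        gcongr
        rw [Real.exp_le_one_iff]
        have := Real.pi_pos
        have : 0 ≤ Real.pi * t ^ 2 / T ^ 2 := by positivity
        linarith
      have k2 : 0 ≤ Real.exp (-(Real.pi/2)) * (Real.exp (-(Real.pi * t ^ 2 / (√2 * T) ^ 2)) * N2 I ξ lam c t) := by
        positivity
      linarith
    · rw [Set.indicator_of_notMem ht, zero_add, ← mul_assoc, ← Real.exp_add]
      gcongr
      have e : (√2 * T) ^ 2 = 2 * T ^ 2 := by rw [mul_pow, Real.sq_sqrt (by norm_num)]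
      rw [e]
      have ht2 : T ^ 2 ≤ t ^ 2 := by
        rw [Set.mem_Icc, not_and_or, not_le, not_le] at ht
        rcases ht with h | h <;> nlinarith
      have k1 : Real.pi/2 ≤ Real.pi * t ^ 2 / (2 * T ^ 2) := by
        rw [div_le_div_iff₀ (by norm_num) (by positivity)]
        have := Real.pi_pos
        nlinarith
      have k2 : Real.pi * t ^ 2 / T ^ 2 = 2 * (Real.pi * t ^ 2 / (2 * T ^ 2)) := by field_simp
      rw [k2]
      linarith
  rw [integral_add i3 (i2.const_mul _), integral_const_mul, integral_indicator measurableSet_Icc] at h1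
  have h2 := gauss_N2_sqrt hT I ξ lam c hc
  set G := ∫ t : ℝ, Real.exp (-(Real.pi * t ^ 2 / T ^ 2)) * N2 I ξ lam c t with hG
  have hG0 : 0 ≤ G := integral_nonneg fun t => by have := N2_nonneg I ξ lam c t; positivity
  have h3 : Real.exp (-(Real.pi/2)) * ∫ t : ℝ, Real.exp (-(Real.pi * t ^ 2 / (√2 * T) ^ 2)) * N2 I ξ lam c t ≤ (1/2) * G := by
    calc _ ≤ Real.exp (-(Real.pi/2)) * (√2 * G) := by gcongr
      _ = (Real.exp (-(Real.pi/2)) * √2) * G := by ring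
      _ ≤ _ := by gcongr
  linarith

end Pool.Agent.H593.U
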