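import Mathlib
import Pool.Agent.H593.U6.Gen
import Pool.Agent.H593.U.VS

/-!
# Powers of the exponential sum
-/

open MeasureTheory Set Filter Topology
open Pool.Agent.H383.Gauss
open scoped ENNReal

namespace Pool.Agent.H593.U

/-- tuples of points of `B` -/
noncomputable def tup (m : ℕ) (B : Finset (ℤ × ℤ)) : Finset (Fin m → ℤ × ℤ) := Fintype.piFinset (fun _ => B)

/-- vector sum of a tuple -/
def xm {m : ℕ} (x : Fin m → ℤ × ℤ) : ℤ × ℤ := ∑ i, x i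

/-- sum of the norms of a tuple -/
noncomputable def lm {m : ℕ} (x : Fin m → ℤ × ℤ) : ℝ := ∑ i, nz (x i)

/-- product of the weights -/
noncomputable def cm (b : ℤ × ℤ → ℝ) {m : ℕ} (x : Fin m → ℤ × ℤ) : ℝ := ∏ i, b (x i)

lemma mem_tup {m : ℕ} {B : Finset (ℤ × ℤ)} {x : Fin m → ℤ × ℤ} : x ∈ tup m B ↔ ∀ i, x i ∈ B := by
  unfold tup; rw [Fintype.mem_piFinset]

lemma ex_sum {κ : Type} (s : Finset κ) (f : κ → ℝ) : ex (∑ i ∈ s, f i) = ∏ i ∈ s, ex (f i) := by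
  classical
  induction s using Finset.induction_on with
  | empty => simp [ex_zero]
  | insert i s hi ih => rw [Finset.sum_insert hi, Finset.prod_insert hi, ex_add, ih]

lemma dp_sum {κ : Type} (s : Finset κ) (f : κ → ℤ × ℤ) (a : ℝ × ℝ) : dp (∑ i ∈ s, f i) a = ∑ i ∈ s, dp (f i) a := by
  classical
  induction s using Finset.induction_on with
  | empty => simp [dp]
  | insert i s hi ih => rw [Finset.sum_insert hi, Finset.sum_insert hi, dp_add, ih]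

lemma S_pow (m : ℕ) (B : Finset (ℤ × ℤ)) (b : ℤ × ℤ → ℝ) (a : ℝ × ℝ) (t : ℝ) :
    S B b a t ^ m = G (tup m B) xm lm (cm b) a t := by
  unfold S G tup
  rw [Finset.sum_pow']
  apply Finset.sum_congr rfl
  intro x _
  unfold xm lm cm
  rw [dp_sum, Finset.mul_sum, ← Finset.sum_add_distrib, ex_sum, Complex.ofReal_prod, ← Finset.prod_mul_distrib]

/-- mean of the `2m`-th power -/
noncomputable def MP (m : ℕ) (B : Finset (ℤ × ℤ)) (b : ℤ × ℤ → ℝ) (t : ℝ) : ℝ := N2 (tup m B) xm lm (cm b) t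

theorem int_S_pow (m : ℕ) (B : Finset (ℤ × ℤ)) (b : ℤ × ℤ → ℝ) (t : ℝ) :
    ∫ a in Q, ‖S B b a t‖ ^ (2 * m) = MP m B b t := by
  unfold MP
  rw [← int_G_sq]
  congr 1
  ext a
  rw [← S_pow, norm_pow, ← pow_mul, mul_comm m 2]

lemma MP_nonneg (m : ℕ) (B : Finset (ℤ × ℤ)) (b : ℤ × ℤ → ℝ) (t : ℝ) : 0 ≤ MP m B b t := N2_nonneg _ _ _ _ _

lemma continuous_MP (m : ℕ) (B : Finset (ℤ × ℤ)) (b : ℤ × ℤ → ℝ) : Continuous (MP m B b) := continuous_N2 _ _ _ _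

lemma integrable_S_pow (p : ℕ) (B : Finset (ℤ × ℤ)) (b : ℤ × ℤ → ℝ) (t : ℝ) :
    Integrable (fun a => ‖S B b a t‖ ^ p) (volume.restrict Q) := by
  have hfin : IsFiniteMeasure (volume.restrict Q) := ⟨by simp [volume_Q]⟩
  have hc : Continuous (fun a => S B b a t) := continuous_S_left B b t
  obtain ⟨D, hD⟩ : ∃ D : ℝ, ∀ a, ‖S B b a t‖ ≤ D := ⟨_, fun a => norm_S_le B b a t⟩
  obtain ⟨C, hC⟩ : ∃ C : ℝ, C = D ^ p := ⟨_, rfl⟩
  have hbd : ∀ a, ‖(‖S B b a t‖ ^ p)‖ ≤ C := by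
    intro a
    rw [hC, norm_pow, norm_norm]
    exact pow_le_pow_left₀ (norm_nonneg _) (hD a) p
  have hint : Integrable (fun _ : ℝ × ℝ => C) (volume.restrict Q) := integrable_const C
  exact hint.mono' (hc.norm.pow p).aestronglyMeasurable (Eventually.of_forall hbd)

theorem lint_S_pow (m : ℕ) (B : Finset (ℤ × ℤ)) (b : ℤ × ℤ → ℝ) (t : ℝ) :
    ∫⁻ a in Q, ENNReal.ofReal (‖S B b a t‖ ^ (2 * m)) = ENNReal.ofReal (MP m B b t) := by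
  rw [← int_S_pow, ofReal_integral_eq_lintegral_ofReal (integrable_S_pow _ B b t)]
  exact Eventually.of_forall fun a => by positivity

lemma MP_two (B : Finset (ℤ × ℤ)) (b : ℤ × ℤ → ℝ) (t : ℝ) : MP 2 B b t = M B b t := by
  rw [← int_S_pow, ← int_S_four]

/-- energies of order `2m` -/
noncomputable def EnM (m : ℕ) (B : Finset (ℤ × ℤ)) (T : ℝ) : ℝ := EG (tup m B) xm lm T

lemma EnM_nonneg (m : ℕ) (B : Finset (ℤ × ℤ)) (T : ℝ) : 0 ≤ EnM m B T := EG_nonneg _ _ _ _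

lemma tup_mono (m : ℕ) {B B' : Finset (ℤ × ℤ)} (h : B ⊆ B') : tup m B ⊆ tup m B' := by
  intro x hx
  rw [mem_tup] at hx ⊢
  exact fun i => h (hx i)

lemma EnM_mono (m : ℕ) {B B' : Finset (ℤ × ℤ)} (h : B ⊆ B') (T : ℝ) : EnM m B T ≤ EnM m B' T :=
  EG_mono (tup_mono m h) _ _ _

lemma EnM_anti (m : ℕ) (B : Finset (ℤ × ℤ)) {T T' : ℝ} (hT : 0 ≤ T) (h : T ≤ T') : EnM m B T' ≤ EnM m B T :=
  EG_anti _ _ _ hT h

theorem gauss_MP_le {T : ℝ} (hT : 0 < T) (X : ℝ) (m : ℕ) (B : Finset (ℤ × ℤ)) (b : ℤ × ℤ → ℝ) {c : ℝ}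
    (hb : ∀ k ∈ B, |b k| ≤ c) :
    ∫ t : ℝ, Real.exp (-(Real.pi * (t - X) ^ 2 / T ^ 2)) * MP m B b t ≤ T * c ^ (2 * m) * EnM m B T := by
  have h := gauss_N2_le hT X (tup m B) xm lm (cm b) (κ := c ^ m) (by
    intro x hx
    rw [mem_tup] at hx
    unfold cm
    rw [Finset.abs_prod]
    calc ∏ i, |b (x i)| ≤ ∏ _i : Fin m, c := Finset.prod_le_prod (fun i _ => abs_nonneg _) (fun i _ => hb _ (hx i))
      _ = c ^ m := by simp)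
  rw [← pow_mul, mul_comm m 2] at h
  exact h

theorem le_gauss_MP {T : ℝ} (hT : 0 < T) (m : ℕ) {B B0 : Finset (ℤ × ℤ)} (hB : B0 ⊆ B) (b : ℤ × ℤ → ℝ) {c : ℝ}
    (hc : 0 ≤ c) (hb0 : ∀ k ∈ B, 0 ≤ b k) (hb : ∀ k ∈ B0, c ≤ b k) :
    T * c ^ (2 * m) * EnM m B0 T ≤ ∫ t : ℝ, Real.exp (-(Real.pi * t ^ 2 / T ^ 2)) * MP m B b t := by
  have h := le_gauss_N2 hT (tup m B) (tup m B0) (tup_mono m hB) xm lm (cm b) (κ := c ^ m) (by positivity) (by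
    intro x hx
    rw [mem_tup] at hx
    unfold cm
    exact Finset.prod_nonneg (fun i _ => hb0 _ (hx i))) (by
    intro x hx
    rw [mem_tup] at hx
    unfold cm
    calc c ^ m = ∏ _i : Fin m, c := by simp
      _ ≤ ∏ i, b (x i) := Finset.prod_le_prod (fun i _ => hc) (fun i _ => hb _ (hx i)))
  rw [← pow_mul, mul_comm m 2] at h
  exact h

lemma MP_short {T : ℝ} (hT : 0 < T) (m : ℕ) (B : Finset (ℤ × ℤ)) (b : ℤ × ℤ → ℝ) (hb : ∀ k ∈ B, 0 ≤ b k) :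
    ∫ t : ℝ, Real.exp (-(Real.pi * t ^ 2 / T ^ 2)) * MP m B b t ≤ 2 * ∫ t in Icc (-T) T, MP m B b t :=
  gauss_short hT (tup m B) xm lm (cm b) (by
    intro x hx
    rw [mem_tup] at hx
    unfold cm
    exact Finset.prod_nonneg (fun i _ => hb _ (hx i)))

lemma MP_even (m : ℕ) (B : Finset (ℤ × ℤ)) (b : ℤ × ℤ → ℝ) (t : ℝ) : MP m B b (-t) = MP m B b t := N2_even _ _ _ _ _

lemma gauss_MP_integrable {T : ℝ} (hT : 0 < T) (X : ℝ) (m : ℕ) (B : Finset (ℤ × ℤ)) (b : ℤ × ℤ → ℝ) :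
    Integrable (fun t : ℝ => Real.exp (-(Real.pi * (t - X) ^ 2 / T ^ 2)) * MP m B b t) :=
  gauss_N2_integrable hT X _ _ _ _

/-- bound for the energies of order `2m` of the boxes -/
def HE (m : ℕ) (θ : ℝ) : Prop := ∀ ε : ℝ, 0 < ε → ∃ C : ℝ, 0 < C ∧ ∀ (K : ℕ) (T : ℝ), 1 ≤ K → 0 < T →
  T * EnM m (box K) T ≤ C * ((K:ℝ) ^ (4 * m - 3 + ε) * (1 + T * (K:ℝ) ^ (-θ)))

lemma EnM_two (B : Finset (ℤ × ℤ)) {T : ℝ} (hT : 0 < T) : T * EnM 2 B T = T * En B T := by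
  unfold EnM
  rw [EG_eq_int hT, En_eq_int hT]
  congr 1
  ext t
  congr 1
  rw [← MP_two]
  unfold MP
  congr 1
  ext x
  unfold cm
  simp

/-- the Gaussian mean of a shell -/
lemma gauss_shellP {m : ℕ} {θ : ℝ} (hm : 1 ≤ m) (hθ : 0 ≤ θ) (h : HE m θ) {ε : ℝ} (hε : 0 < ε) :
    ∃ C : ℝ, 0 < C ∧ ∀ (Y j : ℕ) (b : ℤ × ℤ → ℝ) (c X T : ℝ), 0 < T → (∀ p ∈ sh Y j, |b p| ≤ c) →
    ∫ t : ℝ, Real.exp (-(Real.pi * (t - X) ^ 2 / T ^ 2)) * MP m (sh Y j) b t ≤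
      C * (c ^ (2 * m) * (((2:ℝ) ^ j) ^ (4 * m - 3 + ε) * (1 + T * ((2:ℝ) ^ j) ^ (-θ)))) := by
  obtain ⟨C, hC, h⟩ := h ε hε
  refine ⟨C * 2 ^ (4 * m - 3 + ε), by positivity, ?_⟩
  intro Y j b c X T hT hb
  refine (gauss_MP_le hT X m (sh Y j) b hb).trans ?_
  have h1 := EnM_mono m (sh_sub_box Y j) T
  have h2 := h (2 ^ (j+1)) T Nat.one_le_two_pow hT
  push_cast at h2
  have hm' : (1:ℝ) ≤ m := by exact_mod_cast hm
  have hc2 : 0 ≤ c ^ (2 * m) := by rw [pow_mul]; positivity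
  have e1 : ((2:ℝ) ^ (j+1)) ^ (4 * (m:ℝ) - 3 + ε) = ((2:ℝ) ^ j) ^ (4 * (m:ℝ) - 3 + ε) * 2 ^ (4 * (m:ℝ) - 3 + ε) := by
    rw [pow_succ, Real.mul_rpow (by positivity) (by norm_num)]
  have e2 : ((2:ℝ) ^ (j+1)) ^ (-θ) ≤ ((2:ℝ) ^ j) ^ (-θ) := by
    apply Real.rpow_le_rpow_of_nonpos (by positivity) _ (by linarith)
    exact pow_le_pow_right₀ (by norm_num) (by omega)
  calc T * c ^ (2 * m) * EnM m (sh Y j) T ≤ T * c ^ (2 * m) * EnM m (box (2 ^ (j+1))) T := by gcongr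
    _ = c ^ (2 * m) * (T * EnM m (box (2 ^ (j+1))) T) := by ring
    _ ≤ c ^ (2 * m) * (C * (((2:ℝ) ^ (j+1)) ^ (4 * (m:ℝ) - 3 + ε) * (1 + T * ((2:ℝ) ^ (j+1)) ^ (-θ)))) := by gcongr
    _ ≤ c ^ (2 * m) * (C * ((((2:ℝ) ^ j) ^ (4 * (m:ℝ) - 3 + ε) * 2 ^ (4 * (m:ℝ) - 3 + ε)) * (1 + T * ((2:ℝ) ^ j) ^ (-θ)))) := by
        rw [e1]; gcongr
    _ = _ := by ring

lemma sum_powp_le {J : ℕ} (p : ℕ) (f : ℕ → ℝ) (hf : ∀ j, 0 ≤ f j) :
    (∑ j ∈ Finset.range J, f j) ^ (p + 1) ≤ (J:ℝ) ^ p * ∑ j ∈ Finset.range J, f j ^ (p + 1) := by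
  rcases Nat.eq_zero_or_pos J with h | h
  · subst h; simp
  · have := pow_sum_div_card_le_sum_pow (s := Finset.range J) (f := f) (fun a _ => hf a) p
    rw [Finset.card_range, div_le_iff₀ (by positivity)] at this
    rw [mul_comm]
    exact this

lemma S_pow_shells {Y J : ℕ} (hJ : Y < 2 ^ J) (p : ℕ) (b : ℤ × ℤ → ℝ) (a : ℝ × ℝ) (t : ℝ) :
    ‖S (B0 Y) b a t‖ ^ (p + 1) ≤ (J:ℝ) ^ p * ∑ j ∈ Finset.range J, ‖S (sh Y j) b a t‖ ^ (p + 1) := by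
  rw [S_shells hJ]
  refine le_trans ?_ (sum_powp_le p (fun j => ‖S (sh Y j) b a t‖) (fun j => norm_nonneg _))
  gcongr
  exact norm_sum_le _ _

lemma MP_shells {Y J m : ℕ} (hm : 1 ≤ m) (hJ : Y < 2 ^ J) (b : ℤ × ℤ → ℝ) (t : ℝ) :
    MP m (B0 Y) b t ≤ (J:ℝ) ^ (2 * m - 1) * ∑ j ∈ Finset.range J, MP m (sh Y j) b t := by
  obtain ⟨p, hp⟩ : ∃ p, 2 * m = p + 1 := ⟨2 * m - 1, by omega⟩
  have hp2 : 2 * m - 1 = p := by omega
  rw [hp2, ← int_S_pow]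
  have e : (J:ℝ) ^ p * ∑ j ∈ Finset.range J, MP m (sh Y j) b t =
      ∫ a in Q, (J:ℝ) ^ p * ∑ j ∈ Finset.range J, ‖S (sh Y j) b a t‖ ^ (2 * m) := by
    rw [integral_const_mul, integral_finsetSum _ (fun j _ => integrable_S_pow _ (sh Y j) b t)]
    congr 1
    apply Finset.sum_congr rfl
    intro j _
    rw [int_S_pow]
  rw [e]
  apply integral_mono (integrable_S_pow _ _ b t)
  · exact (integrable_finsetSum _ (fun j _ => integrable_S_pow _ (sh Y j) b t)).const_mul _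
  · intro a
    simp only
    rw [hp]
    exact S_pow_shells hJ p b a t

end Pool.Agent.H593.U
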