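import Mathlib
import Pool.Agent.H593.U6.Pow
import Pool.Agent.H593.U.SB5

/-!
# Energies of order four
-/

open MeasureTheory Set Filter Topology
open Pool.Agent.H383.Gauss

namespace Pool.Agent.H593.U

theorem HE_two : HE 2 1 := by
  intro ε hε
  obtain ⟨C, hC, h⟩ := HB_mul (HB_all (β := 4 + ε) (by linarith))
  refine ⟨C, hC, ?_⟩
  intro K T hK hT
  have hK' : (1:ℝ) ≤ K := by exact_mod_cast hK
  have hK0 : (0:ℝ) < K := by linarith
  rw [EnM_two _ hT]
  refine (h K T hK hT).trans (le_of_eq ?_)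
  congr 1
  have e1 : (K:ℝ) ^ (4 * ((2:ℕ):ℝ) - 3 + ε) = K * (K:ℝ) ^ (4 + ε) := by
    nth_rewrite 2 [← Real.rpow_one (K:ℝ)]
    rw [← Real.rpow_add hK0]; congr 1; push_cast; ring
  rw [e1, Real.rpow_neg_one]
  field_simp
  ring

end Pool.Agent.H593.U
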