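import Mathlib
import Pool.Agent.H593.U.A2c

/-!
# Selection of well spaced triples
-/

open MeasureTheory Set Filter Topology
open Pool.Agent.H383.Gauss
open scoped ENNReal

namespace Pool.Agent.H593.U

/-- the points of `F` near `y` -/
noncomputable def nb (F : Finset (ℤ × ℤ)) (y : ℤ × ℤ) (l : ℝ) : Finset (ℤ × ℤ) := F.filter (fun p => nz (p - y) ≤ l)

lemma mem_nb {F : Finset (ℤ × ℤ)} {y p : ℤ × ℤ} {l : ℝ} : p ∈ nb F y l ↔ p ∈ F ∧ nz (p - y) ≤ l := by
  unfold nb; rw [Finset.mem_filter]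

lemma nz_sub_comm (p q : ℤ × ℤ) : nz (p - q) = nz (q - p) := by
  rw [← nz_neg (q - p), neg_sub]

lemma eq_of_nz_lt_one {p : ℤ × ℤ} (h : nz p < 1) : p = 0 := by
  by_contra hp
  have := nz_ge_one hp
  linarith

lemma sel {F : Finset (ℤ × ℤ)} {D r : ℝ} {m0 : ℕ} (hD : ∀ p ∈ F, ∀ q ∈ F, nz (p - q) ≤ D)
    (hsmall : D * (r⁻¹) ^ m0 < 1) (hF : 10 ^ m0 < F.card) :
    ∃ i < m0, ∃ y ∈ F, F.card ≤ 10 ^ i * (nb F y (D * (r⁻¹) ^ i)).card ∧
      ∀ z ∈ nb F y (D * (r⁻¹) ^ i), 10 * (nb F z (D * (r⁻¹) ^ (i+1))).card < (nb F y (D * (r⁻¹) ^ i)).card := by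
  by_contra hcon
  push Not at hcon
  have key : ∀ i ≤ m0, ∃ y ∈ F, F.card ≤ 10 ^ i * (nb F y (D * (r⁻¹) ^ i)).card := by
    intro i
    induction i with
    | zero =>
      intro _
      have hne : F.Nonempty := by
        rw [← Finset.card_pos]
        exact lt_of_le_of_lt (Nat.zero_le _) hF
      obtain ⟨y, hy⟩ := hne
      refine ⟨y, hy, ?_⟩
      rw [pow_zero, one_mul, pow_zero, mul_one]
      apply Finset.card_le_card
      intro p hp
      rw [mem_nb]
      exact ⟨hp, hD p hp y hy⟩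
    | succ i ih =>
      intro hi
      obtain ⟨y, hy, h1⟩ := ih (by omega)
      obtain ⟨z, hz, h2⟩ := hcon i (by omega) y hy h1
      refine ⟨z, (mem_nb.mp hz).1, ?_⟩
      calc F.card ≤ 10 ^ i * (nb F y (D * (r⁻¹) ^ i)).card := h1
        _ ≤ 10 ^ i * (10 * (nb F z (D * (r⁻¹) ^ (i+1))).card) := Nat.mul_le_mul_left _ h2
        _ = _ := by ring
  obtain ⟨y, hy, h1⟩ := key m0 le_rfl
  have h2 : nb F y (D * (r⁻¹) ^ m0) ⊆ {y} := by
    intro p hp
    rw [mem_nb] at hp
    rw [Finset.mem_singleton]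
    have := eq_of_nz_lt_one (lt_of_le_of_lt hp.2 hsmall)
    exact sub_eq_zero.mp this
  have h3 := Finset.card_le_card h2
  rw [Finset.card_singleton] at h3
  have h4 : 10 ^ m0 * (nb F y (D * (r⁻¹) ^ m0)).card ≤ 10 ^ m0 * 1 := Nat.mul_le_mul_left _ h3
  omega

/-- triples of points with large mutual distances -/
noncomputable def Tr (A : Finset (ℤ × ℤ)) (l : ℝ) : Finset Z3 :=
  (A ×ˢ (A ×ˢ A)).filter (fun x => l < nz (x.2.1 - x.1) ∧ l < nz (x.2.2 - x.1) ∧ l < nz (x.2.1 - x.2.2))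

lemma card_Tr {F A : Finset (ℤ × ℤ)} {l : ℝ} (hA : A ⊆ F) (h : ∀ z ∈ A, 10 * (nb F z l).card < A.card) :
    (7/10:ℝ) * (A.card : ℝ) ^ 3 ≤ ((Tr A l).card : ℝ) := by
  classical
  set N : ℝ := (A.card : ℝ) with hN
  have hN0 : 0 ≤ N := by positivity
  set w : ℤ × ℤ → ℤ × ℤ → ℝ := fun p q => if nz (p - q) ≤ l then 1 else 0 with hw
  have hws : ∀ p q, w p q = w q p := by
    intro p q
    simp only [hw]
    rw [nz_sub_comm]
  have hwsum : ∀ q ∈ A, ∑ p ∈ A, w p q ≤ N / 10 := by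
    intro q hq
    have e1 : ∑ p ∈ A, w p q = ((nb A q l).card : ℝ) := by
      simp only [hw]
      rw [Finset.sum_boole]
      rfl
    rw [e1]
    have e2 : nb A q l ⊆ nb F q l := by
      intro p hp
      rw [mem_nb] at hp ⊢
      exact ⟨hA hp.1, hp.2⟩
    have e3 := Finset.card_le_card e2
    have e4 := h q hq
    have e5 : 10 * ((nb A q l).card : ℝ) ≤ N := by
      rw [hN]
      exact_mod_cast (by omega : 10 * (nb A q l).card ≤ A.card)
    linarith
  have hcard : ((Tr A l).card : ℝ) = ∑ x ∈ A, ∑ y ∈ A, ∑ z ∈ A,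
      (if l < nz (y - x) ∧ l < nz (z - x) ∧ l < nz (y - z) then (1:ℝ) else 0) := by
    unfold Tr
    rw [← Finset.sum_boole, Finset.sum_product]
    apply Finset.sum_congr rfl
    intro x _
    rw [Finset.sum_product]
  rw [hcard]
  have hpt : ∀ x y z : ℤ × ℤ, 1 - w y x - w z x - w y z ≤
      (if l < nz (y - x) ∧ l < nz (z - x) ∧ l < nz (y - z) then (1:ℝ) else 0) := by
    intro x y z
    have w0 : ∀ p q, 0 ≤ w p q := by intro p q; simp only [hw]; split_ifs <;> norm_num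
    by_cases h1 : nz (y - x) ≤ l
    · have e : w y x = 1 := by simp only [hw]; rw [if_pos h1]
      have := w0 z x
      have := w0 y z
      rw [e]
      split_ifs <;> linarith
    · by_cases h2 : nz (z - x) ≤ l
      · have e : w z x = 1 := by simp only [hw]; rw [if_pos h2]
        have := w0 y x
        have := w0 y z
        rw [e]
        split_ifs <;> linarith
      · by_cases h3 : nz (y - z) ≤ l
        · have e : w y z = 1 := by simp only [hw]; rw [if_pos h3]
          have := w0 y x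
          have := w0 z x
          rw [e]
          split_ifs <;> linarith
        · push Not at h1 h2 h3
          rw [if_pos ⟨h1, h2, h3⟩]
          have := w0 y x
          have := w0 z x
          have := w0 y z
          linarith
  have h1 : ∑ x ∈ A, ∑ y ∈ A, ∑ z ∈ A, (1 - w y x - w z x - w y z) ≤
      ∑ x ∈ A, ∑ y ∈ A, ∑ z ∈ A, (if l < nz (y - x) ∧ l < nz (z - x) ∧ l < nz (y - z) then (1:ℝ) else 0) := by
    apply Finset.sum_le_sum; intro x _
    apply Finset.sum_le_sum; intro y _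
    apply Finset.sum_le_sum; intro z _
    exact hpt x y z
  refine le_trans ?_ h1
  simp only [Finset.sum_sub_distrib, Finset.sum_const, nsmul_eq_mul, mul_one]
  rw [← hN]
  -- bounds of the three error sums
  have s1 : ∑ x ∈ A, ∑ y ∈ A, N * w y x ≤ N ^ 3 / 10 := by
    calc ∑ x ∈ A, ∑ y ∈ A, N * w y x ≤ ∑ x ∈ A, N * (N / 10) := by
          apply Finset.sum_le_sum
          intro x hx
          rw [← Finset.mul_sum]
          gcongr
          exact hwsum x hx
      _ = N ^ 3 / 10 := by rw [Finset.sum_const, nsmul_eq_mul, ← hN]; ring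
  have s2 : ∑ x ∈ A, N * ∑ z ∈ A, w z x ≤ N ^ 3 / 10 := by
    calc ∑ x ∈ A, N * ∑ z ∈ A, w z x ≤ ∑ x ∈ A, N * (N / 10) := by
          apply Finset.sum_le_sum
          intro x hx
          gcongr
          exact hwsum x hx
      _ = N ^ 3 / 10 := by rw [Finset.sum_const, nsmul_eq_mul, ← hN]; ring
  have s3 : N * ∑ y ∈ A, ∑ z ∈ A, w y z ≤ N ^ 3 / 10 := by
    calc N * ∑ y ∈ A, ∑ z ∈ A, w y z ≤ N * ∑ y ∈ A, N / 10 := by
          gcongr with y hy
          rw [Finset.sum_congr rfl (fun z _ => hws y z)]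
          exact hwsum y hy
      _ = N ^ 3 / 10 := by rw [Finset.sum_const, nsmul_eq_mul, ← hN]; ring
  have e0 : N * (N * N) = N ^ 3 := by ring
  linarith

end Pool.Agent.H593.U
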