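import Mathlib
import Pool.Agent.H593.U6.Sel

/-!
# Geometry of annuli through well spaced triples
-/

open MeasureTheory Set Filter Topology
open Pool.Agent.H383.Gauss
open scoped ENNReal

namespace Pool.Agent.H593.U

/-- pairs of lattice points -/
abbrev Z2 := (ℤ × ℤ) × (ℤ × ℤ)

/-- number of lattice points near the origin in the annulus -/
noncomputable def nl (L : ℝ) (a : ℝ × ℝ) (v s : ℝ) : ℝ≥0∞ := ∑' p : ℤ × ℤ, (if nz p ≤ L then chi p a v s else 0)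

/-- constraints, with many points near the origin -/
def U3 (s L lo hi : ℝ) (B : ℝ≥0∞) (P : Z2) : Set ((ℝ × ℝ) × ℝ) :=
  {x | (|x.2| ≤ s ∧ |gp P.1 x| ≤ s ∧ |gp P.2 x| ≤ s) ∧ x.2 + sqn x.1 ∈ Icc lo hi ∧ B ≤ nl L x.1 (x.2 + sqn x.1) s}

/-- constraints, with many points in a wider annulus -/
def V3 (s s2 lo hi : ℝ) (B : ℝ≥0∞) (P : Z2) : Set ((ℝ × ℝ) × ℝ) :=
  {x | (|x.2| ≤ s ∧ |gp P.1 x| ≤ s ∧ |gp P.2 x| ≤ s) ∧ x.2 + sqn x.1 ∈ Icc lo hi ∧ B ≤ nn x.1 (x.2 + sqn x.1) s2}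

lemma dp_err {p : ℤ × ℤ} {s : ℝ} {x : (ℝ × ℝ) × ℝ} (hx : |x.2| ≤ s) (h1 : |gp p x| ≤ s) :
    |dp p x.1 - nz p ^ 2 / 2| ≤ s := by
  have : dp p x.1 - nz p ^ 2 / 2 = -(x.2 + gp p x)/2 := by
    unfold gp; rw [nz_sq]; ring
  rw [this, abs_div, abs_neg]
  have := abs_add_le x.2 (gp p x)
  have h22 : |(2:ℝ)| = 2 := by norm_num
  rw [h22]
  linarith

lemma det_two {p q : ℤ × ℤ} {s : ℝ} {x : (ℝ × ℝ) × ℝ} (hx : |x.2| ≤ s) (h1 : |gp p x| ≤ s) (h2 : |gp q x| ≤ s) :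
    nz p * nz q * nz (p - q) / 2 - s * (nz p + nz q) ≤ ‖ac x.1‖ * |(dt p q : ℝ)| ∧
    ‖ac x.1‖ * |(dt p q : ℝ)| ≤ nz p * nz q * nz (p - q) / 2 + s * (nz p + nz q) := by
  have he1 := dp_err hx h1
  have he2 := dp_err hx h2
  have hp0 := nz_nonneg p
  have hq0 := nz_nonneg q
  obtain ⟨ep, hep⟩ : ∃ ep : ℝ, ep = dp p x.1 - nz p ^ 2 / 2 := ⟨_, rfl⟩
  obtain ⟨eq, heq⟩ : ∃ eq : ℝ, eq = dp q x.1 - nz q ^ 2 / 2 := ⟨_, rfl⟩
  rw [← hep] at he1
  rw [← heq] at he2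
  have hid := det_id p q x.1
  have hdp : (dp p x.1 : ℂ) = ((nz p ^ 2 : ℝ) : ℂ) / 2 + (ep : ℂ) := by rw [hep]; push_cast; ring
  have hdq : (dp q x.1 : ℂ) = ((nz q ^ 2 : ℝ) : ℂ) / 2 + (eq : ℂ) := by rw [heq]; push_cast; ring
  have hn : ‖ac x.1‖ * |(dt p q : ℝ)| = ‖(1/2 : ℂ) * (((nz q ^ 2 : ℝ) : ℂ) * pc p - ((nz p ^ 2 : ℝ) : ℂ) * pc q) +
      ((eq : ℂ) * pc p - (ep : ℂ) * pc q)‖ := by
    have := congrArg norm hid
    rw [norm_mul, norm_mul, Complex.norm_I, one_mul] at this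
    have e0 : ‖(dt p q : ℂ)‖ = |(dt p q : ℝ)| := by
      rw [show (dt p q : ℂ) = ((dt p q : ℝ) : ℂ) by push_cast; rfl, Complex.norm_real, Real.norm_eq_abs]
    rw [e0] at this
    rw [this, hdp, hdq]
    congr 1; ring
  have hmain : ‖(1/2 : ℂ) * (((nz q ^ 2 : ℝ) : ℂ) * pc p - ((nz p ^ 2 : ℝ) : ℂ) * pc q)‖ = nz p * nz q * nz (p - q) / 2 := by
    rw [norm_mul, inv_id]
    norm_num
    ring
  have herr : ‖(eq : ℂ) * pc p - (ep : ℂ) * pc q‖ ≤ s * (nz p + nz q) := by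
    refine (norm_sub_le _ _).trans ?_
    rw [norm_mul, norm_mul, Complex.norm_real, Complex.norm_real, Real.norm_eq_abs, Real.norm_eq_abs,
      norm_pc, norm_pc]
    have a1 : |eq| * nz p ≤ s * nz p := by gcongr
    have a2 : |ep| * nz q ≤ s * nz q := by gcongr
    calc |eq| * nz p + |ep| * nz q ≤ s * nz p + s * nz q := add_le_add a1 a2
      _ = _ := by ring
  have htri := norm_sub_le_norm_add ((1/2 : ℂ) * (((nz q ^ 2 : ℝ) : ℂ) * pc p - ((nz p ^ 2 : ℝ) : ℂ) * pc q))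
    ((eq : ℂ) * pc p - (ep : ℂ) * pc q)
  have htri2 := norm_add_le ((1/2 : ℂ) * (((nz q ^ 2 : ℝ) : ℂ) * pc p - ((nz p ^ 2 : ℝ) : ℂ) * pc q))
    ((eq : ℂ) * pc p - (ep : ℂ) * pc q)
  rw [← hn, hmain] at htri htri2
  constructor <;> linarith

lemma det_lo {p q : ℤ × ℤ} {s L r T : ℝ} (hr : 1 ≤ r) (hL : 0 < L) (hs0 : 0 ≤ s) (hs : 16 * s * r ^ 3 ≤ L ^ 2)
    (p1 : L / r ≤ nz p) (p2 : nz p ≤ 2 * L) (q1 : L / r ≤ nz q) (q2 : nz q ≤ 2 * L) (d1 : L / r ≤ nz (p - q))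
    {x : (ℝ × ℝ) × ℝ} (hx : |x.2| ≤ s) (h1 : |gp p x| ≤ s) (h2 : |gp q x| ≤ s) (ha : ‖ac x.1‖ ≤ 3 * T) :
    L ^ 3 ≤ 12 * r ^ 3 * T * |(dt p q : ℝ)| := by
  have h := (det_two hx h1 h2).1
  have hr0 : 0 < r := by linarith
  have hLr : 0 < L / r := by positivity
  have hpn := nz_nonneg p
  have hqn := nz_nonneg q
  have e1 : (L / r) ^ 3 ≤ nz p * nz q * nz (p - q) := by
    calc (L / r) ^ 3 = (L / r) * (L / r) * (L / r) := by ring
      _ ≤ _ := by gcongr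
  have e2 : s * (nz p + nz q) ≤ (L / r) ^ 3 / 4 := by
    calc s * (nz p + nz q) ≤ s * (4 * L) := by gcongr; linarith
      _ ≤ (L / r) ^ 3 / 4 := by
          rw [div_pow, div_div, le_div_iff₀ (by positivity)]
          calc s * (4 * L) * (r ^ 3 * 4) = (16 * s * r ^ 3) * L := by ring
            _ ≤ L ^ 2 * L := by gcongr
            _ = L ^ 3 := by ring
  have e3 : (L / r) ^ 3 / 4 ≤ ‖ac x.1‖ * |(dt p q : ℝ)| := by linarith
  have e4 : ‖ac x.1‖ * |(dt p q : ℝ)| ≤ 3 * T * |(dt p q : ℝ)| := by gcongr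
  have e5 : (L / r) ^ 3 ≤ 12 * T * |(dt p q : ℝ)| := by linarith
  rw [div_pow, div_le_iff₀ (by positivity)] at e5
  calc L ^ 3 ≤ _ := e5
    _ = _ := by ring

lemma det_up {p q : ℤ × ℤ} {s L T : ℝ} (hL : 0 < L) (hs0 : 0 ≤ s) (hs : 16 * s ≤ L ^ 2)
    (p2 : nz p ≤ 2 * L) (q2 : nz q ≤ 2 * L)
    {x : (ℝ × ℝ) × ℝ} (hx : |x.2| ≤ s) (h1 : |gp p x| ≤ s) (h2 : |gp q x| ≤ s) (ha : 35 / 100 * T ≤ ‖ac x.1‖) :
    T * |(dt p q : ℝ)| ≤ 26 * L ^ 3 := by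
  have h := (det_two hx h1 h2).2
  have hp := nz_nonneg p
  have hq := nz_nonneg q
  have hd : nz (p - q) ≤ 4 * L := by
    have := nz_add_le p (-q)
    rw [nz_neg, ← sub_eq_add_neg] at this
    linarith
  have hd0 := nz_nonneg (p - q)
  have e1 : nz p * nz q * nz (p - q) ≤ (2 * L) * (2 * L) * (4 * L) := by gcongr
  have e2 : s * (nz p + nz q) ≤ L ^ 3 / 4 := by
    calc s * (nz p + nz q) ≤ s * (4 * L) := by gcongr; linarith
      _ = (16 * s) * L / 4 := by ring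
      _ ≤ L ^ 2 * L / 4 := by gcongr
      _ = _ := by ring
  have e3 : ‖ac x.1‖ * |(dt p q : ℝ)| ≤ 9 * L ^ 3 := by
    have : 0 ≤ L ^ 3 := by positivity
    nlinarith
  have e4 : 35 / 100 * T * |(dt p q : ℝ)| ≤ ‖ac x.1‖ * |(dt p q : ℝ)| := by gcongr
  have : 0 ≤ L ^ 3 := by positivity
  nlinarith

lemma dp_diff {p : ℤ × ℤ} {s : ℝ} {x y : (ℝ × ℝ) × ℝ} (hx : |x.2| ≤ s) (hy : |y.2| ≤ s)
    (h1 : |gp p x| ≤ s) (h2 : |gp p y| ≤ s) : |dp p (x.1 - y.1)| ≤ 2 * s := by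
  have : dp p (x.1 - y.1) = (-(gp p x - gp p y) - (x.2 - y.2))/2 := by
    unfold gp dp; simp only [Prod.fst_sub, Prod.snd_sub]; ring
  rw [this, abs_div]
  have e1 := abs_sub (-(gp p x - gp p y)) (x.2 - y.2)
  have e2 := abs_sub (gp p x) (gp p y)
  have e3 := abs_sub x.2 y.2
  rw [abs_neg] at e1
  have h22 : |(2:ℝ)| = 2 := by norm_num
  rw [h22]
  linarith

lemma disp3 {p q : ℤ × ℤ} {s L r T : ℝ} (hL : 0 < L) (hr : 1 ≤ r) (hT : 0 ≤ T)
    (p2 : nz p ≤ 2 * L) (q2 : nz q ≤ 2 * L) (hdet : L ^ 3 ≤ 12 * r ^ 3 * T * |(dt p q : ℝ)|)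
    {x y : (ℝ × ℝ) × ℝ} (hx : |x.2| ≤ s) (h1 : |gp p x| ≤ s) (h2 : |gp q x| ≤ s)
    (hy : |y.2| ≤ s) (h3 : |gp p y| ≤ s) (h4 : |gp q y| ≤ s) :
    ‖ac (x.1 - y.1)‖ * L ^ 2 ≤ 96 * r ^ 3 * s * T := by
  have g1 := dp_diff hx hy h1 h3
  have g2 := dp_diff hx hy h2 h4
  have hs0 : 0 ≤ s := (abs_nonneg _).trans hx
  have hid := det_id p q (x.1 - y.1)
  have := congrArg norm hid
  rw [norm_mul, norm_mul, Complex.norm_I, one_mul] at this
  have e0 : ‖(dt p q : ℂ)‖ = |(dt p q : ℝ)| := by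
    rw [show (dt p q : ℂ) = ((dt p q : ℝ) : ℂ) by push_cast; rfl, Complex.norm_real, Real.norm_eq_abs]
  rw [e0] at this
  have hb : ‖(dp q (x.1 - y.1) : ℂ) * pc p - (dp p (x.1 - y.1) : ℂ) * pc q‖ ≤ 8 * s * L := by
    refine (norm_sub_le _ _).trans ?_
    rw [norm_mul, norm_mul, Complex.norm_real, Complex.norm_real, Real.norm_eq_abs, Real.norm_eq_abs,
      norm_pc, norm_pc]
    have hp := nz_nonneg p
    have hq := nz_nonneg q
    have a1 : |dp q (x.1 - y.1)| * nz p ≤ 2 * s * (2 * L) := by gcongr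
    have a2 : |dp p (x.1 - y.1)| * nz q ≤ 2 * s * (2 * L) := by gcongr
    linarith
  rw [← this] at hb
  have hn := norm_nonneg (ac (x.1 - y.1))
  have e1 : (‖ac (x.1 - y.1)‖ * L ^ 2) * L ≤ (96 * r ^ 3 * s * T) * L := by
    calc (‖ac (x.1 - y.1)‖ * L ^ 2) * L = ‖ac (x.1 - y.1)‖ * L ^ 3 := by ring
      _ ≤ ‖ac (x.1 - y.1)‖ * (12 * r ^ 3 * T * |(dt p q : ℝ)|) := by gcongr
      _ = 12 * r ^ 3 * T * (‖ac (x.1 - y.1)‖ * |(dt p q : ℝ)|) := by ring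
      _ ≤ 12 * r ^ 3 * T * (8 * s * L) := by gcongr
      _ = _ := by ring
  exact le_of_mul_le_mul_right e1 hL

lemma bary (p1 p2 q : ℤ × ℤ) (w : ℝ × ℝ) :
    (dt p1 p2 : ℝ) * dp q w = (dt q p2 : ℝ) * dp p1 w + (dt p1 q : ℝ) * dp p2 w := by
  unfold dt dp; push_cast; ring

lemma dt_comm (p q : ℤ × ℤ) : dt p q = - dt q p := by unfold dt; ring

/-- number of points near the origin -/
lemma nl_le {L : ℝ} (hL : 0 ≤ L) (a : ℝ × ℝ) (v s : ℝ) : nl L a v s ≤ ENNReal.ofReal ((2 * L + 3) ^ 2) := by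
  have h1 : nl L a v s ≤ ∑' p : ℤ × ℤ, (if p ∈ box ⌈L⌉₊ then (1:ℝ≥0∞) else 0) := by
    unfold nl
    apply ENNReal.tsum_le_tsum
    intro p
    by_cases h : nz p ≤ L
    · rw [if_pos h, if_pos (mem_box_of_nz (h.trans (Nat.le_ceil L)))]
      exact chi_le_one _ _ _ _
    · rw [if_neg h]; exact zero_le
  refine h1.trans ?_
  rw [tsum_eq_sum (s := box ⌈L⌉₊) (fun p hp => if_neg hp)]
  rw [Finset.sum_congr rfl (fun p hp => if_pos hp)]
  rw [Finset.sum_const, nsmul_eq_mul, mul_one, card_box, ← ENNReal.ofReal_natCast]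
  apply ENNReal.ofReal_le_ofReal
  push_cast
  have := Nat.ceil_lt_add_one hL
  have h0 : (0:ℝ) ≤ (⌈L⌉₊:ℝ) := by positivity
  exact pow_le_pow_left₀ (by positivity) (by linarith) 2

/-- the dilation of the set of annuli -/
lemma dil_mem3 {P : Z2} {T s l L r B : ℝ} (hT : 1 ≤ T) (hs0 : 0 < s) (hr : 1 ≤ r) (hl : 1 ≤ l) (hL : 0 < L)
    (hB : 50 ≤ B) (hls : 5 * 10 ^ 6 * r ^ 3 * (l * s) ≤ B) (hlT : l * s ≤ T ^ 2 / 1000)
    (p1 : L / r ≤ nz P.1) (p2 : nz P.1 ≤ 2 * L) (q1 : L / r ≤ nz P.2) (q2 : nz P.2 ≤ 2 * L)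
    (d1 : L / r ≤ nz (P.1 - P.2))
    {x y : (ℝ × ℝ) × ℝ} (hx : x ∈ U3 s (2 * L) (T^2/4) (8*T^2) (ENNReal.ofReal B) P)
    (hy : y ∈ U3 s (2 * L) (T^2/4) (8*T^2) (ENNReal.ofReal B) P) :
    l • (x - y) + y ∈ V3 (2 * l * s) (2500 * r ^ 3 * (l * s)) ((T/4)^2) ((4*T)^2) (ENNReal.ofReal B) P := by
  obtain ⟨⟨x0, x1, x2⟩, x4, -⟩ := hx
  obtain ⟨⟨y0, y1, y2⟩, y4, y5⟩ := hy
  rw [Set.mem_Icc] at x4 y4
  have hT2 : 1 ≤ T ^ 2 := one_le_pow₀ hT
  have hr3 : 1 ≤ r ^ 3 := one_le_pow₀ hr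
  have hsl : s ≤ l * s := by nlinarith
  -- `L` is large
  have hL2 : B ≤ 50 * L ^ 2 := by
    have h := y5.trans (nl_le (by positivity) _ _ _)
    rw [ENNReal.ofReal_le_ofReal_iff (by positivity)] at h
    have h1 : 1 ≤ L := by
      by_contra hc
      push Not at hc
      nlinarith
    nlinarith
  have hls2 : 96000 * r ^ 3 * (l * s) ≤ L ^ 2 := by nlinarith
  have hs16 : 16 * s * r ^ 3 ≤ L ^ 2 := by nlinarith [mul_le_mul_of_nonneg_left hsl (by positivity : 0 ≤ r ^ 3)]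
  have hs16' : 16 * s ≤ L ^ 2 := by nlinarith
  have hxb : ‖ac x.1‖ ≤ 3 * T := by
    apply abs_le_of_sq_le_sq' _ (by linarith) |>.2
    rw [sqn_eq]
    have := neg_abs_le x.2
    nlinarith [x4.2]
  have hdet := det_lo hr hL hs0.le hs16 p1 p2 q1 q2 d1 x0 x1 x2 hxb
  have hd := disp3 hL hr (by linarith) p2 q2 hdet x0 x1 x2 y0 y1 y2
  set z := l • (x - y) + y with hz
  have hz2 : |z.2| ≤ 2 * l * s := by
    have : z.2 = (1 - l) * y.2 + l * x.2 := by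
      rw [hz]; simp only [Prod.snd_add, Prod.smul_snd, Prod.snd_sub, smul_eq_mul]; ring
    rw [this]
    exact abs_comb_le hl y0 x0
  have hac : ac z.1 = (l : ℂ) * ac (x.1 - y.1) + ac y.1 := by
    rw [hz]; unfold ac
    simp only [Prod.fst_add, Prod.snd_add, Prod.smul_fst, Prod.smul_snd, Prod.fst_sub, Prod.snd_sub, smul_eq_mul]
    push_cast; ring
  have hdz : ‖(l : ℂ) * ac (x.1 - y.1)‖ ≤ T / 1000 := by
    rw [norm_mul, Complex.norm_real, Real.norm_eq_abs, abs_of_nonneg (by linarith : 0 ≤ l)]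
    have h1 : (l * ‖ac (x.1 - y.1)‖) * L ^ 2 ≤ (T / 1000) * L ^ 2 := by
      calc (l * ‖ac (x.1 - y.1)‖) * L ^ 2 = l * (‖ac (x.1 - y.1)‖ * L ^ 2) := by ring
        _ ≤ l * (96 * r ^ 3 * s * T) := by gcongr
        _ = (T / 1000) * (96000 * r ^ 3 * (l * s)) := by ring
        _ ≤ (T / 1000) * L ^ 2 := by gcongr
    exact le_of_mul_le_mul_right h1 (by positivity)
  have hN := sqn_eq y.1
  have hN' := sqn_eq z.1
  have hup : ‖ac z.1‖ ≤ ‖ac y.1‖ + T / 1000 := by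
    rw [hac]
    refine (norm_add_le _ _).trans ?_
    linarith
  have hlo : ‖ac y.1‖ - T / 1000 ≤ ‖ac z.1‖ := by
    have : ac y.1 = ac z.1 - (l : ℂ) * ac (x.1 - y.1) := by rw [hac]; ring
    have h5 := norm_sub_le (ac z.1) ((l : ℂ) * ac (x.1 - y.1))
    rw [← this] at h5
    linarith
  have hNn := norm_nonneg (ac y.1)
  have hNn' := norm_nonneg (ac z.1)
  have b1 := (abs_le.mp y0)
  have b2 := (abs_le.mp hz2)
  have hlo1 : 35/100 * T ≤ ‖ac y.1‖ := by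
    apply abs_le_of_sq_le_sq' _ hNn |>.2
    rw [hN]; nlinarith [y4.1, b1.2]
  have hup1 : ‖ac y.1‖ ≤ 286/100 * T := by
    apply abs_le_of_sq_le_sq' _ (by linarith) |>.2
    rw [hN]; nlinarith [y4.2, b1.1]
  have hlo2 : 33/100 * T ≤ ‖ac z.1‖ := by linarith
  have hup2 : ‖ac z.1‖ ≤ 288/100 * T := by linarith
  have hlo3 : (33/100 * T) ^ 2 ≤ sqn z.1 := by
    rw [← hN']; gcongr
  have hup3 : sqn z.1 ≤ (288/100 * T) ^ 2 := by
    rw [← hN']; gcongr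
  have hls3 : 2 * l * s ≤ T ^ 2 / 500 := by
    have : 2 * l * s = 2 * (l * s) := by ring
    rw [this]; linarith
  refine ⟨⟨hz2, ?_, ?_⟩, ⟨?_, ?_⟩, ?_⟩
  · rw [gp_dil]; exact abs_comb_le hl y1 x1
  · rw [gp_dil]; exact abs_comb_le hl y2 x2
  · nlinarith
  · nlinarith
  · refine y5.trans ?_
    unfold nl nn
    apply ENNReal.tsum_le_tsum
    intro q
    by_cases hq : nz q ≤ 2 * L
    · rw [if_pos hq]
      by_cases hqc : |gp q y| ≤ s
      · have hgoal : |gp q z| ≤ 2500 * r ^ 3 * (l * s) := by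
          have u1 := det_up hL hs0.le hs16' hq q2 y0 hqc y2 hlo1
          have u2 := det_up hL hs0.le hs16' p2 hq y0 y1 hqc hlo1
          have hzy : z.1 - y.1 = (l * (x.1 - y.1).1, l * (x.1 - y.1).2) := by
            rw [hz]; ext <;> simp
          have w1 : |dp P.1 (z.1 - y.1)| ≤ 2 * (l * s) := by
            have : dp P.1 (z.1 - y.1) = l * dp P.1 (x.1 - y.1) := by
              rw [hzy]; unfold dp; ring
            rw [this, abs_mul, abs_of_nonneg (by linarith : 0 ≤ l)]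
            calc l * |dp P.1 (x.1 - y.1)| ≤ l * (2 * s) := by gcongr; exact dp_diff x0 y0 x1 y1
              _ = _ := by ring
          have w2 : |dp P.2 (z.1 - y.1)| ≤ 2 * (l * s) := by
            have : dp P.2 (z.1 - y.1) = l * dp P.2 (x.1 - y.1) := by
              rw [hzy]; unfold dp; ring
            rw [this, abs_mul, abs_of_nonneg (by linarith : 0 ≤ l)]
            calc l * |dp P.2 (x.1 - y.1)| ≤ l * (2 * s) := by gcongr; exact dp_diff x0 y0 x2 y2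
              _ = _ := by ring
          have w3 := bary P.1 P.2 q (z.1 - y.1)
          have w4 : |(dt P.1 P.2 : ℝ)| * |dp q (z.1 - y.1)| ≤
              |(dt q P.2 : ℝ)| * (2 * (l * s)) + |(dt P.1 q : ℝ)| * (2 * (l * s)) := by
            rw [← abs_mul, w3]
            refine (abs_add_le _ _).trans ?_
            rw [abs_mul, abs_mul]
            gcongr
          have hls0 : 0 < l * s := by positivity
          have w5 : (T * |(dt P.1 P.2 : ℝ)|) * |dp q (z.1 - y.1)| ≤ 104 * L ^ 3 * (l * s) := by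
            calc (T * |(dt P.1 P.2 : ℝ)|) * |dp q (z.1 - y.1)| = T * (|(dt P.1 P.2 : ℝ)| * |dp q (z.1 - y.1)|) := by ring
              _ ≤ T * (|(dt q P.2 : ℝ)| * (2 * (l * s)) + |(dt P.1 q : ℝ)| * (2 * (l * s))) := by gcongr
              _ = (T * |(dt q P.2 : ℝ)|) * (2 * (l * s)) + (T * |(dt P.1 q : ℝ)|) * (2 * (l * s)) := by ring
              _ ≤ (26 * L ^ 3) * (2 * (l * s)) + (26 * L ^ 3) * (2 * (l * s)) := by gcongr
              _ = _ := by ring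
          have w6 : |dp q (z.1 - y.1)| ≤ 1248 * r ^ 3 * (l * s) := by
            have hL3 : 0 < L ^ 3 := by positivity
            have : |dp q (z.1 - y.1)| * L ^ 3 ≤ (1248 * r ^ 3 * (l * s)) * L ^ 3 := by
              calc |dp q (z.1 - y.1)| * L ^ 3 ≤ |dp q (z.1 - y.1)| * (12 * r ^ 3 * T * |(dt P.1 P.2 : ℝ)|) := by gcongr
                _ = 12 * r ^ 3 * ((T * |(dt P.1 P.2 : ℝ)|) * |dp q (z.1 - y.1)|) := by ring
                _ ≤ 12 * r ^ 3 * (104 * L ^ 3 * (l * s)) := by gcongr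
                _ = _ := by ring
            exact le_of_mul_le_mul_right this hL3
          have w7 : gp q z = gp q y - 2 * dp q (z.1 - y.1) - z.2 + y.2 := by
            unfold gp dp; simp only [Prod.fst_sub, Prod.snd_sub]; ring
          have w8 : |gp q z| ≤ |gp q y| + 2 * |dp q (z.1 - y.1)| + |z.2| + |y.2| := by
            rw [w7]
            have t1 := abs_add_le (gp q y - 2 * dp q (z.1 - y.1) - z.2) y.2
            have t2 := abs_sub (gp q y - 2 * dp q (z.1 - y.1)) z.2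
            have t3 := abs_sub (gp q y) (2 * dp q (z.1 - y.1))
            rw [abs_mul, show |(2:ℝ)| = 2 by norm_num] at t3
            linarith
          have w9 : l * s ≤ r ^ 3 * (l * s) := by nlinarith
          nlinarith
        have hgoal' : |d2 q z.1 - (z.2 + sqn z.1)| ≤ 2500 * r ^ 3 * (l * s) := by
          rw [gp_eq]; exact hgoal
        rw [chi_one hgoal']
        exact chi_le_one _ _ _ _
      · have hqc' : ¬ |d2 q y.1 - (y.2 + sqn y.1)| ≤ s := by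
          rw [gp_eq]; exact hqc
        rw [chi_nil hqc']; exact zero_le
    · rw [if_neg hq]; exact zero_le

lemma vol_dil3 {P : Z2} {T s l L r B : ℝ} (hT : 1 ≤ T) (hs0 : 0 < s) (hr : 1 ≤ r) (hl : 1 ≤ l) (hL : 0 < L)
    (hB : 50 ≤ B) (hls : 5 * 10 ^ 6 * r ^ 3 * (l * s) ≤ B) (hlT : l * s ≤ T ^ 2 / 1000)
    (p1 : L / r ≤ nz P.1) (p2 : nz P.1 ≤ 2 * L) (q1 : L / r ≤ nz P.2) (q2 : nz P.2 ≤ 2 * L)
    (d1 : L / r ≤ nz (P.1 - P.2)) :
    ENNReal.ofReal (l ^ 3) * volume (U3 s (2 * L) (T^2/4) (8*T^2) (ENNReal.ofReal B) P) ≤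
      volume (V3 (2 * l * s) (2500 * r ^ 3 * (l * s)) ((T/4)^2) ((4*T)^2) (ENNReal.ofReal B) P) := by
  rcases Set.eq_empty_or_nonempty (U3 s (2 * L) (T^2/4) (8*T^2) (ENNReal.ofReal B) P) with h | ⟨y, hy⟩
  · rw [h]; simp
  · have hh := haar3
    have h4 := Measure.addHaar_image_homothety (volume : Measure ((ℝ × ℝ) × ℝ)) y l
      (U3 s (2 * L) (T^2/4) (8*T^2) (ENNReal.ofReal B) P)
    have hf : Module.finrank ℝ ((ℝ × ℝ) × ℝ) = 3 := by simp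
    rw [hf, abs_of_nonneg (by positivity)] at h4
    rw [← h4]
    apply measure_mono
    rintro z ⟨x, hx, rfl⟩
    rw [AffineMap.homothety_apply]
    exact dil_mem3 hT hs0 hr hl hL hB hls hlT p1 p2 q1 q2 d1 hx hy

end Pool.Agent.H593.U
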