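import Mathlib
import Pool.Agent.H593.U6.TGeo
import Pool.Agent.H593.U.StepA

/-!
# Measure of the set of annuli with many lattice points
-/

open MeasureTheory Set Filter Topology
open Pool.Agent.H383.Gauss
open scoped ENNReal

namespace Pool.Agent.H593.U

/-- indicator of a triple -/
noncomputable def H3 (P : Z2) (a : ℝ × ℝ) (v s : ℝ) : ℝ≥0∞ := chi 0 a v s * (chi P.1 a v s * chi P.2 a v s)

lemma measurable_H3 (P : Z2) (s : ℝ) : Measurable (fun x : (ℝ × ℝ) × ℝ => H3 P x.1 x.2 s) := by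
  unfold H3
  exact (measurable_chi 0 s).mul ((measurable_chi P.1 s).mul (measurable_chi P.2 s))

/-- the shear -/
def shr (x : (ℝ × ℝ) × ℝ) : (ℝ × ℝ) × ℝ := (x.1, x.2 + sqn x.1)

lemma measurable_shr : Measurable shr := by
  have := continuous_sqn
  unfold shr
  apply Continuous.measurable
  fun_prop

/-- integration over annuli in sheared coordinates -/
lemma shear_lint {f : (ℝ × ℝ) × ℝ → ℝ≥0∞} (hf : Measurable f) (lo hi : ℝ) :
    ∫⁻ v in Icc lo hi, ∫⁻ a, f (a, v) =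
      ∫⁻ x : (ℝ × ℝ) × ℝ, {x : (ℝ × ℝ) × ℝ | x.2 + sqn x.1 ∈ Icc lo hi}.indicator (fun x => f (shr x)) x := by
  have hm2 : Measurable (fun x : ℝ × (ℝ × ℝ) => f (x.2, x.1)) := hf.comp (measurable_swap (α := ℝ) (β := ℝ × ℝ))
  rw [← lintegral_indicator measurableSet_Icc]
  have e1 : ∀ v : ℝ, (Icc lo hi).indicator (fun v => ∫⁻ a, f (a, v)) v =
      ∫⁻ a, (Icc lo hi).indicator (fun v => f (a, v)) v := by
    intro v
    by_cases h : v ∈ Icc lo hi
    · simp only [Set.indicator_of_mem h]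
    · simp only [Set.indicator_of_notMem h, lintegral_zero]
  simp_rw [e1]
  have hm3 : AEMeasurable (Function.uncurry fun (x : ℝ) (y : ℝ × ℝ) => (Icc lo hi).indicator (fun v => f (y, v)) x)
      ((volume : Measure ℝ).prod (volume : Measure (ℝ × ℝ))) := by
    apply Measurable.aemeasurable
    have : (Function.uncurry fun (x : ℝ) (y : ℝ × ℝ) => (Icc lo hi).indicator (fun v => f (y, v)) x) =
        (Prod.fst ⁻¹' (Icc lo hi)).indicator (fun x : ℝ × (ℝ × ℝ) => f (x.2, x.1)) := by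
      ext x
      rfl
    rw [this]
    exact hm2.indicator (measurableSet_Icc.preimage measurable_fst)
  rw [lintegral_lintegral_swap hm3]
  have hS : MeasurableSet {x : (ℝ × ℝ) × ℝ | x.2 + sqn x.1 ∈ Icc lo hi} := by
    have := continuous_sqn
    have hc : Continuous (fun x : (ℝ × ℝ) × ℝ => x.2 + sqn x.1) := by fun_prop
    exact (isClosed_Icc.preimage hc).measurableSet
  have hm4 : AEMeasurable (fun x : (ℝ × ℝ) × ℝ => {x : (ℝ × ℝ) × ℝ | x.2 + sqn x.1 ∈ Icc lo hi}.indicator (fun x => f (shr x)) x)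
      ((volume : Measure (ℝ × ℝ)).prod (volume : Measure ℝ)) := by
    apply Measurable.aemeasurable
    exact (hf.comp measurable_shr).indicator hS
  rw [Measure.volume_eq_prod (ℝ × ℝ) ℝ, lintegral_prod _ hm4]
  congr 1
  ext a
  rw [← lintegral_add_right_eq_self (fun v => (Icc lo hi).indicator (fun v => f (a, v)) v) (sqn a)]
  rfl

/-- the set of constraints for a triple, with an additional condition `E` -/
def W3 (s lo hi : ℝ) (E : Set ((ℝ × ℝ) × ℝ)) (P : Z2) : Set ((ℝ × ℝ) × ℝ) :=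
  {x | (|x.2| ≤ s ∧ |gp P.1 x| ≤ s ∧ |gp P.2 x| ≤ s) ∧ x.2 + sqn x.1 ∈ Icc lo hi ∧ shr x ∈ E}

lemma measurableSet_W3 (s lo hi : ℝ) {E : Set ((ℝ × ℝ) × ℝ)} (hE : MeasurableSet E) (P : Z2) :
    MeasurableSet (W3 s lo hi E P) := by
  have h1 : ∀ p : ℤ × ℤ, Continuous (gp p) := by
    intro p
    have := continuous_dp p
    unfold gp
    fun_prop
  have h2 := continuous_sqn
  have c1 := h1 P.1
  have c2 := h1 P.2
  have e : W3 s lo hi E P = ({x | |x.2| ≤ s} ∩ ({x | |gp P.1 x| ≤ s} ∩ {x | |gp P.2 x| ≤ s})) ∩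
      ({x | x.2 + sqn x.1 ∈ Icc lo hi} ∩ shr ⁻¹' E) := by
    ext x; rfl
  rw [e]
  refine MeasurableSet.inter (MeasurableSet.inter ?_ (MeasurableSet.inter ?_ ?_)) (MeasurableSet.inter ?_ ?_)
  · exact (isClosed_le (by fun_prop) continuous_const).measurableSet
  · exact (isClosed_le (by fun_prop) continuous_const).measurableSet
  · exact (isClosed_le (by fun_prop) continuous_const).measurableSet
  · have hc : Continuous (fun x : (ℝ × ℝ) × ℝ => x.2 + sqn x.1) := by fun_prop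
    exact (isClosed_Icc.preimage hc).measurableSet
  · exact measurable_shr hE

lemma int_H3 (s lo hi : ℝ) {E : Set ((ℝ × ℝ) × ℝ)} (hE : MeasurableSet E) (P : Z2) :
    ∫⁻ v in Icc lo hi, ∫⁻ a, H3 P a v s * E.indicator (fun _ => 1) (a, v) = volume (W3 s lo hi E P) := by
  have hf : Measurable (fun x : (ℝ × ℝ) × ℝ => H3 P x.1 x.2 s * E.indicator (fun _ => 1) x) :=
    (measurable_H3 P s).mul (measurable_const.indicator hE)
  have h := shear_lint hf lo hi
  simp only at h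
  rw [h]
  have h2 : volume (W3 s lo hi E P) = ∫⁻ x : (ℝ × ℝ) × ℝ, (W3 s lo hi E P).indicator (fun _ => (1:ℝ≥0∞)) x := by
    rw [lintegral_indicator_const (measurableSet_W3 s lo hi hE P), one_mul]
  rw [h2]
  congr 1
  ext x
  have k : ∀ p : ℤ × ℤ, |d2 p x.1 - (x.2 + sqn x.1)| ≤ s ↔ |gp p x| ≤ s := by
    intro p; rw [gp_eq]
  have k0 : |d2 0 x.1 - (x.2 + sqn x.1)| ≤ s ↔ |x.2| ≤ s := by
    rw [k]; unfold gp dp; simp
  by_cases hmem : x ∈ W3 s lo hi E P
  · rw [Set.indicator_of_mem hmem]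
    obtain ⟨⟨h0, h1, h2⟩, h3, h4⟩ := hmem
    rw [Set.indicator_of_mem (by exact h3)]
    rw [Set.indicator_of_mem h4, mul_one]
    unfold H3 shr
    simp only
    rw [chi_one (k0.mpr h0), chi_one ((k _).mpr h1), chi_one ((k _).mpr h2)]
    simp
  · rw [Set.indicator_of_notMem hmem]
    by_cases h3 : x.2 + sqn x.1 ∈ Icc lo hi
    · rw [Set.indicator_of_mem (by exact h3)]
      by_cases h4 : shr x ∈ E
      · unfold H3 shr
        simp only
        by_cases h0 : |x.2| ≤ s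
        · by_cases h1 : |gp P.1 x| ≤ s
          · by_cases h2 : |gp P.2 x| ≤ s
            · exact absurd ⟨⟨h0, h1, h2⟩, h3, h4⟩ hmem
            · rw [chi_nil (p := P.2) (fun hh => h2 ((k _).mp hh))]; simp
          · rw [chi_nil (p := P.1) (fun hh => h1 ((k _).mp hh))]; simp
        · rw [chi_nil (p := 0) (fun hh => h0 (k0.mp hh))]; simp
      · rw [Set.indicator_of_notMem h4, mul_zero]
    · rw [Set.indicator_of_notMem (by exact h3)]

lemma tsum_H3 (a : ℝ × ℝ) (v s : ℝ) : ∑' P : Z2, H3 P a v s = chi 0 a v s * nn a v s ^ 2 := by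
  unfold H3
  rw [ENNReal.tsum_mul_left]
  congr 1
  rw [ENNReal.tsum_prod (f := fun p q => chi p a v s * chi q a v s)]
  unfold nn
  rw [sq, ← ENNReal.tsum_mul_right]
  congr 1
  ext p
  rw [ENNReal.tsum_mul_left]

/-- the set of annuli with many points -/
def lvl (B : ℝ≥0∞) (s : ℝ) : Set ((ℝ × ℝ) × ℝ) := {x | B ≤ nn x.1 x.2 s}

lemma measurableSet_lvl (B : ℝ≥0∞) (s : ℝ) : MeasurableSet (lvl B s) :=
  measurableSet_le measurable_const (measurable_nn s)

/-- third moment over the annuli with many points -/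
noncomputable def TT (p : ℕ) (lo hi s s2 : ℝ) (B : ℝ≥0∞) : ℝ≥0∞ :=
  ∫⁻ v in Icc lo hi, ∫⁻ a in Q, nn a v s ^ p * (lvl B s2).indicator (fun _ => 1) (a, v)

lemma TT_three (lo hi s s2 : ℝ) (B : ℝ≥0∞) :
    TT 3 lo hi s s2 B = ∑' P : Z2, volume (W3 s lo hi (lvl B s2) P) := by
  have hE := measurableSet_lvl B s2
  unfold TT
  have hmP : ∀ P : Z2, Measurable (fun x : (ℝ × ℝ) × ℝ => H3 P x.1 x.2 s * (lvl B s2).indicator (fun _ => 1) x) :=
    fun P => (measurable_H3 P s).mul (measurable_const.indicator hE)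
  have e : ∀ v : ℝ, ∫⁻ a in Q, nn a v s ^ 3 * (lvl B s2).indicator (fun _ => 1) (a, v) =
      ∑' P : Z2, ∫⁻ a, H3 P a v s * (lvl B s2).indicator (fun _ => 1) (a, v) := by
    intro v
    have hm : ∀ P : Z2, Measurable (fun a : ℝ × ℝ => H3 P a v s * (lvl B s2).indicator (fun _ => (1:ℝ≥0∞)) (a, v)) := by
      intro P
      have h := (hmP P).comp (measurable_mk v)
      exact h
    have h1 := unfold_Q (g := fun a => ∑' P : Z2, H3 P a v s * (lvl B s2).indicator (fun _ => 1) (a, v)) (Measurable.tsum hm)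
    rw [lintegral_tsum (fun P => (hm P).aemeasurable)] at h1
    rw [← h1]
    congr 1
    ext a
    have hper : ∀ q : ℤ × ℤ, (lvl B s2).indicator (fun _ => (1:ℝ≥0∞)) (a - zc q, v) =
        (lvl B s2).indicator (fun _ => (1:ℝ≥0∞)) (a, v) := by
      intro q
      by_cases h : (a, v) ∈ lvl B s2
      · rw [Set.indicator_of_mem h, Set.indicator_of_mem]
        change B ≤ nn (a - zc q) v s2
        rw [nn_periodic]; exact h
      · rw [Set.indicator_of_notMem h, Set.indicator_of_notMem]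
        intro h2
        apply h
        have h3 : B ≤ nn (a - zc q) v s2 := h2
        rw [nn_periodic] at h3
        exact h3
    simp_rw [hper, ENNReal.tsum_mul_right, tsum_H3, nn_periodic]
    rw [ENNReal.tsum_mul_right, ← nn_eq_zero_sum]
    ring
  simp_rw [e]
  rw [lintegral_tsum]
  · congr 1
    ext P
    exact int_H3 s lo hi hE P
  · intro P
    apply Measurable.aemeasurable
    exact (hmP P).lintegral_prod_left'

/-- many points near the origin -/
def lvn (B : ℝ≥0∞) (L s : ℝ) : Set ((ℝ × ℝ) × ℝ) := {x | B ≤ nl L x.1 x.2 s}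

lemma measurable_nl (L s : ℝ) : Measurable (fun x : (ℝ × ℝ) × ℝ => nl L x.1 x.2 s) := by
  unfold nl
  apply Measurable.tsum
  intro p
  split_ifs
  · exact measurable_chi p s
  · exact measurable_const

lemma measurableSet_lvn (B : ℝ≥0∞) (L s : ℝ) : MeasurableSet (lvn B L s) :=
  measurableSet_le measurable_const (measurable_nl L s)

/-- good pairs -/
def good (L r : ℝ) (P : Z2) : Prop :=
  L / r ≤ nz P.1 ∧ nz P.1 ≤ 2 * L ∧ L / r ≤ nz P.2 ∧ nz P.2 ≤ 2 * L ∧ L / r ≤ nz (P.1 - P.2)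

open Classical in
/-- the weight of the good pairs -/
noncomputable def wg (L r : ℝ) (P : Z2) : ℝ≥0∞ := if good L r P then 1 else 0

/-- the number of good triples at scale `L` -/
noncomputable def WW (L r s : ℝ) (B : ℝ≥0∞) (a : ℝ × ℝ) (v : ℝ) : ℝ≥0∞ :=
  ∑' q : ℤ × ℤ, ∑' P : Z2, wg L r P * (H3 P (a - zc q) v s * (lvn B (2 * L) s).indicator (fun _ => 1) (a - zc q, v))

lemma int_WW (L r s lo hi : ℝ) (B : ℝ≥0∞) :
    ∫⁻ v in Icc lo hi, ∫⁻ a in Q, WW L r s B a v = ∑' P : Z2, wg L r P * volume (W3 s lo hi (lvn B (2 * L) s) P) := by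
  have hE := measurableSet_lvn B (2 * L) s
  have hmP : ∀ P : Z2, Measurable (fun x : (ℝ × ℝ) × ℝ => H3 P x.1 x.2 s * (lvn B (2 * L) s).indicator (fun _ => 1) x) :=
    fun P => (measurable_H3 P s).mul (measurable_const.indicator hE)
  have e : ∀ v : ℝ, ∫⁻ a in Q, WW L r s B a v =
      ∑' P : Z2, wg L r P * ∫⁻ a, H3 P a v s * (lvn B (2 * L) s).indicator (fun _ => 1) (a, v) := by
    intro v
    have hm : ∀ P : Z2, Measurable (fun a : ℝ × ℝ => H3 P a v s * (lvn B (2 * L) s).indicator (fun _ => (1:ℝ≥0∞)) (a, v)) := by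
      intro P
      have h := (hmP P).comp (measurable_mk v)
      exact h
    have hm' : ∀ P : Z2, Measurable (fun a : ℝ × ℝ => wg L r P *
        (H3 P a v s * (lvn B (2 * L) s).indicator (fun _ => (1:ℝ≥0∞)) (a, v))) := fun P => (hm P).const_mul _
    have h1 := unfold_Q (g := fun a => ∑' P : Z2, wg L r P *
      (H3 P a v s * (lvn B (2 * L) s).indicator (fun _ => 1) (a, v))) (Measurable.tsum hm')
    rw [lintegral_tsum (fun P => (hm' P).aemeasurable)] at h1
    unfold WW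
    rw [h1]
    congr 1
    ext P
    rw [lintegral_const_mul _ (hm P)]
  simp_rw [e]
  rw [lintegral_tsum]
  · congr 1
    ext P
    rw [lintegral_const_mul _ ((hmP P).lintegral_prod_left'), int_H3 s lo hi hE P]
  · intro P
    exact (((hmP P).lintegral_prod_left').const_mul _).aemeasurable

lemma W3_lvn (s L lo hi : ℝ) (B : ℝ≥0∞) (P : Z2) : W3 s lo hi (lvn B L s) P = U3 s L lo hi B P := rfl

lemma W3_lvl (s s2 lo hi : ℝ) (B : ℝ≥0∞) (P : Z2) : W3 s lo hi (lvl B s2) P = V3 s s2 lo hi B P := rfl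

/-- transfer to wider annuli -/
lemma int_WW_le {T s l L r B : ℝ} (hT : 1 ≤ T) (hs0 : 0 < s) (hr : 1 ≤ r) (hl : 1 ≤ l) (hL : 0 < L)
    (hB : 50 ≤ B) (hls : 5 * 10 ^ 6 * r ^ 3 * (l * s) ≤ B) (hlT : l * s ≤ T ^ 2 / 1000) :
    ∫⁻ v in Icc (T^2/4) (8*T^2), ∫⁻ a in Q, WW L r s (ENNReal.ofReal B) a v ≤
      ENNReal.ofReal ((l ^ 3)⁻¹) * TT 3 ((T/4)^2) ((4*T)^2) (2 * l * s) (2500 * r ^ 3 * (l * s)) (ENNReal.ofReal B) := by
  rw [int_WW, TT_three, ← ENNReal.tsum_mul_left]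
  apply ENNReal.tsum_le_tsum
  intro P
  rw [W3_lvn, W3_lvl]
  unfold wg
  split_ifs with h
  · obtain ⟨g1, g2, g3, g4, g5⟩ := h
    rw [one_mul]
    have := vol_dil3 hT hs0 hr hl hL hB hls hlT g1 g2 g3 g4 g5
    calc volume (U3 s (2 * L) (T^2/4) (8*T^2) (ENNReal.ofReal B) P) =
        ENNReal.ofReal ((l ^ 3)⁻¹) * (ENNReal.ofReal (l ^ 3) * volume (U3 s (2 * L) (T^2/4) (8*T^2) (ENNReal.ofReal B) P)) := by
          rw [← mul_assoc, ← ENNReal.ofReal_mul (by positivity), inv_mul_cancel₀ (by positivity),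
            ENNReal.ofReal_one, one_mul]
      _ ≤ _ := by gcongr
  · rw [zero_mul]; exact zero_le

end Pool.Agent.H593.U
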