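import Mathlib
import Pool.Agent.H593.U6.TInt

/-!
# Annuli with many points contain many good triples
-/

open MeasureTheory Set Filter Topology
open Pool.Agent.H383.Gauss
open scoped ENNReal

namespace Pool.Agent.H593.U

lemma nz_le_da (p q : ℤ × ℤ) (a : ℝ × ℝ) : nz (p - q) ≤ da p a + da q a := by
  rw [← norm_pc, ← norm_pc_sub, ← norm_pc_sub]
  have : pc (p - q) = (pc p - ac a) - (pc q - ac a) := by
    unfold pc; simp only [Prod.fst_sub, Prod.snd_sub]; push_cast; ring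
  rw [this]
  exact norm_sub_le _ _

lemma annF_diam {a : ℝ × ℝ} {v s R : ℝ} (hR : 0 ≤ R) (h : v + s ≤ R ^ 2) :
    ∀ p ∈ annF a v s, ∀ q ∈ annF a v s, nz (p - q) ≤ 2 * R := by
  have h1 : ∀ p ∈ annF a v s, da p a ≤ R := by
    intro p hp
    rw [mem_annF, abs_le] at hp
    unfold da
    rw [Real.sqrt_le_left hR]
    linarith [hp.2]
  intro p hp q hq
  have := nz_le_da p q a
  have := h1 p hp
  have := h1 q hq
  linarith

/-- one scale -/
lemma WW_ge {a : ℝ × ℝ} {v s L r B : ℝ} {A : Finset (ℤ × ℤ)} {y : ℤ × ℤ} (hA : A ⊆ annF a v s)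
    (hAy : ∀ p ∈ A, nz (p - y) ≤ L) (hB : B ≤ (A.card : ℝ)) :
    ((Tr A (L / r)).card : ℝ≥0∞) ≤ WW L r s (ENNReal.ofReal B) a v := by
  have hchi : ∀ p ∈ A, chi p a v s = 1 := fun p hp => chi_one ((mem_annF a v s p).mp (hA hp))
  have hdist : ∀ p ∈ A, ∀ q ∈ A, nz (p - q) ≤ 2 * L := by
    intro p hp q hq
    have h1 := nz_add_le (p - y) (y - q)
    rw [sub_add_sub_cancel] at h1
    have h2 := hAy p hp
    have h3 := hAy q hq
    rw [nz_sub_comm] at h3
    linarith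
  have hnl : ∀ q0 ∈ A, ENNReal.ofReal B ≤ nl (2 * L) (a - zc q0) v s := by
    intro q0 hq0
    have h1 : ((A.card : ℕ) : ℝ≥0∞) ≤ nl (2 * L) (a - zc q0) v s := by
      have h2 : ∑ p ∈ A.image (fun q => q - q0), (if nz p ≤ 2 * L then chi p (a - zc q0) v s else 0) ≤
          nl (2 * L) (a - zc q0) v s := ENNReal.sum_le_tsum _
      refine le_trans (le_of_eq ?_) h2
      rw [Finset.sum_image (fun x _ y _ h => sub_left_injective h)]
      rw [Finset.sum_congr rfl (g := fun _ => (1:ℝ≥0∞))]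
      · simp
      · intro q hq
        rw [if_pos (hdist q hq q0 hq0), ← chi_shift, add_sub_cancel]
        exact hchi q hq
    refine le_trans ?_ h1
    rw [← ENNReal.ofReal_natCast]
    exact ENNReal.ofReal_le_ofReal hB
  unfold WW
  rw [← ENNReal.tsum_prod (f := fun (q : ℤ × ℤ) (P : Z2) => wg L r P *
    (H3 P (a - zc q) v s * (lvn (ENNReal.ofReal B) (2 * L) s).indicator (fun _ => 1) (a - zc q, v)))]
  set g : Z3 → (ℤ × ℤ) × Z2 := fun x => (x.1, (x.2.1 - x.1, x.2.2 - x.1)) with hg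
  have hginj : Set.InjOn g (Tr A (L / r)) := by
    intro x _ y _ hxy
    simp only [hg, Prod.mk.injEq] at hxy
    obtain ⟨h1, h2, h3⟩ := hxy
    rw [h1] at h2 h3
    exact Prod.ext h1 (Prod.ext (sub_left_injective h2) (sub_left_injective h3))
  refine le_trans ?_ (ENNReal.sum_le_tsum ((Tr A (L / r)).image g))
  rw [Finset.sum_image hginj]
  rw [Finset.sum_congr rfl (g := fun _ => (1:ℝ≥0∞))]
  · simp
  · intro x hx
    unfold Tr at hx
    rw [Finset.mem_filter, Finset.mem_product, Finset.mem_product] at hx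
    obtain ⟨⟨x0, x1, x2⟩, d1, d2, d3⟩ := hx
    simp only [hg]
    have hgood : good L r (x.2.1 - x.1, x.2.2 - x.1) := by
      refine ⟨d1.le, hdist _ x1 _ x0, d2.le, hdist _ x2 _ x0, ?_⟩
      have : x.2.1 - x.1 - (x.2.2 - x.1) = x.2.1 - x.2.2 := by abel
      simp only
      rw [this]
      exact d3.le
    unfold wg
    rw [if_pos hgood, one_mul]
    have hlv : (a - zc x.1, v) ∈ lvn (ENNReal.ofReal B) (2 * L) s := hnl x.1 x0
    rw [Set.indicator_of_mem hlv, mul_one]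
    unfold H3
    simp only
    rw [← chi_shift, ← chi_shift, ← chi_shift, add_zero, add_sub_cancel, add_sub_cancel,
      hchi _ x0, hchi _ x1, hchi _ x2]
    simp

/-- many points give many good triples at one of the scales -/
lemma WW_sum_ge {a : ℝ × ℝ} {v s T r B : ℝ} {m0 : ℕ} (hT : 1 ≤ T) (hr : 1 ≤ r)
    (hv : v ≤ 8 * T ^ 2) (hs : s ≤ T ^ 2 / 1000) (hB : 1 < B) (hsmall : (6 * T) * (r⁻¹) ^ m0 < 1)
    (hn : ENNReal.ofReal (10 ^ m0 * B) ≤ nn a v s) :
    ENNReal.ofReal ((7/10) * B ^ 3) ≤ ∑ i ∈ Finset.range m0, WW ((6 * T) * (r⁻¹) ^ i) r s (ENNReal.ofReal B) a v := by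
  set F := annF a v s with hF
  rw [nn_eq, ← ENNReal.ofReal_natCast, ENNReal.ofReal_le_ofReal_iff (by positivity), ← hF] at hn
  have hD := annF_diam (a := a) (v := v) (s := s) (R := 3 * T) (by positivity) (by nlinarith)
  rw [← hF, show 2 * (3 * T) = 6 * T by ring] at hD
  have hcard : 10 ^ m0 < F.card := by
    have h1 : ((10 ^ m0 : ℕ) : ℝ) < (F.card : ℝ) := by
      push_cast
      have : (0:ℝ) < 10 ^ m0 := by positivity
      nlinarith
    exact_mod_cast h1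
  obtain ⟨i, hi, y, hy, h1, h2⟩ := sel hD hsmall hcard
  set L := (6 * T) * (r⁻¹) ^ i with hL
  set A := nb F y L with hA
  have hAF : A ⊆ F := Finset.filter_subset _ _
  have hAB : B ≤ (A.card : ℝ) := by
    have k1 : (F.card : ℝ) ≤ 10 ^ i * (A.card : ℝ) := by exact_mod_cast h1
    have k2 : (10:ℝ) ^ i ≤ 10 ^ m0 := pow_le_pow_right₀ (by norm_num) hi.le
    have k3 : (10:ℝ) ^ m0 * B ≤ 10 ^ m0 * (A.card : ℝ) := by
      calc (10:ℝ) ^ m0 * B ≤ (F.card : ℝ) := hn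
        _ ≤ 10 ^ i * (A.card : ℝ) := k1
        _ ≤ _ := by gcongr
    exact le_of_mul_le_mul_left k3 (by positivity)
  have hLr : (6 * T) * (r⁻¹) ^ (i+1) = L / r := by
    rw [hL, pow_succ, div_eq_mul_inv]; ring
  rw [hLr] at h2
  have h3 := card_Tr hAF h2
  have h4 : ((Tr A (L / r)).card : ℝ≥0∞) ≤ WW L r s (ENNReal.ofReal B) a v :=
    WW_ge hAF (fun p hp => (mem_nb.mp hp).2) hAB
  calc ENNReal.ofReal ((7/10) * B ^ 3) ≤ ENNReal.ofReal ((Tr A (L / r)).card : ℝ) := by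
        apply ENNReal.ofReal_le_ofReal
        refine le_trans ?_ h3
        gcongr
    _ = ((Tr A (L / r)).card : ℝ≥0∞) := ENNReal.ofReal_natCast _
    _ ≤ WW L r s (ENNReal.ofReal B) a v := h4
    _ ≤ _ := Finset.single_le_sum (f := fun i => WW ((6 * T) * (r⁻¹) ^ i) r s (ENNReal.ofReal B) a v)
        (fun _ _ => zero_le) (Finset.mem_range.mpr hi)

lemma measurable_WW (L r s : ℝ) (B : ℝ≥0∞) : Measurable (fun x : (ℝ × ℝ) × ℝ => WW L r s B x.1 x.2) := by
  unfold WW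
  apply Measurable.tsum
  intro q
  apply Measurable.tsum
  intro P
  have hE := measurableSet_lvn B (2 * L) s
  have hm : Measurable (fun x : (ℝ × ℝ) × ℝ => H3 P x.1 x.2 s * (lvn B (2 * L) s).indicator (fun _ => (1:ℝ≥0∞)) x) :=
    (measurable_H3 P s).mul (measurable_const.indicator hE)
  have hmap : Measurable (fun x : (ℝ × ℝ) × ℝ => (x.1 - zc q, x.2)) :=
    (measurable_fst.sub_const _).prodMk measurable_snd
  have h := hm.comp hmap
  exact h.const_mul _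

/-- **Tail lemma.** -/
theorem tail_lemma {T s l r B : ℝ} {m0 : ℕ} (hT : 1 ≤ T) (hs0 : 0 < s) (hr : 1 ≤ r) (hl : 1 ≤ l)
    (hB : 50 ≤ B) (hls : 5 * 10 ^ 6 * r ^ 3 * (l * s) ≤ B) (hlT : l * s ≤ T ^ 2 / 1000)
    (hsmall : (6 * T) * (r⁻¹) ^ m0 < 1) :
    ENNReal.ofReal ((7/10) * B ^ 3) * TT 0 (T^2/4) (8*T^2) s s (ENNReal.ofReal (10 ^ m0 * B)) ≤
      m0 * (ENNReal.ofReal ((l ^ 3)⁻¹) * TT 3 ((T/4)^2) ((4*T)^2) (2 * l * s) (2500 * r ^ 3 * (l * s)) (ENNReal.ofReal B)) := by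
  have hsl : s ≤ l * s := by nlinarith
  have h1 : ∀ v ∈ Icc (T^2/4) (8*T^2), ENNReal.ofReal ((7/10) * B ^ 3) *
      (∫⁻ a in Q, nn a v s ^ 0 * (lvl (ENNReal.ofReal (10 ^ m0 * B)) s).indicator (fun _ => 1) (a, v)) ≤
      ∫⁻ a in Q, ∑ i ∈ Finset.range m0, WW ((6 * T) * (r⁻¹) ^ i) r s (ENNReal.ofReal B) a v := by
    intro v hv
    rw [← lintegral_const_mul' _ _ ENNReal.ofReal_ne_top]
    apply lintegral_mono
    intro a
    simp only [pow_zero, one_mul]
    by_cases h : (a, v) ∈ lvl (ENNReal.ofReal (10 ^ m0 * B)) s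
    · rw [Set.indicator_of_mem h, mul_one]
      exact WW_sum_ge hT hr hv.2 (by linarith) (by linarith) hsmall h
    · rw [Set.indicator_of_notMem h, mul_zero]; exact zero_le
  have hmW : ∀ i, Measurable (fun x : (ℝ × ℝ) × ℝ => WW ((6 * T) * (r⁻¹) ^ i) r s (ENNReal.ofReal B) x.1 x.2) :=
    fun i => measurable_WW _ _ _ _
  have hmWv : ∀ i, Measurable (fun v : ℝ => ∫⁻ a in Q, WW ((6 * T) * (r⁻¹) ^ i) r s (ENNReal.ofReal B) a v) :=
    fun i => (hmW i).lintegral_prod_left'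
  have hmWa : ∀ i v, Measurable (fun a : ℝ × ℝ => WW ((6 * T) * (r⁻¹) ^ i) r s (ENNReal.ofReal B) a v) := by
    intro i v
    have h := (hmW i).comp (measurable_mk v)
    exact h
  unfold TT
  rw [← lintegral_const_mul' _ _ ENNReal.ofReal_ne_top]
  refine (setLIntegral_mono' measurableSet_Icc h1).trans ?_
  have e1 : ∀ v : ℝ, ∫⁻ a in Q, ∑ i ∈ Finset.range m0, WW ((6 * T) * (r⁻¹) ^ i) r s (ENNReal.ofReal B) a v =
      ∑ i ∈ Finset.range m0, ∫⁻ a in Q, WW ((6 * T) * (r⁻¹) ^ i) r s (ENNReal.ofReal B) a v := by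
    intro v
    rw [lintegral_finsetSum _ (fun i _ => hmWa i v)]
  simp_rw [e1]
  rw [lintegral_finsetSum _ (fun i _ => hmWv i)]
  refine (Finset.sum_le_card_nsmul _ _ (ENNReal.ofReal ((l ^ 3)⁻¹) *
    TT 3 ((T/4)^2) ((4*T)^2) (2 * l * s) (2500 * r ^ 3 * (l * s)) (ENNReal.ofReal B)) ?_).trans (le_of_eq ?_)
  · intro i _
    exact int_WW_le hT hs0 hr hl (by positivity) hB hls hlT
  · rw [Finset.card_range, nsmul_eq_mul]
    rfl

end Pool.Agent.H593.U
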