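import Mathlib
import Pool.Agent.H593.U6.TLow
import Pool.Agent.H593.U6.Pow

/-!
# Moments over the annuli with many points, in terms of energies
-/

open MeasureTheory Set Filter Topology
open Pool.Agent.H383.Gauss
open scoped ENNReal

namespace Pool.Agent.H593.U

/-- the sum over one shell -/
lemma shell_sumP {m : ℕ} {θ ε ρ T X : ℝ} (hm : 1 ≤ m) (hθ0 : 0 ≤ θ) (hθ : θ ≤ 3 * m - 3)
    (hε : 0 ≤ ε) (hε1 : ε ≤ 1) (hρ : 0 < ρ) (hT : 0 < T) (hX : 0 < X) :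
    (32 * (X ^ (-(3/2):ℝ) * min (ρ * X) ((ρ * X) ^ (-(3/2):ℝ)))) ^ (2 * m) *
      (X ^ (4 * m - 3 + ε) * (1 + 4 * T * X ^ (-θ))) ≤
      32 ^ (2 * m) * 8 * (ρ ^ (3 - m - ε) * (1 + T * ρ ^ θ)) := by
  set x := ρ * X with hx
  have hx0 : 0 < x := by positivity
  have hXx : X = x / ρ := by rw [hx]; field_simp
  have hm' : (1:ℝ) ≤ m := by exact_mod_cast hm
  have h1 : (X ^ (-(3/2):ℝ)) ^ (2 * m) * X ^ (4 * m - 3 + ε) = x ^ (m - 3 + ε) * ρ ^ (3 - m - ε) := by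
    rw [← Real.rpow_natCast (X ^ (-(3/2):ℝ)) (2 * m), ← Real.rpow_mul hX.le, ← Real.rpow_add hX]
    rw [show -(3/2) * ((2 * m : ℕ):ℝ) + (4 * m - 3 + ε) = m - 3 + ε by push_cast; ring]
    rw [hXx, Real.div_rpow hx0.le hρ.le, show (3 - m - ε : ℝ) = -(m - 3 + ε) by ring, Real.rpow_neg hρ.le]
    field_simp
  have hXθ : X ^ (-θ) = x ^ (-θ) * ρ ^ θ := by
    rw [hXx, Real.div_rpow hx0.le hρ.le, Real.rpow_neg hρ.le]
    field_simp
  have hxθ : 0 < x ^ (-θ) := by positivity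
  have hρθ : 0 < ρ ^ θ := by positivity
  have h2 : 1 + 4 * T * X ^ (-θ) ≤ 4 * (1 + T * ρ ^ θ) * (1 + x ^ (-θ)) := by
    rw [hXθ]
    have k1 : 0 < T * ρ ^ θ := by positivity
    have k2 : 0 < T * ρ ^ θ * x ^ (-θ) := by positivity
    nlinarith
  have h3 : min x (x ^ (-(3/2):ℝ)) ^ (2 * m) * x ^ (m - 3 + ε) * (1 + x ^ (-θ)) ≤ 2 := by
    have hm0 : 0 ≤ min x (x ^ (-(3/2):ℝ)) := le_min hx0.le (by positivity)
    rcases le_total x 1 with hx1 | hx1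
    · have k1 : 1 ≤ x ^ (-θ) := Real.one_le_rpow_of_pos_of_le_one_of_nonpos hx0 hx1 (by linarith)
      calc min x (x ^ (-(3/2):ℝ)) ^ (2 * m) * x ^ (m - 3 + ε) * (1 + x ^ (-θ))
          ≤ x ^ (2 * m) * x ^ (m - 3 + ε) * (x ^ (-θ) + x ^ (-θ)) := by
            gcongr
            exact min_le_left _ _
        _ = (x ^ (2 * m) * x ^ (m - 3 + ε) * x ^ (-θ)) * 2 := by ring
        _ = x ^ (3 * m - 3 + ε - θ) * 2 := by
            rw [← Real.rpow_natCast x (2 * m), ← Real.rpow_add hx0, ← Real.rpow_add hx0]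
            congr 2; push_cast; ring
        _ ≤ 1 * 2 := by
            gcongr
            exact Real.rpow_le_one hx0.le hx1 (by linarith)
        _ = 2 := by norm_num
    · have k1 : x ^ (-θ) ≤ 1 := Real.rpow_le_one_of_one_le_of_nonpos hx1 (by linarith)
      calc min x (x ^ (-(3/2):ℝ)) ^ (2 * m) * x ^ (m - 3 + ε) * (1 + x ^ (-θ))
          ≤ (x ^ (-(3/2):ℝ)) ^ (2 * m) * x ^ (m - 3 + ε) * (1 + 1) := by
            gcongr
            exact min_le_right _ _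
        _ = x ^ (-(2 * m) - 3 + ε) * 2 := by
            rw [← Real.rpow_natCast (x ^ (-(3/2):ℝ)) (2 * m), ← Real.rpow_mul hx0.le, ← Real.rpow_add hx0]
            rw [show -(3/2) * ((2 * m : ℕ):ℝ) + (m - 3 + ε) = -(2 * m) - 3 + ε by push_cast; ring]
            norm_num
        _ ≤ 1 * 2 := by
            gcongr
            exact Real.rpow_le_one_of_one_le_of_nonpos hx1 (by linarith)
        _ = 2 := by norm_num
  have hmn : 0 ≤ min x (x ^ (-(3/2):ℝ)) := le_min hx0.le (by positivity)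
  calc (32 * (X ^ (-(3/2):ℝ) * min x (x ^ (-(3/2):ℝ)))) ^ (2 * m) * (X ^ (4 * m - 3 + ε) * (1 + 4 * T * X ^ (-θ)))
      = 32 ^ (2 * m) * (((X ^ (-(3/2):ℝ)) ^ (2 * m) * X ^ (4 * m - 3 + ε)) * min x (x ^ (-(3/2):ℝ)) ^ (2 * m) *
          (1 + 4 * T * X ^ (-θ))) := by rw [mul_pow, mul_pow]; ring
    _ = 32 ^ (2 * m) * (x ^ (m - 3 + ε) * ρ ^ (3 - m - ε) * min x (x ^ (-(3/2):ℝ)) ^ (2 * m) * (1 + 4 * T * X ^ (-θ))) := by rw [h1]
    _ ≤ 32 ^ (2 * m) * (x ^ (m - 3 + ε) * ρ ^ (3 - m - ε) * min x (x ^ (-(3/2):ℝ)) ^ (2 * m) *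
          (4 * (1 + T * ρ ^ θ) * (1 + x ^ (-θ)))) := by
        gcongr
    _ = 32 ^ (2 * m) * 4 * (ρ ^ (3 - m - ε) * (1 + T * ρ ^ θ)) *
          (min x (x ^ (-(3/2):ℝ)) ^ (2 * m) * x ^ (m - 3 + ε) * (1 + x ^ (-θ))) := by ring
    _ ≤ 32 ^ (2 * m) * 4 * (ρ ^ (3 - m - ε) * (1 + T * ρ ^ θ)) * 2 := by gcongr
    _ = _ := by ring

/-- local means are bounded by Gaussian means -/
lemma lint_MP_le {L : ℝ} (hL : 0 < L) (X : ℝ) (m : ℕ) (B : Finset (ℤ × ℤ)) (b : ℤ × ℤ → ℝ) {s : Set ℝ}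
    (hs : ∀ t ∈ s, |t - X| ≤ L) (hms : MeasurableSet s) :
    ∫⁻ t in s, ENNReal.ofReal (MP m B b t) ≤
      ENNReal.ofReal (Real.exp Real.pi * ∫ t, Real.exp (-(Real.pi * (t - X) ^ 2 / L ^ 2)) * MP m B b t) := by
  have hint := gauss_MP_integrable hL X m B b
  rw [ENNReal.ofReal_mul (Real.exp_pos _).le,
    ofReal_integral_eq_lintegral_ofReal hint (Eventually.of_forall fun t => by
      have := MP_nonneg m B b t
      positivity), ← lintegral_const_mul' _ _ ENNReal.ofReal_ne_top]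
  refine le_trans ?_ (setLIntegral_le_lintegral s _)
  apply setLIntegral_mono' hms
  intro t ht
  rw [← ENNReal.ofReal_mul (Real.exp_pos _).le]
  apply ENNReal.ofReal_le_ofReal
  have h0 := MP_nonneg m B b t
  have h1 : 1 ≤ Real.exp Real.pi * Real.exp (-(Real.pi * (t - X) ^ 2 / L ^ 2)) := by
    rw [← Real.exp_add]
    apply Real.one_le_exp
    have h2 : (t - X) ^ 2 ≤ L ^ 2 := by
      have := hs t ht
      rw [← sq_abs]
      gcongr
    have h3 : Real.pi * (t - X) ^ 2 / L ^ 2 ≤ Real.pi := by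
      rw [div_le_iff₀ (by positivity)]
      have := Real.pi_pos
      gcongr
    linarith
  calc MP m B b t = 1 * MP m B b t := (one_mul _).symm
    _ ≤ (Real.exp Real.pi * Real.exp (-(Real.pi * (t - X) ^ 2 / L ^ 2))) * MP m B b t := by gcongr
    _ = _ := by ring

/-- Gaussian means over all shells -/
lemma gauss_allP {m : ℕ} {θ : ℝ} (hm : 1 ≤ m) (hθ : 0 ≤ θ) (h : HE m θ) {ε : ℝ} (hε : 0 < ε) :
    ∃ C : ℝ, 0 < C ∧ ∀ (Y J : ℕ) (b : ℤ × ℤ → ℝ) (c : ℕ → ℝ) (X T : ℝ),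
    0 < T → Y < 2 ^ J → (∀ j, ∀ p ∈ sh Y j, |b p| ≤ c j) →
    ∫ t : ℝ, Real.exp (-(Real.pi * (t - X) ^ 2 / T ^ 2)) * MP m (B0 Y) b t ≤
      C * ((J:ℝ) ^ (2 * m - 1) * ∑ j ∈ Finset.range J,
        (c j) ^ (2 * m) * (((2:ℝ) ^ j) ^ (4 * m - 3 + ε) * (1 + T * ((2:ℝ) ^ j) ^ (-θ)))) := by
  obtain ⟨C, hC, h1⟩ := gauss_shellP hm hθ h hε
  refine ⟨C, hC, ?_⟩
  intro Y J b c X T hT hJ hb
  have h2 : ∫ t : ℝ, Real.exp (-(Real.pi * (t - X) ^ 2 / T ^ 2)) * MP m (B0 Y) b t ≤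
      ∫ t : ℝ, (J:ℝ) ^ (2 * m - 1) * ∑ j ∈ Finset.range J, Real.exp (-(Real.pi * (t - X) ^ 2 / T ^ 2)) * MP m (sh Y j) b t := by
    apply integral_mono (gauss_MP_integrable hT X _ _ _)
    · exact (integrable_finsetSum _ (fun j _ => gauss_MP_integrable hT X _ _ _)).const_mul _
    · intro t
      simp only
      rw [← Finset.mul_sum]
      have := MP_shells hm hJ b t
      calc _ ≤ Real.exp (-(Real.pi * (t - X) ^ 2 / T ^ 2)) * ((J:ℝ) ^ (2 * m - 1) * ∑ j ∈ Finset.range J, MP m (sh Y j) b t) := by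
            gcongr
        _ = _ := by ring
  refine h2.trans ?_
  rw [integral_const_mul, integral_finsetSum _ (fun j _ => gauss_MP_integrable hT X _ _ _)]
  calc (J:ℝ) ^ (2 * m - 1) * ∑ j ∈ Finset.range J, ∫ t : ℝ, Real.exp (-(Real.pi * (t - X) ^ 2 / T ^ 2)) * MP m (sh Y j) b t
      ≤ (J:ℝ) ^ (2 * m - 1) * ∑ j ∈ Finset.range J, C * ((c j) ^ (2 * m) *
          (((2:ℝ) ^ j) ^ (4 * m - 3 + ε) * (1 + T * ((2:ℝ) ^ j) ^ (-θ)))) := by
        gcongr with j hj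
        exact h1 Y j b (c j) X T hT (hb j)
    _ = _ := by rw [← Finset.mul_sum]; ring

theorem TB {m : ℕ} {θ : ℝ} (hm : 1 ≤ m) (hθ0 : 0 ≤ θ) (hθ : θ ≤ 3 * m - 3) (h : HE m θ)
    {ε : ℝ} (hε : 0 < ε) (hε1 : ε ≤ 1) : ∃ C C1 : ℝ, 0 < C ∧ 0 < C1 ∧
    ∀ (T ρ s B : ℝ) (J p : ℕ), 0 < ρ → 24 * ρ ≤ T → 4 ≤ ρ * T → ⌈(4 * T) ^ 3⌉₊ < 2 ^ J →
    s ≤ ρ * T / 4 → C1 * (ρ * T) ≤ B → p ≤ 2 * m →
    TT p ((T/4)^2) ((4*T)^2) s (ρ * T / 4) (ENNReal.ofReal B) ≤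
      ENNReal.ofReal (C * ((J:ℝ) ^ (2 * m) * (T ^ (m+1) * (ρ ^ (3 - m - ε) * (1 + T * ρ ^ θ)) * (B ^ p / B ^ (2 * m))))) := by
  obtain ⟨C, hC, h1⟩ := card_le_S
  obtain ⟨C', hC', h2⟩ := gauss_allP hm hθ0 h hε
  refine ⟨8 * (4 * C) ^ (2 * m) * (Real.exp Real.pi * C' * (32 ^ (2 * m) * 8)), 8 * C, by positivity, by positivity, ?_⟩
  intro T ρ s B J p hρ h24 h4 hJ hs hB hp
  have hT0 : 0 < T := by nlinarith
  have hT4 : 4 ≤ T := by nlinarith
  have hB0 : 0 < B := lt_of_lt_of_le (by positivity) hB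
  set Y := ⌈(4 * T) ^ 3⌉₊ with hY
  set b := bd ρ (5*ρ/2) with hb
  -- pointwise
  have p1 : ∀ t ∈ Icc (T/4) (4*T), ∀ a, nn a (t^2) s ^ p * (lvl (ENNReal.ofReal B) (ρ * T / 4)).indicator (fun _ => 1) (a, t^2) ≤
      ENNReal.ofReal (B ^ p / B ^ (2 * m) * ((4 * C) ^ (2 * m) * T ^ m)) * ENNReal.ofReal (‖S (B0 Y) b a (t - ρ/2)‖ ^ (2 * m)) := by
    intro t ht a
    by_cases hmem : (a, t^2) ∈ lvl (ENNReal.ofReal B) (ρ * T / 4)
    · rw [Set.indicator_of_mem hmem, mul_one]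
      have ht1 : 1 ≤ t := by linarith [ht.1]
      have ht0 : 0 < t := by linarith
      have k1 := h1 t ρ (ρ * T / 4) Y a ht1 hρ (by linarith [ht.1]) (by nlinarith [ht.1]) (by
        have : t ^ 3 ≤ (4 * T) ^ 3 := by have := ht.2; gcongr
        exact this.trans (Nat.le_ceil _)) (by nlinarith [ht.1])
      have hmem2 : ENNReal.ofReal B ≤ nn a (t^2) (ρ * T / 4) := hmem
      rw [nn_eq, ← ENNReal.ofReal_natCast, ENNReal.ofReal_le_ofReal_iff (by positivity)] at hmem2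
      set N := ‖S (B0 Y) b a (t - ρ/2)‖ with hN
      have hN0 : 0 ≤ N := norm_nonneg _
      set n2 : ℝ := ((annF a (t^2) (ρ * T / 4)).card : ℝ) with hn2
      have k2 : n2 ≤ B / 2 + 2 * C * (√T * N) := by
        have q1 : ρ * t ≤ 4 * (ρ * T) := by nlinarith [ht.2]
        have q2 : √t ≤ 2 * √T := by
          rw [show 2 * √T = √(4 * T) by
            rw [Real.sqrt_mul (by norm_num)]
            congr 1
            rw [show (4:ℝ) = 2 ^ 2 by norm_num, Real.sqrt_sq (by norm_num)]]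
          exact Real.sqrt_le_sqrt ht.2
        calc n2 ≤ C * (ρ * t + √t * N) := k1
          _ ≤ C * (4 * (ρ * T) + (2 * √T) * N) := by gcongr
          _ ≤ _ := by linarith
      have k3 : B ≤ 4 * C * (√T * N) := by linarith
      have k4 : n2 ≤ 4 * C * (√T * N) := by linarith
      set W := 4 * C * (√T * N) with hW
      have hW0 : 0 < W := by linarith
      have k5 : nn a (t^2) s ≤ ENNReal.ofReal W := by
        refine (nn_mono _ _ hs).trans ?_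
        rw [nn_eq, ← ENNReal.ofReal_natCast]
        exact ENNReal.ofReal_le_ofReal k4
      calc nn a (t^2) s ^ p ≤ (ENNReal.ofReal W) ^ p := by gcongr
        _ = ENNReal.ofReal (W ^ p) := by rw [ENNReal.ofReal_pow hW0.le]
        _ ≤ ENNReal.ofReal (B ^ p / B ^ (2 * m) * W ^ (2 * m)) := by
            apply ENNReal.ofReal_le_ofReal
            rw [div_mul_eq_mul_div, le_div_iff₀ (by positivity)]
            obtain ⟨q, hq⟩ := Nat.exists_eq_add_of_le hp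
            rw [hq, pow_add, pow_add]
            have : B ^ q ≤ W ^ q := by gcongr
            calc W ^ p * (B ^ p * B ^ q) ≤ W ^ p * (B ^ p * W ^ q) := by gcongr
              _ = _ := by ring
        _ = _ := by
            rw [← ENNReal.ofReal_mul (by positivity)]
            congr 1
            have e1 : (√T) ^ (2 * m) = T ^ m := by rw [pow_mul, Real.sq_sqrt hT0.le]
            rw [hW, mul_pow, mul_pow (√T) N, e1]
            ring
    · rw [Set.indicator_of_notMem hmem, mul_zero]; exact zero_le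
  set A := B ^ p / B ^ (2 * m) * ((4 * C) ^ (2 * m) * T ^ m) with hA
  have hA0 : 0 ≤ A := by positivity
  have p2 : ∀ t ∈ Icc (T/4) (4*T), ∫⁻ a in Q, nn a (t^2) s ^ p * (lvl (ENNReal.ofReal B) (ρ * T / 4)).indicator (fun _ => 1) (a, t^2) ≤
      ENNReal.ofReal A * ENNReal.ofReal (MP m (B0 Y) b (t - ρ/2)) := by
    intro t ht
    refine (lintegral_mono (fun a => p1 t ht a)).trans ?_
    rw [lintegral_const_mul' _ _ ENNReal.ofReal_ne_top, lint_S_pow]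
  -- integrate
  unfold TT
  have p3 : ∫⁻ v in Icc ((T/4)^2) ((4*T)^2), ∫⁻ a in Q, nn a v s ^ p * (lvl (ENNReal.ofReal B) (ρ * T / 4)).indicator (fun _ => 1) (a, v) ≤
      ENNReal.ofReal (2 * (4 * T)) * ∫⁻ t in Icc (T/4) (4*T), ∫⁻ a in Q, nn a (t^2) s ^ p *
        (lvl (ENNReal.ofReal B) (ρ * T / 4)).indicator (fun _ => 1) (a, t^2) := by
    refine le_trans (le_of_eq ?_) (lint_sq (f := fun t => ∫⁻ a in Q, nn a (t^2) s ^ p *
        (lvl (ENNReal.ofReal B) (ρ * T / 4)).indicator (fun _ => 1) (a, t^2))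
      (a := T/4) (b := 4*T) (by positivity) (by linarith))
    apply setLIntegral_congr_fun measurableSet_Icc
    intro v hv
    have hv0 : 0 ≤ v := (sq_nonneg _).trans hv.1
    simp only
    rw [Real.sq_sqrt hv0]
  refine p3.trans ?_
  set D := 32 ^ (2 * m) * 8 * (ρ ^ (3 - m - ε) * (1 + T * ρ ^ θ)) with hD
  have hD0 : 0 ≤ D := by positivity
  have p4 : ∫⁻ t in Icc (T/4) (4*T), ENNReal.ofReal (MP m (B0 Y) b (t - ρ/2)) ≤
      ENNReal.ofReal (Real.exp Real.pi * (C' * ((J:ℝ) ^ (2 * m - 1) * (J * D)))) := by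
    refine (lint_shift_le (fun t => ENNReal.ofReal (MP m (B0 Y) b t)) (c := 0) (d := 4*T) (by linarith) (by linarith)).trans ?_
    refine (lint_MP_le (L := 4*T) (by positivity) 0 m (B0 Y) b (fun t ht => by
      rw [sub_zero, abs_of_nonneg ht.1]; exact ht.2) measurableSet_Icc).trans ?_
    apply ENNReal.ofReal_le_ofReal
    gcongr
    refine (h2 Y J b (fun j => 32 * (((2:ℝ)^j) ^ (-(3/2):ℝ) * min (ρ * 2 ^ j) ((ρ * 2 ^ j) ^ (-(3/2):ℝ))))
      0 (4*T) (by positivity) hJ (fun j p hp => bd_shell hρ hp)).trans ?_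
    gcongr
    refine (Finset.sum_le_card_nsmul _ _ D ?_).trans (le_of_eq ?_)
    · intro j _
      exact shell_sumP hm hθ0 hθ hε.le hε1 hρ hT0 (by positivity)
    · rw [Finset.card_range, nsmul_eq_mul]
  calc ENNReal.ofReal (2 * (4 * T)) * ∫⁻ t in Icc (T/4) (4*T), ∫⁻ a in Q, nn a (t^2) s ^ p *
        (lvl (ENNReal.ofReal B) (ρ * T / 4)).indicator (fun _ => 1) (a, t^2)
      ≤ ENNReal.ofReal (2 * (4 * T)) * ∫⁻ t in Icc (T/4) (4*T), ENNReal.ofReal A * ENNReal.ofReal (MP m (B0 Y) b (t - ρ/2)) := by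
        exact mul_le_mul' le_rfl (setLIntegral_mono' measurableSet_Icc p2)
    _ = ENNReal.ofReal (2 * (4 * T)) * (ENNReal.ofReal A * ∫⁻ t in Icc (T/4) (4*T), ENNReal.ofReal (MP m (B0 Y) b (t - ρ/2))) := by
        rw [lintegral_const_mul' _ _ ENNReal.ofReal_ne_top]
    _ ≤ ENNReal.ofReal (2 * (4 * T)) * (ENNReal.ofReal A * ENNReal.ofReal (Real.exp Real.pi * (C' * ((J:ℝ) ^ (2 * m - 1) * (J * D))))) := by
        gcongr
    _ = ENNReal.ofReal (2 * (4 * T) * (A * (Real.exp Real.pi * (C' * ((J:ℝ) ^ (2 * m - 1) * (J * D)))))) := by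
        rw [← ENNReal.ofReal_mul (by positivity), ← ENNReal.ofReal_mul (by positivity)]
    _ = _ := by
        congr 1
        have e1 : (J:ℝ) ^ (2 * m) = (J:ℝ) ^ (2 * m - 1) * J := by
          rw [← pow_succ]; congr 1; omega
        rw [e1, hA, hD]
        ring

end Pool.Agent.H593.U
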