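import Mathlib
import Pool.Agent.H593.U6.TB

/-!
# Measure of the set of annuli with many points: conclusion
-/

open MeasureTheory Set Filter Topology
open Pool.Agent.H383.Gauss
open scoped ENNReal

namespace Pool.Agent.H593.U

/-- trivial bound -/
lemma nn_triv2 {a : ℝ × ℝ} (ha : a ∈ Q) {T v s : ℝ} (hT : 1 ≤ T) (hv : v ≤ 8 * T ^ 2) (hs : 0 < s) :
    nn a v s ≤ ENNReal.ofReal (338 * T ^ 2 + 8 * s) := by
  have hsq : √s * √s = s := Real.mul_self_sqrt hs.le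
  have hsq0 : 0 ≤ √s := Real.sqrt_nonneg s
  have hR : 0 ≤ 3 * T + √s := by positivity
  refine (nn_triv ha hR (by nlinarith)).trans ?_
  rw [← ENNReal.ofReal_natCast]
  apply ENNReal.ofReal_le_ofReal
  push_cast
  have h1 := Nat.ceil_lt_add_one hR
  have h2 : 2 * ((⌈3 * T + √s⌉₊ : ℕ) + 2 : ℝ) + 1 ≤ 13 * T + 2 * √s := by linarith
  calc (2 * ((⌈3 * T + √s⌉₊ : ℕ) + 2 : ℝ) + 1) ^ 2 ≤ (13 * T + 2 * √s) ^ 2 := by gcongr
    _ ≤ _ := by nlinarith [sq_nonneg (13 * T - 2 * √s)]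

lemma TT_big {T s B : ℝ} (p : ℕ) (hT : 1 ≤ T) (hs : 0 < s) (hB : 338 * T ^ 2 + 8 * s < B) :
    TT p (T^2/4) (8*T^2) s s (ENNReal.ofReal B) = 0 := by
  unfold TT
  apply le_antisymm _ zero_le
  calc ∫⁻ v in Icc (T^2/4) (8*T^2), ∫⁻ a in Q, nn a v s ^ p * (lvl (ENNReal.ofReal B) s).indicator (fun _ => 1) (a, v)
      ≤ ∫⁻ v in Icc (T^2/4) (8*T^2), ∫⁻ a in Q, 0 := by
        apply setLIntegral_mono' measurableSet_Icc
        intro v hv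
        apply setLIntegral_mono' measurableSet_Q
        intro a ha
        rw [Set.indicator_of_notMem, mul_zero]
        intro hmem
        have h1 : ENNReal.ofReal B ≤ nn a v s := hmem
        have h2 := h1.trans (nn_triv2 ha hT hv.2 hs)
        rw [ENNReal.ofReal_le_ofReal_iff (by positivity)] at h2
        linarith
    _ = 0 := by simp

/-- bound for the measure of the set of annuli with many points -/
def Tail (m : ℕ) (θ : ℝ) : Prop := ∀ ε : ℝ, 0 < ε → ∃ C C2 : ℝ, 0 < C ∧ 1 ≤ C2 ∧ ∀ T s B : ℝ, 1 ≤ T → 0 < s →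
  C2 * (T ^ ε * max 1 s) ≤ B →
  TT 0 (T^2/4) (8*T^2) s s (ENNReal.ofReal B) ≤
    ENNReal.ofReal (C * (T ^ (2 * m - 2 + ε) * s ^ 3 * (B ^ (-(3 * m):ℝ) * (1 + T ^ (1-θ) * B ^ θ))))

theorem tail_HE {m : ℕ} {θ : ℝ} (hm : 2 ≤ m) (hθ0 : 0 ≤ θ) (hθ : θ ≤ 3 * m - 3) (h : HE m θ) : Tail m θ := by
  intro ε hε
  set δ := ε / 20 with hδ
  have hδ0 : 0 < δ := by positivity
  set ε1 := min (ε/4) 1 with hε1
  have hε10 : 0 < ε1 := lt_min (by positivity) one_pos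
  have hε11 : ε1 ≤ 1 := min_le_right _ _
  have hε12 : ε1 ≤ ε/4 := min_le_left _ _
  obtain ⟨C, C1, hC, hC1, hTB⟩ := TB (by omega) hθ0 hθ h hε10 hε11
  obtain ⟨CJ, hCJ, hJ⟩ := shells_count (2 * m) (ε := ε/4) (by positivity)
  set m0 := ⌈1/δ⌉₊ + 4 with hm0
  set c0 := max (5 * 10 ^ 6) (10 ^ 4 * C1) with hc0
  have hc05 : 5 * 10 ^ 6 ≤ c0 := le_max_left _ _
  have hc0C : 10 ^ 4 * C1 ≤ c0 := le_max_right _ _
  have hc00 : 0 < c0 := by linarith [(by norm_num : (0:ℝ) < 5 * 10 ^ 6)]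
  set c1 := 10 ^ 4 / c0 with hc1
  have hc10 : 0 < c1 := by positivity
  have hc11 : c1 ≤ 1 := by
    rw [hc1, div_le_one hc00]; linarith
  set P := (10:ℝ) ^ m0 with hP
  have hP0 : 0 < P := by positivity
  have hP4 : 10 ^ 4 ≤ P := by
    rw [hP]
    exact pow_le_pow_right₀ (by norm_num) (by omega)
  refine ⟨(10/7) * m0 * C * CJ * (c0 ^ 3 * 512) * c1 ^ (3 - m - ε1) * P ^ (3 * m), P * (8 * c0), by positivity, ?_, ?_⟩
  · nlinarith
  intro T s B hT hs hB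
  have hT0 : 0 < T := by linarith
  set r := 2 * T ^ δ with hr
  have hTδ : 1 ≤ T ^ δ := Real.one_le_rpow hT hδ0.le
  have hr1 : 1 ≤ r := by linarith
  have hr0 : 0 < r := by linarith
  have hr3 : r ^ 3 ≤ 8 * T ^ ε := by
    rw [hr, mul_pow, ← Real.rpow_natCast (T ^ δ) 3, ← Real.rpow_mul hT0.le]
    have : T ^ (δ * ((3:ℕ):ℝ)) ≤ T ^ ε := Real.rpow_le_rpow_of_exponent_le hT (by rw [hδ]; push_cast; linarith)
    linarith
  set B' := B / P with hB'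
  have hBB' : B = P * B' := by rw [hB']; field_simp
  have hmax1 : (1:ℝ) ≤ max 1 s := le_max_left _ _
  have hmaxs : s ≤ max 1 s := le_max_right _ _
  have hTε : 1 ≤ T ^ ε := Real.one_le_rpow hT hε.le
  have hB1 : c0 * r ^ 3 * max 1 s ≤ B' := by
    rw [hB', le_div_iff₀ hP0]
    calc c0 * r ^ 3 * max 1 s * P ≤ c0 * (8 * T ^ ε) * max 1 s * P := by gcongr
      _ = P * (8 * c0) * (T ^ ε * max 1 s) := by ring
      _ ≤ B := hB
  have hr31 : 1 ≤ r ^ 3 := one_le_pow₀ hr1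
  have hB2 : c0 ≤ B' := by
    calc c0 = c0 * 1 * 1 := by ring
      _ ≤ c0 * r ^ 3 * max 1 s := by gcongr
      _ ≤ B' := hB1
  have hB3 : c0 * r ^ 3 * s ≤ B' := by
    calc c0 * r ^ 3 * s ≤ c0 * r ^ 3 * max 1 s := by gcongr
      _ ≤ B' := hB1
  have hB'0 : 0 < B' := by linarith
  have hsB : s ≤ B' := by
    calc s = 1 * 1 * s := by ring
      _ ≤ c0 * r ^ 3 * s := by gcongr; linarith
      _ ≤ B' := hB3
  rcases lt_or_ge (20 * T ^ 2) B' with hbig | hsmall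
  · rw [TT_big 0 hT hs]
    · exact zero_le
    · rw [hBB']
      nlinarith [sq_nonneg T]
  -- main case
  set l := B' / (c0 * r ^ 3 * s) with hl
  have hl1 : 1 ≤ l := by rw [hl, le_div_iff₀ (by positivity)]; linarith
  have hl0 : 0 < l := by linarith
  have hls : l * s = B' / (c0 * r ^ 3) := by rw [hl]; field_simp
  have hls2 : r ^ 3 * (l * s) = B' / c0 := by rw [hls]; field_simp
  set ρ := c1 * B' / T with hρ
  have hρ0 : 0 < ρ := by positivity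
  have hρT : ρ * T = c1 * B' := by rw [hρ]; field_simp
  have hρ4 : ρ * T / 4 = 2500 * r ^ 3 * (l * s) := by
    rw [hρT, mul_assoc, hls2, hc1]; ring
  obtain ⟨J, hJ1, hJ2⟩ := hJ T hT
  have hsm : (6 * T) * (r⁻¹) ^ m0 < 1 := by
    rw [inv_pow, ← div_eq_mul_inv, div_lt_one (by positivity)]
    have k1 : T ≤ (T ^ δ) ^ m0 := by
      rw [← Real.rpow_natCast, ← Real.rpow_mul hT0.le]
      nth_rewrite 1 [← Real.rpow_one T]
      apply Real.rpow_le_rpow_of_exponent_le hT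
      have k2 := Nat.le_ceil (1/δ)
      rw [hm0]; push_cast
      calc 1 = δ * (1/δ) := by field_simp
        _ ≤ δ * ((⌈1/δ⌉₊ : ℕ) + 4) := by gcongr; linarith
    have k3 : (16:ℝ) ≤ 2 ^ m0 := by
      calc (16:ℝ) = 2 ^ 4 := by norm_num
        _ ≤ 2 ^ m0 := pow_le_pow_right₀ (by norm_num) (by omega)
    rw [hr, mul_pow]
    calc 6 * T < 16 * T := by linarith
      _ ≤ 2 ^ m0 * (T ^ δ) ^ m0 := by gcongr
  have k50 : 50 ≤ B' := by linarith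
  have kls : 5 * 10 ^ 6 * r ^ 3 * (l * s) ≤ B' := by
    rw [mul_assoc, hls2, ← mul_div_assoc, div_le_iff₀ hc00, mul_comm]
    gcongr
  have klT : l * s ≤ T ^ 2 / 1000 := by
    have q1 : l * s ≤ r ^ 3 * (l * s) := by
      have : 0 < l * s := by positivity
      nlinarith
    rw [hls2] at q1
    refine q1.trans ?_
    rw [div_le_div_iff₀ hc00 (by norm_num)]
    nlinarith [sq_nonneg T]
  have h1 := tail_lemma hT hs hr1 hl1 k50 kls klT hsm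
  have h2 := hTB T ρ (2 * l * s) B' J 3 hρ0 (by
    have : 24 * ρ * T ≤ T * T := by
      rw [mul_assoc, hρT]
      have q1 : c1 ≤ 1/500 := by
        rw [hc1, div_le_div_iff₀ hc00 (by norm_num)]; linarith
      have q2 : c1 * B' ≤ (1/500) * (20 * T ^ 2) := by gcongr
      nlinarith [sq_nonneg T]
    exact le_of_mul_le_mul_right this hT0) (by
    rw [hρT, hc1, div_mul_eq_mul_div, le_div_iff₀ hc00]; linarith) hJ1 (by
    rw [hρ4]
    have q1 : 0 < l * s := by positivity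
    nlinarith) (by
    rw [hρT, hc1]
    calc C1 * (10 ^ 4 / c0 * B') = (10 ^ 4 * C1) / c0 * B' := by ring
      _ ≤ 1 * B' := by gcongr; rw [div_le_one hc00]; exact hc0C
      _ = B' := one_mul _) (by omega)
  rw [hρ4] at h2
  rw [← hP, ← hBB'] at h1
  set X3 := C * ((J:ℝ) ^ (2 * m) * (T ^ (m+1) * (ρ ^ (3 - m - ε1) * (1 + T * ρ ^ θ)) * (B' ^ 3 / B' ^ (2 * m)))) with hX3
  have hX30 : 0 ≤ X3 := by positivity
  have h3 : TT 0 (T^2/4) (8*T^2) s s (ENNReal.ofReal B) ≤ ENNReal.ofReal (((7/10) * B' ^ 3)⁻¹ * (m0 * ((l ^ 3)⁻¹ * X3))) := by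
    have q1 : ENNReal.ofReal ((7/10) * B' ^ 3) * TT 0 (T^2/4) (8*T^2) s s (ENNReal.ofReal B) ≤
        ENNReal.ofReal (m0 * ((l ^ 3)⁻¹ * X3)) := by
      refine h1.trans ?_
      rw [ENNReal.ofReal_mul (p := (m0:ℝ)) (by positivity), ENNReal.ofReal_mul (p := (l ^ 3)⁻¹) (by positivity),
        ENNReal.ofReal_natCast]
      exact mul_le_mul' le_rfl (mul_le_mul' le_rfl h2)
    calc TT 0 (T^2/4) (8*T^2) s s (ENNReal.ofReal B)
        = ENNReal.ofReal (((7/10) * B' ^ 3)⁻¹) * (ENNReal.ofReal ((7/10) * B' ^ 3) * TT 0 (T^2/4) (8*T^2) s s (ENNReal.ofReal B)) := by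
          rw [← mul_assoc, ← ENNReal.ofReal_mul (by positivity), inv_mul_cancel₀ (by positivity),
            ENNReal.ofReal_one, one_mul]
      _ ≤ ENNReal.ofReal (((7/10) * B' ^ 3)⁻¹) * ENNReal.ofReal (m0 * ((l ^ 3)⁻¹ * X3)) := by gcongr
      _ = _ := by rw [← ENNReal.ofReal_mul (by positivity)]
  refine h3.trans (ENNReal.ofReal_le_ofReal ?_)
  -- algebra
  have hB'1 : 1 ≤ B' := by linarith
  have e1 : ρ ^ (3 - m - ε1) ≤ c1 ^ (3 - m - ε1) * (B' ^ (3 - m:ℝ) * T ^ (m - 3 + ε/4)) := by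
    rw [hρ, mul_div_assoc, Real.mul_rpow hc10.le (by positivity)]
    gcongr
    rw [Real.div_rpow hB'0.le hT0.le, div_eq_mul_inv, ← Real.rpow_neg hT0.le]
    have q1 : B' ^ (3 - m - ε1) ≤ B' ^ (3 - m:ℝ) := Real.rpow_le_rpow_of_exponent_le hB'1 (by linarith)
    have q2 : T ^ (-(3 - m - ε1)) ≤ T ^ (m - 3 + ε/4) := Real.rpow_le_rpow_of_exponent_le hT (by linarith)
    gcongr
  have hBB : B' ≤ B := by rw [hBB']; nlinarith
  have hB0 : 0 < B := by linarith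
  have e2 : 1 + T * ρ ^ θ ≤ 1 + T ^ (1 - θ) * B ^ θ := by
    have q1 : ρ ^ θ ≤ (B / T) ^ θ := by
      apply Real.rpow_le_rpow hρ0.le _ hθ0
      rw [hρ]
      gcongr
      nlinarith
    have q2 : T * (B / T) ^ θ = T ^ (1 - θ) * B ^ θ := by
      rw [Real.div_rpow hB0.le hT0.le, Real.rpow_sub hT0, Real.rpow_one]
      field_simp
    rw [← q2]
    gcongr
  have e3 : (l ^ 3)⁻¹ = c0 ^ 3 * 512 * (T ^ (9 * δ) * s ^ 3 * (B' ^ 3)⁻¹) := by
    rw [hl, div_pow, inv_div, hr, mul_pow 2 (T ^ δ), mul_pow, mul_pow, ← Real.rpow_natCast (T ^ δ) 3,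
      ← Real.rpow_mul hT0.le]
    rw [mul_pow (2 ^ 3) _ 3, ← Real.rpow_natCast (T ^ (δ * ((3:ℕ):ℝ))) 3, ← Real.rpow_mul hT0.le]
    rw [show δ * ((3:ℕ):ℝ) * ((3:ℕ):ℝ) = 9 * δ by push_cast; ring]
    rw [div_eq_mul_inv]
    ring
  have e4 : B' ^ (3 - m:ℝ) * (B' ^ (2 * m))⁻¹ * (B' ^ 3)⁻¹ = P ^ (3 * m) * B ^ (-(3 * m):ℝ) := by
    rw [hBB', Real.mul_rpow hP0.le hB'0.le, ← Real.rpow_natCast P (3 * m), ← mul_assoc, ← Real.rpow_add hP0,
      ← Real.rpow_natCast B' (2 * m), ← Real.rpow_natCast B' 3, ← Real.rpow_neg hB'0.le, ← Real.rpow_neg hB'0.le,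
      ← Real.rpow_add hB'0, ← Real.rpow_add hB'0]
    rw [show ((3 * m : ℕ):ℝ) + -(3 * m) = 0 by push_cast; ring, Real.rpow_zero, one_mul]
    congr 1
    push_cast; ring
  have e5 : T ^ (m + 1) * T ^ (m - 3 + ε/4) * T ^ (ε/4) * T ^ (9 * δ) ≤ T ^ (2 * m - 2 + ε) := by
    rw [← Real.rpow_natCast T (m+1), ← Real.rpow_add hT0, ← Real.rpow_add hT0, ← Real.rpow_add hT0]
    apply Real.rpow_le_rpow_of_exponent_le hT
    rw [hδ]; push_cast; linarith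
  have hm0' : (0:ℝ) ≤ m0 := Nat.cast_nonneg _
  have hBc : B' ^ 3 * (B' ^ 3)⁻¹ = 1 := mul_inv_cancel₀ (by positivity)
  calc ((7/10) * B' ^ 3)⁻¹ * (m0 * ((l ^ 3)⁻¹ * X3))
      = (10/7) * m0 * C * (((J:ℝ) ^ (2 * m)) * T ^ (m+1) * ρ ^ (3 - m - ε1) * (1 + T * ρ ^ θ) * (B' ^ (2 * m))⁻¹ * (l ^ 3)⁻¹) *
          (B' ^ 3 * (B' ^ 3)⁻¹) := by
        rw [hX3]
        rw [mul_inv, div_eq_mul_inv]
        ring
    _ = (10/7) * m0 * C * (((J:ℝ) ^ (2 * m)) * T ^ (m+1) * ρ ^ (3 - m - ε1) * (1 + T * ρ ^ θ) * (B' ^ (2 * m))⁻¹ * (l ^ 3)⁻¹) := by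
        rw [hBc, mul_one]
    _ ≤ (10/7) * m0 * C * ((CJ * T ^ (ε/4)) * T ^ (m+1) * (c1 ^ (3 - m - ε1) * (B' ^ (3 - m:ℝ) * T ^ (m - 3 + ε/4))) *
          (1 + T ^ (1 - θ) * B ^ θ) * (B' ^ (2 * m))⁻¹ * (c0 ^ 3 * 512 * (T ^ (9 * δ) * s ^ 3 * (B' ^ 3)⁻¹))) := by
        rw [e3]
        gcongr
    _ = (10/7) * m0 * C * CJ * (c0 ^ 3 * 512) * c1 ^ (3 - m - ε1) * ((T ^ (m + 1) * T ^ (m - 3 + ε/4) * T ^ (ε/4) * T ^ (9 * δ)) *
          s ^ 3 * ((B' ^ (3 - m:ℝ) * (B' ^ (2 * m))⁻¹ * (B' ^ 3)⁻¹) * (1 + T ^ (1 - θ) * B ^ θ))) := by ring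
    _ ≤ (10/7) * m0 * C * CJ * (c0 ^ 3 * 512) * c1 ^ (3 - m - ε1) * (T ^ (2 * m - 2 + ε) *
          s ^ 3 * ((P ^ (3 * m) * B ^ (-(3 * m):ℝ)) * (1 + T ^ (1 - θ) * B ^ θ))) := by
        rw [e4]
        gcongr
    _ = _ := by ring

end Pool.Agent.H593.U
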