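import Mathlib
import Pool.Agent.H593.U6.TC
import Pool.Agent.H593.U6.HE2

/-!
# High moments over the annuli with many points
-/

open MeasureTheory Set Filter Topology
open Pool.Agent.H383.Gauss
open scoped ENNReal

namespace Pool.Agent.H593.U

lemma measurable_TTf (p : ℕ) (s s2 : ℝ) (B : ℝ≥0∞) :
    Measurable (fun x : (ℝ × ℝ) × ℝ => nn x.1 x.2 s ^ p * (lvl B s2).indicator (fun _ => (1:ℝ≥0∞)) x) :=
  ((measurable_nn s).pow_const p).mul (measurable_const.indicator (measurableSet_lvl B s2))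

lemma TT_step (p : ℕ) (lo hi s : ℝ) {b : ℝ} (hb : 0 < b) :
    TT p lo hi s s (ENNReal.ofReal b) ≤ ENNReal.ofReal ((2 * b) ^ p) * TT 0 lo hi s s (ENNReal.ofReal b) +
      TT p lo hi s s (ENNReal.ofReal (2 * b)) := by
  have hpt : ∀ a v, nn a v s ^ p * (lvl (ENNReal.ofReal b) s).indicator (fun _ => (1:ℝ≥0∞)) (a, v) ≤
      ENNReal.ofReal ((2 * b) ^ p) * (nn a v s ^ 0 * (lvl (ENNReal.ofReal b) s).indicator (fun _ => (1:ℝ≥0∞)) (a, v)) +
        nn a v s ^ p * (lvl (ENNReal.ofReal (2 * b)) s).indicator (fun _ => (1:ℝ≥0∞)) (a, v) := by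
    intro a v
    by_cases h1 : (a, v) ∈ lvl (ENNReal.ofReal b) s
    · rw [Set.indicator_of_mem h1, mul_one, pow_zero, one_mul, mul_one]
      by_cases h2 : (a, v) ∈ lvl (ENNReal.ofReal (2 * b)) s
      · rw [Set.indicator_of_mem h2, mul_one]
        exact le_add_self
      · refine le_trans ?_ le_self_add
        have h3 : nn a v s ≤ ENNReal.ofReal (2 * b) := by
          have h4 : ¬ (ENNReal.ofReal (2 * b) ≤ nn a v s) := h2
          exact (not_le.mp h4).le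
        rw [ENNReal.ofReal_pow (by positivity)]
        gcongr
    · rw [Set.indicator_of_notMem h1, mul_zero]; exact zero_le
  have hm0 := measurable_TTf 0 s s (ENNReal.ofReal b)
  have hmv : Measurable (fun v : ℝ => ∫⁻ a in Q, ENNReal.ofReal ((2 * b) ^ p) *
      (nn a v s ^ 0 * (lvl (ENNReal.ofReal b) s).indicator (fun _ => (1:ℝ≥0∞)) (a, v))) :=
    (hm0.const_mul (ENNReal.ofReal ((2 * b) ^ p))).lintegral_prod_left'
  have hma : ∀ v, Measurable (fun a : ℝ × ℝ => ENNReal.ofReal ((2 * b) ^ p) *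
      (nn a v s ^ 0 * (lvl (ENNReal.ofReal b) s).indicator (fun _ => (1:ℝ≥0∞)) (a, v))) := by
    intro v
    have h := (hm0.const_mul (ENNReal.ofReal ((2 * b) ^ p))).comp (measurable_mk v)
    exact h
  unfold TT
  calc ∫⁻ v in Icc lo hi, ∫⁻ a in Q, nn a v s ^ p * (lvl (ENNReal.ofReal b) s).indicator (fun _ => (1:ℝ≥0∞)) (a, v)
      ≤ ∫⁻ v in Icc lo hi, ∫⁻ a in Q, (ENNReal.ofReal ((2 * b) ^ p) *
          (nn a v s ^ 0 * (lvl (ENNReal.ofReal b) s).indicator (fun _ => (1:ℝ≥0∞)) (a, v)) +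
        nn a v s ^ p * (lvl (ENNReal.ofReal (2 * b)) s).indicator (fun _ => (1:ℝ≥0∞)) (a, v)) := by
        apply lintegral_mono
        intro v
        apply lintegral_mono
        intro a
        exact hpt a v
    _ = ∫⁻ v in Icc lo hi, ((∫⁻ a in Q, ENNReal.ofReal ((2 * b) ^ p) *
          (nn a v s ^ 0 * (lvl (ENNReal.ofReal b) s).indicator (fun _ => (1:ℝ≥0∞)) (a, v))) +
        ∫⁻ a in Q, nn a v s ^ p * (lvl (ENNReal.ofReal (2 * b)) s).indicator (fun _ => (1:ℝ≥0∞)) (a, v)) := by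
        congr 1
        ext v
        rw [lintegral_add_left (hma v)]
    _ = _ := by
        rw [lintegral_add_left hmv]
        congr 1
        rw [← lintegral_const_mul' _ _ ENNReal.ofReal_ne_top]
        congr 1
        ext v
        rw [lintegral_const_mul' _ _ ENNReal.ofReal_ne_top]

lemma TT_dyadic (p : ℕ) (lo hi s : ℝ) {b : ℝ} (hb : 0 < b) (n : ℕ) :
    TT p lo hi s s (ENNReal.ofReal b) ≤
      (∑ i ∈ Finset.range n, ENNReal.ofReal ((2 * (2 ^ i * b)) ^ p) * TT 0 lo hi s s (ENNReal.ofReal (2 ^ i * b))) +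
      TT p lo hi s s (ENNReal.ofReal (2 ^ n * b)) := by
  induction n with
  | zero => simp
  | succ n ih =>
    refine ih.trans ?_
    rw [Finset.sum_range_succ, add_assoc]
    refine add_le_add le_rfl ?_
    have := TT_step p lo hi s (b := 2 ^ n * b) (by positivity)
    rwa [show 2 * (2 ^ n * b) = 2 ^ (n+1) * b by ring] at this ⊢

/-- high moments over the annuli with many points -/
def Kap (p : ℕ) (κ : ℝ) : Prop := ∀ ε : ℝ, 0 < ε → ∃ C C2 : ℝ, 0 < C ∧ 1 ≤ C2 ∧ ∀ T s B : ℝ, 1 ≤ T → 0 < s →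
  C2 * (T ^ ε * max 1 s) ≤ B →
  TT p (T^2/4) (8*T^2) s s (ENNReal.ofReal B) ≤ ENNReal.ofReal (C * (T ^ (2 + κ + ε) * s ^ 3))

lemma Kap_of {p : ℕ} {κ : ℝ} (H : ∀ ε : ℝ, 0 < ε → ∃ C C2 : ℝ, 0 < C ∧ 1 ≤ C2 ∧ ∀ T s B : ℝ, 1 ≤ T → 0 < s →
    C2 * (T ^ ε * max 1 s) ≤ B → B ≤ 346 * T ^ 2 →
    TT 0 (T^2/4) (8*T^2) s s (ENNReal.ofReal B) ≤ ENNReal.ofReal (C * (T ^ (2 + κ + ε) * s ^ 3 * (B ^ p)⁻¹))) :
    Kap p κ := by
  intro ε hε
  obtain ⟨C, C2, hC, hC2, h⟩ := H (ε/2) (by positivity)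
  obtain ⟨C3, hC3, h3⟩ := log_pow_le 1 (ε := ε/2) (by positivity)
  refine ⟨20 * C3 * (2 ^ p * C), max C2 400, by positivity, hC2.trans (le_max_left _ _), ?_⟩
  intro T s B hT hs hB
  have hT0 : 0 < T := by linarith
  have hTε : 1 ≤ T ^ ε := Real.one_le_rpow hT hε.le
  have hmax1 : (1:ℝ) ≤ max 1 s := le_max_left _ _
  have hmaxs : s ≤ max 1 s := le_max_right _ _
  have hB400 : 400 * max 1 s ≤ B := by
    calc 400 * max 1 s = 400 * (1 * max 1 s) := by ring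
      _ ≤ (max C2 400) * (T ^ ε * max 1 s) := by
          gcongr
          exact le_max_right _ _
      _ ≤ B := hB
  have hB1 : 400 ≤ B := by linarith
  have hB0 : 0 < B := by linarith
  rcases lt_or_ge (T ^ 2) s with hsT | hsT
  · rw [TT_big p hT hs (by linarith)]
    exact zero_le
  have hBC : ∀ b, B ≤ b → C2 * (T ^ (ε/2) * max 1 s) ≤ b := by
    intro b hb
    refine le_trans ?_ (hB.trans hb)
    have k1 : T ^ (ε/2) ≤ T ^ ε := Real.rpow_le_rpow_of_exponent_le hT (by linarith)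
    gcongr
    exact le_max_left _ _
  -- number of steps
  set N := ⌈346 * T ^ 2⌉₊ with hN
  set n := Nat.log 2 N + 1 with hn
  have hT2 : 1 ≤ T ^ 2 := one_le_pow₀ hT
  have hN1 : 346 * T ^ 2 ≤ N := Nat.le_ceil _
  have hN2 : (N:ℝ) ≤ 347 * T ^ 2 := by
    have := Nat.ceil_lt_add_one (a := 346 * T ^ 2) (by positivity)
    linarith
  have hNpos : (0:ℝ) < N := by linarith
  have hn1 : 346 * T ^ 2 < 2 ^ n := by
    have h1 : N < 2 ^ (Nat.log 2 N + 1) := Nat.lt_pow_succ_log_self (by norm_num) N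
    have h1' : (N:ℝ) < (2:ℝ) ^ (Nat.log 2 N + 1) := by exact_mod_cast h1
    linarith
  have hn2 : (n:ℝ) ≤ 20 * (Real.log T + 1) := by
    have k0 := natlog_le N
    have k1 := Real.log_le_log hNpos hN2
    rw [Real.log_mul (by norm_num) (by positivity), Real.log_pow] at k1
    have k2 : Real.log 347 ≤ 6 := by
      rw [Real.log_le_iff_le_exp (by norm_num)]
      have h5 := Real.exp_one_gt_d9
      have : Real.exp 6 = (Real.exp 1) ^ 6 := by rw [← Real.exp_nat_mul]; norm_num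
      rw [this]
      calc (347:ℝ) ≤ 2.7 ^ 6 := by norm_num
        _ ≤ _ := by gcongr; linarith
    have k3 : 0 ≤ Real.log T := Real.log_nonneg hT
    rw [hn]; push_cast at k1 ⊢
    linarith
  have hlog := h3 T hT
  rw [pow_one] at hlog
  have h1 := TT_dyadic p (T^2/4) (8*T^2) s hB0 n
  rw [TT_big p hT hs (B := 2 ^ n * B) (by nlinarith), add_zero] at h1
  refine h1.trans ?_
  have h2 : ∀ i ∈ Finset.range n, ENNReal.ofReal ((2 * (2 ^ i * B)) ^ p) *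
      TT 0 (T^2/4) (8*T^2) s s (ENNReal.ofReal (2 ^ i * B)) ≤ ENNReal.ofReal (2 ^ p * C * (T ^ (2 + κ + ε/2) * s ^ 3)) := by
    intro i _
    set b := 2 ^ i * B with hb
    have hb1 : B ≤ b := by
      rw [hb]
      have : (1:ℝ) ≤ 2 ^ i := one_le_pow₀ (by norm_num)
      nlinarith
    have hb0 : 0 < b := by linarith
    rcases le_or_gt b (346 * T ^ 2) with hc | hc
    · have k1 := h T s b hT hs (hBC b hb1) hc
      calc ENNReal.ofReal ((2 * b) ^ p) * TT 0 (T^2/4) (8*T^2) s s (ENNReal.ofReal b)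
          ≤ ENNReal.ofReal ((2 * b) ^ p) * ENNReal.ofReal (C * (T ^ (2 + κ + ε/2) * s ^ 3 * (b ^ p)⁻¹)) := by gcongr
        _ = ENNReal.ofReal (2 ^ p * C * (T ^ (2 + κ + ε/2) * s ^ 3)) := by
            rw [← ENNReal.ofReal_mul (by positivity)]
            congr 1
            rw [mul_pow]
            field_simp
        _ ≤ _ := le_rfl
    · rw [TT_big 0 hT hs (by linarith), mul_zero]
      exact zero_le
  refine (Finset.sum_le_card_nsmul _ _ _ h2).trans ?_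
  rw [Finset.card_range, nsmul_eq_mul, ← ENNReal.ofReal_natCast, ← ENNReal.ofReal_mul (by positivity)]
  apply ENNReal.ofReal_le_ofReal
  have e1 : T ^ (ε/2) * T ^ (2 + κ + ε/2) = T ^ (2 + κ + ε) := by
    rw [← Real.rpow_add hT0]; congr 1; ring
  calc (n:ℝ) * (2 ^ p * C * (T ^ (2 + κ + ε/2) * s ^ 3)) ≤ (20 * (C3 * T ^ (ε/2))) * (2 ^ p * C * (T ^ (2 + κ + ε/2) * s ^ 3)) := by
        gcongr
        linarith
    _ = 20 * C3 * (2 ^ p * C) * ((T ^ (ε/2) * T ^ (2 + κ + ε/2)) * s ^ 3) := by ring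
    _ = _ := by rw [e1]

/-- the trivial exponent -/
theorem Kap_six_two : Kap 6 2 := by
  apply Kap_of
  intro ε hε
  obtain ⟨C, C2, hC, hC2, h⟩ := tail_HE (m := 2) (θ := 1) le_rfl (by norm_num) (by norm_num) HE_two ε hε
  refine ⟨C * 2 * 346, C2, by positivity, hC2, ?_⟩
  intro T s B hT hs hB hBT
  have hT0 : 0 < T := by linarith
  have hTε : 1 ≤ T ^ ε := Real.one_le_rpow hT hε.le
  have hmax1 : (1:ℝ) ≤ max 1 s := le_max_left _ _
  have hB1 : 1 ≤ B := by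
    calc (1:ℝ) = 1 * (1 * 1) := by norm_num
      _ ≤ C2 * (T ^ ε * max 1 s) := by gcongr
      _ ≤ B := hB
  have hB0 : 0 < B := by linarith
  refine (h T s B hT hs hB).trans (ENNReal.ofReal_le_ofReal ?_)
  have e1 : B ^ (-(3 * ((2:ℕ):ℝ)):ℝ) = (B ^ 6)⁻¹ := by
    rw [Real.rpow_neg hB0.le]
    congr 1
    rw [← Real.rpow_natCast]; congr 1; norm_num
  rw [e1, show (1:ℝ) - 1 = 0 by norm_num, Real.rpow_zero, one_mul, Real.rpow_one]
  have e2 : T ^ (2 * ((2:ℕ):ℝ) - 2 + ε) * T ^ 2 = T ^ (2 + 2 + ε) := by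
    rw [← Real.rpow_natCast T 2, ← Real.rpow_add hT0]; congr 1; push_cast; ring
  rw [← e2]
  calc C * (T ^ (2 * ((2:ℕ):ℝ) - 2 + ε) * s ^ 3 * ((B ^ 6)⁻¹ * (1 + B)))
      ≤ C * (T ^ (2 * ((2:ℕ):ℝ) - 2 + ε) * s ^ 3 * ((B ^ 6)⁻¹ * (2 * (346 * T ^ 2)))) := by
        gcongr
        linarith
    _ = _ := by ring

/-- the exponent from energies of order six -/
theorem Kap_six {θ : ℝ} (hθ1 : 1 ≤ θ) (hθ2 : θ ≤ 2) (h3 : HE 3 θ) : Kap 6 ((3 - θ) / (4 - θ)) := by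
  set κ := (3 - θ) / (4 - θ) with hκ
  have hκ1 : κ * (4 - θ) = 3 - θ := by rw [hκ]; exact div_mul_cancel₀ _ (by linarith)
  have hκ2 : 1/2 ≤ κ := by rw [hκ, div_le_div_iff₀ (by norm_num) (by linarith)]; linarith
  apply Kap_of
  intro ε hε
  obtain ⟨C, C2, hC, hC2, h⟩ := tail_HE (m := 2) (θ := 1) le_rfl (by norm_num) (by norm_num) HE_two ε hε
  obtain ⟨C', C2', hC', hC2', h'⟩ := tail_HE (m := 3) (θ := θ) (by norm_num) (by linarith) (by norm_num; linarith) h3 ε hε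
  refine ⟨2 * C + 2 * C', max C2 C2', by positivity, hC2.trans (le_max_left _ _), ?_⟩
  intro T s B hT hs hB hBT
  have hT0 : 0 < T := by linarith
  have hTε : 1 ≤ T ^ ε := Real.one_le_rpow hT hε.le
  have hmax1 : (1:ℝ) ≤ max 1 s := le_max_left _ _
  have hBa : C2 * (T ^ ε * max 1 s) ≤ B := by
    refine le_trans ?_ hB
    gcongr
    exact le_max_left _ _
  have hBb : C2' * (T ^ ε * max 1 s) ≤ B := by
    refine le_trans ?_ hB
    gcongr
    exact le_max_right _ _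
  have hB1 : 1 ≤ B := by
    calc (1:ℝ) = 1 * (1 * 1) := by norm_num
      _ ≤ C2 * (T ^ ε * max 1 s) := by gcongr
      _ ≤ B := hBa
  have hB0 : 0 < B := by linarith
  have hTκ : 0 < T ^ κ := by positivity
  have es : T ^ (2 + κ + ε) = T ^ (2 + ε) * T ^ κ := by
    rw [← Real.rpow_add hT0]; congr 1; ring
  rcases le_total B (T ^ κ) with hc | hc
  · refine (h T s B hT hs hBa).trans (ENNReal.ofReal_le_ofReal ?_)
    have e1 : B ^ (-(3 * ((2:ℕ):ℝ)):ℝ) = (B ^ 6)⁻¹ := by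
      rw [Real.rpow_neg hB0.le]
      congr 1
      rw [← Real.rpow_natCast]; congr 1; norm_num
    rw [e1, show (1:ℝ) - 1 = 0 by norm_num, Real.rpow_zero, one_mul, Real.rpow_one]
    have e2 : T ^ (2 * ((2:ℕ):ℝ) - 2 + ε) = T ^ (2 + ε) := by congr 1; push_cast; ring
    rw [e2, es]
    calc C * (T ^ (2 + ε) * s ^ 3 * ((B ^ 6)⁻¹ * (1 + B)))
        ≤ C * (T ^ (2 + ε) * s ^ 3 * ((B ^ 6)⁻¹ * (2 * T ^ κ))) := by
          gcongr
          linarith
      _ = 2 * C * (T ^ (2 + ε) * T ^ κ * s ^ 3 * (B ^ 6)⁻¹) := by ring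
      _ ≤ _ := by
          gcongr
          linarith
  · refine (h' T s B hT hs hBb).trans (ENNReal.ofReal_le_ofReal ?_)
    have e1 : B ^ (-(3 * ((3:ℕ):ℝ)):ℝ) = (B ^ 6)⁻¹ * B ^ (-3:ℝ) := by
      rw [← Real.rpow_natCast B 6, ← Real.rpow_neg hB0.le, ← Real.rpow_add hB0]
      congr 1; norm_num
    have e2 : T ^ (2 * ((3:ℕ):ℝ) - 2 + ε) = T ^ (2 + ε) * T ^ (2:ℝ) := by
      rw [← Real.rpow_add hT0]; congr 1; push_cast; ring
    rw [e1, e2, es]
    have e3 : T ^ (2:ℝ) * (B ^ (-3:ℝ) * (1 + T ^ (1 - θ) * B ^ θ)) ≤ 2 * T ^ κ := by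
      have q1 : T ^ (2:ℝ) * B ^ (-3:ℝ) ≤ T ^ κ := by
        calc T ^ (2:ℝ) * B ^ (-3:ℝ) ≤ T ^ (2:ℝ) * (T ^ κ) ^ (-3:ℝ) := by
              gcongr ?_ * ?_
              exact Real.rpow_le_rpow_of_nonpos hTκ hc (by norm_num : (-3:ℝ) ≤ 0)
          _ = T ^ (2 + κ * (-3)) := by rw [← Real.rpow_mul hT0.le, ← Real.rpow_add hT0]
          _ ≤ T ^ κ := Real.rpow_le_rpow_of_exponent_le hT (by linarith)
      have q2 : T ^ (2:ℝ) * (B ^ (-3:ℝ) * (T ^ (1 - θ) * B ^ θ)) ≤ T ^ κ := by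
        calc T ^ (2:ℝ) * (B ^ (-3:ℝ) * (T ^ (1 - θ) * B ^ θ)) = T ^ (3 - θ) * B ^ (-(3 - θ)) := by
              have a1 : T ^ (3 - θ) = T ^ (2:ℝ) * T ^ (1 - θ) := by rw [← Real.rpow_add hT0]; congr 1; ring
              have a2 : B ^ (-(3 - θ)) = B ^ (-3:ℝ) * B ^ θ := by rw [← Real.rpow_add hB0]; congr 1; ring
              rw [a1, a2]; ring
          _ ≤ T ^ (3 - θ) * (T ^ κ) ^ (-(3 - θ)) := by
              gcongr ?_ * ?_
              exact Real.rpow_le_rpow_of_nonpos hTκ hc (by linarith : -(3 - θ) ≤ 0)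
          _ = T ^ ((3 - θ) + κ * (-(3 - θ))) := by rw [← Real.rpow_mul hT0.le, ← Real.rpow_add hT0]
          _ ≤ T ^ κ := Real.rpow_le_rpow_of_exponent_le hT (by linarith)
      calc _ = T ^ (2:ℝ) * B ^ (-3:ℝ) + T ^ (2:ℝ) * (B ^ (-3:ℝ) * (T ^ (1 - θ) * B ^ θ)) := by ring
        _ ≤ _ := by linarith
    calc C' * (T ^ (2 + ε) * T ^ (2:ℝ) * s ^ 3 * ((B ^ 6)⁻¹ * B ^ (-3:ℝ) * (1 + T ^ (1 - θ) * B ^ θ)))
        = C' * (T ^ (2 + ε) * s ^ 3 * (B ^ 6)⁻¹ * (T ^ (2:ℝ) * (B ^ (-3:ℝ) * (1 + T ^ (1 - θ) * B ^ θ)))) := by ring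
      _ ≤ C' * (T ^ (2 + ε) * s ^ 3 * (B ^ 6)⁻¹ * (2 * T ^ κ)) := by gcongr
      _ = 2 * C' * (T ^ (2 + ε) * T ^ κ * s ^ 3 * (B ^ 6)⁻¹) := by ring
      _ ≤ _ := by
          gcongr
          linarith

end Pool.Agent.H593.U
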