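import Mathlib
import Pool.Agent.H593.U6.Kap

/-!
# The exponential sum: improved kernel bound and approximation by finite sums
-/

open MeasureTheory Set Filter Topology
open Pool.Agent.H383.Gauss
open scoped ENNReal

namespace Pool.Agent.H593.U

lemma summ_inv2 {c : ℝ} (hc : 0 < c) : Summable (fun z : ℤ × ℤ => (c * (1 + nz z ^ 2)) ^ (-(5/4):ℝ)) := by
  have h1 := (summable_nz (s := 5/2) (by norm_num)).mul_left (c ^ (-(5/4):ℝ))
  have h2 : HasSum (fun p : ℤ × ℤ => if p = 0 then (c ^ (-(5/4):ℝ)) else 0) (c ^ (-(5/4):ℝ)) := hasSum_ite_eq 0 _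
  refine Summable.of_nonneg_of_le (fun n => by have := nz_nonneg n; positivity) ?_ (h1.add h2.summable)
  intro k
  by_cases hk : k = 0
  · rw [if_pos hk, if_pos hk, hk, nz_zero]; simp
  · rw [if_neg hk, if_neg hk, add_zero]
    have hn := nz_ge_one hk
    have hn0 : 0 < nz k := by linarith
    rw [Real.mul_rpow hc.le (by positivity)]
    gcongr
    have h3 : nz k ^ (-(5/2):ℝ) = (nz k ^ 2) ^ (-(5/4):ℝ) := by
      rw [← Real.rpow_natCast, ← Real.rpow_mul hn0.le]; norm_num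
    rw [h3]
    apply Real.rpow_le_rpow_of_nonpos (by positivity) (by linarith) (by norm_num)

lemma kz_far2 {y t : ℝ} (hy : 0 < y) (hy1 : y ≤ 1) (ht : 0 ≤ t) {z : ℤ × ℤ} {a : ℝ × ℝ} (ha : a ∈ Q)
    (hr : 2 * t + 1 ≤ da z a) :
    ‖zt y t‖ * kz (zt y t) z a ≤ 3 * (1 + t) ^ (1/2:ℝ) * ((1/12) * (1 + nz z ^ 2)) ^ (-(5/4):ℝ) := by
  have h1 := norm_ge_max y (da z a - t) hy.le
  have h2 := norm_ge_max y (-(da z a + t)) hy.le
  have hr0 : 0 < da z a := by linarith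
  have h3 : da z a ≤ ‖(y:ℂ) + ((-(da z a + t) : ℝ) : ℂ) * Complex.I‖ := by
    refine le_trans ?_ ((le_max_right _ _).trans h2)
    rw [abs_neg, abs_of_nonneg (by linarith)]
    linarith
  have h3' : da z a / 2 ≤ ‖(y:ℂ) + ((da z a - t : ℝ) : ℂ) * Complex.I‖ := by
    refine le_trans ?_ ((le_max_right _ _).trans h1)
    rw [abs_of_nonneg (by linarith)]
    linarith
  have hsq : sqn a ≤ 2 := by
    unfold Q at ha
    rw [Set.mem_prod, Set.mem_Ico, Set.mem_Ico] at ha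
    unfold sqn
    nlinarith [ha.1.1, ha.1.2, ha.2.1, ha.2.2]
  have hd : (1/12) * (1 + nz z ^ 2) ≤ da z a ^ 2 := by
    have k1 := one_add_nz_le z a
    have k2 := d2_nonneg z a
    rw [da_sq]
    have k3 : 1 ≤ d2 z a := by rw [← da_sq]; nlinarith
    have k4 : (2 + 2 * sqn a) * (1 + d2 z a) ≤ 6 * (1 + d2 z a) := by gcongr; linarith
    linarith
  have h4 : kz (zt y t) z a ≤ ((1/2) * da z a ^ 2) ^ (-(3/2):ℝ) := by
    unfold kz
    rw [zt_fac]
    apply Real.rpow_le_rpow_of_nonpos (by positivity) _ (by norm_num)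
    calc (1/2) * da z a ^ 2 = da z a / 2 * da z a := by ring
      _ ≤ _ := by gcongr
  have h5 := norm_zt_le hy.le ht
  have e : (1/2:ℝ) ^ (-(3/2):ℝ) ≤ 3 := by
    have e : (1/2:ℝ) ^ (-(3/2):ℝ) = 2 ^ (3/2:ℝ) := by
      rw [one_div, Real.inv_rpow (by norm_num), ← Real.rpow_neg (by norm_num)]; norm_num
    rw [e]
    have h9 : ((2:ℝ) ^ (3/2:ℝ)) ^ 2 = 8 := by
      rw [← Real.rpow_natCast, ← Real.rpow_mul (by norm_num)]; norm_num
    nlinarith [Real.rpow_pos_of_pos (by norm_num : (0:ℝ) < 2) (3/2:ℝ)]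
  have h6 : (da z a ^ 2) ^ (-(3/2):ℝ) ≤ ((1/12) * (1 + nz z ^ 2)) ^ (-(5/4):ℝ) * (1 + t) ^ (-(1/2):ℝ) := by
    have k1 : (da z a ^ 2) ^ (-(3/2):ℝ) = (da z a ^ 2) ^ (-(5/4):ℝ) * (da z a) ^ (-(1/2):ℝ) := by
      rw [← Real.rpow_natCast, ← Real.rpow_mul hr0.le, ← Real.rpow_mul hr0.le, ← Real.rpow_add hr0]
      norm_num
    rw [k1]
    have k2 : (da z a ^ 2) ^ (-(5/4):ℝ) ≤ ((1/12) * (1 + nz z ^ 2)) ^ (-(5/4):ℝ) :=
      Real.rpow_le_rpow_of_nonpos (by positivity) hd (by norm_num)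
    have k3 : (da z a) ^ (-(1/2):ℝ) ≤ (1 + t) ^ (-(1/2):ℝ) :=
      Real.rpow_le_rpow_of_nonpos (by positivity) (by linarith) (by norm_num)
    gcongr
  have ht1 : 0 < 1 + t := by linarith
  have h7 : (1 + t) * (1 + t) ^ (-(1/2):ℝ) = (1 + t) ^ (1/2:ℝ) := by
    nth_rewrite 1 [← Real.rpow_one (1 + t)]
    rw [← Real.rpow_add ht1]; norm_num
  calc ‖zt y t‖ * kz (zt y t) z a ≤ (1 + t) * ((1/2) * da z a ^ 2) ^ (-(3/2):ℝ) := by
        have : 0 ≤ kz (zt y t) z a := by unfold kz; positivity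
        have : ‖zt y t‖ ≤ 1 + t := by linarith
        gcongr
    _ = (1 + t) * ((1/2:ℝ) ^ (-(3/2):ℝ) * (da z a ^ 2) ^ (-(3/2):ℝ)) := by
        rw [Real.mul_rpow (by norm_num) (by positivity)]
    _ ≤ (1 + t) * (3 * (((1/12) * (1 + nz z ^ 2)) ^ (-(5/4):ℝ) * (1 + t) ^ (-(1/2):ℝ))) := by gcongr
    _ = 3 * ((1 + t) * (1 + t) ^ (-(1/2):ℝ)) * ((1/12) * (1 + nz z ^ 2)) ^ (-(5/4):ℝ) := by ring
    _ = _ := by rw [h7]

/-- pointwise bound for one term -/
lemma term_le2 {y t : ℝ} (hy : 0 < y) (hy1 : y ≤ 1) (ht : 0 ≤ t) {J : ℕ} (hJ : t + 1 ≤ 2 ^ J * y)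
    (z : ℤ × ℤ) {a : ℝ × ℝ} (ha : a ∈ Q) :
    ENNReal.ofReal (‖zt y t‖ * kz (zt y t) z a) ≤
      ENNReal.ofReal (9 * (y + t) ^ (-(1/2):ℝ)) * (∑ j ∈ Finset.range (J + 1),
        ENNReal.ofReal ((2 ^ j * y) ^ (-(3/2):ℝ)) * chi z a (t^2) (2 ^ j * y * (2 * t + 2 ^ j * y))) +
      ENNReal.ofReal (3 * (1 + t) ^ (1/2:ℝ)) * ENNReal.ofReal (((1/12) * (1 + nz z ^ 2)) ^ (-(5/4):ℝ)) := by
  rcases le_or_gt (2 * t + 1) (da z a) with h | h
  · refine le_trans ?_ le_add_self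
    rw [← ENNReal.ofReal_mul (by positivity)]
    exact ENNReal.ofReal_le_ofReal (kz_far2 hy hy1 ht ha h)
  · refine le_trans ?_ le_self_add
    have hx : |da z a - t| ≤ 2 ^ J * y := by
      refine le_trans ?_ hJ
      rw [abs_le]
      have := da_nonneg z a
      constructor <;> linarith
    obtain ⟨j, hj, h1, h2⟩ := dyadic_pick hy (abs_nonneg _) J hx
    have h3 : chi z a (t^2) (2 ^ j * y * (2 * t + 2 ^ j * y)) = 1 := by
      apply chi_one
      have : d2 z a - t^2 = (da z a - t) * (da z a + t) := by rw [← da_sq]; ring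
      rw [this, abs_mul]
      have h4 : |da z a + t| ≤ 2 * t + 2 ^ j * y := by
        rw [abs_of_nonneg (by have := da_nonneg z a; linarith)]
        have := (abs_le.mp h1).2
        linarith
      gcongr
    calc ENNReal.ofReal (‖zt y t‖ * kz (zt y t) z a)
        ≤ ENNReal.ofReal (9 * (y + t) ^ (-(1/2):ℝ) * (2 ^ j * y) ^ (-(3/2):ℝ)) := by
          apply ENNReal.ofReal_le_ofReal
          refine (kz_near hy ht z a).trans ?_
          calc 3 * (y + t) ^ (-(1/2):ℝ) * (max y |da z a - t|) ^ (-(3/2):ℝ)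
              ≤ 3 * (y + t) ^ (-(1/2):ℝ) * (3 * (2 ^ j * y) ^ (-(3/2):ℝ)) := by gcongr
            _ = _ := by ring
      _ = ENNReal.ofReal (9 * (y + t) ^ (-(1/2):ℝ)) * (ENNReal.ofReal ((2 ^ j * y) ^ (-(3/2):ℝ)) *
            chi z a (t^2) (2 ^ j * y * (2 * t + 2 ^ j * y))) := by
          rw [h3, mul_one, ENNReal.ofReal_mul (by positivity)]
      _ ≤ _ := by
          gcongr
          exact Finset.single_le_sum (f := fun j => ENNReal.ofReal ((2 ^ j * y) ^ (-(3/2):ℝ)) *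
            chi z a (t^2) (2 ^ j * y * (2 * t + 2 ^ j * y))) (fun _ _ => zero_le) hj

theorem Fs_le2 : ∃ C : ℝ, 0 < C ∧ ∀ (y t : ℝ) (J : ℕ) (a : ℝ × ℝ), 0 < y → y ≤ 1 → 0 ≤ t →
    t + 1 ≤ 2 ^ J * y → a ∈ Q →
    ENNReal.ofReal ‖Fs y a t‖ ≤
      ENNReal.ofReal (9 * (y + t) ^ (-(1/2):ℝ)) * (∑ j ∈ Finset.range (J + 1),
        ENNReal.ofReal ((2 ^ j * y) ^ (-(3/2):ℝ)) * nn a (t^2) (2 ^ j * y * (2 * t + 2 ^ j * y))) +
      ENNReal.ofReal (C * (1 + t) ^ (1/2:ℝ)) := by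
  have hs := summ_inv2 (c := 1/12) (by norm_num)
  set C := ∑' z : ℤ × ℤ, ((1/12:ℝ) * (1 + nz z ^ 2)) ^ (-(5/4):ℝ) with hC
  have hC0 : 0 ≤ C := tsum_nonneg (fun z => by have := nz_nonneg z; positivity)
  refine ⟨3 * C + 1, by positivity, ?_⟩
  intro y t J a hy hy1 ht hJ ha
  obtain ⟨h1, h2⟩ := kernel (ζ := zt y t) (by rw [zt_re]; exact hy) a
  have h3 : ENNReal.ofReal ‖Fs y a t‖ ≤ ∑' z : ℤ × ℤ, ENNReal.ofReal (‖zt y t‖ * kz (zt y t) z a) := by
    rw [← ENNReal.ofReal_tsum_of_nonneg (fun z => by unfold kz; positivity) (h1.mul_left _), tsum_mul_left]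
    exact ENNReal.ofReal_le_ofReal h2
  refine h3.trans ((ENNReal.tsum_le_tsum (fun z => term_le2 hy hy1 ht hJ z ha)).trans ?_)
  rw [ENNReal.tsum_add, ENNReal.tsum_mul_left, ENNReal.tsum_mul_left]
  have h4 : ∑' z : ℤ × ℤ, ∑ j ∈ Finset.range (J + 1),
        ENNReal.ofReal ((2 ^ j * y) ^ (-(3/2):ℝ)) * chi z a (t^2) (2 ^ j * y * (2 * t + 2 ^ j * y)) =
      ∑ j ∈ Finset.range (J + 1),
        ENNReal.ofReal ((2 ^ j * y) ^ (-(3/2):ℝ)) * nn a (t^2) (2 ^ j * y * (2 * t + 2 ^ j * y)) := by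
    rw [Summable.tsum_finsetSum (fun _ _ => ENNReal.summable)]
    apply Finset.sum_congr rfl
    intro j _
    rw [ENNReal.tsum_mul_left]; rfl
  have h5 : ∑' z : ℤ × ℤ, ENNReal.ofReal (((1/12) * (1 + nz z ^ 2)) ^ (-(5/4):ℝ)) = ENNReal.ofReal C := by
    rw [hC, ENNReal.ofReal_tsum_of_nonneg (fun z => by have := nz_nonneg z; positivity) hs]
  rw [h4, h5, ← ENNReal.ofReal_mul (by positivity)]
  apply add_le_add le_rfl
  apply ENNReal.ofReal_le_ofReal
  have : 0 ≤ (1 + t) ^ (1/2:ℝ) := by positivity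
  nlinarith

lemma exp_neg_le {x : ℝ} (hx : 0 < x) : Real.exp (-x) ≤ 720 / x ^ 6 := by
  have h3 := Real.pow_div_factorial_le_exp x hx.le 6
  rw [show (Nat.factorial 6 : ℝ) = 720 by norm_num [Nat.factorial]] at h3
  rw [Real.exp_neg, ← one_div]
  calc 1 / Real.exp x ≤ 1 / (x ^ 6 / 720) := by
        apply one_div_le_one_div_of_le (by positivity) h3
    _ = _ := by field_simp

/-- approximation by a finite sum of controlled length -/
lemma F_approx : ∃ C : ℝ, 0 < C ∧ ∀ (K : ℕ) (a : ℝ × ℝ) (t : ℝ), 1 ≤ K →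
    ‖Fs (1/K) a t - S (B0 (K^2)) (bb (1/K)) a t‖ ≤ C := by
  set g : ℤ × ℤ → ℝ := fun k => (if k = 0 then 0 else nz k ^ (-(3:ℝ))) + (if k = 0 then (1:ℝ) else 0) with hg
  have hgs : Summable g := by
    have h2 : HasSum (fun p : ℤ × ℤ => if p = 0 then (1:ℝ) else 0) 1 := hasSum_ite_eq 0 _
    exact (summable_nz (s := 3) (by norm_num)).add h2.summable
  have hg0 : ∀ k, 0 ≤ g k := by
    intro k
    simp only [hg]
    have := nz_nonneg k
    split_ifs <;> positivity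
  have hG0 : 0 ≤ ∑' k, g k := tsum_nonneg hg0
  refine ⟨(∑' k, g k) + 1, by linarith, ?_⟩
  intro K a t hK
  have hK' : (1:ℝ) ≤ K := by exact_mod_cast hK
  have hK0 : (0:ℝ) < K := by linarith
  set y : ℝ := 1 / K with hy
  have hy0 : 0 < y := by positivity
  set B := B0 (K^2) with hB
  have hs : Summable (bb y) := summ_exp hy0
  set f : ℤ × ℤ → ℂ := fun k => (bb y k : ℂ) * ex (dp k a + t * nz k) with hf
  have hbb : ∀ k, 0 ≤ bb y k := fun k => (Real.exp_pos _).le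
  have hfn : ∀ k, ‖f k‖ = bb y k := by
    intro k
    simp only [hf]
    rw [norm_mul, norm_ex, mul_one, Complex.norm_real, Real.norm_of_nonneg (hbb k)]
  have hfs : Summable f := by
    apply Summable.of_norm
    refine hs.congr fun k => (hfn k).symm
  have e1 : Fs y a t = ∑' k, f k := by
    unfold Fs
    congr 1
    ext k
    exact Fs_term y t a k
  have e2 : Fs y a t - S B (bb y) a t = ∑' k : {k // k ∉ B}, f k := by
    rw [e1, ← hfs.sum_add_tsum_subtype_compl B]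
    unfold S
    simp only [hf]
    ring
  rw [e2]
  have h3 : Summable (fun k : {k // k ∉ B} => ‖f k‖) := by
    have : Summable (fun k : {k // k ∉ B} => bb y k) := hs.subtype _
    exact this.congr fun k => (hfn k).symm
  refine (norm_tsum_le_tsum_norm h3).trans ?_
  have h4' : ∀ k : ℤ × ℤ, k ∉ B → ‖f k‖ ≤ g k := by
    intro k hk
    rw [hfn]
    rw [hB, mem_B0, not_and_or, not_not, not_le] at hk
    simp only [hg]
    by_cases hk0 : k = 0
    · rw [if_pos hk0, if_pos hk0, hk0]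
      unfold bb
      rw [nz_zero]; simp
    · rw [if_neg hk0, if_neg hk0, add_zero]
      have hk1 : ((K^2 : ℕ) : ℝ) < nz k := by
        rcases hk with h | h
        · exact absurd h hk0
        · exact h
      push_cast at hk1
      have hn := nz_ge_one hk0
      have hn0 : 0 < nz k := by linarith
      have hpi := Real.pi_gt_three
      set x := 2 * Real.pi * y * nz k with hx
      have hx0 : 0 < x := by positivity
      have k1 : bb y k ≤ 720 / x ^ 6 := by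
        unfold bb
        exact exp_neg_le hx0
      refine k1.trans ?_
      rw [Real.rpow_neg hn0.le, show (3:ℝ) = ((3:ℕ):ℝ) by norm_num, Real.rpow_natCast, ← one_div,
        div_le_div_iff₀ (by positivity) (by positivity), one_mul]
      have k2 : x ^ 6 = (2 * Real.pi) ^ 6 * (nz k ^ 6 / (K:ℝ) ^ 6) := by
        rw [hx, hy]; field_simp
      have k3 : (K:ℝ) ^ 6 ≤ nz k ^ 3 := by
        calc (K:ℝ) ^ 6 = ((K:ℝ) ^ 2) ^ 3 := by ring
          _ ≤ _ := by gcongr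
      have k4 : nz k ^ 3 ≤ nz k ^ 6 / (K:ℝ) ^ 6 := by
        rw [le_div_iff₀ (by positivity)]
        calc nz k ^ 3 * (K:ℝ) ^ 6 ≤ nz k ^ 3 * nz k ^ 3 := by gcongr
          _ = _ := by ring
      have k5 : (720:ℝ) ≤ (2 * Real.pi) ^ 6 := by
        calc (720:ℝ) ≤ (2 * 3) ^ 6 := by norm_num
          _ ≤ _ := by gcongr
      rw [k2]
      gcongr
  have h4 : ∀ k : {k // k ∉ B}, ‖f k‖ ≤ g k := fun k => h4' k.1 k.2
  have h5 : Summable (fun k : {k // k ∉ B} => g k) := hgs.subtype _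
  have h6 : ∑' k : {k // k ∉ B}, g k ≤ ∑' k, g k := by
    rw [← hgs.sum_add_tsum_subtype_compl B]
    have : 0 ≤ ∑ k ∈ B, g k := Finset.sum_nonneg (fun k _ => hg0 k)
    linarith
  have h7 : ∑' k : {k // k ∉ B}, ‖f k‖ ≤ ∑' k : {k // k ∉ B}, g k := h3.tsum_le_tsum h4 h5
  linarith

end Pool.Agent.H593.U
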