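import Mathlib
import Pool.Agent.H593.U6.SC1

/-!
# Lower moments of the exponential sum
-/

open MeasureTheory Set Filter Topology
open Pool.Agent.H383.Gauss
open scoped ENNReal

namespace Pool.Agent.H593.U

lemma add_powp_le' (p : ℕ) (x y : ℝ≥0∞) : (x + y) ^ p ≤ 2 ^ p * (x ^ p + y ^ p) := by
  rcases le_total x y with h | h
  · calc (x + y) ^ p ≤ (y + y) ^ p := by gcongr
      _ = 2 ^ p * y ^ p := by rw [← two_mul, mul_pow]
      _ ≤ _ := by gcongr; exact le_add_self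
  · calc (x + y) ^ p ≤ (x + x) ^ p := by gcongr
      _ = 2 ^ p * x ^ p := by rw [← two_mul, mul_pow]
      _ ≤ _ := by gcongr; exact le_self_add

lemma sum_powp_le' (p n : ℕ) (x : ℕ → ℝ≥0∞) (hp : 1 ≤ p) :
    (∑ j ∈ Finset.range n, x j) ^ p ≤ (n:ℝ≥0∞) ^ p * ∑ j ∈ Finset.range n, x j ^ p := by
  rcases Nat.eq_zero_or_pos n with h | h
  · subst h
    simp
    omega
  · obtain ⟨j0, hj0, hmax⟩ := Finset.exists_max_image (Finset.range n) x ⟨0, Finset.mem_range.mpr h⟩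
    have h1 : ∑ j ∈ Finset.range n, x j ≤ n * x j0 := by
      refine (Finset.sum_le_card_nsmul _ _ _ hmax).trans (le_of_eq ?_)
      rw [Finset.card_range, nsmul_eq_mul]
    calc (∑ j ∈ Finset.range n, x j) ^ p ≤ (n * x j0) ^ p := by gcongr
      _ = (n:ℝ≥0∞) ^ p * x j0 ^ p := by rw [mul_pow]
      _ ≤ _ := by
          gcongr
          exact Finset.single_le_sum (f := fun j => x j ^ p) (fun _ _ => zero_le) hj0

lemma upow_exp (A : ℝ) : ∃ C : ℝ, 1 ≤ C ∧ ∀ u : ℝ, 1 ≤ u → u ^ A * Real.exp (-u) ≤ C := by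
  refine ⟨(Nat.factorial ⌈A⌉₊ : ℝ), by exact_mod_cast Nat.factorial_pos _, ?_⟩
  intro u hu
  have hu0 : 0 < u := by linarith
  have h1 := Real.pow_div_factorial_le_exp u hu0.le ⌈A⌉₊
  have hf : (0:ℝ) < (Nat.factorial ⌈A⌉₊ : ℝ) := by exact_mod_cast Nat.factorial_pos _
  rw [div_le_iff₀ hf] at h1
  have h2 : u ^ A ≤ u ^ ⌈A⌉₊ := by
    rw [← Real.rpow_natCast]
    exact Real.rpow_le_rpow_of_exponent_le hu (Nat.le_ceil A)
  calc u ^ A * Real.exp (-u) ≤ (Real.exp u * (Nat.factorial ⌈A⌉₊ : ℝ)) * Real.exp (-u) := by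
        gcongr
        exact h2.trans h1
    _ = (Nat.factorial ⌈A⌉₊ : ℝ) * (Real.exp u * Real.exp (-u)) := by ring
    _ = _ := by rw [← Real.exp_add, add_neg_cancel, Real.exp_zero, mul_one]

lemma bb_shell_term {m : ℕ} {θ ε : ℝ} (hm : 1 ≤ m) (hθ0 : 0 ≤ θ) (hθ : θ ≤ 4 * m - 3) (hε : 0 ≤ ε) :
    ∃ C : ℝ, 0 < C ∧ ∀ (K x L : ℝ), 1 ≤ K → 1 ≤ x → 0 ≤ L →
    (Real.exp (-(2 * Real.pi * (1/K) * x))) ^ (2 * m) * (x ^ (4 * m - 3 + ε) * (1 + L * x ^ (-θ))) ≤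
      C * (K ^ (4 * m - 3 + ε) * (1 + L * K ^ (-θ))) := by
  obtain ⟨C, hC, h⟩ := upow_exp (4 * m - 3 + ε)
  refine ⟨C, by linarith, ?_⟩
  intro K x L hK hx hL
  have hK0 : 0 < K := by linarith
  have hx0 : 0 < x := by linarith
  have hpi := Real.pi_gt_three
  set A : ℝ := 4 * m - 3 + ε with hA
  have hm' : (1:ℝ) ≤ m := by exact_mod_cast hm
  have hA0 : 0 ≤ A := by rw [hA]; linarith
  have hE0 : 0 ≤ Real.exp (-(2 * Real.pi * (1/K) * x)) := (Real.exp_pos _).le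
  rcases le_total x K with hc | hc
  · have h1 : (Real.exp (-(2 * Real.pi * (1/K) * x))) ^ (2 * m) ≤ 1 := by
      apply pow_le_one₀ hE0
      rw [Real.exp_le_one_iff]
      have : 0 ≤ 2 * Real.pi * (1/K) * x := by positivity
      linarith
    have h2 : x ^ A * (1 + L * x ^ (-θ)) ≤ K ^ A * (1 + L * K ^ (-θ)) := by
      have e1 : x ^ A * (1 + L * x ^ (-θ)) = x ^ A + L * x ^ (A - θ) := by
        have e0 : x ^ (A - θ) = x ^ A * x ^ (-θ) := by rw [← Real.rpow_add hx0]; rfl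
        rw [e0]; ring
      have e2 : K ^ A * (1 + L * K ^ (-θ)) = K ^ A + L * K ^ (A - θ) := by
        have e0 : K ^ (A - θ) = K ^ A * K ^ (-θ) := by rw [← Real.rpow_add hK0]; rfl
        rw [e0]; ring
      rw [e1, e2]
      have k1 : x ^ A ≤ K ^ A := Real.rpow_le_rpow hx0.le hc hA0
      have k2 : x ^ (A - θ) ≤ K ^ (A - θ) := Real.rpow_le_rpow hx0.le hc (by rw [hA]; linarith)
      gcongr
    calc (Real.exp (-(2 * Real.pi * (1/K) * x))) ^ (2 * m) * (x ^ A * (1 + L * x ^ (-θ)))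
        ≤ 1 * (K ^ A * (1 + L * K ^ (-θ))) := by gcongr
      _ ≤ _ := by gcongr
  · set u := x / K with hu
    have hu1 : 1 ≤ u := by rw [hu, le_div_iff₀ hK0]; linarith
    have hxu : x = K * u := by rw [hu]; field_simp
    have h1 : (Real.exp (-(2 * Real.pi * (1/K) * x))) ^ (2 * m) ≤ Real.exp (-u) := by
      rw [← Real.exp_nat_mul]
      apply Real.exp_le_exp.mpr
      have : ((2 * m : ℕ):ℝ) * -(2 * Real.pi * (1/K) * x) = -((2 * m * (2 * Real.pi)) * u) := by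
        rw [hu]; push_cast; ring
      rw [this]
      have : 1 ≤ 2 * m * (2 * Real.pi) := by nlinarith
      nlinarith
    have h2 : x ^ (-θ) ≤ K ^ (-θ) := Real.rpow_le_rpow_of_nonpos hK0 hc (by linarith)
    have h3 : x ^ A = K ^ A * u ^ A := by rw [hxu, Real.mul_rpow hK0.le (by linarith)]
    have h4 := h u hu1
    calc (Real.exp (-(2 * Real.pi * (1/K) * x))) ^ (2 * m) * (x ^ A * (1 + L * x ^ (-θ)))
        ≤ Real.exp (-u) * ((K ^ A * u ^ A) * (1 + L * K ^ (-θ))) := by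
          rw [h3]
          gcongr
      _ = (u ^ A * Real.exp (-u)) * (K ^ A * (1 + L * K ^ (-θ))) := by ring
      _ ≤ _ := by gcongr

lemma logJ (p : ℕ) {ε : ℝ} (hε : 0 < ε) : ∃ C : ℝ, 0 < C ∧ ∀ K : ℕ, 1 ≤ K →
    ∃ J : ℕ, K ^ 2 < 2 ^ J ∧ (J:ℝ) ^ p ≤ C * (K:ℝ) ^ ε := by
  obtain ⟨C, hC, h⟩ := log_pow_le p hε
  refine ⟨4 ^ p * C, by positivity, ?_⟩
  intro K hK
  have hK' : (1:ℝ) ≤ K := by exact_mod_cast hK
  refine ⟨Nat.log 2 (K ^ 2) + 1, Nat.lt_pow_succ_log_self (by norm_num) _, ?_⟩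
  have h0 := natlog_le (K ^ 2)
  push_cast at h0
  rw [Real.log_pow] at h0
  have h1 : 0 ≤ Real.log K := Real.log_nonneg hK'
  have h7 : ((Nat.log 2 (K ^ 2) + 1 : ℕ) : ℝ) ≤ 4 * (Real.log K + 1) := by
    push_cast at h0 ⊢
    linarith
  calc ((Nat.log 2 (K ^ 2) + 1 : ℕ) : ℝ) ^ p ≤ (4 * (Real.log K + 1)) ^ p := by gcongr
    _ = 4 ^ p * (Real.log K + 1) ^ p := by rw [mul_pow]
    _ ≤ 4 ^ p * (C * (K:ℝ) ^ ε) := by gcongr; exact h K hK'
    _ = _ := by ring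

/-- moments of the exponential sum in terms of energies -/
theorem F_low {m : ℕ} {θ : ℝ} (hm : 1 ≤ m) (hθ0 : 0 ≤ θ) (hθ : θ ≤ 4 * m - 3) (h : HE m θ) {ε : ℝ} (hε : 0 < ε) :
    ∃ C : ℝ, 0 < C ∧ ∀ (K : ℕ) (τ : ℝ), 1 ≤ K → 0 < τ →
    ∫⁻ t in Icc (0:ℝ) τ, ∫⁻ a in Q, ENNReal.ofReal ‖Fs (1/K) a t‖ ^ (2 * m) ≤
      ENNReal.ofReal (C * ((K:ℝ) ^ (4 * m - 3 + ε) * (1 + τ * (K:ℝ) ^ (-θ)) + τ)) := by
  obtain ⟨Ca, hCa, hap⟩ := F_approx
  obtain ⟨C1, hC1, h1⟩ := gauss_allP hm hθ0 h (ε := ε/2) (by positivity)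
  obtain ⟨C2, hC2, h2⟩ := bb_shell_term hm hθ0 hθ (ε := ε/2) (by positivity)
  obtain ⟨C3, hC3, h3⟩ := logJ (2 * m) (ε := ε/2) (by positivity)
  refine ⟨2 ^ (2 * m) * (Real.exp Real.pi * (C1 * (C3 * C2)) + Ca ^ (2 * m)), by positivity, ?_⟩
  intro K τ hK hτ
  have hK' : (1:ℝ) ≤ K := by exact_mod_cast hK
  have hK0 : (0:ℝ) < K := by linarith
  obtain ⟨J, hJ1, hJ2⟩ := h3 K hK
  set y : ℝ := 1 / K with hy
  have hy0 : 0 < y := by positivity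
  have hpi := Real.pi_pos
  have p1 : ∀ t : ℝ, ∫⁻ a in Q, ENNReal.ofReal ‖Fs y a t‖ ^ (2 * m) ≤
      2 ^ (2 * m) * (ENNReal.ofReal (MP m (B0 (K^2)) (bb y) t) + ENNReal.ofReal (Ca ^ (2 * m))) := by
    intro t
    calc ∫⁻ a in Q, ENNReal.ofReal ‖Fs y a t‖ ^ (2 * m)
        ≤ ∫⁻ a in Q, 2 ^ (2 * m) * (ENNReal.ofReal (‖S (B0 (K^2)) (bb y) a t‖ ^ (2 * m)) + ENNReal.ofReal (Ca ^ (2 * m))) := by
          apply lintegral_mono
          intro a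
          have k1 : ‖Fs y a t‖ ≤ ‖S (B0 (K^2)) (bb y) a t‖ + Ca := by
            have : Fs y a t = S (B0 (K^2)) (bb y) a t + (Fs y a t - S (B0 (K^2)) (bb y) a t) := by ring
            rw [this]
            refine (norm_add_le _ _).trans ?_
            gcongr
            exact hap K a t hK
          calc ENNReal.ofReal ‖Fs y a t‖ ^ (2 * m) ≤
                (ENNReal.ofReal ‖S (B0 (K^2)) (bb y) a t‖ + ENNReal.ofReal Ca) ^ (2 * m) := by
                gcongr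
                rw [← ENNReal.ofReal_add (norm_nonneg _) hCa.le]
                exact ENNReal.ofReal_le_ofReal k1
            _ ≤ 2 ^ (2 * m) * (ENNReal.ofReal ‖S (B0 (K^2)) (bb y) a t‖ ^ (2 * m) + ENNReal.ofReal Ca ^ (2 * m)) :=
                add_powp_le' _ _ _
            _ = _ := by
                simp only
                rw [ENNReal.ofReal_pow (norm_nonneg _), ENNReal.ofReal_pow hCa.le]
      _ = _ := by
          rw [lintegral_const_mul' _ _ (by simp), lintegral_add_right _ measurable_const, setLIntegral_const,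
            volume_Q, mul_one, lint_S_pow]
  have p2 : ∫⁻ t in Icc (0:ℝ) τ, ENNReal.ofReal (MP m (B0 (K^2)) (bb y) t) ≤
      ENNReal.ofReal (Real.exp Real.pi * (C1 * (C3 * C2)) * ((K:ℝ) ^ (4 * m - 3 + ε) * (1 + τ * (K:ℝ) ^ (-θ)))) := by
    refine (lint_MP_le hτ 0 m (B0 (K^2)) (bb y) (fun t ht => by
      rw [sub_zero, abs_of_nonneg ht.1]; exact ht.2) measurableSet_Icc).trans ?_
    apply ENNReal.ofReal_le_ofReal
    have q1 := h1 (K^2) J (bb y) (fun j => Real.exp (-(2 * Real.pi * (1/(K:ℝ)) * 2 ^ j))) 0 τ hτ hJ1 (by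
      intro j p hp
      unfold sh at hp
      rw [Finset.mem_filter, mem_B0] at hp
      obtain ⟨⟨hp0, hpY⟩, hlg⟩ := hp
      have k1 := lg_le hp0
      rw [hlg] at k1
      unfold bb
      rw [abs_of_pos (Real.exp_pos _)]
      apply Real.exp_le_exp.mpr
      have : 2 * Real.pi * (1/(K:ℝ)) * 2 ^ j ≤ 2 * Real.pi * (1/(K:ℝ)) * nz p := by gcongr
      rw [hy]
      linarith)
    have q2 : ∑ j ∈ Finset.range J, (Real.exp (-(2 * Real.pi * (1/(K:ℝ)) * 2 ^ j))) ^ (2 * m) *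
        (((2:ℝ) ^ j) ^ (4 * m - 3 + ε/2) * (1 + τ * ((2:ℝ) ^ j) ^ (-θ))) ≤
        J * (C2 * ((K:ℝ) ^ (4 * m - 3 + ε/2) * (1 + τ * (K:ℝ) ^ (-θ)))) := by
      refine (Finset.sum_le_card_nsmul _ _ (C2 * ((K:ℝ) ^ (4 * m - 3 + ε/2) * (1 + τ * (K:ℝ) ^ (-θ)))) ?_).trans (le_of_eq ?_)
      · intro j _
        exact h2 K (2 ^ j) τ hK' (one_le_pow₀ (by norm_num)) hτ.le
      · rw [Finset.card_range, nsmul_eq_mul]
    have e0 : (J:ℝ) ^ (2 * m) = (J:ℝ) ^ (2 * m - 1) * J := by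
      rw [← pow_succ]; congr 1; omega
    have e1 : (K:ℝ) ^ (ε/2) * (K:ℝ) ^ (4 * m - 3 + ε/2) = (K:ℝ) ^ (4 * m - 3 + ε) := by
      rw [← Real.rpow_add hK0]; congr 1; ring
    calc Real.exp Real.pi * ∫ t, Real.exp (-(Real.pi * (t - 0) ^ 2 / τ ^ 2)) * MP m (B0 (K^2)) (bb y) t
        ≤ Real.exp Real.pi * (C1 * ((J:ℝ) ^ (2 * m - 1) * (J * (C2 * ((K:ℝ) ^ (4 * m - 3 + ε/2) * (1 + τ * (K:ℝ) ^ (-θ))))))) := by
          gcongr
          refine q1.trans ?_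
          gcongr
      _ = Real.exp Real.pi * (C1 * ((J:ℝ) ^ (2 * m) * (C2 * ((K:ℝ) ^ (4 * m - 3 + ε/2) * (1 + τ * (K:ℝ) ^ (-θ)))))) := by
          rw [e0]; ring
      _ ≤ Real.exp Real.pi * (C1 * ((C3 * (K:ℝ) ^ (ε/2)) * (C2 * ((K:ℝ) ^ (4 * m - 3 + ε/2) * (1 + τ * (K:ℝ) ^ (-θ)))))) := by
          gcongr
      _ = Real.exp Real.pi * (C1 * (C3 * C2)) * (((K:ℝ) ^ (ε/2) * (K:ℝ) ^ (4 * m - 3 + ε/2)) * (1 + τ * (K:ℝ) ^ (-θ))) := by ring
      _ = _ := by rw [e1]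
  have e2 : (2:ℝ≥0∞) ^ (2 * m) = ENNReal.ofReal (2 ^ (2 * m)) := by
    rw [ENNReal.ofReal_pow (by norm_num)]; simp
  set G := (K:ℝ) ^ (4 * m - 3 + ε) * (1 + τ * (K:ℝ) ^ (-θ)) with hG
  have hG0 : 0 ≤ G := by positivity
  set D := Real.exp Real.pi * (C1 * (C3 * C2)) with hD
  have hD0 : 0 ≤ D := by positivity
  calc ∫⁻ t in Icc (0:ℝ) τ, ∫⁻ a in Q, ENNReal.ofReal ‖Fs y a t‖ ^ (2 * m)
      ≤ ∫⁻ t in Icc (0:ℝ) τ, 2 ^ (2 * m) * (ENNReal.ofReal (MP m (B0 (K^2)) (bb y) t) + ENNReal.ofReal (Ca ^ (2 * m))) :=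
        lintegral_mono (fun t => p1 t)
    _ = 2 ^ (2 * m) * ((∫⁻ t in Icc (0:ℝ) τ, ENNReal.ofReal (MP m (B0 (K^2)) (bb y) t)) + ENNReal.ofReal (Ca ^ (2 * m)) * ENNReal.ofReal τ) := by
        rw [lintegral_const_mul' _ _ (by simp), lintegral_add_right _ measurable_const, setLIntegral_const,
          Real.volume_Icc, sub_zero]
    _ ≤ ENNReal.ofReal (2 ^ (2 * m)) * (ENNReal.ofReal (D * G) + ENNReal.ofReal (Ca ^ (2 * m)) * ENNReal.ofReal τ) := by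
        rw [e2]; gcongr
    _ = ENNReal.ofReal (2 ^ (2 * m) * (D * G + Ca ^ (2 * m) * τ)) := by
        rw [ENNReal.ofReal_mul (p := 2 ^ (2 * m)) (by positivity), ENNReal.ofReal_add (by positivity) (by positivity),
          ENNReal.ofReal_mul (p := Ca ^ (2 * m)) (by positivity)]
    _ ≤ _ := by
        apply ENNReal.ofReal_le_ofReal
        have h9 : 0 ≤ Ca ^ (2 * m) := by positivity
        have : D * G + Ca ^ (2 * m) * τ ≤ (D + Ca ^ (2 * m)) * (G + τ) := by nlinarith [mul_nonneg h9 hG0, mul_nonneg hD0 hτ.le]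
        calc 2 ^ (2 * m) * (D * G + Ca ^ (2 * m) * τ) ≤ 2 ^ (2 * m) * ((D + Ca ^ (2 * m)) * (G + τ)) := by gcongr
          _ = _ := by ring

end Pool.Agent.H593.U
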