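import Mathlib
import Pool.Agent.H593.U6.SC2

/-!
# High moments of the exponential sum on dyadic ranges
-/

open MeasureTheory Set Filter Topology
open Pool.Agent.H383.Gauss
open scoped ENNReal

namespace Pool.Agent.H593.U

lemma split_pow {f L X : ℝ≥0∞} (h : f ≤ L + X) (q : ℕ) :
    f ^ (q + 2) ≤ (2 * L) ^ 2 * f ^ q + (2 * X) ^ (q + 2) := by
  rcases le_or_gt f (2 * L) with h1 | h1
  · refine le_trans ?_ le_self_add
    calc f ^ (q + 2) = f ^ 2 * f ^ q := by ring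
      _ ≤ (2 * L) ^ 2 * f ^ q := by gcongr
  · refine le_trans ?_ le_add_self
    have h2 : f ≤ 2 * X := by
      by_contra h3
      push Not at h3
      have h4 := ENNReal.add_lt_add h1 h3
      have h5 : f + f ≤ 2 * L + 2 * X := by
        calc f + f = 2 * f := by ring
          _ ≤ 2 * (L + X) := by gcongr
          _ = _ := by ring
      exact absurd h4 (not_lt.mpr h5)
    gcongr

lemma ofReal_alg4 {a b c d e : ℝ} (ha : 0 ≤ a) (hb : 0 ≤ b) (hc : 0 ≤ c) (hd : 0 ≤ d) (he : 0 ≤ e) :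
    ENNReal.ofReal a * ENNReal.ofReal b + ENNReal.ofReal c * (ENNReal.ofReal d * ENNReal.ofReal e) =
      ENNReal.ofReal (a * b + c * (d * e)) := by
  rw [ENNReal.ofReal_add (by positivity) (by positivity), ENNReal.ofReal_mul ha, ENNReal.ofReal_mul hc,
    ENNReal.ofReal_mul hd]

lemma pickJ3 (p : ℕ) {ε : ℝ} (hε : 0 < ε) : ∃ C : ℝ, 0 < C ∧ ∀ (K τ : ℝ), 1 ≤ K → 1/2 ≤ τ → τ ≤ K ^ 3 →
    ∃ J : ℕ, 2 * τ + 1 ≤ 2 ^ J * (1/K) ∧ 2 ^ J * (1/K) ≤ 12 * τ ∧ ((J:ℝ) + 1) ^ p ≤ C * K ^ ε := by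
  obtain ⟨C, hC, h⟩ := log_pow_le p hε
  refine ⟨10 ^ p * C, by positivity, ?_⟩
  intro K τ hK hτ hτK
  have hK0 : 0 < K := by linarith
  set N := ⌈(2 * τ + 1) * K⌉₊ with hN
  have hN1 : (2 * τ + 1) * K ≤ N := Nat.le_ceil _
  have hN2 : (N:ℝ) < (2 * τ + 1) * K + 1 := Nat.ceil_lt_add_one (by positivity)
  have hN0 : N ≠ 0 := by
    have : 0 < N := Nat.ceil_pos.mpr (by positivity)
    omega
  have h1 : N < 2 ^ (Nat.log 2 N + 1) := Nat.lt_pow_succ_log_self (by norm_num) N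
  have h2 : 2 ^ (Nat.log 2 N) ≤ N := Nat.pow_log_le_self 2 hN0
  have h1' : (N:ℝ) < (2:ℝ) ^ (Nat.log 2 N + 1) := by exact_mod_cast h1
  have h2' : (2:ℝ) ^ (Nat.log 2 N) ≤ N := by exact_mod_cast h2
  refine ⟨Nat.log 2 N + 1, ?_, ?_, ?_⟩
  · rw [mul_one_div, le_div_iff₀ hK0]; linarith
  · rw [mul_one_div, div_le_iff₀ hK0, pow_succ]
    nlinarith
  · have h3 := natlog_le N
    have hK3 : 1 ≤ K ^ 3 := one_le_pow₀ hK
    have h4 : (N:ℝ) ≤ 4 * K ^ 4 := by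
      have e1 : 2 * τ * K ≤ 2 * K ^ 3 * K := by gcongr
      have e2 : K ≤ K ^ 4 := by
        calc K = K ^ 1 := (pow_one K).symm
          _ ≤ K ^ 4 := pow_le_pow_right₀ hK (by norm_num)
      have e3 : 1 ≤ K ^ 4 := one_le_pow₀ hK
      have e4 : 2 * K ^ 3 * K = 2 * K ^ 4 := by ring
      linarith
    have h5 := Real.log_le_log (by have : 0 < N := by omega
                                   exact_mod_cast this) h4
    rw [Real.log_mul (by norm_num) (by positivity), Real.log_pow] at h5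
    have h6 : Real.log 4 ≤ 2 := by
      rw [Real.log_le_iff_le_exp (by norm_num)]
      have h7 := Real.exp_one_gt_d9
      have : Real.exp 2 = (Real.exp 1) ^ 2 := by rw [← Real.exp_nat_mul]; norm_num
      rw [this]
      nlinarith
    have h8 : 0 ≤ Real.log K := Real.log_nonneg hK
    have h9 : (((Nat.log 2 N + 1 : ℕ) : ℝ) + 1) ≤ 10 * (Real.log K + 1) := by
      push_cast at h5 ⊢
      linarith
    calc (((Nat.log 2 N + 1 : ℕ) : ℝ) + 1) ^ p ≤ (10 * (Real.log K + 1)) ^ p := by gcongr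
      _ = 10 ^ p * (Real.log K + 1) ^ p := by rw [mul_pow]
      _ ≤ 10 ^ p * (C * K ^ ε) := by gcongr; exact h K hK
      _ = _ := by ring

/-- the annuli with many points, in the variable `t` -/
noncomputable def gg (p : ℕ) (s B : ℝ) (a : ℝ × ℝ) (t : ℝ) : ℝ≥0∞ :=
  nn a (t^2) s ^ p * (lvl (ENNReal.ofReal B) s).indicator (fun _ => 1) (a, t^2)

lemma measurable_gg (p : ℕ) (s B : ℝ) : Measurable (fun x : (ℝ × ℝ) × ℝ => gg p s B x.1 x.2) := by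
  have h := measurable_TTf p s s (ENNReal.ofReal B)
  have hmap : Measurable (fun x : (ℝ × ℝ) × ℝ => (x.1, x.2 ^ 2)) :=
    measurable_fst.prodMk (measurable_snd.pow_const 2)
  have h2 := h.comp hmap
  exact h2

lemma measurable_gg_left (p : ℕ) (s B t : ℝ) : Measurable (fun a : ℝ × ℝ => gg p s B a t) := by
  have h := (measurable_gg p s B).comp (measurable_mk t)
  exact h

lemma measurable_gg_int (p : ℕ) (s B : ℝ) : Measurable (fun t : ℝ => ∫⁻ a in Q, gg p s B a t) :=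
  (measurable_gg p s B).lintegral_prod_left'

lemma int_gg {p : ℕ} {s B τ : ℝ} (hτ : 1 ≤ τ) :
    ∫⁻ t in Icc τ (2 * τ), ∫⁻ a in Q, gg p s B a t ≤
      ENNReal.ofReal (1 / (2 * τ)) * TT p (τ^2/4) (8*τ^2) s s (ENNReal.ofReal B) := by
  have hτ0 : 0 < τ := by linarith
  refine (lint_sq_ge (f := fun t => ∫⁻ a in Q, gg p s B a t) hτ0 (by linarith)).trans ?_
  refine mul_le_mul' le_rfl ?_
  unfold TT gg
  calc ∫⁻ v in Icc (τ^2) ((2*τ)^2), ∫⁻ a in Q, nn a ((√v)^2) s ^ p * (lvl (ENNReal.ofReal B) s).indicator (fun _ => 1) (a, (√v)^2)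
      = ∫⁻ v in Icc (τ^2) ((2*τ)^2), ∫⁻ a in Q, nn a v s ^ p * (lvl (ENNReal.ofReal B) s).indicator (fun _ => 1) (a, v) := by
        apply setLIntegral_congr_fun measurableSet_Icc
        intro v hv
        have hv0 : 0 ≤ v := (sq_nonneg _).trans hv.1
        simp only
        rw [Real.sq_sqrt hv0]
    _ ≤ _ := by
        apply lintegral_mono_set
        apply Icc_subset_Icc
        · nlinarith [sq_nonneg τ]
        · nlinarith [sq_nonneg τ]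

lemma nn_split (a : ℝ × ℝ) (t s B : ℝ) : nn a (t^2) s ≤ ENNReal.ofReal B + gg 1 s B a t := by
  unfold gg
  by_cases h : (a, t^2) ∈ lvl (ENNReal.ofReal B) s
  · rw [Set.indicator_of_mem h, mul_one, pow_one]
    exact le_add_self
  · refine le_trans ?_ le_self_add
    have h4 : ¬ (ENNReal.ofReal B ≤ nn a (t^2) s) := h
    exact (not_le.mp h4).le

lemma gg_pow {p : ℕ} (hp : 1 ≤ p) (s B : ℝ) (a : ℝ × ℝ) (t : ℝ) : gg 1 s B a t ^ p = gg p s B a t := by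
  unfold gg
  rw [mul_pow, pow_one]
  congr 1
  by_cases h : (a, t^2) ∈ lvl (ENNReal.ofReal B) s
  · rw [Set.indicator_of_mem h, one_pow]
  · rw [Set.indicator_of_notMem h, zero_pow (by omega)]

theorem dyadP {m : ℕ} {θ κ : ℝ} (hm : 2 ≤ m) (hθ0 : 0 ≤ θ) (hθ : θ ≤ 4 * m - 3) (h : HE m θ)
    (hκ : Kap (2 * m + 2) κ) {ε : ℝ} (hε : 0 < ε) : ∃ C : ℝ, 0 < C ∧ ∀ (K : ℕ) (τ : ℝ), 1 ≤ K → 1 ≤ τ →
    τ ≤ (K:ℝ) ^ 3 →
    ∫⁻ t in Icc τ (2*τ), ∫⁻ a in Q, ENNReal.ofReal ‖Fs (1/K) a t‖ ^ (2*m+2) ≤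
      ENNReal.ofReal (C * ((K:ℝ) ^ ε * (((K:ℝ) ^ 3 + τ * K) * ((K:ℝ) ^ (4 * m - 3 : ℝ) * (1 + τ * (K:ℝ) ^ (-θ)) + τ) +
        τ ^ (3 - m + κ) * (K:ℝ) ^ (3 * m)))) := by
  set e := ε / 24 with he
  have he0 : 0 < e := by positivity
  obtain ⟨C1, hC1, h1⟩ := Fs_le2
  obtain ⟨C5, C2, hC5, hC2, hK5⟩ := hκ e he0
  obtain ⟨C3, hC3, h3⟩ := pickJ3 (2 * m + 3) (ε := ε/4) (by positivity)
  obtain ⟨C6, hC6, h6⟩ := F_low (by omega) hθ0 hθ h (ε := ε/4) (by positivity)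
  set C4 := 144 * C2 + 2 * C1 with hC4
  have hC40 : 0 < C4 := by positivity
  refine ⟨8 * C4 ^ 2 * C3 * (2 * C6) + 18 ^ (2 * m + 2) * 4096 * C3 * C5, by positivity, ?_⟩
  intro K τ hK hτ hτK
  have hK' : (1:ℝ) ≤ K := by exact_mod_cast hK
  have hK0 : (0:ℝ) < K := by linarith
  have hτ0 : 0 < τ := by linarith
  obtain ⟨J, hJ1, hJ2, hJ3⟩ := h3 K τ hK' (by linarith) hτK
  set y : ℝ := 1 / K with hy
  have hy0 : 0 < y := by positivity
  have hy1 : y ≤ 1 := by rw [hy, div_le_one hK0]; exact hK'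
  set ρ : ℕ → ℝ := fun j => (2:ℝ) ^ j * y with hρ
  have hρ0 : ∀ j, 0 < ρ j := fun j => by simp only [hρ]; positivity
  have hρK : ∀ j, (ρ j)⁻¹ ≤ K := by
    intro j
    rw [inv_le_comm₀ (hρ0 j) hK0, ← one_div, ← hy]
    simp only [hρ]
    have : (1:ℝ) ≤ 2 ^ j := one_le_pow₀ (by norm_num)
    nlinarith
  set s : ℕ → ℝ := fun j => 16 * τ * ρ j with hs
  have hs0 : ∀ j, 0 < s j := fun j => by
    have := hρ0 j
    simp only [hs]; positivity
  set B : ℕ → ℝ := fun j => C2 * (τ ^ e * max 1 (s j)) with hB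
  have hB0 : ∀ j, 0 ≤ B j := fun j => by simp only [hB]; positivity
  have hτe : 1 ≤ τ ^ e := Real.one_le_rpow hτ he0.le
  set Λ := C4 * (((J:ℝ) + 1) * τ ^ e * ((K:ℝ) ^ (3/2:ℝ) + τ ^ (1/2:ℝ) * (K:ℝ) ^ (1/2:ℝ))) with hΛ
  have hΛ0 : 0 ≤ Λ := by positivity
  set X : ℝ × ℝ → ℝ → ℝ≥0∞ := fun a t => ENNReal.ofReal (9 * τ ^ (-(1/2):ℝ)) *
    ∑ j ∈ Finset.range (J + 1), ENNReal.ofReal ((ρ j) ^ (-(3/2):ℝ)) * gg 1 (s j) (B j) a t with hX
  -- deterministic part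
  have hdet : 9 * τ ^ (-(1/2):ℝ) * (∑ j ∈ Finset.range (J + 1), (ρ j) ^ (-(3/2):ℝ) * B j) + C1 * (1 + 2 * τ) ^ (1/2:ℝ) ≤ Λ := by
    have k1 : ∀ j ∈ Finset.range (J + 1), (ρ j) ^ (-(3/2):ℝ) * B j ≤ C2 * τ ^ e * ((K:ℝ) ^ (3/2:ℝ) + 16 * τ * (K:ℝ) ^ (1/2:ℝ)) := by
      intro j _
      have hr := hρ0 j
      have hri : 0 < (ρ j)⁻¹ := by positivity
      have q1 : max 1 (s j) ≤ 1 + 16 * τ * ρ j := by
        simp only [hs]
        apply max_le <;> [skip; skip]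
        · have : 0 ≤ 16 * τ * ρ j := by positivity
          linarith
        · linarith
      have q2 : (ρ j) ^ (-(3/2):ℝ) ≤ (K:ℝ) ^ (3/2:ℝ) := by
        rw [Real.rpow_neg hr.le, ← Real.inv_rpow hr.le]
        exact Real.rpow_le_rpow hri.le (hρK j) (by norm_num)
      have q3 : (ρ j) ^ (-(3/2):ℝ) * ρ j ≤ (K:ℝ) ^ (1/2:ℝ) := by
        have : (ρ j) ^ (-(3/2):ℝ) * ρ j = ((ρ j)⁻¹) ^ (1/2:ℝ) := by
          nth_rewrite 2 [← Real.rpow_one (ρ j)]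
          rw [← Real.rpow_add hr, Real.inv_rpow hr.le, ← Real.rpow_neg hr.le]; norm_num
        rw [this]
        exact Real.rpow_le_rpow hri.le (hρK j) (by norm_num)
      calc (ρ j) ^ (-(3/2):ℝ) * B j ≤ (ρ j) ^ (-(3/2):ℝ) * (C2 * (τ ^ e * (1 + 16 * τ * ρ j))) := by
            simp only [hB]; gcongr
        _ = C2 * τ ^ e * ((ρ j) ^ (-(3/2):ℝ) + 16 * τ * ((ρ j) ^ (-(3/2):ℝ) * ρ j)) := by ring
        _ ≤ _ := by gcongr
    have k2 : ∑ j ∈ Finset.range (J + 1), (ρ j) ^ (-(3/2):ℝ) * B j ≤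
        ((J:ℝ) + 1) * (C2 * τ ^ e * ((K:ℝ) ^ (3/2:ℝ) + 16 * τ * (K:ℝ) ^ (1/2:ℝ))) := by
      refine (Finset.sum_le_card_nsmul _ _ _ k1).trans (le_of_eq ?_)
      rw [Finset.card_range, nsmul_eq_mul]; push_cast; rfl
    have k3 : (1 + 2 * τ) ^ (1/2:ℝ) ≤ 2 * τ ^ (1/2:ℝ) := by
      calc (1 + 2 * τ) ^ (1/2:ℝ) ≤ (4 * τ) ^ (1/2:ℝ) := by
            apply Real.rpow_le_rpow (by linarith) (by linarith) (by norm_num)
        _ = 4 ^ (1/2:ℝ) * τ ^ (1/2:ℝ) := Real.mul_rpow (by norm_num) hτ0.le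
        _ = 2 * τ ^ (1/2:ℝ) := by
            congr 1
            rw [show (4:ℝ) = 2 ^ (2:ℝ) by norm_num, ← Real.rpow_mul (by norm_num)]; norm_num
    have k4 : τ ^ (-(1/2):ℝ) ≤ 1 := Real.rpow_le_one_of_one_le_of_nonpos hτ (by norm_num)
    have k5 : τ ^ (-(1/2):ℝ) * τ = τ ^ (1/2:ℝ) := by
      nth_rewrite 2 [← Real.rpow_one τ]
      rw [← Real.rpow_add hτ0]; norm_num
    have hKh : 1 ≤ (K:ℝ) ^ (1/2:ℝ) := Real.one_le_rpow hK' (by norm_num)
    set A := (K:ℝ) ^ (3/2:ℝ) with hA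
    set b := (K:ℝ) ^ (1/2:ℝ) with hb
    set w := τ ^ (1/2:ℝ) with hw
    have hA0 : 0 < A := by positivity
    have hb0 : 0 < b := by positivity
    have hw0 : 0 < w := by positivity
    have hJ0 : (0:ℝ) ≤ J := Nat.cast_nonneg _
    calc 9 * τ ^ (-(1/2):ℝ) * (∑ j ∈ Finset.range (J + 1), (ρ j) ^ (-(3/2):ℝ) * B j) + C1 * (1 + 2 * τ) ^ (1/2:ℝ)
        ≤ 9 * τ ^ (-(1/2):ℝ) * (((J:ℝ) + 1) * (C2 * τ ^ e * (A + 16 * τ * b))) + C1 * (2 * w) := by gcongr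
      _ = ((J:ℝ) + 1) * τ ^ e * (9 * C2 * (τ ^ (-(1/2):ℝ) * A + 16 * (τ ^ (-(1/2):ℝ) * τ) * b)) + 2 * C1 * w := by ring
      _ ≤ ((J:ℝ) + 1) * τ ^ e * (9 * C2 * (1 * A + 16 * w * b)) + 2 * C1 * (((J:ℝ) + 1) * τ ^ e * (w * b)) := by
          rw [k5]
          have z1 : w ≤ ((J:ℝ) + 1) * τ ^ e * (w * b) := by
            calc w = 1 * 1 * (w * 1) := by ring
              _ ≤ ((J:ℝ) + 1) * τ ^ e * (w * b) := by gcongr; linarith
          have z2 : τ ^ (-(1/2):ℝ) * A ≤ 1 * A := by gcongr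
          gcongr
      _ ≤ _ := by
          rw [hΛ, hC4]
          have z3 : 0 ≤ ((J:ℝ) + 1) * τ ^ e * A := by positivity
          have z4 : 0 ≤ ((J:ℝ) + 1) * τ ^ e * (w * b) := by positivity
          have z5 : 0 < C2 := by linarith
          nlinarith [mul_nonneg z5.le z3, mul_nonneg hC1.le z3]
  -- pointwise
  have p1 : ∀ t ∈ Icc τ (2*τ), ∀ a ∈ Q, ENNReal.ofReal ‖Fs y a t‖ ≤ ENNReal.ofReal Λ + X a t := by
    intro t ht a ha
    have ht0 : 0 < t := by linarith [ht.1]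
    have q1 : ENNReal.ofReal ‖Fs y a t‖ ≤ ENNReal.ofReal (9 * τ ^ (-(1/2):ℝ)) * (∑ j ∈ Finset.range (J + 1),
        (ENNReal.ofReal ((ρ j) ^ (-(3/2):ℝ)) * ENNReal.ofReal (B j) + ENNReal.ofReal ((ρ j) ^ (-(3/2):ℝ)) * gg 1 (s j) (B j) a t)) +
        ENNReal.ofReal (C1 * (1 + 2 * τ) ^ (1/2:ℝ)) := by
      refine (h1 y t J a hy0 hy1 ht0.le (by linarith [ht.2]) ha).trans ?_
      apply add_le_add
      · apply mul_le_mul'
        · apply ENNReal.ofReal_le_ofReal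
          have : (y + t) ^ (-(1/2):ℝ) ≤ τ ^ (-(1/2):ℝ) :=
            Real.rpow_le_rpow_of_nonpos hτ0 (by linarith [ht.1]) (by norm_num)
          gcongr
        · apply Finset.sum_le_sum
          intro j hj
          rw [Finset.mem_range] at hj
          rw [← mul_add]
          refine mul_le_mul' le_rfl ?_
          refine le_trans ?_ (nn_split a t (s j) (B j))
          apply nn_mono
          have h5 : (2:ℝ) ^ j * y ≤ 12 * τ := by
            refine le_trans ?_ hJ2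
            gcongr
            · norm_num
            · omega
          have h6 : 0 < (2:ℝ) ^ j * y := by positivity
          have h7 : 2 * t + 2 ^ j * y ≤ 16 * τ := by linarith [ht.2]
          calc 2 ^ j * y * (2 * t + 2 ^ j * y) ≤ 2 ^ j * y * (16 * τ) := by gcongr
            _ = _ := by simp only [hs, hρ]; ring
      · apply ENNReal.ofReal_le_ofReal
        have := ht.2
        gcongr
    refine q1.trans ?_
    rw [Finset.sum_add_distrib, mul_add, add_right_comm]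
    refine add_le_add ?_ le_rfl
    have q2 : ∑ j ∈ Finset.range (J + 1), ENNReal.ofReal ((ρ j) ^ (-(3/2):ℝ)) * ENNReal.ofReal (B j) =
        ENNReal.ofReal (∑ j ∈ Finset.range (J + 1), (ρ j) ^ (-(3/2):ℝ) * B j) := by
      rw [ENNReal.ofReal_sum_of_nonneg (fun j _ => by
        have := hρ0 j
        have := hB0 j
        positivity)]
      apply Finset.sum_congr rfl
      intro j _
      rw [ENNReal.ofReal_mul (p := (ρ j) ^ (-(3/2):ℝ)) (by have := hρ0 j; positivity)]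
    have hsum0 : 0 ≤ ∑ j ∈ Finset.range (J + 1), (ρ j) ^ (-(3/2):ℝ) * B j :=
      Finset.sum_nonneg (fun j _ => by
        have := hρ0 j
        have := hB0 j
        positivity)
    rw [q2, ← ENNReal.ofReal_mul (by positivity), ← ENNReal.ofReal_add (by positivity) (by positivity)]
    exact ENNReal.ofReal_le_ofReal hdet
  -- powers
  set c2 : ℝ := (18 * τ ^ (-(1/2):ℝ)) ^ (2 * m + 2) * ((J:ℝ) + 1) ^ (2 * m + 2) with hc2
  have hc20 : 0 ≤ c2 := by positivity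
  have p2 : ∀ a t, (2 * X a t) ^ (2 * m + 2) ≤ ENNReal.ofReal c2 * ∑ j ∈ Finset.range (J + 1),
      ENNReal.ofReal ((ρ j) ^ (-(3 * m + 3):ℝ)) * gg (2 * m + 2) (s j) (B j) a t := by
    intro a t
    have e1 : 2 * X a t = ENNReal.ofReal (18 * τ ^ (-(1/2):ℝ)) *
        ∑ j ∈ Finset.range (J + 1), ENNReal.ofReal ((ρ j) ^ (-(3/2):ℝ)) * gg 1 (s j) (B j) a t := by
      simp only [hX]
      rw [← mul_assoc]
      congr 1
      have : (2:ℝ≥0∞) = ENNReal.ofReal 2 := by simp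
      rw [this, ← ENNReal.ofReal_mul (by norm_num)]
      congr 1; ring
    rw [e1, mul_pow, hc2, ENNReal.ofReal_mul (p := (18 * τ ^ (-(1/2):ℝ)) ^ (2 * m + 2)) (by positivity), mul_assoc,
      ← ENNReal.ofReal_pow (by positivity)]
    refine mul_le_mul' le_rfl ?_
    refine (sum_powp_le' (2 * m + 2) (J + 1) _ (by omega)).trans ?_
    have e3 : (((J + 1 : ℕ)) : ℝ≥0∞) ^ (2 * m + 2) = ENNReal.ofReal (((J:ℝ) + 1) ^ (2 * m + 2)) := by
      rw [ENNReal.ofReal_pow (by positivity), ← ENNReal.ofReal_natCast]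
      push_cast; rfl
    rw [e3]
    refine mul_le_mul' le_rfl (Finset.sum_le_sum fun j _ => ?_)
    rw [mul_pow, gg_pow (by omega), ← ENNReal.ofReal_pow (by have := hρ0 j; positivity),
      ← Real.rpow_natCast ((ρ j) ^ (-(3/2):ℝ)), ← Real.rpow_mul (hρ0 j).le]
    refine mul_le_mul' (le_of_eq ?_) le_rfl
    congr 2
    push_cast; ring
  have p3 : ∀ t ∈ Icc τ (2*τ), ∫⁻ a in Q, ENNReal.ofReal ‖Fs y a t‖ ^ (2 * m + 2) ≤
      (2 * ENNReal.ofReal Λ) ^ 2 * (∫⁻ a in Q, ENNReal.ofReal ‖Fs y a t‖ ^ (2 * m)) +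
      ENNReal.ofReal c2 * ∑ j ∈ Finset.range (J + 1),
        ENNReal.ofReal ((ρ j) ^ (-(3 * m + 3):ℝ)) * ∫⁻ a in Q, gg (2 * m + 2) (s j) (B j) a t := by
    intro t ht
    calc ∫⁻ a in Q, ENNReal.ofReal ‖Fs y a t‖ ^ (2 * m + 2)
        ≤ ∫⁻ a in Q, ((2 * ENNReal.ofReal Λ) ^ 2 * ENNReal.ofReal ‖Fs y a t‖ ^ (2 * m) +
          ENNReal.ofReal c2 * ∑ j ∈ Finset.range (J + 1),
            ENNReal.ofReal ((ρ j) ^ (-(3 * m + 3):ℝ)) * gg (2 * m + 2) (s j) (B j) a t) := by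
          apply setLIntegral_mono' measurableSet_Q
          intro a ha
          refine (split_pow (p1 t ht a ha) (2 * m)).trans ?_
          exact add_le_add le_rfl (p2 a t)
      _ = _ := by
          rw [lintegral_add_right, lintegral_const_mul' _ _ (by
              apply ENNReal.pow_ne_top
              exact ENNReal.mul_ne_top (by simp) ENNReal.ofReal_ne_top),
            lintegral_const_mul' _ _ ENNReal.ofReal_ne_top, lintegral_finsetSum]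
          · congr 2
            apply Finset.sum_congr rfl
            intro j _
            rw [lintegral_const_mul' _ _ ENNReal.ofReal_ne_top]
          · intro j _
            exact (measurable_gg_left _ _ _ _).const_mul _
          · apply Measurable.const_mul
            apply Finset.measurable_sum
            intro j _
            exact (measurable_gg_left _ _ _ _).const_mul _
  -- integrate in t
  have p4 : ∫⁻ t in Icc τ (2*τ), ∫⁻ a in Q, ENNReal.ofReal ‖Fs y a t‖ ^ (2 * m + 2) ≤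
      (2 * ENNReal.ofReal Λ) ^ 2 * (∫⁻ t in Icc τ (2*τ), ∫⁻ a in Q, ENNReal.ofReal ‖Fs y a t‖ ^ (2 * m)) +
      ENNReal.ofReal c2 * ∑ j ∈ Finset.range (J + 1),
        ENNReal.ofReal ((ρ j) ^ (-(3 * m + 3):ℝ)) * ∫⁻ t in Icc τ (2*τ), ∫⁻ a in Q, gg (2 * m + 2) (s j) (B j) a t := by
    refine (setLIntegral_mono' measurableSet_Icc p3).trans (le_of_eq ?_)
    rw [lintegral_add_right, lintegral_const_mul' _ _ (by
        apply ENNReal.pow_ne_top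
        exact ENNReal.mul_ne_top (by simp) ENNReal.ofReal_ne_top),
      lintegral_const_mul' _ _ ENNReal.ofReal_ne_top, lintegral_finsetSum]
    · congr 2
      apply Finset.sum_congr rfl
      intro j _
      rw [lintegral_const_mul' _ _ ENNReal.ofReal_ne_top]
    · intro j _
      exact (measurable_gg_int _ _ _).const_mul _
    · apply Measurable.const_mul
      apply Finset.measurable_sum
      intro j _
      exact (measurable_gg_int _ _ _).const_mul _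
  -- lower moments
  have p5 : ∫⁻ t in Icc τ (2*τ), ∫⁻ a in Q, ENNReal.ofReal ‖Fs y a t‖ ^ (2 * m) ≤
      ENNReal.ofReal (2 * C6 * ((K:ℝ) ^ (ε/4) * ((K:ℝ) ^ (4 * m - 3 : ℝ) * (1 + τ * (K:ℝ) ^ (-θ)) + τ))) := by
    refine (lintegral_mono_set (Icc_subset_Icc hτ0.le le_rfl)).trans ?_
    refine (h6 K (2 * τ) hK (by linarith)).trans (ENNReal.ofReal_le_ofReal ?_)
    have e1 : (K:ℝ) ^ (4 * m - 3 + ε/4) = (K:ℝ) ^ (ε/4) * (K:ℝ) ^ (4 * m - 3 : ℝ) := by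
      rw [← Real.rpow_add hK0]; congr 1; ring
    have e2 : 1 ≤ (K:ℝ) ^ (ε/4) := Real.one_le_rpow hK' (by positivity)
    rw [e1]
    set A := (K:ℝ) ^ (4 * m - 3 : ℝ) with hA
    set b := (K:ℝ) ^ (-θ) with hb
    set w := (K:ℝ) ^ (ε/4) with hw
    have hA0 : 0 < A := by positivity
    have hb0 : 0 < b := by positivity
    have hw0 : 0 < w := by positivity
    calc C6 * (w * A * (1 + 2 * τ * b) + 2 * τ) ≤ C6 * (w * A * (2 * (1 + τ * b)) + 2 * (w * τ)) := by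
          gcongr
          · have : 0 < τ * b := by positivity
            linarith
          · nlinarith
      _ = _ := by ring
  -- high part
  have p6 : ∀ j ∈ Finset.range (J + 1), ENNReal.ofReal ((ρ j) ^ (-(3 * m + 3):ℝ)) *
      ∫⁻ t in Icc τ (2*τ), ∫⁻ a in Q, gg (2 * m + 2) (s j) (B j) a t ≤
      ENNReal.ofReal (4096 * C5 * (τ ^ (4 + κ + e) * (K:ℝ) ^ (3 * m))) := by
    intro j _
    have hr := hρ0 j
    have hri : 0 < (ρ j)⁻¹ := by positivity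
    have q1 := hK5 τ (s j) (B j) hτ (hs0 j) le_rfl
    calc ENNReal.ofReal ((ρ j) ^ (-(3 * m + 3):ℝ)) * ∫⁻ t in Icc τ (2*τ), ∫⁻ a in Q, gg (2 * m + 2) (s j) (B j) a t
        ≤ ENNReal.ofReal ((ρ j) ^ (-(3 * m + 3):ℝ)) * (ENNReal.ofReal (1 / (2 * τ)) *
            ENNReal.ofReal (C5 * (τ ^ (2 + κ + e) * s j ^ 3))) := by
          refine mul_le_mul' le_rfl ((int_gg hτ).trans (mul_le_mul' le_rfl q1))
      _ = ENNReal.ofReal ((ρ j) ^ (-(3 * m + 3):ℝ) * (1 / (2 * τ) * (C5 * (τ ^ (2 + κ + e) * s j ^ 3)))) := by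
          rw [← ENNReal.ofReal_mul (by positivity), ← ENNReal.ofReal_mul (by positivity)]
      _ ≤ _ := by
          apply ENNReal.ofReal_le_ofReal
          have e1 : (ρ j) ^ (-(3 * m + 3):ℝ) * (ρ j) ^ 3 ≤ (K:ℝ) ^ (3 * m) := by
            rw [← Real.rpow_natCast (ρ j) 3, ← Real.rpow_add hr]
            rw [show (-(3 * m + 3) + ((3:ℕ):ℝ) : ℝ) = -((3 * m : ℕ) : ℝ) by push_cast; ring,
              Real.rpow_neg hr.le, Real.rpow_natCast, ← inv_pow]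
            exact pow_le_pow_left₀ hri.le (hρK j) _
          have e2 : τ ^ (4 + κ + e) = τ ^ (2 + κ + e) * τ ^ 2 := by
            rw [← Real.rpow_natCast τ 2, ← Real.rpow_add hτ0]; congr 1; push_cast; ring
          have e3 : (1 / (2 * τ)) * (16 * τ * ρ j) ^ 3 = 2048 * τ ^ 2 * (ρ j) ^ 3 := by
            field_simp
            ring
          calc (ρ j) ^ (-(3 * m + 3):ℝ) * (1 / (2 * τ) * (C5 * (τ ^ (2 + κ + e) * s j ^ 3)))
              = C5 * τ ^ (2 + κ + e) * (ρ j) ^ (-(3 * m + 3):ℝ) * ((1 / (2 * τ)) * (16 * τ * ρ j) ^ 3) := by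
                simp only [hs]; ring
            _ = 2048 * C5 * (τ ^ (2 + κ + e) * τ ^ 2) * ((ρ j) ^ (-(3 * m + 3):ℝ) * (ρ j) ^ 3) := by
                rw [e3]; ring
            _ ≤ 2048 * C5 * (τ ^ (2 + κ + e) * τ ^ 2) * (K:ℝ) ^ (3 * m) := by gcongr
            _ ≤ _ := by
                rw [e2]
                have : 0 ≤ C5 * (τ ^ (2 + κ + e) * τ ^ 2 * (K:ℝ) ^ (3 * m)) := by positivity
                nlinarith
  have hΛ2 : (2 * ENNReal.ofReal Λ) ^ 2 = ENNReal.ofReal (4 * Λ ^ 2) := by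
    have : (2:ℝ≥0∞) = ENNReal.ofReal 2 := by simp
    rw [this, ← ENNReal.ofReal_mul (by norm_num), ← ENNReal.ofReal_pow (by positivity)]
    congr 1; ring
  set G := (K:ℝ) ^ (4 * m - 3 : ℝ) * (1 + τ * (K:ℝ) ^ (-θ)) + τ with hG
  have hG0 : 0 ≤ G := by positivity
  calc ∫⁻ t in Icc τ (2*τ), ∫⁻ a in Q, ENNReal.ofReal ‖Fs y a t‖ ^ (2 * m + 2)
      ≤ ENNReal.ofReal (4 * Λ ^ 2) * ENNReal.ofReal (2 * C6 * ((K:ℝ) ^ (ε/4) * G)) +
        ENNReal.ofReal c2 * (ENNReal.ofReal ((J:ℝ) + 1) * ENNReal.ofReal (4096 * C5 * (τ ^ (4 + κ + e) * (K:ℝ) ^ (3 * m)))) := by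
        refine p4.trans ?_
        rw [hΛ2]
        refine add_le_add (mul_le_mul' le_rfl p5) (mul_le_mul' le_rfl ?_)
        refine (Finset.sum_le_card_nsmul _ _ _ p6).trans (le_of_eq ?_)
        rw [Finset.card_range, nsmul_eq_mul]
        congr 1
        rw [← ENNReal.ofReal_natCast]; push_cast; rfl
    _ = ENNReal.ofReal (4 * Λ ^ 2 * (2 * C6 * ((K:ℝ) ^ (ε/4) * G)) +
        c2 * (((J:ℝ) + 1) * (4096 * C5 * (τ ^ (4 + κ + e) * (K:ℝ) ^ (3 * m))))) := by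
        exact ofReal_alg4 (by positivity) (by positivity) (by positivity) (by positivity) (by positivity)
    _ ≤ _ := by
        apply ENNReal.ofReal_le_ofReal
        -- powers of τ
        have t1 : ∀ x : ℝ, 0 ≤ x → x ≤ 6 * e → τ ^ x ≤ (K:ℝ) ^ (ε/2 + ε/4) := by
          intro x hx0 hx
          calc τ ^ x ≤ ((K:ℝ) ^ 3) ^ x := Real.rpow_le_rpow hτ0.le hτK hx0
            _ = (K:ℝ) ^ (3 * x) := by
                rw [← Real.rpow_natCast, ← Real.rpow_mul hK0.le]; push_cast; rfl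
            _ ≤ _ := by
                apply Real.rpow_le_rpow_of_exponent_le hK'
                have : 6 * e = ε/4 := by rw [he]; ring
                linarith
        have t2 : τ ^ e ≤ (K:ℝ) ^ (ε/8) := by
          calc τ ^ e ≤ ((K:ℝ) ^ 3) ^ e := Real.rpow_le_rpow hτ0.le hτK he0.le
            _ = (K:ℝ) ^ (3 * e) := by
                rw [← Real.rpow_natCast, ← Real.rpow_mul hK0.le]; push_cast; rfl
            _ = _ := by congr 1; rw [he]; ring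
        have hJ0 : (1:ℝ) ≤ (J:ℝ) + 1 := by
          have : (0:ℝ) ≤ J := Nat.cast_nonneg _
          linarith
        have hJ4 : ((J:ℝ) + 1) ^ 2 ≤ C3 * (K:ℝ) ^ (ε/4) :=
          (pow_le_pow_right₀ hJ0 (by omega)).trans hJ3
        have u1 : 4 * Λ ^ 2 ≤ 8 * C4 ^ 2 * C3 * ((K:ℝ) ^ (ε/2) * ((K:ℝ) ^ 3 + τ * K)) := by
          have v1 : ((K:ℝ) ^ (3/2:ℝ) + τ ^ (1/2:ℝ) * (K:ℝ) ^ (1/2:ℝ)) ^ 2 ≤ 2 * ((K:ℝ) ^ 3 + τ * K) := by
            have w1 : ((K:ℝ) ^ (3/2:ℝ)) ^ 2 = (K:ℝ) ^ 3 := by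
              rw [← Real.rpow_natCast ((K:ℝ) ^ (3/2:ℝ)) 2, ← Real.rpow_mul hK0.le, ← Real.rpow_natCast (K:ℝ) 3]
              norm_num
            have w2 : (τ ^ (1/2:ℝ) * (K:ℝ) ^ (1/2:ℝ)) ^ 2 = τ * K := by
              rw [← Real.mul_rpow hτ0.le hK0.le, ← Real.rpow_natCast _ 2, ← Real.rpow_mul (by positivity)]
              norm_num
            nlinarith [sq_nonneg ((K:ℝ) ^ (3/2:ℝ) - τ ^ (1/2:ℝ) * (K:ℝ) ^ (1/2:ℝ))]
          have v2 : (τ ^ e) ^ 2 ≤ (K:ℝ) ^ (ε/4) := by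
            calc (τ ^ e) ^ 2 ≤ ((K:ℝ) ^ (ε/8)) ^ 2 := by gcongr
              _ = _ := by rw [← Real.rpow_natCast _ 2, ← Real.rpow_mul hK0.le]; congr 1; push_cast; ring
          calc 4 * Λ ^ 2 = 4 * C4 ^ 2 * (((J:ℝ) + 1) ^ 2 * (τ ^ e) ^ 2 *
                ((K:ℝ) ^ (3/2:ℝ) + τ ^ (1/2:ℝ) * (K:ℝ) ^ (1/2:ℝ)) ^ 2) := by rw [hΛ]; ring
            _ ≤ 4 * C4 ^ 2 * ((C3 * (K:ℝ) ^ (ε/4)) * (K:ℝ) ^ (ε/4) * (2 * ((K:ℝ) ^ 3 + τ * K))) := by gcongr
            _ = 8 * C4 ^ 2 * C3 * (((K:ℝ) ^ (ε/4) * (K:ℝ) ^ (ε/4)) * ((K:ℝ) ^ 3 + τ * K)) := by ring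
            _ = _ := by rw [← Real.rpow_add hK0]; congr 4; ring
        have u2 : c2 * ((J:ℝ) + 1) ≤ 18 ^ (2 * m + 2) * C3 * (τ ^ (-(m + 1):ℝ) * (K:ℝ) ^ (ε/4)) := by
          have v1 : (τ ^ (-(1/2):ℝ)) ^ (2 * m + 2) = τ ^ (-(m + 1):ℝ) := by
            rw [← Real.rpow_natCast _ (2 * m + 2), ← Real.rpow_mul hτ0.le]
            congr 1; push_cast; ring
          have v2 : ((J:ℝ) + 1) ^ (2 * m + 2) * ((J:ℝ) + 1) = ((J:ℝ) + 1) ^ (2 * m + 3) := by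
            rw [← pow_succ]
          calc c2 * ((J:ℝ) + 1) = 18 ^ (2 * m + 2) * τ ^ (-(m + 1):ℝ) * (((J:ℝ) + 1) ^ (2 * m + 2) * ((J:ℝ) + 1)) := by
                rw [hc2, mul_pow, v1]; ring
            _ ≤ 18 ^ (2 * m + 2) * τ ^ (-(m + 1):ℝ) * (C3 * (K:ℝ) ^ (ε/4)) := by
                rw [v2]; gcongr
            _ = _ := by ring
        have u3 : τ ^ (-(m + 1):ℝ) * τ ^ (4 + κ + e) ≤ τ ^ (3 - m + κ) * (K:ℝ) ^ (ε/8) := by
          have : τ ^ (-(m + 1):ℝ) * τ ^ (4 + κ + e) = τ ^ (3 - m + κ) * τ ^ e := by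
            rw [← Real.rpow_add hτ0, ← Real.rpow_add hτ0]; congr 1; ring
          rw [this]
          gcongr
        have u4 : (K:ℝ) ^ (ε/4) * (K:ℝ) ^ (ε/8) ≤ (K:ℝ) ^ ε := by
          rw [← Real.rpow_add hK0]
          exact Real.rpow_le_rpow_of_exponent_le hK' (by linarith)
        have u5 : (K:ℝ) ^ (ε/2) * (K:ℝ) ^ (ε/4) ≤ (K:ℝ) ^ ε := by
          rw [← Real.rpow_add hK0]
          exact Real.rpow_le_rpow_of_exponent_le hK' (by linarith)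
        set E1 := ((K:ℝ) ^ 3 + τ * K) * G with hE1
        set E2 := τ ^ (3 - m + κ) * (K:ℝ) ^ (3 * m) with hE2
        have hE10 : 0 ≤ E1 := by positivity
        have hE20 : 0 ≤ E2 := by positivity
        have r1 : 4 * Λ ^ 2 * (2 * C6 * ((K:ℝ) ^ (ε/4) * G)) ≤ (8 * C4 ^ 2 * C3 * (2 * C6)) * ((K:ℝ) ^ ε * E1) := by
          calc 4 * Λ ^ 2 * (2 * C6 * ((K:ℝ) ^ (ε/4) * G))
              ≤ (8 * C4 ^ 2 * C3 * ((K:ℝ) ^ (ε/2) * ((K:ℝ) ^ 3 + τ * K))) * (2 * C6 * ((K:ℝ) ^ (ε/4) * G)) := by gcongr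
            _ = (8 * C4 ^ 2 * C3 * (2 * C6)) * (((K:ℝ) ^ (ε/2) * (K:ℝ) ^ (ε/4)) * E1) := by rw [hE1]; ring
            _ ≤ _ := by gcongr
        have r2 : c2 * (((J:ℝ) + 1) * (4096 * C5 * (τ ^ (4 + κ + e) * (K:ℝ) ^ (3 * m)))) ≤
            (18 ^ (2 * m + 2) * 4096 * C3 * C5) * ((K:ℝ) ^ ε * E2) := by
          calc c2 * (((J:ℝ) + 1) * (4096 * C5 * (τ ^ (4 + κ + e) * (K:ℝ) ^ (3 * m))))
              = (c2 * ((J:ℝ) + 1)) * (4096 * C5 * (τ ^ (4 + κ + e) * (K:ℝ) ^ (3 * m))) := by ring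
            _ ≤ (18 ^ (2 * m + 2) * C3 * (τ ^ (-(m + 1):ℝ) * (K:ℝ) ^ (ε/4))) * (4096 * C5 * (τ ^ (4 + κ + e) * (K:ℝ) ^ (3 * m))) := by
                gcongr
            _ = (18 ^ (2 * m + 2) * 4096 * C3 * C5) * ((K:ℝ) ^ (ε/4) * (τ ^ (-(m + 1):ℝ) * τ ^ (4 + κ + e)) * (K:ℝ) ^ (3 * m)) := by ring
            _ ≤ (18 ^ (2 * m + 2) * 4096 * C3 * C5) * ((K:ℝ) ^ (ε/4) * (τ ^ (3 - m + κ) * (K:ℝ) ^ (ε/8)) * (K:ℝ) ^ (3 * m)) := by gcongr
            _ = (18 ^ (2 * m + 2) * 4096 * C3 * C5) * (((K:ℝ) ^ (ε/4) * (K:ℝ) ^ (ε/8)) * E2) := by rw [hE2]; ring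
            _ ≤ _ := by gcongr
        have hKε : 0 ≤ (K:ℝ) ^ ε := by positivity
        have n1 : 0 ≤ (8 * C4 ^ 2 * C3 * (2 * C6)) * ((K:ℝ) ^ ε * E2) := by positivity
        have n2 : 0 ≤ (18 ^ (2 * m + 2) * 4096 * C3 * C5) * ((K:ℝ) ^ ε * E1) := by positivity
        calc _ ≤ (8 * C4 ^ 2 * C3 * (2 * C6)) * ((K:ℝ) ^ ε * E1) + (18 ^ (2 * m + 2) * 4096 * C3 * C5) * ((K:ℝ) ^ ε * E2) :=
              add_le_add r1 r2
          _ ≤ _ := by nlinarith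

end Pool.Agent.H593.U
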