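import Mathlib
import Pool.Agent.H593.U6.SC3

/-!
# The recursion step for energies of higher order
-/

open MeasureTheory Set Filter Topology
open Pool.Agent.H383.Gauss
open scoped ENNReal

namespace Pool.Agent.H593.U

/-- small times -/
theorem dyad0P {m : ℕ} (hm : 1 ≤ m) : ∃ C : ℝ, 0 < C ∧ ∀ (K : ℝ) (J : ℕ), 1 ≤ K →
    2 ≤ 2 ^ J * (1/K) → 2 ^ J * (1/K) ≤ 6 →
    ∫⁻ t in Icc (0:ℝ) 1, ∫⁻ a in Q, ENNReal.ofReal ‖Fs (1/K) a t‖ ^ (2 * m + 2) ≤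
      ENNReal.ofReal (C * (((J:ℝ) + 1) ^ (2 * m + 3) * (K ^ (4 * m + 1) * (Real.log K + 1)))) := by
  obtain ⟨C1, hC1, h1⟩ := Fs_le2
  set N0 : ℝ := (((2 * (⌈(7:ℝ)⌉₊ + 2) + 1) ^ 2 : ℕ) : ℝ) ^ (2 * m + 1) with hN0
  have hN0' : 0 ≤ N0 := by positivity
  have hpi := Real.pi_pos
  set A1 : ℝ := 2 ^ (2 * m + 2) * (9 ^ (2 * m + 2) * (N0 * (2 * Real.pi * 2))) with hA1
  have hA10 : 0 ≤ A1 := by positivity
  set A2 : ℝ := 2 ^ (2 * m + 2) * (2 * C1) ^ (2 * m + 2) with hA2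
  have hA20 : 0 < A2 := by positivity
  refine ⟨A1 + A2, by positivity, ?_⟩
  intro K J hK hJ1 hJ2
  have hK0 : 0 < K := by linarith
  set y := 1/K with hy
  have hy0 : 0 < y := by positivity
  have hy1 : y ≤ 1 := by rw [hy, div_le_one hK0]; exact hK
  have hlog : 0 ≤ Real.log K := Real.log_nonneg hK
  have hJ0 : (1:ℝ) ≤ (J:ℝ) + 1 := by
    have : (0:ℝ) ≤ J := Nat.cast_nonneg _
    linarith
  have p1 : ∀ t ∈ Icc (0:ℝ) 1, ∫⁻ a in Q, ENNReal.ofReal ‖Fs y a t‖ ^ (2 * m + 2) ≤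
      ENNReal.ofReal (A1 * (((J:ℝ) + 1) ^ (2 * m + 3) * K ^ (4 * m + 1))) * ENNReal.ofReal ((y + t)⁻¹) +
      ENNReal.ofReal A2 := by
    intro t ht
    have ht0 := ht.1
    have hu : 0 < y + t := by linarith
    set u := (y + t)⁻¹ with hu'
    have hu0 : 0 < u := by positivity
    have huK : u ≤ K := by
      rw [hu', inv_le_comm₀ hu hK0, ← one_div, ← hy]; linarith
    set ρ : ℕ → ℝ := fun j => (2:ℝ) ^ j * y with hρ
    have hρ0 : ∀ j, 0 < ρ j := fun j => by simp only [hρ]; positivity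
    have hρK : ∀ j, (ρ j)⁻¹ ≤ K := by
      intro j
      rw [inv_le_comm₀ (hρ0 j) hK0, ← one_div, ← hy]
      simp only [hρ]
      have : (1:ℝ) ≤ 2 ^ j := one_le_pow₀ (by norm_num)
      nlinarith
    -- pointwise
    have q0 : ∀ a ∈ Q, ENNReal.ofReal ‖Fs y a t‖ ^ (2 * m + 2) ≤
        ENNReal.ofReal (2 ^ (2 * m + 2) * (9 ^ (2 * m + 2) * u ^ (m + 1) * ((J:ℝ) + 1) ^ (2 * m + 2))) *
          (∑ j ∈ Finset.range (J + 1), ENNReal.ofReal ((ρ j)⁻¹ ^ (3 * m + 3)) * nn a (t^2) (ρ j * (2 * t + ρ j)) ^ (2 * m + 2)) +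
        ENNReal.ofReal A2 := by
      intro a ha
      have k1 := h1 y t J a hy0 hy1 ht0 (by linarith [ht.2]) ha
      have e2 : (2:ℝ≥0∞) ^ (2 * m + 2) = ENNReal.ofReal (2 ^ (2 * m + 2)) := by
        rw [ENNReal.ofReal_pow (by norm_num)]; simp
      have e3 : (((J + 1 : ℕ)) : ℝ≥0∞) ^ (2 * m + 2) = ENNReal.ofReal (((J:ℝ) + 1) ^ (2 * m + 2)) := by
        rw [ENNReal.ofReal_pow (by positivity), ← ENNReal.ofReal_natCast]
        push_cast; rfl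
      have e4 : ENNReal.ofReal (9 * (y + t) ^ (-(1/2):ℝ)) ^ (2 * m + 2) = ENNReal.ofReal (9 ^ (2 * m + 2) * u ^ (m + 1)) := by
        rw [← ENNReal.ofReal_pow (by positivity), mul_pow, ← Real.rpow_natCast ((y + t) ^ (-(1/2):ℝ)),
          ← Real.rpow_mul hu.le, ← Real.rpow_natCast u (m+1), hu', Real.inv_rpow hu.le, ← Real.rpow_neg hu.le]
        congr 3
        push_cast; ring
      have e5 : ∀ j : ℕ, ENNReal.ofReal ((2 ^ j * y) ^ (-(3/2):ℝ)) ^ (2 * m + 2) = ENNReal.ofReal ((ρ j)⁻¹ ^ (3 * m + 3)) := by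
        intro j
        have hr := hρ0 j
        change ENNReal.ofReal ((ρ j) ^ (-(3/2):ℝ)) ^ (2 * m + 2) = _
        rw [← ENNReal.ofReal_pow (by positivity), ← Real.rpow_natCast ((ρ j) ^ (-(3/2):ℝ)),
          ← Real.rpow_mul hr.le, ← Real.rpow_natCast (ρ j)⁻¹ (3 * m + 3), Real.inv_rpow hr.le, ← Real.rpow_neg hr.le]
        congr 2
        push_cast; ring
      have e6 : ENNReal.ofReal (C1 * (1 + t) ^ (1/2:ℝ)) ^ (2 * m + 2) ≤ ENNReal.ofReal ((2 * C1) ^ (2 * m + 2)) := by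
        rw [← ENNReal.ofReal_pow (by positivity)]
        apply ENNReal.ofReal_le_ofReal
        have : (1 + t) ^ (1/2:ℝ) ≤ 2 := by
          calc (1 + t) ^ (1/2:ℝ) ≤ (4:ℝ) ^ (1/2:ℝ) := Real.rpow_le_rpow (by linarith) (by linarith [ht.2]) (by norm_num)
            _ = 2 := by rw [show (4:ℝ) = 2 ^ (2:ℝ) by norm_num, ← Real.rpow_mul (by norm_num)]; norm_num
        have h3 : C1 * (1 + t) ^ (1/2:ℝ) ≤ 2 * C1 := by nlinarith
        gcongr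
      calc ENNReal.ofReal ‖Fs y a t‖ ^ (2 * m + 2)
          ≤ (ENNReal.ofReal (9 * (y + t) ^ (-(1/2):ℝ)) * (∑ j ∈ Finset.range (J + 1),
            ENNReal.ofReal ((2 ^ j * y) ^ (-(3/2):ℝ)) * nn a (t^2) (2 ^ j * y * (2 * t + 2 ^ j * y))) +
            ENNReal.ofReal (C1 * (1 + t) ^ (1/2:ℝ))) ^ (2 * m + 2) := by gcongr
        _ ≤ 2 ^ (2 * m + 2) * ((ENNReal.ofReal (9 * (y + t) ^ (-(1/2):ℝ)) * (∑ j ∈ Finset.range (J + 1),
            ENNReal.ofReal ((2 ^ j * y) ^ (-(3/2):ℝ)) * nn a (t^2) (2 ^ j * y * (2 * t + 2 ^ j * y)))) ^ (2 * m + 2) +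
            ENNReal.ofReal (C1 * (1 + t) ^ (1/2:ℝ)) ^ (2 * m + 2)) := add_powp_le' _ _ _
        _ ≤ 2 ^ (2 * m + 2) * (ENNReal.ofReal (9 ^ (2 * m + 2) * u ^ (m + 1)) * (ENNReal.ofReal (((J:ℝ) + 1) ^ (2 * m + 2)) *
            (∑ j ∈ Finset.range (J + 1), ENNReal.ofReal ((ρ j)⁻¹ ^ (3 * m + 3)) * nn a (t^2) (ρ j * (2 * t + ρ j)) ^ (2 * m + 2))) +
            ENNReal.ofReal ((2 * C1) ^ (2 * m + 2))) := by
            rw [mul_pow, e4]
            refine mul_le_mul' le_rfl (add_le_add (mul_le_mul' le_rfl ?_) e6)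
            refine (sum_powp_le' (2 * m + 2) (J + 1) _ (by omega)).trans ?_
            rw [e3]
            refine mul_le_mul' le_rfl (Finset.sum_le_sum fun j _ => ?_)
            rw [mul_pow, e5]
        _ = _ := by
            rw [mul_add, e2, ← ENNReal.ofReal_mul (p := 2 ^ (2 * m + 2)) (q := (2 * C1) ^ (2 * m + 2)) (by positivity),
              ← mul_assoc, ← mul_assoc,
              ← ENNReal.ofReal_mul (p := 2 ^ (2 * m + 2)) (q := 9 ^ (2 * m + 2) * u ^ (m + 1)) (by positivity),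
              ← ENNReal.ofReal_mul (p := 2 ^ (2 * m + 2) * (9 ^ (2 * m + 2) * u ^ (m + 1))) (by positivity)]
            congr 3
            ring
    have q1 : ∀ j ∈ Finset.range (J+1), ENNReal.ofReal ((ρ j)⁻¹ ^ (3 * m + 3)) *
        ∫⁻ a in Q, nn a (t^2) (ρ j * (2 * t + ρ j)) ^ (2 * m + 2) ≤
        ENNReal.ofReal (N0 * (2 * Real.pi * 2) * (K ^ (3 * m + 2) * (y + t))) := by
      intro j hj
      rw [Finset.mem_range] at hj
      have hr0 := hρ0 j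
      have hrK := hρK j
      have hri : 0 < (ρ j)⁻¹ := by positivity
      have hρ6 : ρ j ≤ 6 := by
        refine le_trans ?_ hJ2
        simp only [hρ]
        gcongr
        · norm_num
        · omega
      have hs48 : t ^ 2 + ρ j * (2 * t + ρ j) ≤ 7 ^ 2 := by nlinarith [ht.1, ht.2]
      have hs0 : 0 ≤ ρ j * (2 * t + ρ j) := by positivity
      have q2 : ∫⁻ a in Q, nn a (t^2) (ρ j * (2 * t + ρ j)) ^ (2 * m + 2) ≤
          ENNReal.ofReal (N0 * (2 * Real.pi * (ρ j * (2 * t + ρ j)))) := by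
        set n0 := (2 * (⌈(7:ℝ)⌉₊ + 2) + 1) ^ 2 with hn0
        calc ∫⁻ a in Q, nn a (t^2) (ρ j * (2 * t + ρ j)) ^ (2 * m + 2)
            ≤ ∫⁻ a in Q, ((n0:ℝ≥0∞) ^ (2 * m + 1)) * nn a (t^2) (ρ j * (2 * t + ρ j)) := by
              apply setLIntegral_mono' measurableSet_Q
              intro a ha
              have h2 := nn_triv ha (by norm_num : (0:ℝ) ≤ 7) hs48
              rw [pow_succ]
              gcongr
          _ = ((n0:ℝ≥0∞) ^ (2 * m + 1)) * ∫⁻ a in Q, nn a (t^2) (ρ j * (2 * t + ρ j)) := by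
              rw [lintegral_const_mul' _ _ (by simp)]
          _ ≤ ((n0:ℝ≥0∞) ^ (2 * m + 1)) * ENNReal.ofReal (2 * Real.pi * (ρ j * (2 * t + ρ j))) := by
              gcongr; exact int_nn _ _ hs0
          _ = _ := by
              rw [ENNReal.ofReal_mul hN0', hN0, ENNReal.ofReal_pow (by positivity), ENNReal.ofReal_natCast]
      calc ENNReal.ofReal ((ρ j)⁻¹ ^ (3 * m + 3)) * ∫⁻ a in Q, nn a (t^2) (ρ j * (2 * t + ρ j)) ^ (2 * m + 2)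
          ≤ ENNReal.ofReal ((ρ j)⁻¹ ^ (3 * m + 3)) * ENNReal.ofReal (N0 * (2 * Real.pi * (ρ j * (2 * t + ρ j)))) :=
            mul_le_mul' le_rfl q2
        _ = ENNReal.ofReal ((ρ j)⁻¹ ^ (3 * m + 3) * (N0 * (2 * Real.pi * (ρ j * (2 * t + ρ j))))) := by
            rw [← ENNReal.ofReal_mul (by positivity)]
        _ ≤ _ := by
            apply ENNReal.ofReal_le_ofReal
            have r1 : (ρ j)⁻¹ * ρ j = 1 := inv_mul_cancel₀ hr0.ne'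
            have e7 : (ρ j)⁻¹ ^ (3 * m + 3) * (N0 * (2 * Real.pi * (ρ j * (2 * t + ρ j)))) =
                N0 * (2 * Real.pi) * (2 * t * (ρ j)⁻¹ ^ (3 * m + 2) + (ρ j)⁻¹ ^ (3 * m + 1)) := by
              have a1 : (ρ j)⁻¹ ^ (3 * m + 3) * ρ j = (ρ j)⁻¹ ^ (3 * m + 2) := by
                rw [pow_succ _ (3 * m + 2), mul_assoc, r1, mul_one]
              have a2 : (ρ j)⁻¹ ^ (3 * m + 2) * ρ j = (ρ j)⁻¹ ^ (3 * m + 1) := by
                rw [pow_succ _ (3 * m + 1), mul_assoc, r1, mul_one]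
              rw [← a2, ← a1]; ring
            rw [e7]
            have b1 : (ρ j)⁻¹ ^ (3 * m + 2) ≤ K ^ (3 * m + 2) := by gcongr
            have b2 : (ρ j)⁻¹ ^ (3 * m + 1) ≤ K ^ (3 * m + 1) := by gcongr
            have b3 : K ^ (3 * m + 1) = K ^ (3 * m + 2) * y := by rw [hy, pow_succ K (3 * m + 1)]; field_simp
            have b5 : 0 ≤ K ^ (3 * m + 2) * y := by positivity
            calc N0 * (2 * Real.pi) * (2 * t * (ρ j)⁻¹ ^ (3 * m + 2) + (ρ j)⁻¹ ^ (3 * m + 1))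
                ≤ N0 * (2 * Real.pi) * (2 * t * K ^ (3 * m + 2) + K ^ (3 * m + 1)) := by gcongr
              _ ≤ N0 * (2 * Real.pi) * (2 * (K ^ (3 * m + 2) * (y + t))) := by
                  gcongr
                  rw [b3]; linarith
              _ = _ := by ring
    have hmj : ∀ j : ℕ, Measurable (fun a : ℝ × ℝ => ENNReal.ofReal ((ρ j)⁻¹ ^ (3 * m + 3)) *
        nn a (t^2) (ρ j * (2 * t + ρ j)) ^ (2 * m + 2)) :=
      fun j => ((measurable_nn_left _ _).pow_const _).const_mul _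
    calc ∫⁻ a in Q, ENNReal.ofReal ‖Fs y a t‖ ^ (2 * m + 2)
        ≤ ∫⁻ a in Q, (ENNReal.ofReal (2 ^ (2 * m + 2) * (9 ^ (2 * m + 2) * u ^ (m + 1) * ((J:ℝ) + 1) ^ (2 * m + 2))) *
          (∑ j ∈ Finset.range (J + 1), ENNReal.ofReal ((ρ j)⁻¹ ^ (3 * m + 3)) * nn a (t^2) (ρ j * (2 * t + ρ j)) ^ (2 * m + 2)) +
          ENNReal.ofReal A2) := setLIntegral_mono' measurableSet_Q q0
      _ = ENNReal.ofReal (2 ^ (2 * m + 2) * (9 ^ (2 * m + 2) * u ^ (m + 1) * ((J:ℝ) + 1) ^ (2 * m + 2))) *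
          (∑ j ∈ Finset.range (J + 1), ENNReal.ofReal ((ρ j)⁻¹ ^ (3 * m + 3)) *
            ∫⁻ a in Q, nn a (t^2) (ρ j * (2 * t + ρ j)) ^ (2 * m + 2)) + ENNReal.ofReal A2 := by
          rw [lintegral_add_right _ measurable_const, lintegral_const_mul' _ _ ENNReal.ofReal_ne_top,
            lintegral_finsetSum _ (fun j _ => hmj j), setLIntegral_const, volume_Q, mul_one]
          congr 2
          apply Finset.sum_congr rfl
          intro j _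
          rw [lintegral_const_mul' _ _ ENNReal.ofReal_ne_top]
      _ ≤ ENNReal.ofReal (2 ^ (2 * m + 2) * (9 ^ (2 * m + 2) * u ^ (m + 1) * ((J:ℝ) + 1) ^ (2 * m + 2))) *
          (ENNReal.ofReal ((J:ℝ) + 1) * ENNReal.ofReal (N0 * (2 * Real.pi * 2) * (K ^ (3 * m + 2) * (y + t)))) +
          ENNReal.ofReal A2 := by
          refine add_le_add (mul_le_mul' le_rfl ?_) le_rfl
          refine (Finset.sum_le_card_nsmul _ _ _ q1).trans (le_of_eq ?_)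
          rw [Finset.card_range, nsmul_eq_mul]
          congr 1
          rw [← ENNReal.ofReal_natCast]; push_cast; rfl
      _ ≤ _ := by
          refine add_le_add ?_ le_rfl
          rw [← ENNReal.ofReal_mul (by positivity), ← ENNReal.ofReal_mul (by positivity), ← ENNReal.ofReal_mul (by positivity)]
          apply ENNReal.ofReal_le_ofReal
          have f1 : u ^ (m + 1) * (y + t) = u ^ m := by
            rw [pow_succ, mul_assoc, hu', inv_mul_cancel₀ hu.ne', mul_one]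
          have f2 : u ^ m ≤ K ^ (m - 1) * u := by
            obtain ⟨q, rfl⟩ : ∃ q, m = q + 1 := ⟨m - 1, by omega⟩
            rw [pow_succ, Nat.add_sub_cancel]
            gcongr
          have f3 : K ^ (3 * m + 2) * K ^ (m - 1) = K ^ (4 * m + 1) := by
            rw [← pow_add]; congr 1; omega
          calc 2 ^ (2 * m + 2) * (9 ^ (2 * m + 2) * u ^ (m + 1) * ((J:ℝ) + 1) ^ (2 * m + 2)) *
                (((J:ℝ) + 1) * (N0 * (2 * Real.pi * 2) * (K ^ (3 * m + 2) * (y + t))))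
              = A1 * ((J:ℝ) + 1) ^ (2 * m + 3) * K ^ (3 * m + 2) * (u ^ (m + 1) * (y + t)) := by
                rw [hA1, pow_succ _ (2 * m + 2)]; ring
            _ ≤ A1 * ((J:ℝ) + 1) ^ (2 * m + 3) * K ^ (3 * m + 2) * (K ^ (m - 1) * u) := by
                rw [f1]; gcongr
            _ = A1 * (((J:ℝ) + 1) ^ (2 * m + 3) * (K ^ (3 * m + 2) * K ^ (m - 1))) * u := by ring
            _ = _ := by rw [f3]
  calc ∫⁻ t in Icc (0:ℝ) 1, ∫⁻ a in Q, ENNReal.ofReal ‖Fs y a t‖ ^ (2 * m + 2)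
      ≤ ∫⁻ t in Icc (0:ℝ) 1, (ENNReal.ofReal (A1 * (((J:ℝ) + 1) ^ (2 * m + 3) * K ^ (4 * m + 1))) * ENNReal.ofReal ((y + t)⁻¹) +
        ENNReal.ofReal A2) := setLIntegral_mono' measurableSet_Icc p1
    _ = ENNReal.ofReal (A1 * (((J:ℝ) + 1) ^ (2 * m + 3) * K ^ (4 * m + 1))) * ENNReal.ofReal (Real.log ((y + 1) / y)) +
        ENNReal.ofReal A2 := by
        rw [lintegral_add_right _ measurable_const, lintegral_const_mul' _ _ ENNReal.ofReal_ne_top, lint_inv hy0,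
          setLIntegral_const, Real.volume_Icc]
        simp
    _ ≤ ENNReal.ofReal (A1 * (((J:ℝ) + 1) ^ (2 * m + 3) * K ^ (4 * m + 1))) * ENNReal.ofReal (Real.log K + 1) +
        ENNReal.ofReal (A2 * (((J:ℝ) + 1) ^ (2 * m + 3) * (K ^ (4 * m + 1) * (Real.log K + 1)))) := by
        apply add_le_add
        · apply mul_le_mul' le_rfl
          apply ENNReal.ofReal_le_ofReal
          have e1 : (y + 1) / y = K + 1 := by rw [hy]; field_simp; ring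
          rw [e1]
          have e2 : Real.log (K + 1) ≤ Real.log (2 * K) := Real.log_le_log (by linarith) (by linarith)
          rw [Real.log_mul (by norm_num) (by positivity)] at e2
          have := Real.log_two_lt_d9
          linarith
        · apply ENNReal.ofReal_le_ofReal
          have g1 : (1:ℝ) ≤ ((J:ℝ) + 1) ^ (2 * m + 3) := one_le_pow₀ hJ0
          have g2 : (1:ℝ) ≤ K ^ (4 * m + 1) := one_le_pow₀ hK
          have g3 : 1 ≤ ((J:ℝ) + 1) ^ (2 * m + 3) * (K ^ (4 * m + 1) * (Real.log K + 1)) := by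
            calc (1:ℝ) = 1 * (1 * 1) := by norm_num
              _ ≤ _ := by gcongr; linarith
          nlinarith
    _ = ENNReal.ofReal (A1 * (((J:ℝ) + 1) ^ (2 * m + 3) * K ^ (4 * m + 1)) * (Real.log K + 1) +
        A2 * (((J:ℝ) + 1) ^ (2 * m + 3) * (K ^ (4 * m + 1) * (Real.log K + 1)))) := by
        exact ofReal_alg3 (by positivity) (by positivity) (by positivity)
    _ = _ := by congr 1; ring

lemma dyadic_cover (f : ℝ → ℝ≥0∞) (n : ℕ) : ∫⁻ t in Icc (0:ℝ) (2 ^ n), f t ≤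
    (∫⁻ t in Icc (0:ℝ) 1, f t) + ∑ i ∈ Finset.range n, ∫⁻ t in Icc ((2:ℝ) ^ i) (2 * 2 ^ i), f t := by
  induction n with
  | zero => simp
  | succ n ih =>
    rw [Finset.sum_range_succ, ← add_assoc]
    have hsub : Icc (0:ℝ) (2 ^ (n+1)) ⊆ Icc (0:ℝ) (2 ^ n) ∪ Icc ((2:ℝ) ^ n) (2 * 2 ^ n) := by
      intro t ht
      rcases le_total t (2 ^ n) with h5 | h5
      · left; exact ⟨ht.1, h5⟩
      · right; refine ⟨h5, ?_⟩
        have := ht.2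
        rw [pow_succ] at this; linarith
    calc ∫⁻ t in Icc (0:ℝ) (2 ^ (n+1)), f t ≤ ∫⁻ t in Icc (0:ℝ) (2 ^ n) ∪ Icc ((2:ℝ) ^ n) (2 * 2 ^ n), f t :=
          lintegral_mono_set hsub
      _ ≤ (∫⁻ t in Icc (0:ℝ) (2 ^ n), f t) + ∫⁻ t in Icc ((2:ℝ) ^ n) (2 * 2 ^ n), f t := lintegral_union_le _ _ _
      _ ≤ _ := add_le_add ih le_rfl

/-- all times up to `K^θ'` -/
theorem uptoP {m : ℕ} {θ κ θ' : ℝ} (hm : 2 ≤ m) (hθ0 : 0 ≤ θ) (hθ : θ ≤ 4 * m - 3) (h : HE m θ)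
    (hκ : Kap (2 * m + 2) κ) (h1 : 0 ≤ θ') (h2 : θ' ≤ 3) (h3 : θ' ≤ 1 + θ) (h4 : 2 * θ' ≤ 3 + θ)
    (h5 : 0 ≤ 3 - m + κ) (h6 : θ' * (3 - m + κ) ≤ m + 1) {ε : ℝ} (hε : 0 < ε) :
    ∃ C : ℝ, 0 < C ∧ ∀ (K : ℕ), 1 ≤ K →
    ∫⁻ t in Icc (0:ℝ) ((K:ℝ) ^ θ'), ∫⁻ a in Q, ENNReal.ofReal ‖Fs (1/K) a t‖ ^ (2 * m + 2) ≤
      ENNReal.ofReal (C * (K:ℝ) ^ (4 * m + 1 + ε)) := by
  obtain ⟨C1, hC1, k1⟩ := dyadP hm hθ0 hθ h hκ (ε := ε/2) (by positivity)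
  obtain ⟨C2, hC2, k2⟩ := dyad0P (m := m) (by omega)
  obtain ⟨C3, hC3, k3⟩ := pickJ3 (2 * m + 3) (ε := ε/2) (by positivity)
  obtain ⟨C4, hC4, k4⟩ := log_pow_le 1 (ε := ε/2) (by positivity)
  refine ⟨C2 * C3 * C4 + (8 * C4) * (C1 * 7), by positivity, ?_⟩
  intro K hK
  have hK' : (1:ℝ) ≤ K := by exact_mod_cast hK
  have hK0 : (0:ℝ) < K := by linarith
  have hlog : 0 ≤ Real.log K := Real.log_nonneg hK'
  have k4' := k4 K hK'
  rw [pow_one] at k4'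
  set f : ℝ → ℝ≥0∞ := fun t => ∫⁻ a in Q, ENNReal.ofReal ‖Fs (1/K) a t‖ ^ (2 * m + 2) with hf
  set T := (K:ℝ) ^ θ' with hT
  have hT1 : 1 ≤ T := Real.one_le_rpow hK' h1
  have hTK3 : T ≤ (K:ℝ) ^ 3 := by
    rw [hT, ← Real.rpow_natCast]
    exact Real.rpow_le_rpow_of_exponent_le hK' (by push_cast; exact h2)
  set n := Nat.log 2 ⌊T⌋₊ + 1 with hn
  have hT0 : ⌊T⌋₊ ≠ 0 := by
    have := Nat.floor_pos.mpr hT1
    omega
  have hn1 : T ≤ 2 ^ n := by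
    have q1 : ⌊T⌋₊ < 2 ^ n := Nat.lt_pow_succ_log_self (by norm_num) _
    have q2 : ((⌊T⌋₊ + 1 : ℕ) : ℝ) ≤ ((2 ^ n : ℕ) : ℝ) := by exact_mod_cast q1
    push_cast at q2
    exact (Nat.lt_floor_add_one T).le.trans q2
  have hn2 : ∀ i < n, (2:ℝ) ^ i ≤ T := by
    intro i hi
    have q1 : 2 ^ (Nat.log 2 ⌊T⌋₊) ≤ ⌊T⌋₊ := Nat.pow_log_le_self 2 hT0
    have q2 : ((2 ^ (Nat.log 2 ⌊T⌋₊) : ℕ) : ℝ) ≤ (⌊T⌋₊ : ℝ) := by exact_mod_cast q1
    push_cast at q2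
    calc (2:ℝ) ^ i ≤ 2 ^ (Nat.log 2 ⌊T⌋₊) := pow_le_pow_right₀ (by norm_num) (by omega)
      _ ≤ (⌊T⌋₊ : ℝ) := q2
      _ ≤ T := Nat.floor_le (by linarith)
  have hn3 : (n:ℝ) ≤ 8 * (Real.log K + 1) := by
    have q1 := natlog_le ⌊T⌋₊
    have q2 : Real.log ((⌊T⌋₊ : ℕ) : ℝ) ≤ Real.log ((K:ℝ) ^ 3) := by
      apply Real.log_le_log
      · have : 0 < ⌊T⌋₊ := by omega
        exact_mod_cast this
      · exact (Nat.floor_le (by linarith)).trans hTK3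
    rw [Real.log_pow] at q2
    rw [hn]; push_cast at q2 ⊢
    linarith
  have hKK : (K:ℝ) ^ (ε/2) * (K:ℝ) ^ (ε/2) = (K:ℝ) ^ ε := by rw [← Real.rpow_add hK0]; congr 1; ring
  set E := (K:ℝ) ^ (4 * m + 1 : ℝ) with hE
  have hE0 : 0 < E := by positivity
  have hEε : (K:ℝ) ^ (4 * m + 1 + ε) = E * (K:ℝ) ^ ε := by rw [hE, ← Real.rpow_add hK0]
  have hEn : (K:ℝ) ^ (4 * m + 1) = E := by rw [hE, ← Real.rpow_natCast]; congr 1; push_cast; ring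
  -- the piece at small times
  have z0 : ∫⁻ t in Icc (0:ℝ) 1, f t ≤ ENNReal.ofReal (C2 * C3 * C4 * (E * (K:ℝ) ^ ε)) := by
    obtain ⟨J, j1, j2, j3⟩ := k3 K (1/2) hK' le_rfl (by
      have : (1:ℝ) ≤ (K:ℝ) ^ 3 := one_le_pow₀ hK'
      linarith)
    refine (k2 K J hK' (by linarith) (by linarith)).trans (ENNReal.ofReal_le_ofReal ?_)
    rw [hEn]
    calc C2 * (((J:ℝ) + 1) ^ (2 * m + 3) * (E * (Real.log K + 1)))
        ≤ C2 * ((C3 * (K:ℝ) ^ (ε/2)) * (E * (C4 * (K:ℝ) ^ (ε/2)))) := by gcongr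
      _ = C2 * C3 * C4 * (E * ((K:ℝ) ^ (ε/2) * (K:ℝ) ^ (ε/2))) := by ring
      _ = _ := by rw [hKK]
  -- a dyadic piece
  have hm' : (2:ℝ) ≤ m := by exact_mod_cast hm
  have alg : ∀ τ : ℝ, 1 ≤ τ → τ ≤ T → ((K:ℝ) ^ 3 + τ * K) * ((K:ℝ) ^ (4 * m - 3 : ℝ) * (1 + τ * (K:ℝ) ^ (-θ)) + τ) +
        τ ^ (3 - m + κ) * (K:ℝ) ^ (3 * m) ≤ 7 * E := by
    intro τ hτ1 hτ2
    have hτ0 : 0 < τ := by linarith
    set A := (K:ℝ) ^ (4 * m - 3 : ℝ) with hA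
    have hA0 : 0 < A := by positivity
    have pw : ∀ x : ℝ, x ≤ 4 * m + 1 → (K:ℝ) ^ x ≤ E := fun x hx => Real.rpow_le_rpow_of_exponent_le hK' hx
    have c3 : (K:ℝ) ^ 3 = (K:ℝ) ^ (3:ℝ) := by rw [← Real.rpow_natCast]; norm_num
    have c1 : (K:ℝ) = (K:ℝ) ^ (1:ℝ) := (Real.rpow_one _).symm
    have x1 : (K:ℝ) ^ 3 * A ≤ E := by
      rw [c3, hA, ← Real.rpow_add hK0]; exact pw _ (by linarith)
    have x2 : (K:ℝ) ^ 3 * A * (T * (K:ℝ) ^ (-θ)) ≤ E := by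
      rw [c3, hA, hT, ← Real.rpow_add hK0, ← Real.rpow_add hK0, ← Real.rpow_add hK0]; exact pw _ (by linarith)
    have x3 : T * (K:ℝ) * A ≤ E := by
      rw [hA, hT]
      nth_rewrite 2 [c1]
      rw [← Real.rpow_add hK0, ← Real.rpow_add hK0]; exact pw _ (by linarith)
    have x4 : T * (K:ℝ) * A * (T * (K:ℝ) ^ (-θ)) ≤ E := by
      rw [hA, hT]
      nth_rewrite 2 [c1]
      rw [← Real.rpow_add hK0, ← Real.rpow_add hK0, ← Real.rpow_add hK0, ← Real.rpow_add hK0]; exact pw _ (by linarith)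
    have x5 : (K:ℝ) ^ 3 * T ≤ E := by
      rw [c3, hT, ← Real.rpow_add hK0]; exact pw _ (by linarith)
    have x6 : T * (K:ℝ) * T ≤ E := by
      rw [hT]
      nth_rewrite 2 [c1]
      rw [← Real.rpow_add hK0, ← Real.rpow_add hK0]; exact pw _ (by linarith)
    have x7 : τ ^ (3 - m + κ) * (K:ℝ) ^ (3 * m) ≤ E := by
      calc τ ^ (3 - m + κ) * (K:ℝ) ^ (3 * m) ≤ T ^ (3 - m + κ) * (K:ℝ) ^ (3 * m) := by gcongr
        _ = (K:ℝ) ^ (θ' * (3 - m + κ) + 3 * m) := by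
            rw [hT, ← Real.rpow_mul hK0.le, ← Real.rpow_natCast (K:ℝ) (3 * m), ← Real.rpow_add hK0]
            congr 1; push_cast; ring
        _ ≤ E := pw _ (by linarith)
    have hb0 : 0 < (K:ℝ) ^ (-θ) := by positivity
    calc ((K:ℝ) ^ 3 + τ * K) * (A * (1 + τ * (K:ℝ) ^ (-θ)) + τ) + τ ^ (3 - m + κ) * (K:ℝ) ^ (3 * m)
        ≤ ((K:ℝ) ^ 3 + T * K) * (A * (1 + T * (K:ℝ) ^ (-θ)) + T) + E := by gcongr
      _ = (K:ℝ) ^ 3 * A + (K:ℝ) ^ 3 * A * (T * (K:ℝ) ^ (-θ)) + T * (K:ℝ) * A + T * (K:ℝ) * A * (T * (K:ℝ) ^ (-θ)) +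
          (K:ℝ) ^ 3 * T + T * (K:ℝ) * T + E := by ring
      _ ≤ _ := by linarith
  have zi : ∀ i ∈ Finset.range n, ∫⁻ t in Icc ((2:ℝ) ^ i) (2 * 2 ^ i), f t ≤
      ENNReal.ofReal (C1 * 7 * ((K:ℝ) ^ (ε/2) * E)) := by
    intro i hi
    rw [Finset.mem_range] at hi
    have q1 : (1:ℝ) ≤ 2 ^ i := one_le_pow₀ (by norm_num)
    have q2 := hn2 i hi
    refine (k1 K (2 ^ i) hK q1 (q2.trans hTK3)).trans (ENNReal.ofReal_le_ofReal ?_)
    calc C1 * ((K:ℝ) ^ (ε/2) * (((K:ℝ) ^ 3 + (2:ℝ) ^ i * K) * ((K:ℝ) ^ (4 * m - 3 : ℝ) * (1 + (2:ℝ) ^ i * (K:ℝ) ^ (-θ)) + (2:ℝ) ^ i) +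
        ((2:ℝ) ^ i) ^ (3 - m + κ) * (K:ℝ) ^ (3 * m))) ≤ C1 * ((K:ℝ) ^ (ε/2) * (7 * E)) := by
          gcongr
          exact alg _ q1 q2
      _ = _ := by ring
  calc ∫⁻ t in Icc (0:ℝ) T, f t ≤ ∫⁻ t in Icc (0:ℝ) (2 ^ n), f t := lintegral_mono_set (Icc_subset_Icc le_rfl hn1)
    _ ≤ (∫⁻ t in Icc (0:ℝ) 1, f t) + ∑ i ∈ Finset.range n, ∫⁻ t in Icc ((2:ℝ) ^ i) (2 * 2 ^ i), f t := dyadic_cover f n
    _ ≤ ENNReal.ofReal (C2 * C3 * C4 * (E * (K:ℝ) ^ ε)) + ENNReal.ofReal (n:ℝ) * ENNReal.ofReal (C1 * 7 * ((K:ℝ) ^ (ε/2) * E)) := by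
        apply add_le_add z0
        refine (Finset.sum_le_card_nsmul _ _ _ zi).trans (le_of_eq ?_)
        rw [Finset.card_range, nsmul_eq_mul, ENNReal.ofReal_natCast]
    _ = ENNReal.ofReal (C2 * C3 * C4 * (E * (K:ℝ) ^ ε) + n * (C1 * 7 * ((K:ℝ) ^ (ε/2) * E))) := by
        rw [ENNReal.ofReal_add (by positivity) (by positivity), ENNReal.ofReal_mul (p := (n:ℝ)) (by positivity)]
    _ ≤ _ := by
        apply ENNReal.ofReal_le_ofReal
        rw [hEε]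
        calc C2 * C3 * C4 * (E * (K:ℝ) ^ ε) + n * (C1 * 7 * ((K:ℝ) ^ (ε/2) * E))
            ≤ C2 * C3 * C4 * (E * (K:ℝ) ^ ε) + (8 * (C4 * (K:ℝ) ^ (ε/2))) * (C1 * 7 * ((K:ℝ) ^ (ε/2) * E)) := by
              gcongr
              linarith
          _ = C2 * C3 * C4 * (E * (K:ℝ) ^ ε) + (8 * C4) * (C1 * 7) * (E * ((K:ℝ) ^ (ε/2) * (K:ℝ) ^ (ε/2))) := by ring
          _ = _ := by rw [hKK]; ring

end Pool.Agent.H593.U
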