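import Mathlib
import Pool.Agent.H593.U6.SC4

/-!
# Energies of order six
-/

open MeasureTheory Set Filter Topology
open Pool.Agent.H383.Gauss
open scoped ENNReal

namespace Pool.Agent.H593.U

lemma MP_le_Fs {y : ℝ} {B : Finset (ℤ × ℤ)} (m : ℕ)
    (hB : ∀ (a : ℝ × ℝ) (t : ℝ), ‖Fs y a t - S B (bb y) a t‖ ≤ 1) (t : ℝ) :
    ENNReal.ofReal (MP m B (bb y) t) ≤ 2 ^ (2 * m) * (∫⁻ a in Q, ENNReal.ofReal ‖Fs y a t‖ ^ (2 * m)) + 2 ^ (2 * m) := by
  rw [← lint_S_pow]
  calc ∫⁻ a in Q, ENNReal.ofReal (‖S B (bb y) a t‖ ^ (2 * m))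
      ≤ ∫⁻ a in Q, (2 ^ (2 * m) * ENNReal.ofReal ‖Fs y a t‖ ^ (2 * m) + 2 ^ (2 * m)) := by
        apply lintegral_mono
        intro a
        simp only
        have h1 : ‖S B (bb y) a t‖ ≤ ‖Fs y a t‖ + 1 := by
          have : S B (bb y) a t = Fs y a t - (Fs y a t - S B (bb y) a t) := by ring
          rw [this]
          refine (norm_sub_le _ _).trans ?_
          linarith [hB a t]
        calc ENNReal.ofReal (‖S B (bb y) a t‖ ^ (2 * m)) = ENNReal.ofReal (‖S B (bb y) a t‖) ^ (2 * m) := by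
              rw [ENNReal.ofReal_pow (norm_nonneg _)]
          _ ≤ (ENNReal.ofReal ‖Fs y a t‖ + 1) ^ (2 * m) := by
              gcongr
              rw [← ENNReal.ofReal_one, ← ENNReal.ofReal_add (norm_nonneg _) zero_le_one]
              exact ENNReal.ofReal_le_ofReal h1
          _ ≤ 2 ^ (2 * m) * (ENNReal.ofReal ‖Fs y a t‖ ^ (2 * m) + 1 ^ (2 * m)) := add_powp_le' _ _ _
          _ = _ := by ring
    _ = _ := by
        rw [lintegral_add_right _ measurable_const, lintegral_const_mul' _ _ (by simp), setLIntegral_const,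
          volume_Q, mul_one]

theorem stepB_P {m : ℕ} {θ κ θ' : ℝ} (hm : 2 ≤ m) (hθ0 : 0 ≤ θ) (hθ : θ ≤ 4 * m - 3) (h : HE m θ)
    (hκ : Kap (2 * m + 2) κ) (h1 : 0 ≤ θ') (h2 : θ' ≤ 3) (h3 : θ' ≤ 1 + θ) (h4 : 2 * θ' ≤ 3 + θ)
    (h5 : 0 ≤ 3 - m + κ) (h6 : θ' * (3 - m + κ) ≤ m + 1) : HE (m + 1) θ' := by
  intro ε hε
  obtain ⟨C, hC, hup⟩ := uptoP hm hθ0 hθ h hκ h1 h2 h3 h4 h5 h6 hε
  set c := Real.exp (-(4 * Real.pi)) with hc
  have hc0 : 0 < c := Real.exp_pos _
  set p2 : ℝ := 2 ^ (2 * (m + 1)) with hp2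
  have hp20 : 0 < p2 := by positivity
  set D := (4 * (p2 * C + p2)) / c ^ (2 * (m + 1)) with hD
  have hD0 : 0 < D := by positivity
  refine ⟨D, hD0, ?_⟩
  intro K T hK hT
  have hK' : (1:ℝ) ≤ K := by exact_mod_cast hK
  have hK0 : (0:ℝ) < K := by linarith
  set T0 := (K:ℝ) ^ θ' with hT0
  have hT01 : 1 ≤ T0 := Real.one_le_rpow hK' h1
  have hT00 : 0 < T0 := by linarith
  set y : ℝ := 1 / K with hy
  have hy0 : 0 < y := by positivity
  set E := (K:ℝ) ^ (4 * m + 1 + ε) with hE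
  have hE0 : 0 < E := by positivity
  have hm' : (2:ℝ) ≤ m := by exact_mod_cast hm
  -- the main bound at `T0`
  have main : T0 * EnM (m + 1) (box K) T0 ≤ D * E := by
    obtain ⟨B, hB1, hB2⟩ := tail_set hy0 (box K)
    have hbb : ∀ k, 0 ≤ bb y k := fun k => (Real.exp_pos _).le
    have hpi := Real.pi_pos
    have g2 := le_gauss_MP hT00 (m + 1) hB1 (bb y) (c := c) hc0.le (fun k _ => hbb k) (by
      intro k hk
      unfold bb
      rw [hc]
      apply Real.exp_le_exp.mpr
      have h3 := nz_le_of_mem_box hk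
      have h4 : 2 * Real.pi * y * nz k ≤ 2 * Real.pi * y * (2 * K) := by gcongr
      have h5 : 2 * Real.pi * y * (2 * K) = 4 * Real.pi := by rw [hy]; field_simp; norm_num
      linarith)
    have g3 := MP_short hT00 (m + 1) B (bb y) (fun k _ => hbb k)
    have g4 : ENNReal.ofReal (∫ t in Icc (-T0) T0, MP (m + 1) B (bb y) t) ≤ ENNReal.ofReal (2 * (p2 * (C * E) + p2 * T0)) := by
      have hint : IntegrableOn (fun t => MP (m + 1) B (bb y) t) (Icc (-T0) T0) :=
        (continuous_MP (m + 1) B (bb y)).continuousOn.integrableOn_Icc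
      rw [ofReal_integral_eq_lintegral_ofReal hint (Eventually.of_forall fun t => MP_nonneg (m + 1) B (bb y) t)]
      have h5 : ∫⁻ t in Icc 0 T0, ENNReal.ofReal (MP (m + 1) B (bb y) t) ≤ ENNReal.ofReal (p2 * (C * E) + p2 * T0) := by
        calc ∫⁻ t in Icc 0 T0, ENNReal.ofReal (MP (m + 1) B (bb y) t)
            ≤ ∫⁻ t in Icc 0 T0, (2 ^ (2 * (m + 1)) * (∫⁻ a in Q, ENNReal.ofReal ‖Fs y a t‖ ^ (2 * (m + 1))) + 2 ^ (2 * (m + 1))) :=
              lintegral_mono (fun t => MP_le_Fs (m + 1) hB2 t)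
          _ = 2 ^ (2 * (m + 1)) * (∫⁻ t in Icc 0 T0, ∫⁻ a in Q, ENNReal.ofReal ‖Fs y a t‖ ^ (2 * (m + 1))) +
              2 ^ (2 * (m + 1)) * ENNReal.ofReal T0 := by
              rw [lintegral_add_right _ measurable_const, lintegral_const_mul' _ _ (by simp), setLIntegral_const,
                Real.volume_Icc, sub_zero]
          _ ≤ 2 ^ (2 * (m + 1)) * ENNReal.ofReal (C * E) + 2 ^ (2 * (m + 1)) * ENNReal.ofReal T0 := by
              gcongr
              exact hup K hK
          _ = _ := by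
              have e16 : (2:ℝ≥0∞) ^ (2 * (m + 1)) = ENNReal.ofReal p2 := by
                rw [hp2, ENNReal.ofReal_pow (by norm_num)]; simp
              rw [e16, ← ENNReal.ofReal_mul (by positivity), ← ENNReal.ofReal_mul (by positivity),
                ENNReal.ofReal_add (by positivity) (by positivity)]
      have h6 : ∫⁻ t in Icc (-T0) 0, ENNReal.ofReal (MP (m + 1) B (bb y) t) = ∫⁻ t in Icc 0 T0, ENNReal.ofReal (MP (m + 1) B (bb y) t) := by
        rw [← lintegral_indicator measurableSet_Icc, ← lintegral_indicator measurableSet_Icc]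
        rw [← lintegral_neg_eq_self]
        congr 1
        ext t
        simp only [Set.indicator, Set.mem_Icc]
        rw [MP_even]
        have : (-T0 ≤ -t ∧ -t ≤ 0) ↔ (0 ≤ t ∧ t ≤ T0) := by constructor <;> rintro ⟨a1, a2⟩ <;> constructor <;> linarith
        simp only [this]
      have h7 : ∫⁻ t in Icc (-T0) T0, ENNReal.ofReal (MP (m + 1) B (bb y) t) ≤
          (∫⁻ t in Icc (-T0) 0, ENNReal.ofReal (MP (m + 1) B (bb y) t)) + ∫⁻ t in Icc 0 T0, ENNReal.ofReal (MP (m + 1) B (bb y) t) := by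
        refine (lintegral_mono_set ?_).trans (lintegral_union_le _ _ _)
        intro t ht
        rcases le_total t 0 with h8 | h8
        · left; exact ⟨ht.1, h8⟩
        · right; exact ⟨h8, ht.2⟩
      refine h7.trans ?_
      rw [h6]
      calc _ ≤ ENNReal.ofReal (p2 * (C * E) + p2 * T0) + ENNReal.ofReal (p2 * (C * E) + p2 * T0) := add_le_add h5 h5
        _ = _ := by rw [← ENNReal.ofReal_add (by positivity) (by positivity)]; congr 1; ring
    rw [ENNReal.ofReal_le_ofReal_iff (by positivity)] at g4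
    have hTE : T0 ≤ E := by
      rw [hT0, hE]
      apply Real.rpow_le_rpow_of_exponent_le hK'
      linarith
    have h9 : c ^ (2 * (m + 1)) * (T0 * EnM (m + 1) (box K) T0) ≤ 4 * (p2 * C + p2) * E := by
      have e1 : T0 * c ^ (2 * (m + 1)) * EnM (m + 1) (box K) T0 = c ^ (2 * (m + 1)) * (T0 * EnM (m + 1) (box K) T0) := by ring
      rw [← e1]
      have e2 : p2 * T0 ≤ p2 * E := by gcongr
      linarith
    rw [hD, div_mul_eq_mul_div, le_div_iff₀ (by positivity)]
    linarith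
  have hexp : (K:ℝ) ^ (4 * ((m + 1 : ℕ):ℝ) - 3 + ε) = E := by rw [hE]; congr 1; push_cast; ring
  rw [hexp]
  have hr0 : 0 < (K:ℝ) ^ (-θ') := by positivity
  rcases le_total T T0 with hc1 | hc1
  · have g1 : T * EnM (m + 1) (box K) T ≤ T0 * EnM (m + 1) (box K) T0 := EG_le_mul _ _ _ hT hc1
    refine (g1.trans main).trans ?_
    have : E * 1 ≤ E * (1 + T * (K:ℝ) ^ (-θ')) := by
      gcongr
      have : 0 ≤ T * (K:ℝ) ^ (-θ') := by positivity
      linarith
    nlinarith
  · have g1 := EnM_anti (m + 1) (box K) hT00.le hc1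
    have g2 : T * EnM (m + 1) (box K) T ≤ (T * (K:ℝ) ^ (-θ')) * (T0 * EnM (m + 1) (box K) T0) := by
      have e1 : (K:ℝ) ^ (-θ') * T0 = 1 := by
        rw [hT0, ← Real.rpow_add hK0, neg_add_cancel, Real.rpow_zero]
      calc T * EnM (m + 1) (box K) T ≤ T * EnM (m + 1) (box K) T0 := by gcongr
        _ = T * ((K:ℝ) ^ (-θ') * T0) * EnM (m + 1) (box K) T0 := by rw [e1, mul_one]
        _ = _ := by ring
    refine g2.trans ?_
    calc (T * (K:ℝ) ^ (-θ')) * (T0 * EnM (m + 1) (box K) T0) ≤ (T * (K:ℝ) ^ (-θ')) * (D * E) := by gcongr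
      _ ≤ (1 + T * (K:ℝ) ^ (-θ')) * (D * E) := by
          gcongr; linarith
      _ = _ := by ring

/-- **Energies of order six.** -/
theorem HE_three {θ : ℝ} (hθ : θ < 2) : HE 3 θ := by
  -- base case
  have base : HE 3 (2 - 1 / 3 ^ 0) := by
    have := stepB_P (m := 2) (θ := 1) (κ := 2) (θ' := 1) le_rfl (by norm_num) (by norm_num) HE_two Kap_six_two
      (by norm_num) (by norm_num) (by norm_num) (by norm_num) (by norm_num) (by norm_num)
    norm_num at this ⊢
    exact this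
  have weaken : ∀ θ1 θ2 : ℝ, θ2 ≤ θ1 → HE 3 θ1 → HE 3 θ2 := by
    intro θ1 θ2 h12 h ε hε
    obtain ⟨C, hC, h⟩ := h ε hε
    refine ⟨C, hC, ?_⟩
    intro K T hK hT
    refine (h K T hK hT).trans ?_
    have hK' : (1:ℝ) ≤ K := by exact_mod_cast hK
    have : (K:ℝ) ^ (-θ1) ≤ (K:ℝ) ^ (-θ2) := Real.rpow_le_rpow_of_exponent_le hK' (by linarith)
    gcongr
  have h : ∀ n : ℕ, HE 3 (2 - 1 / 3 ^ n) := by
    intro n
    induction n with
    | zero => exact base
    | succ n ih =>
      set η : ℝ := 1 / 3 ^ n with hη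
      have hη0 : 0 < η := by positivity
      have hη1 : η ≤ 1 := by
        rw [hη, div_le_one (by positivity)]
        exact one_le_pow₀ (by norm_num)
      have hk := Kap_six (θ := 2 - η) (by linarith) (by linarith) ih
      have e1 : (3 - (2 - η)) / (4 - (2 - η)) = (1 + η) / (2 + η) := by congr 1 <;> ring
      rw [e1] at hk
      set κ := (1 + η) / (2 + η) with hκ
      have hκ0 : 0 < κ := by positivity
      have hstep := stepB_P (m := 2) (θ := 1) (κ := κ) (θ' := 2 - η / 3) le_rfl (by norm_num) (by norm_num) HE_two hk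
        (by linarith) (by linarith) (by linarith) (by linarith) (by push_cast; linarith) (by
          push_cast
          have e2 : (3:ℝ) - 2 + κ = (3 + 2 * η) / (2 + η) := by
            rw [hκ]; field_simp; ring
          rw [e2, mul_div_assoc', div_le_iff₀ (by positivity)]
          nlinarith)
      have e3 : 2 - 1 / (3:ℝ) ^ (n+1) = 2 - η / 3 := by rw [hη, pow_succ]; field_simp
      rw [e3]
      exact hstep
  obtain ⟨n, hn⟩ : ∃ n : ℕ, 1 / (3:ℝ) ^ n ≤ 2 - θ := by
    obtain ⟨n, hn⟩ := exists_nat_gt (1 / (2 - θ))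
    refine ⟨n, ?_⟩
    have h1 : (n:ℝ) < 3 ^ n := by exact_mod_cast Nat.lt_pow_self (by norm_num)
    rw [div_lt_iff₀ (by linarith)] at hn
    rw [div_le_iff₀ (by positivity)]
    nlinarith
  exact weaken _ _ (by linarith) (h n)

end Pool.Agent.H593.U
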