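import Mathlib
import Pool.Agent.H593.U6.SC5

/-!
# Energies of orders eight and ten
-/

open MeasureTheory Set Filter Topology
open Pool.Agent.H383.Gauss
open scoped ENNReal

namespace Pool.Agent.H593.U

/-- using a tail bound -/
lemma Tail_use {n : ℕ} {θ : ℝ} (h : Tail n θ) {ε : ℝ} (hε : 0 < ε) (p : ℕ) (κ A : ℝ) (hA : 0 < A) :
    ∃ C C2 : ℝ, 0 < C ∧ 1 ≤ C2 ∧ ∀ T s B : ℝ, 1 ≤ T → 0 < s →
    C2 * (T ^ ε * max 1 s) ≤ B → T ^ (2 * n - 4 : ℝ) * B ^ (p - 3 * n : ℝ) ≤ A * T ^ (κ + ε) →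
    T ^ (2 * n - 3 - θ : ℝ) * B ^ (p - 3 * n + θ : ℝ) ≤ A * T ^ (κ + ε) →
    TT 0 (T^2/4) (8*T^2) s s (ENNReal.ofReal B) ≤ ENNReal.ofReal (C * (T ^ (2 + κ + 2 * ε) * s ^ 3 * (B ^ p)⁻¹)) := by
  obtain ⟨C, C2, hC, hC2, h⟩ := h ε hε
  refine ⟨C * (2 * A), C2, by positivity, hC2, ?_⟩
  intro T s B hT hs hB h1 h2
  have hT0 : 0 < T := by linarith
  have hTε : 1 ≤ T ^ ε := Real.one_le_rpow hT hε.le
  have hmax1 : (1:ℝ) ≤ max 1 s := le_max_left _ _
  have hB1 : 1 ≤ B := by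
    calc (1:ℝ) = 1 * (1 * 1) := by norm_num
      _ ≤ C2 * (T ^ ε * max 1 s) := by gcongr
      _ ≤ B := hB
  have hB0 : 0 < B := by linarith
  refine (h T s B hT hs hB).trans (ENNReal.ofReal_le_ofReal ?_)
  have e1 : B ^ (-(3 * n):ℝ) = (B ^ p)⁻¹ * B ^ (p - 3 * n : ℝ) := by
    rw [← Real.rpow_natCast B p, ← Real.rpow_neg hB0.le, ← Real.rpow_add hB0]; congr 1; ring
  have e2 : T ^ (2 * n - 2 + ε) = T ^ (2 + ε) * T ^ (2 * n - 4 : ℝ) := by
    rw [← Real.rpow_add hT0]; congr 1; ring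
  have e3 : T ^ (2 * n - 4 : ℝ) * T ^ (1 - θ) = T ^ (2 * n - 3 - θ : ℝ) := by
    rw [← Real.rpow_add hT0]; congr 1; ring
  have e4 : B ^ (p - 3 * n : ℝ) * B ^ θ = B ^ (p - 3 * n + θ : ℝ) := by rw [← Real.rpow_add hB0]
  have e5 : T ^ (2 + κ + 2 * ε) = T ^ (2 + ε) * T ^ (κ + ε) := by
    rw [← Real.rpow_add hT0]; congr 1; ring
  calc C * (T ^ (2 * n - 2 + ε) * s ^ 3 * (B ^ (-(3 * n):ℝ) * (1 + T ^ (1 - θ) * B ^ θ)))
      = C * (T ^ (2 + ε) * s ^ 3 * (B ^ p)⁻¹ * (T ^ (2 * n - 4 : ℝ) * B ^ (p - 3 * n : ℝ) +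
          (T ^ (2 * n - 4 : ℝ) * T ^ (1 - θ)) * (B ^ (p - 3 * n : ℝ) * B ^ θ))) := by
        rw [e1, e2]; ring
    _ = C * (T ^ (2 + ε) * s ^ 3 * (B ^ p)⁻¹ * (T ^ (2 * n - 4 : ℝ) * B ^ (p - 3 * n : ℝ) +
          T ^ (2 * n - 3 - θ : ℝ) * B ^ (p - 3 * n + θ : ℝ))) := by rw [e3, e4]
    _ ≤ C * (T ^ (2 + ε) * s ^ 3 * (B ^ p)⁻¹ * (A * T ^ (κ + ε) + A * T ^ (κ + ε))) := by gcongr
    _ = _ := by rw [e5]; ring

lemma powB {T B β x y κ : ℝ} (hT : 1 ≤ T) (hB : 0 < B) (hx : (0 ≤ x ∧ B ≤ T ^ β) ∨ (x ≤ 0 ∧ T ^ β ≤ B))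
    (h : y + β * x ≤ κ) : T ^ y * B ^ x ≤ 1 * T ^ κ := by
  have hT0 : 0 < T := by linarith
  have hTβ : 0 < T ^ β := by positivity
  have h1 : B ^ x ≤ (T ^ β) ^ x := by
    rcases hx with ⟨h1, h2⟩ | ⟨h1, h2⟩
    · exact Real.rpow_le_rpow hB.le h2 h1
    · exact Real.rpow_le_rpow_of_nonpos hTβ h2 h1
  rw [one_mul]
  calc T ^ y * B ^ x ≤ T ^ y * (T ^ β) ^ x := by gcongr
    _ = T ^ (y + β * x) := by rw [← Real.rpow_mul hT0.le, ← Real.rpow_add hT0]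
    _ ≤ T ^ κ := Real.rpow_le_rpow_of_exponent_le hT h

/-- the same with a trivial upper bound for `B` -/
lemma powB' {T B x y κ : ℝ} (hT : 1 ≤ T) (hB : 0 < B) (hx : 0 ≤ x) (hx1 : x ≤ 1) (hBT : B ≤ 346 * T ^ 2)
    (h : y + 2 * x ≤ κ) : T ^ y * B ^ x ≤ 346 * T ^ κ := by
  have hT0 : 0 < T := by linarith
  have h1 : B ^ x ≤ 346 * T ^ (2 * x) := by
    calc B ^ x ≤ (346 * T ^ 2) ^ x := Real.rpow_le_rpow hB.le hBT hx
      _ = 346 ^ x * T ^ (2 * x) := by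
          rw [Real.mul_rpow (by norm_num) (by positivity), ← Real.rpow_natCast T 2, ← Real.rpow_mul hT0.le]
          push_cast; rfl
      _ ≤ 346 ^ (1:ℝ) * T ^ (2 * x) := by
          gcongr
          norm_num
      _ = _ := by rw [Real.rpow_one]
  calc T ^ y * B ^ x ≤ T ^ y * (346 * T ^ (2 * x)) := by gcongr
    _ = 346 * T ^ (y + 2 * x) := by rw [Real.rpow_add hT0]; ring
    _ ≤ 346 * T ^ κ := by
        gcongr

lemma tail2 : Tail 2 1 := tail_HE (m := 2) (θ := 1) le_rfl (by norm_num) (by norm_num) HE_two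

lemma tail3 {θ : ℝ} (h0 : 0 ≤ θ) (hθ : θ < 2) : Tail 3 θ :=
  tail_HE (m := 3) (θ := θ) (by norm_num) h0 (by norm_num; linarith) (HE_three hθ)

lemma HE_weaken {m : ℕ} {θ1 θ2 : ℝ} (h12 : θ2 ≤ θ1) (h : HE m θ1) : HE m θ2 := by
  intro ε hε
  obtain ⟨C, hC, h⟩ := h ε hε
  refine ⟨C, hC, ?_⟩
  intro K T hK hT
  refine (h K T hK hT).trans ?_
  have hK' : (1:ℝ) ≤ K := by exact_mod_cast hK
  have : (K:ℝ) ^ (-θ1) ≤ (K:ℝ) ^ (-θ2) := Real.rpow_le_rpow_of_exponent_le hK' (by linarith)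
  gcongr

/-- base case for eighth moments -/
theorem Kap_eight_base : Kap 8 3 := by
  apply Kap_of
  intro ε hε
  set δ := min (ε/2) (1/2) with hδ
  have hδ0 : 0 < δ := lt_min (by positivity) (by norm_num)
  have hδ1 : δ ≤ ε/2 := min_le_left _ _
  have hδ2 : δ ≤ 1/2 := min_le_right _ _
  obtain ⟨C, C2, hC, hC2, h⟩ := Tail_use (tail3 (θ := 2 - δ) (by linarith) (by linarith)) (ε := ε/2) (by positivity) 8 3 346 (by norm_num)
  refine ⟨C, C2, hC, hC2, ?_⟩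
  intro T s B hT hs hB hBT
  have hT0 : 0 < T := by linarith
  have hTε : 1 ≤ T ^ ε := Real.one_le_rpow hT hε.le
  have hmax1 : (1:ℝ) ≤ max 1 s := le_max_left _ _
  have hB1 : 1 ≤ B := by
    calc (1:ℝ) = 1 * (1 * 1) := by norm_num
      _ ≤ C2 * (T ^ ε * max 1 s) := by gcongr
      _ ≤ B := hB
  have hB0 : 0 < B := by linarith
  have hBB : C2 * (T ^ (ε/2) * max 1 s) ≤ B := by
    refine le_trans ?_ hB
    have : T ^ (ε/2) ≤ T ^ ε := Real.rpow_le_rpow_of_exponent_le hT (by linarith)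
    gcongr
  have := h T s B hT hs hBB (by
    have := powB (T := T) (B := B) (β := 0) (x := 8 - 3 * 3) (y := 2 * 3 - 4) (κ := 3 + ε/2) hT hB0 (Or.inr ⟨by norm_num, by rw [Real.rpow_zero]; exact hB1⟩) (by norm_num; linarith)
    push_cast
    have h2 : 0 < T ^ (3 + ε/2) := by positivity
    linarith) (by
    push_cast
    exact powB' hT hB0 (by linarith) (by linarith) hBT (by linarith))
  rw [show 2 + 3 + 2 * (ε/2) = 2 + 3 + ε by ring] at this
  exact this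

/-- exponent for eighth moments -/
theorem Kap_eight {θ : ℝ} (hθ1 : 1 ≤ θ) (hθ2 : θ ≤ 5/2) (h4 : HE 4 θ) : Kap 8 (1 + (4 - θ) / (5 - θ)) := by
  set b := (4 - θ) / (5 - θ) with hb
  have hb1 : b * (5 - θ) = 4 - θ := by rw [hb]; exact div_mul_cancel₀ _ (by linarith)
  have hb2 : 3/5 ≤ b := by rw [hb, div_le_div_iff₀ (by norm_num) (by linarith)]; linarith
  have hb3 : b ≤ 1 := by rw [hb, div_le_one (by linarith)]; linarith
  set κ := 1 + b with hκ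
  apply Kap_of
  intro ε hε
  set δ := min (ε/2) (1/2) with hδ
  have hδ0 : 0 < δ := lt_min (by positivity) (by norm_num)
  have hδ1 : δ ≤ ε/2 := min_le_left _ _
  have hδ2 : δ ≤ 1/2 := min_le_right _ _
  obtain ⟨C1, D1, hC1, hD1, h1⟩ := Tail_use tail2 (ε := ε/2) (by positivity) 8 κ 1 one_pos
  obtain ⟨C2, D2, hC2, hD2, h2⟩ := Tail_use (tail3 (θ := 2 - δ) (by linarith) (by linarith)) (ε := ε/2) (by positivity) 8 κ 1 one_pos
  obtain ⟨C3, D3, hC3, hD3, h3⟩ := Tail_use (tail_HE (m := 4) (θ := θ) (by norm_num) (by linarith) (by norm_num; linarith) h4)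
    (ε := ε/2) (by positivity) 8 κ 1 one_pos
  refine ⟨C1 + C2 + C3, D1 + D2 + D3, by positivity, by linarith, ?_⟩
  intro T s B hT hs hB hBT
  have hT0 : 0 < T := by linarith
  have hTε : 1 ≤ T ^ ε := Real.one_le_rpow hT hε.le
  have hmax1 : (1:ℝ) ≤ max 1 s := le_max_left _ _
  have hM : 1 ≤ T ^ ε * max 1 s := by nlinarith
  have hB1 : 1 ≤ B := by nlinarith
  have hB0 : 0 < B := by linarith
  have hBB : ∀ D, 0 ≤ D → D ≤ D1 + D2 + D3 → D * (T ^ (ε/2) * max 1 s) ≤ B := by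
    intro D hD0 hD
    refine le_trans ?_ hB
    have : T ^ (ε/2) ≤ T ^ ε := Real.rpow_le_rpow_of_exponent_le hT (by linarith)
    gcongr
  have hfin : ∀ C, C ≤ C1 + C2 + C3 → C * (T ^ (2 + κ + 2 * (ε/2)) * s ^ 3 * (B ^ 8)⁻¹) ≤
      (C1 + C2 + C3) * (T ^ (2 + κ + ε) * s ^ 3 * (B ^ 8)⁻¹) := by
    intro C hC
    rw [show 2 + κ + 2 * (ε/2) = 2 + κ + ε by ring]
    gcongr
  rcases le_total B (T ^ (κ/3)) with hc1 | hc1
  · refine (h1 T s B hT hs (hBB _ (by linarith) (by linarith)) ?_ ?_).trans (ENNReal.ofReal_le_ofReal (hfin C1 (by linarith)))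
    · exact powB hT hB0 (Or.inl ⟨by norm_num, hc1⟩) (by push_cast; linarith)
    · exact powB hT hB0 (Or.inl ⟨by norm_num, hc1⟩) (by push_cast; linarith)
  · rcases le_total B (T ^ b) with hc2 | hc2
    · refine (h2 T s B hT hs (hBB _ (by linarith) (by linarith)) ?_ ?_).trans (ENNReal.ofReal_le_ofReal (hfin C2 (by linarith)))
      · exact powB hT hB0 (Or.inr ⟨by norm_num, hc1⟩) (by push_cast; linarith)
      · exact powB hT hB0 (Or.inl ⟨by push_cast; linarith, hc2⟩) (by push_cast; nlinarith)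
    · refine (h3 T s B hT hs (hBB _ (by linarith) (by linarith)) ?_ ?_).trans (ENNReal.ofReal_le_ofReal (hfin C3 (by linarith)))
      · exact powB hT hB0 (Or.inr ⟨by norm_num, hc2⟩) (by push_cast; linarith)
      · exact powB hT hB0 (Or.inr ⟨by push_cast; linarith, hc2⟩) (by push_cast; linarith)

/-- iteration of a contraction -/
lemma iterate_HE {m : ℕ} {θ0 η0 : ℝ} (hη : 0 < η0) (hη1 : η0 ≤ 3/2) (base : HE m (θ0 - η0))
    (step : ∀ η : ℝ, 0 < η → η ≤ η0 → HE m (θ0 - η) → HE m (θ0 - η/2)) {θ : ℝ} (hθ : θ < θ0) : HE m θ := by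
  have h : ∀ n : ℕ, HE m (θ0 - η0 / 2 ^ n) := by
    intro n
    induction n with
    | zero => simpa using base
    | succ n ih =>
      have h2 : η0 / 2 ^ n ≤ η0 := div_le_self hη.le (one_le_pow₀ (by norm_num))
      have := step (η0 / 2 ^ n) (by positivity) h2 ih
      rwa [show η0 / 2 ^ n / 2 = η0 / 2 ^ (n+1) by rw [pow_succ]; field_simp] at this
  obtain ⟨n, hn⟩ : ∃ n : ℕ, η0 / (2:ℝ) ^ n ≤ θ0 - θ := by
    obtain ⟨n, hn⟩ := exists_nat_gt (2 / (θ0 - θ))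
    refine ⟨n, ?_⟩
    have h1 : (n:ℝ) < 2 ^ n := by exact_mod_cast Nat.lt_pow_self (by norm_num)
    rw [div_lt_iff₀ (by linarith)] at hn
    rw [div_le_iff₀ (by positivity)]
    nlinarith
  exact HE_weaken (by linarith) (h n)

/-- **Energies of order eight.** -/
theorem HE_four {θ : ℝ} (hθ : θ < 5/2) : HE 4 θ := by
  -- base case: exponent `4/3`
  have base : HE 4 (5/2 - 7/6) := by
    have := stepB_P (m := 3) (θ := 2 - 1/10) (κ := 3) (θ' := 4/3) (by norm_num) (by norm_num) (by norm_num)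
      (HE_three (by norm_num)) Kap_eight_base (by norm_num) (by norm_num) (by norm_num) (by norm_num) (by norm_num) (by norm_num)
    norm_num at this ⊢
    exact this
  apply iterate_HE (η0 := 7/6) (by norm_num) (by norm_num) base _ hθ
  intro η hη0 hη1 ih
  have hk := Kap_eight (θ := 5/2 - η) (by linarith) (by linarith) ih
  have e1 : 1 + (4 - (5/2 - η)) / (5 - (5/2 - η)) = (8 + 4 * η) / (5 + 2 * η) := by
    have q1 : (5:ℝ) + 2 * η ≠ 0 := by positivity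
    have q2 : 5 - (5/2 - η) = (5 + 2 * η) / 2 := by ring
    rw [q2]
    field_simp
    ring
  rw [e1] at hk
  set κ := (8 + 4 * η) / (5 + 2 * η) with hκ
  have hκ0 : 0 < κ := by positivity
  set δ := min η (1/2) with hδ
  have hδ0 : 0 < δ := lt_min hη0 (by norm_num)
  have hδ1 : δ ≤ η := min_le_left _ _
  have hδ2 : δ ≤ 1/2 := min_le_right _ _
  exact stepB_P (m := 3) (θ := 2 - δ) (κ := κ) (θ' := 5/2 - η/2) (by norm_num) (by linarith) (by push_cast; linarith)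
    (HE_three (by linarith)) hk (by linarith) (by linarith) (by linarith) (by linarith) (by push_cast; linarith) (by
      push_cast
      have e2 : (3:ℝ) - 3 + κ = (8 + 4 * η) / (5 + 2 * η) := by rw [hκ]; ring
      rw [e2, mul_div_assoc', div_le_iff₀ (by positivity)]
      nlinarith)

end Pool.Agent.H593.U
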