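import Mathlib
import Pool.Agent.H593.U6.Kap2

/-!
# Energies of order ten
-/

open MeasureTheory Set Filter Topology
open Pool.Agent.H383.Gauss
open scoped ENNReal

namespace Pool.Agent.H593.U

lemma tail4 {θ : ℝ} (h0 : 0 ≤ θ) (hθ : θ < 5/2) : Tail 4 θ :=
  tail_HE (m := 4) (θ := θ) (by norm_num) h0 (by norm_num; linarith) (HE_four hθ)

/-- base case for tenth moments -/
theorem Kap_ten_base : Kap 10 (7/2) := by
  apply Kap_of
  intro ε hε
  set δ := min (ε/2) (1/2) with hδ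
  have hδ0 : 0 < δ := lt_min (by positivity) (by norm_num)
  have hδ1 : δ ≤ ε/2 := min_le_left _ _
  have hδ2 : δ ≤ 1/2 := min_le_right _ _
  obtain ⟨C2, D2, hC2, hD2, h2⟩ := Tail_use (tail3 (θ := 2 - δ) (by linarith) (by linarith)) (ε := ε/2) (by positivity) 10 (7/2) 1 one_pos
  obtain ⟨C3, D3, hC3, hD3, h3⟩ := Tail_use (tail4 (θ := 5/2 - δ) (by linarith) (by linarith)) (ε := ε/2) (by positivity) 10 (7/2) 346 (by norm_num)
  refine ⟨C2 + C3, D2 + D3, by positivity, by linarith, ?_⟩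
  intro T s B hT hs hB hBT
  have hT0 : 0 < T := by linarith
  have hTε : 1 ≤ T ^ ε := Real.one_le_rpow hT hε.le
  have hmax1 : (1:ℝ) ≤ max 1 s := le_max_left _ _
  have hM : 1 ≤ T ^ ε * max 1 s := by nlinarith
  have hB1 : 1 ≤ B := by nlinarith
  have hB0 : 0 < B := by linarith
  have hBB : ∀ D, 0 ≤ D → D ≤ D2 + D3 → D * (T ^ (ε/2) * max 1 s) ≤ B := by
    intro D hD0 hD
    refine le_trans ?_ hB
    have : T ^ (ε/2) ≤ T ^ ε := Real.rpow_le_rpow_of_exponent_le hT (by linarith)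
    gcongr
  have hfin : ∀ C, C ≤ C2 + C3 → C * (T ^ (2 + 7/2 + 2 * (ε/2)) * s ^ 3 * (B ^ 10)⁻¹) ≤
      (C2 + C3) * (T ^ (2 + 7/2 + ε) * s ^ 3 * (B ^ 10)⁻¹) := by
    intro C hC
    rw [show 2 + 7/2 + 2 * (ε/2) = 2 + 7/2 + ε by ring]
    gcongr
  rcases le_total B (T ^ (5/6:ℝ)) with hc1 | hc1
  · refine (h2 T s B hT hs (hBB _ (by linarith) (by linarith)) ?_ ?_).trans (ENNReal.ofReal_le_ofReal (hfin C2 (by linarith)))
    · exact powB hT hB0 (Or.inl ⟨by norm_num, hc1⟩) (by push_cast; linarith)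
    · exact powB hT hB0 (Or.inl ⟨by push_cast; linarith, hc1⟩) (by push_cast; linarith)
  · refine (h3 T s B hT hs (hBB _ (by linarith) (by linarith)) ?_ ?_).trans (ENNReal.ofReal_le_ofReal (hfin C3 (by linarith)))
    · have := powB (T := T) (B := B) (x := ((10:ℕ):ℝ) - 3 * ((4:ℕ):ℝ)) (y := 2 * ((4:ℕ):ℝ) - 4) (κ := 7/2 + ε/2) hT hB0
        (Or.inr ⟨by norm_num, hc1⟩) (by push_cast; linarith)
      have h2 : 0 < T ^ (7/2 + ε/2) := by positivity
      linarith
    · exact powB' hT hB0 (by push_cast; linarith) (by push_cast; linarith) hBT (by push_cast; linarith)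

/-- exponent for tenth moments -/
theorem Kap_ten {θ : ℝ} (hθ1 : 1 ≤ θ) (hθ2 : θ ≤ 11/4) (h5 : HE 5 θ) : Kap 10 (5/2 + ((9 - 2 * θ) / (11 - 2 * θ)) / 2) := by
  set b := (9 - 2 * θ) / (11 - 2 * θ) with hb
  have hb1 : b * (11 - 2 * θ) = 9 - 2 * θ := by rw [hb]; exact div_mul_cancel₀ _ (by linarith)
  have hb2 : 7/11 ≤ b := by rw [hb, div_le_div_iff₀ (by norm_num) (by linarith)]; linarith
  have hb3 : b ≤ 1 := by rw [hb, div_le_one (by linarith)]; linarith
  set κ := 5/2 + b / 2 with hκ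
  apply Kap_of
  intro ε hε
  set δ := min (ε/2) (1/2) with hδ
  have hδ0 : 0 < δ := lt_min (by positivity) (by norm_num)
  have hδ1 : δ ≤ ε/2 := min_le_left _ _
  have hδ2 : δ ≤ 1/2 := min_le_right _ _
  obtain ⟨C1, D1, hC1, hD1, h1⟩ := Tail_use tail2 (ε := ε/2) (by positivity) 10 κ 1 one_pos
  obtain ⟨C2, D2, hC2, hD2, h2⟩ := Tail_use (tail3 (θ := 2 - δ) (by linarith) (by linarith)) (ε := ε/2) (by positivity) 10 κ 1 one_pos
  obtain ⟨C3, D3, hC3, hD3, h3⟩ := Tail_use (tail4 (θ := 5/2 - δ) (by linarith) (by linarith)) (ε := ε/2) (by positivity) 10 κ 1 one_pos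
  obtain ⟨C4, D4, hC4, hD4, h4⟩ := Tail_use (tail_HE (m := 5) (θ := θ) (by norm_num) (by linarith) (by norm_num; linarith) h5)
    (ε := ε/2) (by positivity) 10 κ 1 one_pos
  refine ⟨C1 + C2 + C3 + C4, D1 + D2 + D3 + D4, by positivity, by linarith, ?_⟩
  intro T s B hT hs hB hBT
  have hT0 : 0 < T := by linarith
  have hTε : 1 ≤ T ^ ε := Real.one_le_rpow hT hε.le
  have hmax1 : (1:ℝ) ≤ max 1 s := le_max_left _ _
  have hM : 1 ≤ T ^ ε * max 1 s := by nlinarith
  have hB1 : 1 ≤ B := by nlinarith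
  have hB0 : 0 < B := by linarith
  have hBB : ∀ D, 0 ≤ D → D ≤ D1 + D2 + D3 + D4 → D * (T ^ (ε/2) * max 1 s) ≤ B := by
    intro D hD0 hD
    refine le_trans ?_ hB
    have : T ^ (ε/2) ≤ T ^ ε := Real.rpow_le_rpow_of_exponent_le hT (by linarith)
    gcongr
  have hfin : ∀ C, C ≤ C1 + C2 + C3 + C4 → C * (T ^ (2 + κ + 2 * (ε/2)) * s ^ 3 * (B ^ 10)⁻¹) ≤
      (C1 + C2 + C3 + C4) * (T ^ (2 + κ + ε) * s ^ 3 * (B ^ 10)⁻¹) := by
    intro C hC
    rw [show 2 + κ + 2 * (ε/2) = 2 + κ + ε by ring]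
    gcongr
  rcases le_total B (T ^ (κ/5)) with hc1 | hc1
  · refine (h1 T s B hT hs (hBB _ (by linarith) (by linarith)) ?_ ?_).trans (ENNReal.ofReal_le_ofReal (hfin C1 (by linarith)))
    · exact powB hT hB0 (Or.inl ⟨by norm_num, hc1⟩) (by push_cast; linarith)
    · exact powB hT hB0 (Or.inl ⟨by norm_num, hc1⟩) (by push_cast; linarith)
  rcases le_total B (T ^ ((κ-1)/3)) with hc2 | hc2
  · refine (h2 T s B hT hs (hBB _ (by linarith) (by linarith)) ?_ ?_).trans (ENNReal.ofReal_le_ofReal (hfin C2 (by linarith)))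
    · exact powB hT hB0 (Or.inl ⟨by norm_num, hc2⟩) (by push_cast; linarith)
    · exact powB hT hB0 (Or.inl ⟨by push_cast; linarith, hc2⟩) (by push_cast; nlinarith)
  rcases le_total B (T ^ b) with hc3 | hc3
  · refine (h3 T s B hT hs (hBB _ (by linarith) (by linarith)) ?_ ?_).trans (ENNReal.ofReal_le_ofReal (hfin C3 (by linarith)))
    · exact powB hT hB0 (Or.inr ⟨by norm_num, hc2⟩) (by push_cast; linarith)
    · exact powB hT hB0 (Or.inl ⟨by push_cast; linarith, hc3⟩) (by push_cast; nlinarith)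
  · refine (h4 T s B hT hs (hBB _ (by linarith) (by linarith)) ?_ ?_).trans (ENNReal.ofReal_le_ofReal (hfin C4 (by linarith)))
    · exact powB hT hB0 (Or.inr ⟨by norm_num, hc3⟩) (by push_cast; linarith)
    · exact powB hT hB0 (Or.inr ⟨by push_cast; linarith, hc3⟩) (by push_cast; linarith)

/-- **Energies of order ten.** -/
theorem HE_five {θ : ℝ} (hθ : θ < 11/4) : HE 5 θ := by
  -- base case: exponent `2`
  have base : HE 5 (11/4 - 3/4) := by
    have := stepB_P (m := 4) (θ := 5/2 - 1/10) (κ := 7/2) (θ' := 2) (by norm_num) (by norm_num) (by norm_num)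
      (HE_four (by norm_num)) Kap_ten_base (by norm_num) (by norm_num) (by norm_num) (by norm_num) (by norm_num) (by norm_num)
    norm_num at this ⊢
    exact this
  apply iterate_HE (η0 := 3/4) (by norm_num) (by norm_num) base _ hθ
  intro η hη0 hη1 ih
  have hk := Kap_ten (θ := 11/4 - η) (by linarith) (by linarith) ih
  have e1 : 5/2 + ((9 - 2 * (11/4 - η)) / (11 - 2 * (11/4 - η))) / 2 = (31 + 12 * η) / (11 + 4 * η) := by
    have q1 : (11:ℝ) + 4 * η ≠ 0 := by positivity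
    have q2 : 11 - 2 * (11/4 - η) = (11 + 4 * η) / 2 := by ring
    rw [q2]
    field_simp
    ring
  rw [e1] at hk
  set κ := (31 + 12 * η) / (11 + 4 * η) with hκ
  have hκ1 : 1 ≤ κ := by rw [hκ, one_le_div (by positivity)]; linarith
  set δ := min η (1/2) with hδ
  have hδ0 : 0 < δ := lt_min hη0 (by norm_num)
  have hδ1 : δ ≤ η := min_le_left _ _
  have hδ2 : δ ≤ 1/2 := min_le_right _ _
  exact stepB_P (m := 4) (θ := 5/2 - δ) (κ := κ) (θ' := 11/4 - η/2) (by norm_num) (by linarith) (by push_cast; linarith)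
    (HE_four (by linarith)) hk (by linarith) (by linarith) (by linarith) (by linarith) (by push_cast; linarith) (by
      push_cast
      have e2 : (3:ℝ) - 4 + κ = (20 + 8 * η) / (11 + 4 * η) := by rw [hκ]; field_simp; ring
      rw [e2, mul_div_assoc', div_le_iff₀ (by positivity)]
      nlinarith)

end Pool.Agent.H593.U
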