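import Mathlib
import Pool.Agent.H593.U6.Kap3
import Pool.Agent.H593.U.Fin2

/-!
# The supremum over the radius of a dyadic block
-/

open MeasureTheory Set Filter Topology
open Pool.Agent.H383.Gauss
open scoped ENNReal

namespace Pool.Agent.H593.U

/-- derivative of the exponential sum in the radius -/
lemma hasDeriv_S (B : Finset (ℤ × ℤ)) (b : ℤ × ℤ → ℝ) (a : ℝ × ℝ) (t : ℝ) :
    HasDerivAt (fun t => S B b a t) ((2 * Real.pi * Complex.I : ℂ) * S B (fun k => b k * nz k) a t) t := by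
  have h1 : ∀ k ∈ B, HasDerivAt (fun t : ℝ => (b k : ℂ) * ex (dp k a + t * nz k))
      ((b k : ℂ) * (ex (dp k a + t * nz k) * (((2 * Real.pi * nz k : ℝ) : ℂ) * Complex.I))) t := by
    intro k _
    apply HasDerivAt.const_mul
    unfold ex
    apply HasDerivAt.cexp
    apply HasDerivAt.mul_const
    have h3 : HasDerivAt (fun t : ℝ => 2 * Real.pi * (dp k a + t * nz k)) (2 * Real.pi * nz k) t := by
      have := ((hasDerivAt_id t).mul_const (nz k)).const_add (dp k a)
      have := this.const_mul (2 * Real.pi)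
      simpa using this
    exact h3.ofReal_comp
  have h2 := HasDerivAt.fun_sum h1
  have e : (2 * Real.pi * Complex.I : ℂ) * S B (fun k => b k * nz k) a t =
      ∑ k ∈ B, (b k : ℂ) * (ex (dp k a + t * nz k) * (((2 * Real.pi * nz k : ℝ) : ℂ) * Complex.I)) := by
    unfold S
    rw [Finset.mul_sum]
    apply Finset.sum_congr rfl
    intro k _
    push_cast
    ring
  rw [e]
  exact h2

lemma continuous_S_right (B : Finset (ℤ × ℤ)) (b : ℤ × ℤ → ℝ) (a : ℝ × ℝ) : Continuous (fun t => S B b a t) := by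
  unfold S dp
  have := continuous_ex
  fun_prop

/-- one-dimensional Sobolev inequality -/
lemma sobolev {f f' : ℝ → ℂ} (hf : ∀ t, HasDerivAt f (f' t) t) (hf' : Continuous f') {R h A B : ℝ} (hh : 0 < h)
    (hA : A ≤ R) (hB : R + h ≤ B) (p : ℕ) :
    ‖f R‖ ^ p ≤ (1 / h) * (2 ^ (p - 1) * ∫ s in Icc A B, (‖f s‖ ^ p + h ^ p * ‖f' s‖ ^ p)) := by
  have hfc : Continuous f := continuous_iff_continuousAt.mpr (fun t => (hf t).continuousAt)
  set G : ℝ → ℝ := fun s => ‖f s‖ + h * ‖f' s‖ with hG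
  have hGc : Continuous G := by simp only [hG]; fun_prop
  have hG0 : ∀ s, 0 ≤ G s := fun s => by simp only [hG]; positivity
  set I := Icc R (R + h) with hI
  have hvol : volume I = ENNReal.ofReal h := by rw [hI, Real.volume_Icc]; congr 1; ring
  have hreal : volume.real I = h := by rw [measureReal_def, hvol, ENNReal.toReal_ofReal hh.le]
  -- value at one point
  have h1 : ‖f R‖ ≤ ⨍ s in I, G s := by
    have k1 : ∀ s ∈ I, ‖f R‖ ≤ ‖f s‖ + ∫ u in I, ‖f' u‖ := by
      intro s hs
      have k2 : ∫ u in R..s, f' u = f s - f R :=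
        intervalIntegral.integral_eq_sub_of_hasDerivAt (fun x _ => hf x) (hf'.intervalIntegrable _ _)
      have k3 : f R = f s - ∫ u in R..s, f' u := by rw [k2]; ring
      rw [k3]
      refine (norm_sub_le _ _).trans ?_
      gcongr
      refine (intervalIntegral.norm_integral_le_integral_norm hs.1).trans ?_
      rw [intervalIntegral.integral_of_le hs.1, ← integral_Icc_eq_integral_Ioc]
      apply setIntegral_mono_set
      · exact hf'.norm.continuousOn.integrableOn_Icc
      · exact Eventually.of_forall fun x => norm_nonneg _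
      · exact (Icc_subset_Icc le_rfl hs.2).eventuallyLE
    have k4 : h * ‖f R‖ ≤ ∫ s in I, G s := by
      have k5 : ∫ _s in I, ‖f R‖ = h * ‖f R‖ := by
        rw [setIntegral_const, hreal, smul_eq_mul]
      rw [← k5]
      have k6 : ∫ s in I, (‖f s‖ + ∫ u in I, ‖f' u‖) = ∫ s in I, G s := by
        simp only [hG]
        rw [integral_add hfc.norm.continuousOn.integrableOn_Icc (by
            rw [← IntegrableOn]
            exact integrableOn_const (by rw [hvol]; exact ENNReal.ofReal_ne_top)),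
          integral_add hfc.norm.continuousOn.integrableOn_Icc (hf'.norm.continuousOn.integrableOn_Icc.const_mul h),
          setIntegral_const, hreal, smul_eq_mul, integral_const_mul]
      rw [← k6]
      apply setIntegral_mono_on
      · exact integrableOn_const (by rw [hvol]; exact ENNReal.ofReal_ne_top)
      · have : IntegrableOn (fun s => ‖f s‖ + ∫ u in I, ‖f' u‖) I := by
          have hc : Continuous (fun s => ‖f s‖ + ∫ u in I, ‖f' u‖) := by fun_prop
          exact hc.continuousOn.integrableOn_Icc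
        exact this
      · exact measurableSet_Icc
      · intro s hs
        exact k1 s hs
    rw [setAverage_eq, hreal, smul_eq_mul, inv_mul_eq_div, le_div_iff₀ hh]
    linarith
  have h2 : (⨍ s in I, G s) ^ p ≤ ⨍ s in I, G s ^ p := by
    have := ConvexOn.map_set_average_le (g := fun x : ℝ => x ^ p) (s := Ici 0) (f := G) (t := I) (μ := volume)
      (convexOn_pow p) (continuous_pow p).continuousOn isClosed_Ici
      (by rw [hvol]; simp [hh]) (by rw [hvol]; exact ENNReal.ofReal_ne_top)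
      (Eventually.of_forall fun s => hG0 s) hGc.continuousOn.integrableOn_Icc
      ((hGc.pow p).continuousOn.integrableOn_Icc)
    exact this
  have h3 : ⨍ s in I, G s ^ p = (1 / h) * ∫ s in I, G s ^ p := by
    rw [setAverage_eq, hreal, smul_eq_mul, one_div]
  have h4 : ∫ s in I, G s ^ p ≤ ∫ s in Icc A B, G s ^ p := by
    apply setIntegral_mono_set
    · exact (hGc.pow p).continuousOn.integrableOn_Icc
    · exact Eventually.of_forall fun s => pow_nonneg (hG0 s) p
    · exact (Icc_subset_Icc hA hB).eventuallyLE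
  have h5 : ∫ s in Icc A B, G s ^ p ≤ 2 ^ (p - 1) * ∫ s in Icc A B, (‖f s‖ ^ p + h ^ p * ‖f' s‖ ^ p) := by
    rw [← integral_const_mul]
    apply setIntegral_mono_on
    · exact (hGc.pow p).continuousOn.integrableOn_Icc
    · have hc : Continuous (fun s => 2 ^ (p - 1) * (‖f s‖ ^ p + h ^ p * ‖f' s‖ ^ p)) := by fun_prop
      exact hc.continuousOn.integrableOn_Icc
    · exact measurableSet_Icc
    · intro s _
      simp only [hG]
      rw [← mul_pow h]
      exact add_pow_le (norm_nonneg _) (by positivity) p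
  calc ‖f R‖ ^ p ≤ (⨍ s in I, G s) ^ p := by gcongr
    _ ≤ (1 / h) * ∫ s in I, G s ^ p := h2.trans (le_of_eq h3)
    _ ≤ (1 / h) * (2 ^ (p - 1) * ∫ s in Icc A B, (‖f s‖ ^ p + h ^ p * ‖f' s‖ ^ p)) := by
        gcongr
        exact h4.trans h5

/-- majorant for the Sobolev inequality -/
noncomputable def FF (B : Finset (ℤ × ℤ)) (b b' : ℤ × ℤ → ℝ) (p : ℕ) (c : ℝ) (a : ℝ × ℝ) (t : ℝ) : ℝ≥0∞ :=
  ENNReal.ofReal (‖S B b a t‖ ^ p) + ENNReal.ofReal c * ENNReal.ofReal (‖S B b' a t‖ ^ p)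

lemma measurable_FF (B : Finset (ℤ × ℤ)) (b b' : ℤ × ℤ → ℝ) (p : ℕ) (c : ℝ) :
    Measurable (fun q : (ℝ × ℝ) × ℝ => FF B b b' p c q.1 q.2) := by
  have h1 : Measurable (fun q : (ℝ × ℝ) × ℝ => ENNReal.ofReal (‖S B b q.1 q.2‖ ^ p)) :=
    ((continuous_S B b).norm.pow p).measurable.ennreal_ofReal
  have h2 : Measurable (fun q : (ℝ × ℝ) × ℝ => ENNReal.ofReal (‖S B b' q.1 q.2‖ ^ p)) :=
    ((continuous_S B b').norm.pow p).measurable.ennreal_ofReal
  exact h1.add (h2.const_mul _)

lemma measurable_FF_left (B : Finset (ℤ × ℤ)) (b : ℤ × ℤ → ℝ) (p : ℕ) (t : ℝ) :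
    Measurable (fun a : ℝ × ℝ => ENNReal.ofReal (‖S B b a t‖ ^ p)) :=
  ((continuous_S_left B b t).norm.pow p).measurable.ennreal_ofReal

/-- the centres for which a block is large at some radius of a window -/
def EB (Y j : ℕ) (δ A L lam : ℝ) : Set (ℝ × ℝ) :=
  {a | a ∈ Q ∧ ∃ R : ℝ, A ≤ R ∧ R ≤ A + L ∧ lam < ‖S (sh Y j) (bw δ) a R‖}

/-- area of the set of centres for which a block is large -/
theorem shell_area {m : ℕ} {θ : ℝ} (hm : 1 ≤ m) (hθ : 0 ≤ θ) (h : HE m θ) {ε : ℝ} (hε : 0 < ε) :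
    ∃ C : ℝ, 0 < C ∧ ∀ (Y j : ℕ) (δ A L lam : ℝ), 0 < δ → 0 ≤ L → 0 < lam →
    volume (EB Y j δ A L lam) ≤ ENNReal.ofReal (C * ((lam ^ (2 * m))⁻¹ * (2 ^ j *
      ((((2:ℝ)^j) ^ (-(3/2):ℝ) * min 1 ((δ * 2 ^ j) ^ (-(3/2):ℝ))) ^ (2 * m) *
        (((2:ℝ) ^ j) ^ (4 * m - 3 + ε) * (1 + (L + 1) * ((2:ℝ) ^ j) ^ (-θ))))))) := by
  obtain ⟨C, hC, hsh⟩ := gauss_shellP hm hθ h hε
  refine ⟨2 ^ (2 * m - 1) * (Real.exp Real.pi * C * (1 + (4 * Real.pi) ^ (2 * m))), by positivity, ?_⟩
  intro Y j δ A L lam hδ hL hlam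
  set x : ℝ := 2 ^ j with hx
  have hx1 : 1 ≤ x := one_le_pow₀ (by norm_num)
  have hx0 : 0 < x := by linarith
  set p := 2 * m with hp
  set c := x ^ (-(3/2):ℝ) * min 1 ((δ * x) ^ (-(3/2):ℝ)) with hc
  have hc0 : 0 ≤ c := by
    have : 0 ≤ min 1 ((δ * x) ^ (-(3/2):ℝ)) := le_min zero_le_one (by positivity)
    positivity
  set b := bw δ with hb
  set b' : ℤ × ℤ → ℝ := fun k => b k * nz k with hb'
  have hbc : ∀ k ∈ sh Y j, |b k| ≤ c := fun k hk => bw_shell hδ hk
  have hb'c : ∀ k ∈ sh Y j, |b' k| ≤ 2 * x * c := by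
    intro k hk
    have h1 := hbc k hk
    unfold sh at hk
    rw [Finset.mem_filter] at hk
    have h2 := lt_lg k
    rw [hk.2, pow_succ] at h2
    simp only [hb']
    rw [abs_mul, abs_of_nonneg (nz_nonneg k)]
    calc |b k| * nz k ≤ c * (2 ^ j * 2) := by
          have := nz_nonneg k
          gcongr
      _ = 2 * x * c := by rw [hx]; ring
  set E := x ^ (4 * m - 3 + ε) * (1 + (L + 1) * x ^ (-θ)) with hE
  have hE0 : 0 ≤ E := by positivity
  set I := Icc A (A + (L + 1)) with hI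
  have hIl : ∀ t ∈ I, |t - A| ≤ L + 1 := by
    intro t ht
    rw [abs_of_nonneg (by linarith [ht.1])]
    linarith [ht.2]
  have hL1 : 0 < L + 1 := by linarith
  -- integrals
  have i1 : ∫⁻ t in I, ENNReal.ofReal (MP m (sh Y j) b t) ≤ ENNReal.ofReal (Real.exp Real.pi * C * (c ^ p * E)) := by
    refine (lint_MP_le hL1 A m (sh Y j) b hIl measurableSet_Icc).trans (ENNReal.ofReal_le_ofReal ?_)
    calc _ ≤ Real.exp Real.pi * (C * (c ^ p * E)) := by
          gcongr
          exact hsh Y j b c A (L + 1) hL1 hbc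
      _ = _ := by ring
  have i2 : ∫⁻ t in I, ENNReal.ofReal (MP m (sh Y j) b' t) ≤
      ENNReal.ofReal (Real.exp Real.pi * C * ((2 * x * c) ^ p * E)) := by
    refine (lint_MP_le hL1 A m (sh Y j) b' hIl measurableSet_Icc).trans (ENNReal.ofReal_le_ofReal ?_)
    calc _ ≤ Real.exp Real.pi * (C * ((2 * x * c) ^ p * E)) := by
          gcongr
          exact hsh Y j b' (2 * x * c) A (L + 1) hL1 hb'c
      _ = _ := by ring
  -- pointwise majorant
  obtain ⟨F, hF⟩ : ∃ F : (ℝ × ℝ) → ℝ → ℝ≥0∞, F = FF (sh Y j) b b' p ((2 * Real.pi / x) ^ p) := ⟨_, rfl⟩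
  have hpt : ∀ a ∈ EB Y j δ A L lam, ENNReal.ofReal (lam ^ p) ≤ ENNReal.ofReal (x * 2 ^ (p - 1)) * ∫⁻ t in I, F a t := by
    intro a ha
    obtain ⟨haQ, R, hR1, hR2, hR3⟩ := ha
    have k1 := sobolev (f := fun t => S (sh Y j) b a t)
      (f' := fun t => (2 * Real.pi * Complex.I : ℂ) * S (sh Y j) b' a t)
      (fun t => hasDeriv_S (sh Y j) b a t) (continuous_const.mul (continuous_S_right (sh Y j) b' a)) (R := R) (h := 1/x) (A := A) (B := A + (L + 1)) (by positivity) hR1 (by
        have : 1/x ≤ 1 := by rw [div_le_one hx0]; exact hx1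
        linarith) p
    have hcS := continuous_S_right (sh Y j) b a
    have hcS' := continuous_S_right (sh Y j) b' a
    have k2 : ∀ s : ℝ, ‖S (sh Y j) b a s‖ ^ p + (1/x) ^ p * ‖(2 * Real.pi * Complex.I : ℂ) * S (sh Y j) b' a s‖ ^ p =
        ‖S (sh Y j) b a s‖ ^ p + (2 * Real.pi / x) ^ p * ‖S (sh Y j) b' a s‖ ^ p := by
      intro s
      rw [norm_mul, norm_mul, norm_mul, Complex.norm_I, Complex.norm_ofNat, Complex.norm_real,
        Real.norm_of_nonneg Real.pi_pos.le, mul_one, ← mul_pow, ← mul_pow]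
      congr 2
      ring
    simp only [k2] at k1
    have hci : Continuous (fun s => ‖S (sh Y j) b a s‖ ^ p + (2 * Real.pi / x) ^ p * ‖S (sh Y j) b' a s‖ ^ p) := by
      fun_prop
    have k3 : ENNReal.ofReal (∫ s in I, (‖S (sh Y j) b a s‖ ^ p + (2 * Real.pi / x) ^ p * ‖S (sh Y j) b' a s‖ ^ p)) =
        ∫⁻ t in I, F a t := by
      rw [ofReal_integral_eq_lintegral_ofReal hci.continuousOn.integrableOn_Icc
        (Eventually.of_forall fun s => by have := Real.pi_pos; positivity)]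
      congr 1
      ext s
      rw [hF]
      unfold FF
      have := Real.pi_pos
      rw [ENNReal.ofReal_add (by positivity) (by positivity), ENNReal.ofReal_mul (by positivity)]
    have hlp : lam ^ p ≤ ‖S (sh Y j) b a R‖ ^ p := by gcongr
    rw [← k3, ← ENNReal.ofReal_mul (by positivity)]
    apply ENNReal.ofReal_le_ofReal
    refine hlp.trans (k1.trans (le_of_eq ?_))
    rw [one_div_one_div]
    ring
  -- measurability
  have hFm : Measurable (fun q : (ℝ × ℝ) × ℝ => F q.1 q.2) := by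
    rw [hF]
    exact measurable_FF _ _ _ _ _
  have hGm : Measurable (fun a : ℝ × ℝ => ∫⁻ t in I, F a t) := hFm.lintegral_prod_right'
  -- Markov
  have hmark : ENNReal.ofReal (lam ^ p) * volume (EB Y j δ A L lam) ≤
      ENNReal.ofReal (x * 2 ^ (p - 1)) * ∫⁻ a in Q, ∫⁻ t in I, F a t := by
    rw [← lintegral_const_mul _ hGm]
    set T : Set (ℝ × ℝ) := {a | ENNReal.ofReal (lam ^ p) ≤ ENNReal.ofReal (x * 2 ^ (p - 1)) * ∫⁻ t in I, F a t} with hT
    have hTm : MeasurableSet T := measurableSet_le measurable_const (hGm.const_mul _)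
    have hsub : EB Y j δ A L lam ⊆ T ∩ Q := fun a ha => ⟨hpt a ha, ha.1⟩
    calc ENNReal.ofReal (lam ^ p) * volume (EB Y j δ A L lam) ≤ ENNReal.ofReal (lam ^ p) * volume (T ∩ Q) := by
          gcongr
      _ = ENNReal.ofReal (lam ^ p) * (volume.restrict Q) T := by rw [Measure.restrict_apply hTm]
      _ ≤ _ := mul_meas_ge_le_lintegral (hGm.const_mul _) _
  have hswap : ∫⁻ a in Q, ∫⁻ t in I, F a t = ∫⁻ t in I, ∫⁻ a in Q, F a t := by
    apply lintegral_lintegral_swap
    exact hFm.aemeasurable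
  have hint : ∫⁻ t in I, ∫⁻ a in Q, F a t ≤ ENNReal.ofReal (Real.exp Real.pi * C * (1 + (4 * Real.pi) ^ p) * (c ^ p * E)) := by
    have e1 : ∀ t, ∫⁻ a in Q, F a t = ENNReal.ofReal (MP m (sh Y j) b t) +
        ENNReal.ofReal ((2 * Real.pi / x) ^ p) * ENNReal.ofReal (MP m (sh Y j) b' t) := by
      intro t
      rw [hF]
      unfold FF
      rw [lintegral_add_left (measurable_FF_left _ _ _ _), lintegral_const_mul' _ _ ENNReal.ofReal_ne_top, hp,
        lint_S_pow, lint_S_pow]
    simp_rw [e1]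
    rw [lintegral_add_left ((continuous_MP m (sh Y j) b).measurable.ennreal_ofReal),
      lintegral_const_mul' _ _ ENNReal.ofReal_ne_top]
    have hpi := Real.pi_pos
    calc (∫⁻ t in I, ENNReal.ofReal (MP m (sh Y j) b t)) + ENNReal.ofReal ((2 * Real.pi / x) ^ p) *
          ∫⁻ t in I, ENNReal.ofReal (MP m (sh Y j) b' t)
        ≤ ENNReal.ofReal (Real.exp Real.pi * C * (c ^ p * E)) + ENNReal.ofReal ((2 * Real.pi / x) ^ p) *
          ENNReal.ofReal (Real.exp Real.pi * C * ((2 * x * c) ^ p * E)) := by gcongr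
      _ = ENNReal.ofReal (Real.exp Real.pi * C * (c ^ p * E) + (2 * Real.pi / x) ^ p * (Real.exp Real.pi * C * ((2 * x * c) ^ p * E))) := by
          rw [ENNReal.ofReal_add (by positivity) (by positivity), ENNReal.ofReal_mul (p := (2 * Real.pi / x) ^ p) (by positivity)]
      _ = _ := by
          congr 1
          have e2 : (2 * Real.pi / x) ^ p * (2 * x * c) ^ p = (4 * Real.pi) ^ p * c ^ p := by
            rw [← mul_pow, ← mul_pow]; congr 1; field_simp; ring
          linear_combination (Real.exp Real.pi * C * E) * e2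
  have hlam0 : 0 < lam ^ p := by positivity
  calc volume (EB Y j δ A L lam) = ENNReal.ofReal ((lam ^ p)⁻¹) * (ENNReal.ofReal (lam ^ p) * volume (EB Y j δ A L lam)) := by
        rw [← mul_assoc, ← ENNReal.ofReal_mul (by positivity), inv_mul_cancel₀ hlam0.ne', ENNReal.ofReal_one, one_mul]
    _ ≤ ENNReal.ofReal ((lam ^ p)⁻¹) * (ENNReal.ofReal (x * 2 ^ (p - 1)) *
          ENNReal.ofReal (Real.exp Real.pi * C * (1 + (4 * Real.pi) ^ p) * (c ^ p * E))) := by
        refine mul_le_mul' le_rfl (hmark.trans (mul_le_mul' le_rfl ?_))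
        rw [hswap]
        exact hint
    _ = _ := by
        rw [← ENNReal.ofReal_mul (by positivity), ← ENNReal.ofReal_mul (by positivity)]
        congr 1
        ring

end Pool.Agent.H593.U
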