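import Mathlib
import Pool.Agent.H593.U6.F1

/-!
# The set of bad centres
-/

open MeasureTheory Set Filter Topology
open Pool.Agent.H383.Gauss
open scoped ENNReal

namespace Pool.Agent.H593.U

/-- a large error term gives a large block -/
theorem Pa_bad : ∃ C0 : ℝ, 64 ≤ C0 ∧ ∀ (X V R : ℝ) (J : ℕ) (a : ℝ × ℝ), C0 ≤ X → 1 ≤ V → V ≤ √X → X ≤ R → R ≤ 2 * X →
    ⌈(4 * X) ^ 3⌉₊ < 2 ^ J → V * √R < |Pa a R| →
    ∃ j ∈ Finset.range J, ∃ R' : ℝ, R - 1 ≤ R' ∧ R' ≤ R + 1 ∧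
      V / (16 * J) < ‖S (sh ⌈(4 * X) ^ 3⌉₊ j) (bw (V / (64 * √X))) a R'‖ := by
  obtain ⟨C1, hC1, h1⟩ := Wa_sub_Va
  refine ⟨(10 * (4 + 1028 * C1)) ^ 2 + 64, by nlinarith [sq_nonneg (10 * (4 + 1028 * C1))], ?_⟩
  intro X V R J a hX hV hVX hXR hRX hJ hbad
  set δ := V / (64 * √X) with hδ
  set Y := ⌈(4 * X) ^ 3⌉₊ with hY
  have hX64 : 64 ≤ X := by nlinarith [sq_nonneg (10 * (4 + 1028 * C1))]
  have hX0 : 0 < X := by linarith
  have hX1 : 1 ≤ X := by linarith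
  have hsX : 10 * (4 + 1028 * C1) ≤ √X := Real.le_sqrt_of_sq_le (by linarith)
  have hsq : √X * √X = X := Real.mul_self_sqrt hX0.le
  have hsq1 : 1 ≤ √X := Real.one_le_sqrt.mpr hX1
  have hsq0 : 0 < √X := by linarith
  have hV0 : 0 < V := by linarith
  have hδ0 : 0 < δ := by positivity
  have hδ1 : δ ≤ 1 := by
    rw [hδ, div_le_one (by positivity)]; linarith
  have hδlow : 1 / (64 * √X) ≤ δ := by rw [hδ]; gcongr
  have hXδ : X * δ = V * √X / 64 := by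
    rw [hδ]
    nth_rewrite 1 [← hsq]
    field_simp
  have hpi := Real.pi_gt_three
  have hpi2 := Real.pi_lt_d2
  have hY1 : (1:ℝ) ≤ Y := by
    have : (4 * X) ^ 3 ≤ Y := Nat.le_ceil _
    have h2 : 1 ≤ (4 * X) ^ 3 := one_le_pow₀ (by linarith)
    linarith
  have hY1' : 1 ≤ Y := by exact_mod_cast hY1
  -- error of truncation
  have e1 : δ ^ (-(3/2):ℝ) * (Y:ℝ) ^ (-(9/10):ℝ) ≤ 512/X := by
    have a1 : δ ^ (-(3/2):ℝ) ≤ 512 * X ^ (3/4:ℝ) := by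
      calc δ ^ (-(3/2):ℝ) ≤ (1 / (64 * √X)) ^ (-(3/2):ℝ) :=
            Real.rpow_le_rpow_of_nonpos (by positivity) hδlow (by norm_num)
        _ = (64 * √X) ^ (3/2:ℝ) := by
            rw [one_div, Real.inv_rpow (by positivity), ← Real.rpow_neg (by positivity)]; norm_num
        _ = 512 * X ^ (3/4:ℝ) := by
            rw [Real.mul_rpow (by norm_num) hsq0.le, Real.sqrt_eq_rpow, ← Real.rpow_mul hX0.le]
            congr 1
            · rw [show (64:ℝ) = 8 ^ (2:ℝ) by norm_num, ← Real.rpow_mul (by norm_num)]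
              rw [show (2:ℝ) * (3/2) = ((3:ℕ):ℝ) by norm_num, Real.rpow_natCast]; norm_num
            · norm_num
    have a2 : (Y:ℝ) ^ (-(9/10):ℝ) ≤ X ^ (-(27/10):ℝ) := by
      have this0 : X ^ 3 ≤ (4 * X) ^ 3 := by gcongr; linarith
      have this1 : (4 * X) ^ 3 ≤ (Y:ℝ) := Nat.le_ceil _
      have : X ^ 3 ≤ (Y:ℝ) := this0.trans this1
      calc (Y:ℝ) ^ (-(9/10):ℝ) ≤ (X^3) ^ (-(9/10):ℝ) :=
            Real.rpow_le_rpow_of_nonpos (by positivity) this (by norm_num)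
        _ = X ^ (-(27/10):ℝ) := by
            rw [← Real.rpow_natCast, ← Real.rpow_mul hX0.le]; norm_num
    calc δ ^ (-(3/2):ℝ) * (Y:ℝ) ^ (-(9/10):ℝ) ≤ (512 * X ^ (3/4:ℝ)) * X ^ (-(27/10):ℝ) := by gcongr
      _ = 512 * X ^ (-(39/20):ℝ) := by rw [mul_assoc, ← Real.rpow_add hX0]; norm_num
      _ ≤ 512 * X ^ (-1:ℝ) := by
          gcongr
          norm_num
      _ = 512/X := by rw [Real.rpow_neg_one]; ring
  -- bound of W at a point
  have hW : ∀ R' : ℝ, X/2 ≤ R' → R' ≤ 4 * X → √R' * |Wa R' δ a| ≤ 2 * √X * ‖S (B0 Y) (bw δ) a R'‖ + 1028 * C1 := by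
    intro R' h3 h4
    have hR0 : 0 < R' := by linarith
    have k1 := h1 R' δ Y a hR0 hδ0 hY1'
    have k2 := abs_Va_le R' δ Y a
    have k3 : |Wa R' δ a| ≤ ‖S (B0 Y) (bw δ) a R'‖ + C1 * (514/X) := by
      have : |Wa R' δ a| ≤ |Wa R' δ a - Va R' δ Y a| + |Va R' δ Y a| := by
        have := abs_add_le (Wa R' δ a - Va R' δ Y a) (Va R' δ Y a)
        rwa [sub_add_cancel] at this
      have k4 : C1 * (1/R' + δ ^ (-(3/2):ℝ) * (Y:ℝ) ^ (-(9/10):ℝ)) ≤ C1 * (514/X) := by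
        gcongr
        have : 1/R' ≤ 2/X := by rw [div_le_div_iff₀ hR0 hX0]; linarith
        calc _ ≤ 2/X + 512/X := by linarith
          _ = 514/X := by ring
      linarith
    have k5 : √R' ≤ 2 * √X := by
      rw [Real.sqrt_le_left (by positivity)]
      nlinarith
    calc √R' * |Wa R' δ a| ≤ (2 * √X) * (‖S (B0 Y) (bw δ) a R'‖ + C1 * (514/X)) := by gcongr
      _ = 2 * √X * ‖S (B0 Y) (bw δ) a R'‖ + 1028 * C1 * (√X / X) := by ring
      _ ≤ 2 * √X * ‖S (B0 Y) (bw δ) a R'‖ + 1028 * C1 * 1 := by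
          gcongr
          rw [div_le_one hX0]; nlinarith
      _ ≤ _ := by linarith
  have k1 := Na_le_W a (R := R) (δ := δ) (by linarith) hδ0
  have k2 := le_Na_W a (R := R) (δ := δ) hδ0 (by linarith)
  have w1 := hW (R + δ) (by linarith) (by linarith)
  have w2 := hW (R - δ) (by linarith) (by linarith)
  set Np := ‖S (B0 Y) (bw δ) a (R + δ)‖ with hNp
  set Nm := ‖S (B0 Y) (bw δ) a (R - δ)‖ with hNm
  have hNp0 : 0 ≤ Np := norm_nonneg _
  have hNm0 : 0 ≤ Nm := norm_nonneg _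
  have hRδ : R * δ ≤ V * √X / 32 := by
    calc R * δ ≤ (2 * X) * δ := by gcongr
      _ = 2 * (X * δ) := by ring
      _ = V * √X / 32 := by rw [hXδ]; ring
  have hδ2 : δ ^ 2 ≤ 1 := pow_le_one₀ hδ0.le hδ1
  have hR0' : 0 < R := by linarith
  have hRδ0 : 0 ≤ R * δ := by positivity
  have hVsX : 0 < V * √X := by positivity
  have hmain : |Pa a R| ≤ (1/5) * (V * √X) + 4 + 1028 * C1 + 2 * √X * Np + 2 * √X * Nm := by
    unfold Pa
    have u1 : √(R + δ) * Wa (R + δ) δ a ≤ √(R + δ) * |Wa (R + δ) δ a| := by gcongr; exact le_abs_self _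
    have u2 : -(√(R - δ) * |Wa (R - δ) δ a|) ≤ √(R - δ) * Wa (R - δ) δ a := by
      have : -|Wa (R - δ) δ a| ≤ Wa (R - δ) δ a := neg_abs_le _
      have h0 : 0 ≤ √(R - δ) := Real.sqrt_nonneg _
      nlinarith
    have u3 : Real.pi * (R + δ) ^ 2 - Real.pi * R ^ 2 ≤ (1/5) * (V * √X) + 4 := by
      have : Real.pi * (R + δ) ^ 2 - Real.pi * R ^ 2 = Real.pi * (2 * (R * δ) + δ ^ 2) := by ring
      rw [this]
      calc Real.pi * (2 * (R * δ) + δ ^ 2) ≤ 3.15 * (2 * (V * √X / 32) + 1) := by gcongr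
        _ ≤ _ := by nlinarith
    have u4 : -((1/5) * (V * √X) + 4) ≤ Real.pi * (R - δ) ^ 2 - Real.pi * R ^ 2 := by
      have : Real.pi * (R - δ) ^ 2 - Real.pi * R ^ 2 = -(Real.pi * (2 * (R * δ) - δ ^ 2)) := by ring
      rw [this]
      have : Real.pi * (2 * (R * δ) - δ ^ 2) ≤ 3.15 * (2 * (V * √X / 32)) := by
        calc Real.pi * (2 * (R * δ) - δ ^ 2) ≤ Real.pi * (2 * (R * δ)) := by
              gcongr; linarith [sq_nonneg δ]
          _ ≤ _ := by gcongr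
      nlinarith
    rw [abs_le]
    constructor
    · nlinarith [mul_nonneg (Real.sqrt_nonneg X) hNp0]
    · nlinarith [mul_nonneg (Real.sqrt_nonneg X) hNm0]
  have hVR : V * √X ≤ V * √R := by gcongr
  have hsum : V / 4 < Np + Nm := by
    have q1 : 4 + 1028 * C1 ≤ (1/10) * (V * √X) := by nlinarith
    have q2 : (7/10) * (V * √X) < 2 * √X * (Np + Nm) := by linarith
    have q3 : √X * ((7/10) * V) < √X * (2 * (Np + Nm)) := by linarith
    have q4 := lt_of_mul_lt_mul_left q3 hsq0.le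
    linarith
  -- from a large sum to a large block
  have hblock : ∀ t : ℝ, V / 8 < ‖S (B0 Y) (bw δ) a t‖ → ∃ j ∈ Finset.range J, V / (16 * J) < ‖S (sh Y j) (bw δ) a t‖ := by
    intro t ht
    by_contra hcon
    push Not at hcon
    rw [S_shells hJ] at ht
    have q1 := norm_sum_le (Finset.range J) (fun j => S (sh Y j) (bw δ) a t)
    have q2 : ∑ j ∈ Finset.range J, ‖S (sh Y j) (bw δ) a t‖ ≤ J * (V / (16 * J)) := by
      refine (Finset.sum_le_card_nsmul _ _ _ hcon).trans (le_of_eq ?_)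
      rw [Finset.card_range, nsmul_eq_mul]
    have q3 : (J:ℝ) * (V / (16 * J)) ≤ V / 16 := by
      rcases Nat.eq_zero_or_pos J with h | h
      · subst h; simp; positivity
      · have : (0:ℝ) < J := by exact_mod_cast h
        apply le_of_eq
        field_simp
    linarith
  rcases lt_or_ge (V/8) Np with hc | hc
  · obtain ⟨j, hj1, hj2⟩ := hblock _ hc
    exact ⟨j, hj1, R + δ, by linarith, by linarith, hj2⟩
  · have hc2 : V / 8 < Nm := by linarith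
    obtain ⟨j, hj1, hj2⟩ := hblock _ hc2
    exact ⟨j, hj1, R - δ, by linarith, by linarith, hj2⟩

lemma xmin {x D s : ℝ} {n : ℕ} (hx : 0 < x) (hD : 0 < D) (hs : 0 ≤ s) (hsn : s ≤ 3/2 * n) :
    x ^ s * (min 1 ((D⁻¹ * x) ^ (-(3/2):ℝ))) ^ n ≤ D ^ s := by
  have hm0 : 0 ≤ min 1 ((D⁻¹ * x) ^ (-(3/2):ℝ)) := le_min zero_le_one (by positivity)
  rcases le_total x D with h | h
  · calc x ^ s * (min 1 ((D⁻¹ * x) ^ (-(3/2):ℝ))) ^ n ≤ D ^ s * 1 ^ n := by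
          gcongr
          exact min_le_left _ _
      _ = D ^ s := by rw [one_pow, mul_one]
  · set u := D⁻¹ * x with hu
    have hu1 : 1 ≤ u := by
      rw [hu, inv_mul_eq_div, le_div_iff₀ hD]; linarith
    have hu0 : 0 < u := by linarith
    have hxu : x = D * u := by rw [hu]; field_simp
    calc x ^ s * (min 1 (u ^ (-(3/2):ℝ))) ^ n ≤ x ^ s * (u ^ (-(3/2):ℝ)) ^ n := by
          gcongr
          exact min_le_right _ _
      _ = D ^ s * u ^ (s - 3/2 * n) := by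
          rw [hxu, Real.mul_rpow hD.le hu0.le, ← Real.rpow_natCast (u ^ (-(3/2):ℝ)) n, ← Real.rpow_mul hu0.le,
            mul_assoc, ← Real.rpow_add hu0]
          congr 2; ring
      _ ≤ D ^ s * 1 := by
          gcongr
          exact Real.rpow_le_one_of_one_le_of_nonpos hu1 (by linarith)
      _ = D ^ s := mul_one _

lemma regroup {x μ W θ η : ℝ} {m : ℕ} (hx : 0 < x) :
    x * ((x ^ (-(3/2):ℝ) * μ) ^ (2 * m) * (x ^ (4 * m - 3 + η) * (1 + W * x ^ (-θ)))) =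
      μ ^ (2 * m) * (x ^ (m - 2 + η) + W * x ^ (m - 2 + η - θ)) := by
  have e1 : x * ((x ^ (-(3/2):ℝ)) ^ (2 * m) * x ^ (4 * m - 3 + η)) = x ^ (m - 2 + η) := by
    nth_rewrite 1 [← Real.rpow_one x]
    rw [← Real.rpow_natCast (x ^ (-(3/2):ℝ)) (2 * m), ← Real.rpow_mul hx.le, ← Real.rpow_add hx, ← Real.rpow_add hx]
    congr 1; push_cast; ring
  have e2 : x ^ (m - 2 + η - θ) = x ^ (m - 2 + η) * x ^ (-θ) := by rw [← Real.rpow_add hx]; rfl
  rw [e2, mul_pow, ← e1]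
  ring

/-- **Area of the set of bad centres.** -/
theorem area_bad {ε : ℝ} (hε : 0 < ε) : ∃ C C0 : ℝ, 0 < C ∧ 64 ≤ C0 ∧ ∀ X V : ℝ, C0 ≤ X → 1 ≤ V → V ≤ √X →
    volume {a : ℝ × ℝ | a ∈ Q ∧ ∃ R : ℝ, X ≤ R ∧ R ≤ 2 * X ∧ V * √R < |Pa a R|} ≤
      ENNReal.ofReal (C * (X ^ (1 + ε) * V ^ (-(28/3):ℝ))) := by
  obtain ⟨C0, hC0, hbad⟩ := Pa_bad
  set η := min (ε/4) (1/8) with hη
  have hη0 : 0 < η := lt_min (by positivity) (by norm_num)
  have hη1 : η ≤ ε/4 := min_le_left _ _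
  have hη2 : η ≤ 1/8 := min_le_right _ _
  obtain ⟨C4, hC4, h4⟩ := shell_area (m := 4) (θ := 5/2 - η) (by norm_num) (by linarith) (HE_four (by linarith)) hη0
  obtain ⟨C5, hC5, h5⟩ := shell_area (m := 5) (θ := 11/4 - η) (by norm_num) (by linarith) (HE_five (by linarith)) hη0
  obtain ⟨CJ, hCJ, hJ⟩ := shells_count 11 (ε := ε/2) (by positivity)
  set K := (C4 + C5) * 16 ^ 10 * (4100 * 64) with hK
  refine ⟨CJ * K, C0, by positivity, hC0, ?_⟩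
  intro X V hX hV hVX
  have hX64 : 64 ≤ X := by linarith
  have hX1 : 1 ≤ X := by linarith
  have hX0 : 0 < X := by linarith
  have hV0 : 0 < V := by linarith
  obtain ⟨J, hJ1, hJ2⟩ := hJ X hX1
  have hJpos : 1 ≤ J := by
    rcases Nat.eq_zero_or_pos J with h | h
    · subst h
      exfalso
      have : 0 < ⌈(4 * X) ^ 3⌉₊ := Nat.ceil_pos.mpr (by positivity)
      omega
    · exact h
  have hJr : (1:ℝ) ≤ J := by exact_mod_cast hJpos
  have hJ0 : (0:ℝ) < J := by linarith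
  have hsq : √X * √X = X := Real.mul_self_sqrt hX0.le
  have hsq1 : 1 ≤ √X := Real.one_le_sqrt.mpr hX1
  have hsq0 : 0 < √X := by linarith
  set Y := ⌈(4 * X) ^ 3⌉₊ with hY
  set D := 64 * √X / V with hD
  have hD0 : 0 < D := by positivity
  have hD1 : 1 ≤ D := by rw [hD, one_le_div hV0]; linarith
  have hδD : V / (64 * √X) = D⁻¹ := by rw [hD, inv_div]
  have hD2 : D ^ 2 = 4096 * (X / V ^ 2) := by
    rw [hD, div_pow, mul_pow, sq (√X), hsq]; ring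
  have hDX : D ≤ 64 * X := by
    rw [hD, div_le_iff₀ hV0]
    nlinarith
  have hDη : D ^ (2 * η) ≤ 64 * X ^ (ε/2) := by
    calc D ^ (2 * η) ≤ (64 * X) ^ (2 * η) := Real.rpow_le_rpow hD0.le hDX (by linarith)
      _ = 64 ^ (2 * η) * X ^ (2 * η) := Real.mul_rpow (by norm_num) hX0.le
      _ ≤ 64 ^ (1:ℝ) * X ^ (ε/2) := by
          gcongr
          · norm_num
          · linarith
          · linarith
      _ = _ := by rw [Real.rpow_one]
  have hDη1 : 1 ≤ D ^ η := Real.one_le_rpow hD1 hη0.le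
  have hDη2 : D ^ η ≤ D ^ (2 * η) := Real.rpow_le_rpow_of_exponent_le hD1 (by linarith)
  set U := X * V ^ (-(28/3):ℝ) with hU
  have hU0 : 0 < U := by positivity
  set lam := V / (16 * J) with hlam
  have hlam0 : 0 < lam := by positivity
  have hsub : {a : ℝ × ℝ | a ∈ Q ∧ ∃ R : ℝ, X ≤ R ∧ R ≤ 2 * X ∧ V * √R < |Pa a R|} ⊆
      ⋃ j ∈ Finset.range J, EB Y j D⁻¹ (X - 1) (X + 2) lam := by
    rintro a ⟨haQ, R, hR1, hR2, hR3⟩
    obtain ⟨j, hj, R', k1, k2, k3⟩ := hbad X V R J a hX hV hVX hR1 hR2 hJ1 hR3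
    rw [Set.mem_iUnion₂]
    refine ⟨j, hj, haQ, R', by linarith, by linarith, ?_⟩
    rw [← hδD]
    exact k3
  -- each block
  have hV8 : (1:ℝ) ≤ V ^ (8/3:ℝ) := Real.one_le_rpow hV (by norm_num)
  have hblk : ∀ j ∈ Finset.range J, volume (EB Y j D⁻¹ (X - 1) (X + 2) lam) ≤
      ENNReal.ofReal (K * ((J:ℝ) ^ 10 * (X ^ (ε/2) * U))) := by
    intro j _
    set x : ℝ := 2 ^ j with hx
    have hx1 : 1 ≤ x := one_le_pow₀ (by norm_num)
    have hx0 : 0 < x := by linarith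
    set μ := min 1 ((D⁻¹ * x) ^ (-(3/2):ℝ)) with hμ
    have hμ0 : 0 ≤ μ := le_min zero_le_one (by positivity)
    have hW3 : X + 2 + 1 ≤ 4 * X := by linarith
    rcases le_total (V ^ (8/3:ℝ)) x with hc | hc
    · refine (h4 Y j D⁻¹ (X - 1) (X + 2) lam (by positivity) (by linarith) hlam0).trans (ENNReal.ofReal_le_ofReal ?_)
      rw [← hx, ← hμ, regroup hx0]
      -- powers of x
      have a1 : μ ^ (2 * 4) * x ^ (((4:ℕ):ℝ) - 2 + η) ≤ D ^ 2 * D ^ (2 * η) := by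
        have := xmin (n := 2 * 4) hx0 hD0 (s := ((4:ℕ):ℝ) - 2 + η) (by push_cast; linarith) (by push_cast; linarith)
        rw [← hμ] at this
        calc μ ^ (2 * 4) * x ^ (((4:ℕ):ℝ) - 2 + η) = x ^ (((4:ℕ):ℝ) - 2 + η) * μ ^ (2 * 4) := by ring
          _ ≤ D ^ (((4:ℕ):ℝ) - 2 + η) := this
          _ = D ^ 2 * D ^ η := by
              rw [← Real.rpow_natCast D 2, ← Real.rpow_add hD0]; congr 1; push_cast; ring
          _ ≤ _ := by gcongr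
      have a2 : μ ^ (2 * 4) * x ^ (((4:ℕ):ℝ) - 2 + η - (5/2 - η)) ≤ V ^ (-(4/3):ℝ) * D ^ (2 * η) := by
        have h1 := xmin (n := 2 * 4) hx0 hD0 (s := 2 * η) (by linarith) (by push_cast; linarith)
        rw [← hμ] at h1
        have h2 : x ^ (-(1/2):ℝ) ≤ V ^ (-(4/3):ℝ) := by
          calc x ^ (-(1/2):ℝ) ≤ (V ^ (8/3:ℝ)) ^ (-(1/2):ℝ) := Real.rpow_le_rpow_of_nonpos (by positivity) hc (by norm_num)
            _ = V ^ (-(4/3):ℝ) := by rw [← Real.rpow_mul hV0.le]; norm_num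
        calc μ ^ (2 * 4) * x ^ (((4:ℕ):ℝ) - 2 + η - (5/2 - η)) = x ^ (-(1/2):ℝ) * (x ^ (2 * η) * μ ^ (2 * 4)) := by
              have : x ^ (((4:ℕ):ℝ) - 2 + η - (5/2 - η)) = x ^ (-(1/2):ℝ) * x ^ (2 * η) := by
                rw [← Real.rpow_add hx0]; congr 1; push_cast; ring
              rw [this]; ring
          _ ≤ V ^ (-(4/3):ℝ) * D ^ (2 * η) := by gcongr
      have a3 : (lam ^ (2 * 4))⁻¹ = 16 ^ 8 * (J:ℝ) ^ 8 * (V ^ 8)⁻¹ := by
        rw [hlam, div_pow, inv_div, mul_pow, div_eq_mul_inv]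
      have b1 : (V ^ 8)⁻¹ * D ^ 2 ≤ 4096 * U := by
        rw [hD2, hU]
        have : (V ^ 8)⁻¹ * (4096 * (X / V ^ 2)) = 4096 * (X * V ^ (-10:ℝ)) := by
          have e : V ^ (-10:ℝ) = (V ^ 8)⁻¹ * (V ^ 2)⁻¹ := by
            rw [← mul_inv, ← pow_add, Real.rpow_neg hV0.le]
            congr 1
            rw [← Real.rpow_natCast]; norm_num
          rw [e]; ring
        rw [this]
        gcongr
        norm_num
      have b2 : (V ^ 8)⁻¹ * V ^ (-(4/3):ℝ) = V ^ (-(28/3):ℝ) := by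
        rw [← Real.rpow_natCast V 8, ← Real.rpow_neg hV0.le, ← Real.rpow_add hV0]; norm_num
      calc C4 * ((lam ^ (2 * 4))⁻¹ * (μ ^ (2 * 4) * (x ^ (((4:ℕ):ℝ) - 2 + η) + (X + 2 + 1) * x ^ (((4:ℕ):ℝ) - 2 + η - (5/2 - η)))))
          = C4 * (16 ^ 8 * (J:ℝ) ^ 8 * (V ^ 8)⁻¹ * (μ ^ (2 * 4) * x ^ (((4:ℕ):ℝ) - 2 + η) +
              (X + 2 + 1) * (μ ^ (2 * 4) * x ^ (((4:ℕ):ℝ) - 2 + η - (5/2 - η))))) := by rw [a3]; ring
        _ ≤ C4 * (16 ^ 8 * (J:ℝ) ^ 8 * (V ^ 8)⁻¹ * (D ^ 2 * D ^ (2 * η) +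
              (4 * X) * (V ^ (-(4/3):ℝ) * D ^ (2 * η)))) := by gcongr
        _ = C4 * 16 ^ 8 * (J:ℝ) ^ 8 * D ^ (2 * η) * ((V ^ 8)⁻¹ * D ^ 2 + 4 * (X * ((V ^ 8)⁻¹ * V ^ (-(4/3):ℝ)))) := by ring
        _ ≤ C4 * 16 ^ 8 * (J:ℝ) ^ 8 * (64 * X ^ (ε/2)) * (4096 * U + 4 * U) := by
            rw [b2, ← hU]
            gcongr
        _ = (C4 * 16 ^ 8 * (4100 * 64)) * ((J:ℝ) ^ 8 * (X ^ (ε/2) * U)) := by ring
        _ ≤ K * ((J:ℝ) ^ 10 * (X ^ (ε/2) * U)) := by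
            have c1 : (J:ℝ) ^ 8 ≤ (J:ℝ) ^ 10 := pow_le_pow_right₀ hJr (by norm_num)
            have c2 : C4 * 16 ^ 8 * (4100 * 64) ≤ K := by
              rw [hK]
              nlinarith
            gcongr
    · refine (h5 Y j D⁻¹ (X - 1) (X + 2) lam (by positivity) (by linarith) hlam0).trans (ENNReal.ofReal_le_ofReal ?_)
      rw [← hx, ← hμ, regroup hx0]
      have a1 : μ ^ (2 * 5) * x ^ (((5:ℕ):ℝ) - 2 + η) ≤ V ^ (8/3:ℝ) * (D ^ 2 * D ^ (2 * η)) := by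
        have := xmin (n := 2 * 5) hx0 hD0 (s := 2 + η) (by linarith) (by push_cast; linarith)
        rw [← hμ] at this
        calc μ ^ (2 * 5) * x ^ (((5:ℕ):ℝ) - 2 + η) = x * (x ^ (2 + η) * μ ^ (2 * 5)) := by
              have : x ^ (((5:ℕ):ℝ) - 2 + η) = x * x ^ (2 + η) := by
                nth_rewrite 2 [← Real.rpow_one x]
                rw [← Real.rpow_add hx0]; congr 1; push_cast; ring
              rw [this]; ring
          _ ≤ V ^ (8/3:ℝ) * D ^ (2 + η) := by gcongr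
          _ = V ^ (8/3:ℝ) * (D ^ 2 * D ^ η) := by
              rw [← Real.rpow_natCast D 2, ← Real.rpow_add hD0]; norm_num
          _ ≤ _ := by gcongr
      have a2 : μ ^ (2 * 5) * x ^ (((5:ℕ):ℝ) - 2 + η - (11/4 - η)) ≤ V ^ (2/3:ℝ) * D ^ (2 * η) := by
        have h1 := xmin (n := 2 * 5) hx0 hD0 (s := 2 * η) (by linarith) (by push_cast; linarith)
        rw [← hμ] at h1
        have h2 : x ^ (1/4:ℝ) ≤ V ^ (2/3:ℝ) := by
          calc x ^ (1/4:ℝ) ≤ (V ^ (8/3:ℝ)) ^ (1/4:ℝ) := Real.rpow_le_rpow hx0.le hc (by norm_num)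
            _ = V ^ (2/3:ℝ) := by rw [← Real.rpow_mul hV0.le]; norm_num
        calc μ ^ (2 * 5) * x ^ (((5:ℕ):ℝ) - 2 + η - (11/4 - η)) = x ^ (1/4:ℝ) * (x ^ (2 * η) * μ ^ (2 * 5)) := by
              have : x ^ (((5:ℕ):ℝ) - 2 + η - (11/4 - η)) = x ^ (1/4:ℝ) * x ^ (2 * η) := by
                rw [← Real.rpow_add hx0]; congr 1; push_cast; ring
              rw [this]; ring
          _ ≤ V ^ (2/3:ℝ) * D ^ (2 * η) := by gcongr
      have a3 : (lam ^ (2 * 5))⁻¹ = 16 ^ 10 * (J:ℝ) ^ 10 * (V ^ 10)⁻¹ := by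
        rw [hlam, div_pow, inv_div, mul_pow, div_eq_mul_inv]
      have b1 : (V ^ 10)⁻¹ * (V ^ (8/3:ℝ) * D ^ 2) = 4096 * U := by
        rw [hD2, hU]
        have e : V ^ (-(28/3):ℝ) = (V ^ 10)⁻¹ * V ^ (8/3:ℝ) * (V ^ 2)⁻¹ := by
          rw [← Real.rpow_natCast V 10, ← Real.rpow_natCast V 2, ← Real.rpow_neg hV0.le, ← Real.rpow_neg hV0.le,
            ← Real.rpow_add hV0, ← Real.rpow_add hV0]
          norm_num
        rw [e]; ring
      have b2 : (V ^ 10)⁻¹ * V ^ (2/3:ℝ) = V ^ (-(28/3):ℝ) := by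
        rw [← Real.rpow_natCast V 10, ← Real.rpow_neg hV0.le, ← Real.rpow_add hV0]; norm_num
      calc C5 * ((lam ^ (2 * 5))⁻¹ * (μ ^ (2 * 5) * (x ^ (((5:ℕ):ℝ) - 2 + η) + (X + 2 + 1) * x ^ (((5:ℕ):ℝ) - 2 + η - (11/4 - η)))))
          = C5 * (16 ^ 10 * (J:ℝ) ^ 10 * (V ^ 10)⁻¹ * (μ ^ (2 * 5) * x ^ (((5:ℕ):ℝ) - 2 + η) +
              (X + 2 + 1) * (μ ^ (2 * 5) * x ^ (((5:ℕ):ℝ) - 2 + η - (11/4 - η))))) := by rw [a3]; ring
        _ ≤ C5 * (16 ^ 10 * (J:ℝ) ^ 10 * (V ^ 10)⁻¹ * (V ^ (8/3:ℝ) * (D ^ 2 * D ^ (2 * η)) +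
              (4 * X) * (V ^ (2/3:ℝ) * D ^ (2 * η)))) := by gcongr
        _ = C5 * 16 ^ 10 * (J:ℝ) ^ 10 * D ^ (2 * η) * ((V ^ 10)⁻¹ * (V ^ (8/3:ℝ) * D ^ 2) + 4 * (X * ((V ^ 10)⁻¹ * V ^ (2/3:ℝ)))) := by ring
        _ ≤ C5 * 16 ^ 10 * (J:ℝ) ^ 10 * (64 * X ^ (ε/2)) * (4096 * U + 4 * U) := by
            rw [b1, b2, ← hU]
            gcongr
        _ = (C5 * 16 ^ 10 * (4100 * 64)) * ((J:ℝ) ^ 10 * (X ^ (ε/2) * U)) := by ring
        _ ≤ K * ((J:ℝ) ^ 10 * (X ^ (ε/2) * U)) := by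
            have c2 : C5 * 16 ^ 10 * (4100 * 64) ≤ K := by
              rw [hK]
              nlinarith
            gcongr
  calc volume {a : ℝ × ℝ | a ∈ Q ∧ ∃ R : ℝ, X ≤ R ∧ R ≤ 2 * X ∧ V * √R < |Pa a R|}
      ≤ volume (⋃ j ∈ Finset.range J, EB Y j D⁻¹ (X - 1) (X + 2) lam) := measure_mono hsub
    _ ≤ ∑ j ∈ Finset.range J, volume (EB Y j D⁻¹ (X - 1) (X + 2) lam) := measure_biUnion_finset_le _ _
    _ ≤ ENNReal.ofReal (J:ℝ) * ENNReal.ofReal (K * ((J:ℝ) ^ 10 * (X ^ (ε/2) * U))) := by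
        refine (Finset.sum_le_card_nsmul _ _ _ hblk).trans (le_of_eq ?_)
        rw [Finset.card_range, nsmul_eq_mul, ENNReal.ofReal_natCast]
    _ = ENNReal.ofReal (K * ((J:ℝ) ^ 11 * (X ^ (ε/2) * U))) := by
        rw [← ENNReal.ofReal_mul (by positivity)]
        congr 1; ring
    _ ≤ _ := by
        apply ENNReal.ofReal_le_ofReal
        have e1 : X ^ (ε/2) * X ^ (ε/2) * X = X ^ (1 + ε) := by
          nth_rewrite 3 [← Real.rpow_one X]
          rw [← Real.rpow_add hX0, ← Real.rpow_add hX0]; congr 1; ring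
        calc K * ((J:ℝ) ^ 11 * (X ^ (ε/2) * U)) ≤ K * ((CJ * X ^ (ε/2)) * (X ^ (ε/2) * U)) := by gcongr
          _ = CJ * K * ((X ^ (ε/2) * X ^ (ε/2) * X) * V ^ (-(28/3):ℝ)) := by rw [hU]; ring
          _ = _ := by rw [e1]

end Pool.Agent.H593.U
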