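import Mathlib
import Pool.Agent.H593.U6.F2

/-!
# Almost every centre
-/

open MeasureTheory Set Filter Topology
open Pool.Agent.H383.Gauss
open scoped ENNReal

namespace Pool.Agent.H593.U

/-- a linear bound for the error term -/
lemma Pa_lin : ∃ C : ℝ, 1 ≤ C ∧ ∀ (a : ℝ × ℝ) (R : ℝ), 1 ≤ R → |Pa a R| ≤ C * R := by
  obtain ⟨C2, hC2, h2⟩ := abs_Wa_le
  refine ⟨4 + 6 * C2, by linarith, ?_⟩
  intro a R hR
  have hR0 : 0 < R := by linarith
  have hpi := Real.pi_gt_three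
  have hpi2 := Real.pi_lt_d2
  have k1 := Na_le_W a (R := R) (δ := 1/2) (by linarith) (by norm_num)
  have k2 := le_Na_W a (R := R) (δ := 1/2) (by norm_num) (by linarith)
  have e : (1/2:ℝ) ^ (-(3/2):ℝ) ≤ 3 := by
    have e : (1/2:ℝ) ^ (-(3/2):ℝ) = 2 ^ (3/2:ℝ) := by
      rw [one_div, Real.inv_rpow (by norm_num), ← Real.rpow_neg (by norm_num)]; norm_num
    rw [e]
    have h9 : ((2:ℝ) ^ (3/2:ℝ)) ^ 2 = 8 := by
      rw [← Real.rpow_natCast, ← Real.rpow_mul (by norm_num)]; norm_num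
    nlinarith [Real.rpow_pos_of_pos (by norm_num : (0:ℝ) < 2) (3/2:ℝ)]
  have hW : ∀ R' : ℝ, 0 < R' → R' ≤ 2 * R → √R' * |Wa R' (1/2) a| ≤ 6 * C2 * R := by
    intro R' h0 h1
    have k3 := h2 R' (1/2) a h0 (by norm_num)
    have k4 : √R' ≤ 2 * R := by
      rw [Real.sqrt_le_left (by positivity)]
      nlinarith
    calc √R' * |Wa R' (1/2) a| ≤ (2 * R) * (C2 * 3) := by
          gcongr
          exact k3.trans (by gcongr)
      _ = _ := by ring
  have w1 := hW (R + 1/2) (by linarith) (by linarith)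
  have w2 := hW (R - 1/2) (by linarith) (by linarith)
  have u1 : √(R + 1/2) * Wa (R + 1/2) (1/2) a ≤ √(R + 1/2) * |Wa (R + 1/2) (1/2) a| := by gcongr; exact le_abs_self _
  have u2 : -(√(R - 1/2) * |Wa (R - 1/2) (1/2) a|) ≤ √(R - 1/2) * Wa (R - 1/2) (1/2) a := by
    have : -|Wa (R - 1/2) (1/2) a| ≤ Wa (R - 1/2) (1/2) a := neg_abs_le _
    have h0 : 0 ≤ √(R - 1/2) := Real.sqrt_nonneg _
    nlinarith
  unfold Pa
  rw [abs_le]
  constructor <;> nlinarith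

/-- **Area of the set of bad centres**, all parameters. -/
theorem area_all {ε : ℝ} (hε : 0 < ε) : ∃ C : ℝ, 0 < C ∧ ∀ X V : ℝ, 1 ≤ X → 0 < V →
    volume {a : ℝ × ℝ | a ∈ Q ∧ ∃ R : ℝ, X ≤ R ∧ R ≤ 2 * X ∧ V * √R < |Pa a R|} ≤
      ENNReal.ofReal (C * (X ^ (1 + ε) * V ^ (-(28/3):ℝ))) := by
  obtain ⟨C1, C0, hC1, hC0, h1⟩ := area_bad hε
  obtain ⟨CL, hCL, hL⟩ := Pa_lin
  have hC00 : 0 < C0 := by linarith
  set K1 := (CL * √(2 * C0)) ^ (28/3:ℝ) with hK1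
  set K2 := (CL * √2) ^ (28/3:ℝ) with hK2
  have hK10 : 0 < K1 := by positivity
  have hK20 : 0 < K2 := by positivity
  refine ⟨1 + C1 + K1 + C1 * K2, by positivity, ?_⟩
  intro X V hX hV
  have hX0 : 0 < X := by linarith
  have hXe : 1 ≤ X ^ (1 + ε) := Real.one_le_rpow hX (by linarith)
  have hVe : 0 < V ^ (-(28/3):ℝ) := by positivity
  set S := {a : ℝ × ℝ | a ∈ Q ∧ ∃ R : ℝ, X ≤ R ∧ R ≤ 2 * X ∧ V * √R < |Pa a R|} with hS
  have hSQ : volume S ≤ 1 := by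
    rw [← volume_Q]
    exact measure_mono (fun a ha => ha.1)
  rcases le_or_gt V 1 with hV1 | hV1
  · refine hSQ.trans ?_
    rw [← ENNReal.ofReal_one]
    apply ENNReal.ofReal_le_ofReal
    have h2 : 1 ≤ V ^ (-(28/3):ℝ) := Real.one_le_rpow_of_pos_of_le_one_of_nonpos hV hV1 (by norm_num)
    calc (1:ℝ) = 1 * (1 * 1) := by norm_num
      _ ≤ (1 + C1 + K1 + C1 * K2) * (X ^ (1 + ε) * V ^ (-(28/3):ℝ)) := by
          gcongr
          have : 0 < C1 * K2 := by positivity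
          linarith
  rcases lt_or_ge (CL * √(2 * X)) V with hVb | hVb
  · have : S = ∅ := by
      rw [Set.eq_empty_iff_forall_notMem]
      rintro a ⟨-, R, hR1, hR2, hR3⟩
      have hR : 1 ≤ R := by linarith
      have hR0 : 0 < R := by linarith
      have k1 := hL a R hR
      have k2 : √R ≤ √(2 * X) := Real.sqrt_le_sqrt hR2
      have k3 : R = √R * √R := (Real.mul_self_sqrt hR0.le).symm
      have k4 : 0 < √R := Real.sqrt_pos.mpr hR0
      have k5 : V * √R < CL * √R * √R := by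
        calc V * √R < |Pa a R| := hR3
          _ ≤ CL * R := k1
          _ = CL * √R * √R := by nth_rewrite 1 [k3]; ring
      have k6 : V < CL * √R := lt_of_mul_lt_mul_right k5 k4.le
      have k7 : CL * √R ≤ CL * √(2 * X) := by gcongr
      linarith
    rw [this, measure_empty]
    exact zero_le
  rcases lt_or_ge X C0 with hXC | hXC
  · refine hSQ.trans ?_
    rw [← ENNReal.ofReal_one]
    apply ENNReal.ofReal_le_ofReal
    have h3 : V ≤ CL * √(2 * C0) := by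
      refine hVb.trans ?_
      gcongr
    have h4 : 1 ≤ K1 * V ^ (-(28/3):ℝ) := by
      rw [Real.rpow_neg hV.le, hK1, ← div_eq_mul_inv, one_le_div (by positivity)]
      exact Real.rpow_le_rpow hV.le h3 (by norm_num)
    calc (1:ℝ) ≤ K1 * V ^ (-(28/3):ℝ) := h4
      _ = K1 * (1 * V ^ (-(28/3):ℝ)) := by ring
      _ ≤ (1 + C1 + K1 + C1 * K2) * (X ^ (1 + ε) * V ^ (-(28/3):ℝ)) := by
          gcongr
          have : 0 < C1 * K2 := by positivity
          linarith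
  rcases le_or_gt V (√X) with hVX | hVX
  · refine (h1 X V hXC hV1.le hVX).trans (ENNReal.ofReal_le_ofReal ?_)
    gcongr
    have : 0 < C1 * K2 := by positivity
    linarith
  · have hsX1 : 1 ≤ √X := Real.one_le_sqrt.mpr hX
    have hsX0 : 0 < √X := by linarith
    have hsub : S ⊆ {a : ℝ × ℝ | a ∈ Q ∧ ∃ R : ℝ, X ≤ R ∧ R ≤ 2 * X ∧ √X * √R < |Pa a R|} := by
      rintro a ⟨haQ, R, hR1, hR2, hR3⟩
      refine ⟨haQ, R, hR1, hR2, lt_of_le_of_lt ?_ hR3⟩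
      gcongr
    refine (measure_mono hsub).trans ((h1 X (√X) hXC hsX1 le_rfl).trans (ENNReal.ofReal_le_ofReal ?_))
    have h5 : (√X) ^ (-(28/3):ℝ) ≤ K2 * V ^ (-(28/3):ℝ) := by
      rw [Real.rpow_neg hV.le, Real.rpow_neg hsX0.le, ← div_eq_mul_inv, inv_le_comm₀ (by positivity) (by positivity), inv_div,
        div_le_iff₀ hK20, hK2, ← Real.mul_rpow hsX0.le (by positivity)]
      apply Real.rpow_le_rpow hV.le _ (by norm_num)
      refine hVb.trans (le_of_eq ?_)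
      rw [Real.sqrt_mul (by norm_num)]
      ring
    calc C1 * (X ^ (1 + ε) * (√X) ^ (-(28/3):ℝ)) ≤ C1 * (X ^ (1 + ε) * (K2 * V ^ (-(28/3):ℝ))) := by gcongr
      _ = (C1 * K2) * (X ^ (1 + ε) * V ^ (-(28/3):ℝ)) := by ring
      _ ≤ _ := by
          gcongr
          linarith

lemma d2_add (p q : ℤ × ℤ) (a : ℝ × ℝ) : d2 (p + q) (a + zc q) = d2 p a := by
  unfold d2 zc
  simp only [Prod.fst_add, Prod.snd_add]
  push_cast
  ring

/-- periodicity of the error term -/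
lemma Pa_periodic (a : ℝ × ℝ) (q : ℤ × ℤ) (R : ℝ) : Pa (a + zc q) R = Pa a R := by
  have h : Na (a + zc q) R = Na a R := by
    unfold Na
    congr 1
    apply Nat.card_congr
    refine (Equiv.subtypeEquiv (Equiv.addRight q) ?_).symm
    intro p
    have := d2_add p q a
    unfold d2 at this
    simp only [Equiv.coe_addRight]
    rw [this]
  unfold Pa
  rw [h]

/-- the good centres -/
def GoodC (a : ℝ × ℝ) : Prop := ∀ ε : ℝ, 0 < ε → ∃ C : ℝ, ∀ R : ℝ, 1 ≤ R → |Pa a R| ≤ C * R ^ (17/28 + ε)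

/-- one exponent, centres in the unit square -/
lemma ae_one {ε : ℝ} (hε : 0 < ε) : ∀ᵐ a : ℝ × ℝ, a ∈ Q → ∃ C : ℝ, ∀ R : ℝ, 1 ≤ R → |Pa a R| ≤ C * R ^ (17/28 + ε) := by
  obtain ⟨C, hC, h⟩ := area_all hε
  obtain ⟨CL, hCL, hL⟩ := Pa_lin
  set s : ℕ → Set (ℝ × ℝ) := fun n => {a : ℝ × ℝ | a ∈ Q ∧ ∃ R : ℝ, (2:ℝ) ^ n ≤ R ∧ R ≤ 2 * 2 ^ n ∧
    ((2:ℝ) ^ n) ^ (3/28 + ε) * √R < |Pa a R|} with hs
  have h2 : ∀ n, volume (s n) ≤ ENNReal.ofReal (C * ((2:ℝ) ^ (-(25/3 * ε):ℝ)) ^ n) := by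
    intro n
    have hx1 : (1:ℝ) ≤ 2 ^ n := one_le_pow₀ (by norm_num)
    have hx0 : (0:ℝ) < 2 ^ n := by linarith
    refine (h (2 ^ n) (((2:ℝ) ^ n) ^ (3/28 + ε)) hx1 (by positivity)).trans (ENNReal.ofReal_le_ofReal ?_)
    gcongr
    apply le_of_eq
    rw [← Real.rpow_mul hx0.le, ← Real.rpow_add hx0, ← Real.rpow_natCast 2 n, ← Real.rpow_mul (by norm_num),
      ← Real.rpow_natCast _ n, ← Real.rpow_mul (by norm_num)]
    congr 1
    ring
  have hr1 : (2:ℝ) ^ (-(25/3 * ε):ℝ) < 1 := Real.rpow_lt_one_of_one_lt_of_neg (by norm_num) (by linarith)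
  have hr0 : 0 ≤ (2:ℝ) ^ (-(25/3 * ε):ℝ) := by positivity
  have hsum : ∑' n, volume (s n) ≠ ∞ := by
    have h3 : Summable (fun n : ℕ => C * ((2:ℝ) ^ (-(25/3 * ε):ℝ)) ^ n) :=
      (summable_geometric_of_lt_one hr0 hr1).mul_left C
    have h4 : ∑' n, volume (s n) ≤ ENNReal.ofReal (∑' n : ℕ, C * ((2:ℝ) ^ (-(25/3 * ε):ℝ)) ^ n) := by
      rw [ENNReal.ofReal_tsum_of_nonneg (fun n => by positivity) h3]
      exact ENNReal.tsum_le_tsum h2
    exact ne_top_of_le_ne_top ENNReal.ofReal_ne_top h4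
  filter_upwards [ae_eventually_notMem hsum] with a ha haQ
  rw [eventually_atTop] at ha
  obtain ⟨n0, hn0⟩ := ha
  refine ⟨1 + CL * 2 ^ n0, ?_⟩
  intro R hR
  have hR0 : 0 < R := by linarith
  have hRe : 1 ≤ R ^ (17/28 + ε) := Real.one_le_rpow hR (by linarith)
  rcases lt_or_ge R (2 ^ n0) with hc | hc
  · calc |Pa a R| ≤ CL * R := hL a R hR
      _ ≤ CL * 2 ^ n0 * 1 := by rw [mul_one]; gcongr
      _ ≤ (1 + CL * 2 ^ n0) * R ^ (17/28 + ε) := by gcongr; linarith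
  · -- dyadic scale
    set n := Nat.log 2 ⌊R⌋₊ with hn
    have hfl : ⌊R⌋₊ ≠ 0 := by
      have := Nat.floor_pos.mpr hR
      omega
    have k1 : (2:ℝ) ^ n ≤ R := by
      have k1 : 2 ^ n ≤ ⌊R⌋₊ := Nat.pow_log_le_self 2 hfl
      have k2 : ((2 ^ n : ℕ) : ℝ) ≤ (⌊R⌋₊ : ℝ) := by exact_mod_cast k1
      push_cast at k2
      exact k2.trans (Nat.floor_le hR0.le)
    have k2 : R ≤ 2 * 2 ^ n := by
      have q1 : ⌊R⌋₊ < 2 ^ (n + 1) := Nat.lt_pow_succ_log_self (by norm_num) _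
      have q2 : ((⌊R⌋₊ + 1 : ℕ) : ℝ) ≤ ((2 ^ (n + 1) : ℕ) : ℝ) := by exact_mod_cast q1
      push_cast at q2
      have := (Nat.lt_floor_add_one R).le.trans q2
      rw [pow_succ] at this
      linarith
    have k3 : n0 ≤ n := by
      have q1 : 2 ^ n0 ≤ ⌊R⌋₊ := by
        apply Nat.le_floor
        push_cast
        exact hc
      rw [hn]
      exact Nat.le_log_of_pow_le (by norm_num) q1
    have k4 := hn0 n k3
    have k5 : |Pa a R| ≤ ((2:ℝ) ^ n) ^ (3/28 + ε) * √R := by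
      by_contra hcon
      push Not at hcon
      exact k4 ⟨haQ, R, k1, k2, hcon⟩
    have hx0 : (0:ℝ) < 2 ^ n := by positivity
    calc |Pa a R| ≤ ((2:ℝ) ^ n) ^ (3/28 + ε) * √R := k5
      _ ≤ R ^ (3/28 + ε) * √R := by gcongr
      _ = R ^ (17/28 + ε) := by
          rw [Real.sqrt_eq_rpow, ← Real.rpow_add hR0]; congr 1; ring
      _ = 1 * R ^ (17/28 + ε) := (one_mul _).symm
      _ ≤ (1 + CL * 2 ^ n0) * R ^ (17/28 + ε) := by
          gcongr
          have : 0 < CL * 2 ^ n0 := by positivity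
          linarith

/-- **Almost every centre is good.** -/
theorem ae_good : ∀ᵐ a : ℝ × ℝ, GoodC a := by
  -- centres in the unit square
  have h1 : ∀ᵐ a : ℝ × ℝ, a ∈ Q → GoodC a := by
    have h2 : ∀ᵐ a : ℝ × ℝ, ∀ k : ℕ, a ∈ Q → ∃ C : ℝ, ∀ R : ℝ, 1 ≤ R → |Pa a R| ≤ C * R ^ (17/28 + 1/((k:ℝ)+1)) := by
      rw [ae_all_iff]
      intro k
      exact ae_one (by positivity)
    filter_upwards [h2] with a ha haQ
    intro ε hε
    obtain ⟨k, hk⟩ := exists_nat_one_div_lt hε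
    obtain ⟨C, hC⟩ := ha k haQ
    refine ⟨max C 0, ?_⟩
    intro R hR
    refine (hC R hR).trans ?_
    have h3 : R ^ (17/28 + 1/((k:ℝ)+1)) ≤ R ^ (17/28 + ε) := Real.rpow_le_rpow_of_exponent_le hR (by linarith)
    have hR0 : 0 < R := by linarith
    calc C * R ^ (17/28 + 1/((k:ℝ)+1)) ≤ max C 0 * R ^ (17/28 + 1/((k:ℝ)+1)) := by
          gcongr
          exact le_max_left _ _
      _ ≤ _ := by gcongr
  -- all centres
  set N : Set (ℝ × ℝ) := {a | ¬ GoodC a} with hN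
  have hNQ : volume (N ∩ Q) = 0 := by
    have h2 : volume {a : ℝ × ℝ | ¬ (a ∈ Q → GoodC a)} = 0 := h1
    refine measure_mono_null ?_ h2
    rintro a ⟨ha1, ha2⟩ h3
    exact ha1 (h3 ha2)
  have hinv : ∀ (a : ℝ × ℝ) (q : ℤ × ℤ), GoodC (a + zc q) ↔ GoodC a := by
    intro a q
    unfold GoodC
    simp only [Pa_periodic]
  have hcov : N ⊆ ⋃ q : ℤ × ℤ, (fun a => a + zc q) ⁻¹' (N ∩ Q) := by
    intro a ha
    rw [Set.mem_iUnion]
    refine ⟨(-⌊a.1⌋, -⌊a.2⌋), ?_, ?_⟩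
    · intro h3
      exact ha ((hinv a _).mp h3)
    · exact (mem_Q_iff a _).mpr rfl
  have hnull : volume N = 0 := by
    refine measure_mono_null hcov ?_
    rw [measure_iUnion_null_iff]
    intro q
    rw [measure_preimage_add_right]
    exact hNQ
  exact hnull

end Pool.Agent.H593.U
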